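import Pool.Agent.Lib.MP_52aaf2_al.Poly.PStm

open Polynomial

namespace MP52poly

theorem p_A1 : S_A1 := by
  classical
  intro F hF
  constructor
  · intro h
    have hodd : ∀ x, ¬ Odd (F.rootMultiplicity x) := by
      intro x hx
      have : x ∈ OddR F := mem_OddR.2 ⟨hF, hx⟩
      rw [h] at this
      exact absurd this (Finset.notMem_empty x)
    have hprod : F = C F.leadingCoeff *
        ∏ x ∈ F.roots.toFinset, (X - C x) ^ (F.rootMultiplicity x) := by
      have h1 := (IsAlgClosed.splits F).eq_prod_roots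
      rw [Finset.prod_multiset_map_count] at h1
      simp only [count_roots] at h1
      exact h1
    obtain ⟨s, hs⟩ := IsAlgClosed.exists_pow_nat_eq F.leadingCoeff (n := 2) (by norm_num)
    refine ⟨C s * ∏ x ∈ F.roots.toFinset, (X - C x) ^ (F.rootMultiplicity x / 2), ?_⟩
    rw [mul_pow, ← C_pow, hs, ← Finset.prod_pow]
    have h2 : ∏ x ∈ F.roots.toFinset, ((X - C x) ^ (F.rootMultiplicity x / 2)) ^ 2 =
        ∏ x ∈ F.roots.toFinset, (X - C x) ^ (F.rootMultiplicity x) := by
      refine Finset.prod_congr rfl fun x _ => ?_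
      rw [← pow_mul, Nat.div_mul_cancel (even_iff_two_dvd.1 (Nat.not_odd_iff_even.1 (hodd x)))]
    rw [h2]
    exact hprod
  · rintro ⟨G, hG⟩
    rw [Finset.eq_empty_iff_forall_notMem]
    intro x hx
    have h1 := (mem_OddR.1 hx).2
    have hne : G * G ≠ 0 := by
      rw [← pow_two, ← hG]
      exact hF
    rw [hG, pow_two, rootMultiplicity_mul hne] at h1
    exact (Nat.not_odd_iff_even.2 (Even.add_self _)) h1

end MP52poly
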