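import Pool.Agent.Lib.MP_52aaf2_al.Poly.PStm

open Polynomial

namespace MP52poly

private lemma a10_comp_deg {A β : ℂ[X]} (hA : A.Monic) (hβ : 0 < β.natDegree) :
    (A.comp β).natDegree = A.natDegree * β.natDegree ∧
      (A.comp β).leadingCoeff = β.leadingCoeff ^ A.natDegree := by
  refine ⟨natDegree_comp, ?_⟩
  rw [leadingCoeff_comp hβ.ne', hA.leadingCoeff, one_mul]

theorem p_A10 (h8 : S_A8) (h9 : S_A9) : S_A10 := by
  intro β β₁ E E₁ Y Y₁ a hβ hβ₁ hY hev hne ha hE hE₁ hdE hdE₁ h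
  obtain ⟨A, B, hA, hAY, hB, hBA, hAB⟩ := h8 Y hev hne
  have hne₁ : Y₁.Nonempty := by
    rw [← Finset.card_pos, hY]
    exact Finset.card_pos.2 hne
  obtain ⟨A₁, B₁, hA₁, hAY₁, hB₁, hBA₁, hAB₁⟩ := h8 Y₁ (by rw [hY]; exact hev) hne₁
  have hAA : A₁.natDegree = A.natDegree := by omega
  have hβ₁0 : 0 < β₁.natDegree := by omega
  have hE0 : E ≠ 0 := hE.ne_zero
  have hE₁0 : E₁ ≠ 0 := hE₁.ne_zero
  have hlc : β.leadingCoeff ≠ 0 := by
    rw [Ne, leadingCoeff_eq_zero]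
    rintro rfl
    simp at hβ
  have hlc₁ : β₁.leadingCoeff ≠ 0 := by
    rw [Ne, leadingCoeff_eq_zero]
    rintro rfl
    simp at hβ₁0
  have hmP : (∏ y ∈ Y, (X - C y)).Monic := monic_prod_of_monic _ _ (fun y _ => monic_X_sub_C y)
  have hmP₁ : (∏ y ∈ Y₁, (X - C y)).Monic := monic_prod_of_monic _ _ (fun y _ => monic_X_sub_C y)
  have hdP : (∏ y ∈ Y, (X - C y)).natDegree = Y.card := by
    rw [natDegree_prod_of_monic _ _ (fun y _ => monic_X_sub_C y)]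
    simp
  have hdP₁ : (∏ y ∈ Y₁, (X - C y)).natDegree = Y.card := by
    rw [natDegree_prod_of_monic _ _ (fun y _ => monic_X_sub_C y)]
    simp [hY]
  obtain ⟨dP, lP⟩ := a10_comp_deg hmP hβ
  obtain ⟨dP₁, lP₁⟩ := a10_comp_deg hmP₁ hβ₁0
  obtain ⟨dA, lA⟩ := a10_comp_deg hA hβ
  obtain ⟨dA₁, lA₁⟩ := a10_comp_deg hA₁ hβ₁0
  rw [hdP] at dP lP
  rw [hdP₁] at dP₁ lP₁
  rw [hβ₁] at dP₁ dA₁
  rw [hAA] at lA₁ dA₁
  have hP0 : (∏ y ∈ Y, (X - C y)).comp β ≠ 0 := by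
    rw [← leadingCoeff_ne_zero, lP]
    exact pow_ne_zero _ hlc
  have hP₁0 : (∏ y ∈ Y₁, (X - C y)).comp β₁ ≠ 0 := by
    rw [← leadingCoeff_ne_zero, lP₁]
    exact pow_ne_zero _ hlc₁
  have hA0 : A.comp β ≠ 0 := by
    rw [← leadingCoeff_ne_zero, lA]
    exact pow_ne_zero _ hlc
  have hA₁0 : A₁.comp β₁ ≠ 0 := by
    rw [← leadingCoeff_ne_zero, lA₁]
    exact pow_ne_zero _ hlc₁
  have hCa : (C a : ℂ[X]) ≠ 0 := C_ne_zero.2 ha
  -- degrees
  have hdeg : E₁.natDegree = E.natDegree := by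
    have e1 := congrArg natDegree h
    rw [natDegree_mul hP0 (pow_ne_zero _ hE₁0), natDegree_mul (mul_ne_zero hCa hP₁0) (pow_ne_zero _ hE0),
      natDegree_C_mul ha, natDegree_pow, natDegree_pow, dP, dP₁] at e1
    omega
  have hlead : β.leadingCoeff ^ Y.card = a * β₁.leadingCoeff ^ Y.card := by
    have e1 := congrArg leadingCoeff h
    rw [leadingCoeff_mul, leadingCoeff_mul, leadingCoeff_mul, leadingCoeff_pow, leadingCoeff_pow,
      hE.leadingCoeff, hE₁.leadingCoeff, leadingCoeff_C, lP, lP₁] at e1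
    simpa using e1
  obtain ⟨j, hj⟩ : ∃ j, j = A.natDegree := ⟨_, rfl⟩
  rw [← hj] at lA lA₁ dA dA₁
  have hYj : Y.card = 2 * j := by omega
  have hj1 : 1 ≤ j := by omega
  obtain ⟨d, hd⟩ : ∃ d, d = β.natDegree := ⟨_, rfl⟩
  rw [← hd] at dA dA₁
  obtain ⟨α, hα⟩ : ∃ α : ℂ, α = β.leadingCoeff ^ j / β₁.leadingCoeff ^ j := ⟨_, rfl⟩
  have hα1 : α * β₁.leadingCoeff ^ j = β.leadingCoeff ^ j := by
    rw [hα, div_mul_cancel₀ _ (pow_ne_zero _ hlc₁)]
  have hα2 : α ^ 2 = a := by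
    have e1 : α ^ 2 * (β₁.leadingCoeff ^ j) ^ 2 = a * (β₁.leadingCoeff ^ j) ^ 2 := by
      rw [← mul_pow, hα1, ← pow_mul, ← pow_mul, mul_comm j 2, ← hYj]
      exact hlead
    exact mul_right_cancel₀ (pow_ne_zero _ (pow_ne_zero _ hlc₁)) e1
  have hα0 : α ≠ 0 := by
    rintro rfl
    apply ha
    rw [← hα2]
    ring
  have hCα : (C α : ℂ[X]) ^ 2 = C a := by
    rw [← C_pow, hα2]
  rw [hAB, hAB₁] at h
  simp only [sub_comp, pow_comp] at h
  obtain ⟨U, hU⟩ : ∃ U, U = E₁ * A.comp β := ⟨_, rfl⟩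
  obtain ⟨V, hV⟩ : ∃ V, V = C α * E * A₁.comp β₁ := ⟨_, rfl⟩
  have hUV : (U - V) * (U + V) = E₁ ^ 2 * B.comp β - C a * E ^ 2 * B₁.comp β₁ := by
    rw [hU, hV, ← hCα]
    rw [← hCα] at h
    linear_combination h
  have dU : U.natDegree = E.natDegree + j * d := by
    rw [hU, natDegree_mul hE₁0 hA0, dA, hdeg]
  have dV : V.natDegree = E.natDegree + j * d := by
    rw [hV, natDegree_mul (mul_ne_zero (C_ne_zero.2 hα0) hE0) hA₁0, natDegree_C_mul hα0, dA₁]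
  have lU : U.coeff (E.natDegree + j * d) = β.leadingCoeff ^ j := by
    rw [← dU]
    change U.leadingCoeff = _
    rw [hU, leadingCoeff_mul, hE₁.leadingCoeff, lA, one_mul]
  have lV : V.coeff (E.natDegree + j * d) = β.leadingCoeff ^ j := by
    rw [← dV]
    change V.leadingCoeff = _
    rw [hV, leadingCoeff_mul, leadingCoeff_mul, leadingCoeff_C, hE.leadingCoeff, lA₁, mul_one, hα1]
  have dUV : E.natDegree + j * d ≤ (U + V).natDegree := by
    apply le_natDegree_of_ne_zero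
    rw [coeff_add, lU, lV, ← two_mul]
    exact mul_ne_zero two_ne_zero (pow_ne_zero _ hlc)
  have hUVeq : U = V := by
    by_contra hne2
    have e1 : U - V ≠ 0 := sub_ne_zero.2 hne2
    have e2 : U + V ≠ 0 := by
      intro e
      rw [e, natDegree_zero] at dUV
      have : 1 ≤ j * d := Nat.mul_pos hj1 (by omega)
      omega
    have e3 : ((U - V) * (U + V)).natDegree = (U - V).natDegree + (U + V).natDegree := natDegree_mul e1 e2
    have e4 : (E₁ ^ 2 * B.comp β - C a * E ^ 2 * B₁.comp β₁).natDegree ≤ 2 * E.natDegree + (j - 1) * d := by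
      refine (natDegree_sub_le _ _).trans (max_le ?_ ?_)
      · refine natDegree_mul_le.trans ?_
        rw [natDegree_pow, natDegree_comp, hdeg, ← hd]
        have : B.natDegree ≤ j - 1 := by omega
        have := Nat.mul_le_mul_right d this
        omega
      · refine natDegree_mul_le.trans ?_
        rw [natDegree_C_mul ha, natDegree_pow, natDegree_comp, hβ₁, ← hd]
        have : B₁.natDegree ≤ j - 1 := by omega
        have := Nat.mul_le_mul_right d this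
        omega
    rw [← hUV, e3] at e4
    have e5 : j * d = (j - 1) * d + d := by
      obtain ⟨i, rfl⟩ : ∃ i, j = i + 1 := ⟨j - 1, by omega⟩
      simp
      ring
    omega
  have hBB : E₁ ^ 2 * B.comp β = C a * E ^ 2 * B₁.comp β₁ := by
    rw [hUVeq, sub_self, zero_mul] at hUV
    exact (sub_eq_zero.1 hUV.symm)
  have hAA2 : E₁ ^ 2 * (A.comp β) ^ 2 = C a * E ^ 2 * (A₁.comp β₁) ^ 2 := by
    have e1 : U ^ 2 = V ^ 2 := by rw [hUVeq]
    rw [hU, hV] at e1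
    rw [← hCα]
    linear_combination e1
  refine h9 β β₁ A A₁ B B₁ 1 hβ hβ₁ hA hA₁ hAA hB hB₁ hBA hBA₁ one_ne_zero ?_
  have hcan : (C a * E ^ 2 * E₁ ^ 2 : ℂ[X]) ≠ 0 :=
    mul_ne_zero (mul_ne_zero hCa (pow_ne_zero _ hE0)) (pow_ne_zero _ hE₁0)
  apply mul_left_cancel₀ hcan
  rw [C_1, one_mul]
  linear_combination (C a * E ^ 2 * B₁.comp β₁) * hAA2 - (C a * E ^ 2 * (A₁.comp β₁) ^ 2) * hBB

end MP52poly
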