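import Pool.Agent.Lib.MP_52aaf2_al.Poly.PStm

set_option autoImplicit false

open Polynomial

namespace MP52poly

private theorem A11_odd_prod (Y : Finset ℂ) : OddR (∏ y ∈ Y, (X - C y)) = Y := by
  classical
  ext x
  rw [mem_OddR]
  have h1 : (∏ y ∈ Y, (X - C y) : ℂ[X]).rootMultiplicity x = Y.val.count x := by
    rw [← count_roots, roots_prod_X_sub_C]
  have h2 : (∏ y ∈ Y, (X - C y) : ℂ[X]) ≠ 0 :=
    (monic_prod_of_monic _ _ fun y _ => monic_X_sub_C y).ne_zero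
  rw [h1]
  constructor
  · rintro ⟨_, h⟩
    by_contra hx
    rw [Multiset.count_eq_zero_of_notMem (by simpa using hx)] at h
    exact absurd h (by decide)
  · intro hx
    refine ⟨h2, ?_⟩
    rw [Multiset.count_eq_one_of_mem Y.nodup (by simpa using hx)]
    exact odd_one

private theorem A11_comp (h4 : S_A4) (F β : ℂ[X]) (hF : F ≠ 0) (hβ : 0 < β.natDegree) (x : ℂ) :
    x ∈ OddR (F.comp β) ↔ β.eval x ∈ OddR F ∧ Odd ((β - C (β.eval x)).rootMultiplicity x) := by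
  obtain ⟨h1, h2⟩ := h4 F β hF hβ
  rw [mem_OddR, mem_OddR, h2 x, Nat.odd_mul]
  tauto

private theorem A11_arith (a b e f d o : ℕ) (hd : Odd d) (h1 : a * d = o + 2 * e)
    (h2 : b * d = o + 2 * f) (he : e < d) (hf : f < d) : a = b := by
  have hd0 : 0 < d := hd.pos
  have h3 : ((a : ℤ) - b) * d = 2 * (e - f) := by
    have h1' : (a : ℤ) * d = o + 2 * e := by exact_mod_cast h1
    have h2' : (b : ℤ) * d = o + 2 * f := by exact_mod_cast h2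
    linear_combination h1' - h2'
  have h4 : (d : ℤ) ∣ 2 * (e - f) := ⟨a - b, by rw [← h3]; ring⟩
  have h5 : IsCoprime (d : ℤ) 2 := by
    have : Nat.Coprime d 2 := Nat.coprime_two_right.2 hd
    exact_mod_cast Nat.isCoprime_iff_coprime.2 this
  have h6 : (d : ℤ) ∣ e - f := h5.dvd_of_dvd_mul_left h4
  have h7 : ((e : ℤ) - f) = 0 := by
    refine Int.eq_zero_of_abs_lt_dvd h6 ?_
    rw [abs_lt]
    constructor <;> omega
  rw [h7, mul_zero] at h3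
  rcases mul_eq_zero.1 h3 with h8 | h8
  · omega
  · omega

theorem p_A11 (h1 : S_A1) (h2 : S_A2) (_h3 : S_A3) (h4 : S_A4) (h7 : S_A7) (h10 : S_A10) :
    S_A11 := by
  intro β β₁ F F₁ S hd hdd hF hF₁ hev hne hS
  obtain ⟨Y, hY⟩ : ∃ Y, Y = OddR F := ⟨_, rfl⟩
  obtain ⟨Y₁, hY₁⟩ : ∃ Y₁, Y₁ = OddR F₁ := ⟨_, rfl⟩
  rw [← hY₁] at hev hne
  have hβ : 0 < β.natDegree := hd.pos
  have hβ₁ : 0 < β₁.natDegree := by rw [hdd]; exact hβ
  obtain ⟨P, hP⟩ : ∃ P : ℂ[X], P = ∏ y ∈ Y, (X - C y) := ⟨_, rfl⟩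
  obtain ⟨P₁, hP₁⟩ : ∃ P₁ : ℂ[X], P₁ = ∏ y ∈ Y₁, (X - C y) := ⟨_, rfl⟩
  have hPm : P.Monic := by rw [hP]; exact monic_prod_of_monic _ _ fun y _ => monic_X_sub_C y
  have hP₁m : P₁.Monic := by rw [hP₁]; exact monic_prod_of_monic _ _ fun y _ => monic_X_sub_C y
  have hPd : P.natDegree = Y.card := by
    rw [hP, natDegree_prod_of_monic _ _ fun y _ => monic_X_sub_C y]
    simp
  have hP₁d : P₁.natDegree = Y₁.card := by
    rw [hP₁, natDegree_prod_of_monic _ _ fun y _ => monic_X_sub_C y]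
    simp
  have hOP : OddR P = Y := by rw [hP]; exact A11_odd_prod Y
  have hOP₁ : OddR P₁ = Y₁ := by rw [hP₁]; exact A11_odd_prod Y₁
  -- the odd points
  have hA := h4 F β hF hβ
  have hB := h4 F₁ β₁ hF₁ hβ₁
  have hprod : F.comp β * F₁.comp β₁ ≠ 0 := mul_ne_zero hA.1 hB.1
  have hempty : OddR (F.comp β * F₁.comp β₁) = ∅ := (h1 _ hprod).2 ⟨S, hS⟩
  have hO : OddR (P.comp β) = OddR (P₁.comp β₁) := by
    ext x
    have k1 : x ∈ OddR (P.comp β) ↔ x ∈ OddR (F.comp β) := by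
      rw [A11_comp h4 P β hPm.ne_zero hβ, A11_comp h4 F β hF hβ, hOP, hY]
    have k2 : x ∈ OddR (P₁.comp β₁) ↔ x ∈ OddR (F₁.comp β₁) := by
      rw [A11_comp h4 P₁ β₁ hP₁m.ne_zero hβ₁, A11_comp h4 F₁ β₁ hF₁ hβ₁, hOP₁, hY₁]
    have k3 := h2 (F.comp β) (F₁.comp β₁) hA.1 hB.1 x
    rw [hempty] at k3
    rw [k1, k2]
    by_contra hcon
    exact absurd (k3.2 hcon) (Finset.notMem_empty x)
  obtain ⟨E, hEm, hEd, _, hEe⟩ := h7 β Y hβ
  obtain ⟨E₁, hE₁m, hE₁d, _, hE₁e⟩ := h7 β₁ Y₁ hβ₁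
  rw [← hP] at hEe
  rw [← hP₁] at hE₁e
  obtain ⟨u, hu⟩ : ∃ u : ℂ[X], u = ∏ x ∈ OddR (P.comp β), (X - C x) := ⟨_, rfl⟩
  have hum : u.Monic := by rw [hu]; exact monic_prod_of_monic _ _ fun y _ => monic_X_sub_C y
  rw [← hu] at hEe
  rw [← hO, ← hu] at hE₁e
  have hdeg : ∀ (γ E : ℂ[X]), 0 < γ.natDegree → E ∣ γ.derivative → E.natDegree < γ.natDegree := by
    intro γ E hγ hE
    have h0 : γ.derivative ≠ 0 := by
      intro h0
      have := derivative_eq_zero.1 h0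
      omega
    exact (natDegree_le_of_dvd hE h0).trans_lt (natDegree_derivative_lt hγ.ne')
  have hEl := hdeg β E hβ hEd
  have hE₁l := hdeg β₁ E₁ hβ₁ hE₁d
  have hlc : β.leadingCoeff ≠ 0 := by
    rw [Ne, leadingCoeff_eq_zero]
    intro h0
    rw [h0, natDegree_zero] at hβ
    omega
  have hlc₁ : β₁.leadingCoeff ≠ 0 := by
    rw [Ne, leadingCoeff_eq_zero]
    intro h0
    rw [h0, natDegree_zero] at hβ₁
    omega
  have hdeg2 : ∀ (γ Q E : ℂ[X]) (c : ℂ) (k : ℕ), c ≠ 0 → E.Monic → Q.natDegree = k →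
      Q.comp γ = C c * u * E ^ 2 → k * γ.natDegree = u.natDegree + 2 * E.natDegree := by
    intro γ Q E c k hc hE hQ he
    have k1 := congrArg natDegree he
    rw [natDegree_comp, hQ, mul_assoc, natDegree_C_mul hc, natDegree_mul hum.ne_zero
      (pow_ne_zero _ hE.ne_zero), natDegree_pow] at k1
    exact k1
  have e1 := hdeg2 β P E _ Y.card (pow_ne_zero Y.card hlc) hEm hPd hEe
  have e2 := hdeg2 β₁ P₁ E₁ _ Y₁.card (pow_ne_zero Y₁.card hlc₁) hE₁m hP₁d hE₁e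
  rw [hdd] at e2 hE₁l
  have hcard : Y.card = Y₁.card := A11_arith _ _ _ _ _ _ hd e1 e2 hEl hE₁l
  refine h10 β β₁ E E₁ Y Y₁ (β.leadingCoeff ^ Y.card / β₁.leadingCoeff ^ Y₁.card) hβ hdd hcard.symm
    (by rw [hcard]; exact hev) (Finset.card_pos.1 (by rw [hcard]; exact hne.card_pos))
    (div_ne_zero (pow_ne_zero _ hlc) (pow_ne_zero _ hlc₁)) hEm hE₁m hEl hE₁l ?_
  rw [← hP, ← hP₁, hEe, hE₁e]
  have e3 : (C (β.leadingCoeff ^ Y.card / β₁.leadingCoeff ^ Y₁.card) : ℂ[X]) *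
      C (β₁.leadingCoeff ^ Y₁.card) = C (β.leadingCoeff ^ Y.card) := by
    rw [← C_mul, div_mul_cancel₀ _ (pow_ne_zero _ hlc₁)]
  rw [← e3]
  ring

end MP52poly
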