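import Pool.Agent.Lib.MP_52aaf2_al.Poly.PStm

set_option autoImplicit false

open Polynomial

namespace MP52poly

private theorem A12_odd_prod (Y : Finset ℂ) : OddR (∏ y ∈ Y, (X - C y)) = Y := by
  classical
  ext x
  rw [mem_OddR]
  have h1 : (∏ y ∈ Y, (X - C y) : ℂ[X]).rootMultiplicity x = Y.val.count x := by
    rw [← count_roots, roots_prod_X_sub_C]
  have h2 : (∏ y ∈ Y, (X - C y) : ℂ[X]) ≠ 0 :=
    (monic_prod_of_monic _ _ fun y _ => monic_X_sub_C y).ne_zero
  rw [h1]
  constructor
  · rintro ⟨_, h⟩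
    by_contra hx
    rw [Multiset.count_eq_zero_of_notMem (by simpa using hx)] at h
    exact absurd h (by decide)
  · intro hx
    refine ⟨h2, ?_⟩
    rw [Multiset.count_eq_one_of_mem Y.nodup (by simpa using hx)]
    exact odd_one

private theorem A12_comp (h4 : S_A4) (F β : ℂ[X]) (hF : F ≠ 0) (hβ : 0 < β.natDegree) (x : ℂ) :
    x ∈ OddR (F.comp β) ↔ β.eval x ∈ OddR F ∧ Odd ((β - C (β.eval x)).rootMultiplicity x) := by
  obtain ⟨h1, h2⟩ := h4 F β hF hβ
  rw [mem_OddR, mem_OddR, h2 x, Nat.odd_mul]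
  tauto

theorem p_A12 (h1 : S_A1) (h2 : S_A2) (_h3 : S_A3) (h4 : S_A4) (h6 : S_A6) (h7 : S_A7) :
    S_A12 := by
  classical
  intro β D F S L hd hd3 hD hF hev hne hcv hS
  have hβ : 0 < β.natDegree := hd.pos
  obtain ⟨Y, hY⟩ : ∃ Y, Y = OddR F := ⟨_, rfl⟩
  obtain ⟨P, hP⟩ : ∃ P : ℂ[X], P = ∏ y ∈ Y, (X - C y) := ⟨_, rfl⟩
  have hPm : P.Monic := by rw [hP]; exact monic_prod_of_monic _ _ fun y _ => monic_X_sub_C y
  have hPd : P.natDegree = Y.card := by
    rw [hP, natDegree_prod_of_monic _ _ fun y _ => monic_X_sub_C y]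
    simp
  have hOP : OddR P = Y := by rw [hP]; exact A12_odd_prod Y
  -- the odd points
  have hA := h4 F β hF hβ
  obtain ⟨hL1, hL2, hL3, -⟩ := h6 D L hD
  have hprod : D.comp L.pol * F.comp β ≠ 0 := mul_ne_zero hL3 hA.1
  have hempty : OddR (D.comp L.pol * F.comp β) = ∅ := (h1 _ hprod).2 ⟨S, hS⟩
  have hO : OddR (P.comp β) = OddR (D.comp L.pol) := by
    ext x
    have k1 : x ∈ OddR (P.comp β) ↔ x ∈ OddR (F.comp β) := by
      rw [A12_comp h4 P β hPm.ne_zero hβ, A12_comp h4 F β hF hβ, hOP, hY]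
    have k3 := h2 (D.comp L.pol) (F.comp β) hL3 hA.1 x
    rw [hempty] at k3
    rw [k1]
    by_contra hcon
    exact absurd (k3.2 fun h => hcon h.symm) (Finset.notMem_empty x)
  have hcardO : (OddR (P.comp β)).card = (OddR D).card := by rw [hO, hL2]
  obtain ⟨E, hEm, hEd, hEY, hEe⟩ := h7 β Y hβ
  rw [← hP] at hEe
  have hder : β.derivative ≠ 0 := by
    intro h0
    have := derivative_eq_zero.1 h0
    omega
  have hderd : β.derivative.natDegree = β.natDegree - 1 :=
    natDegree_derivative β
  have hlc : β.leadingCoeff ≠ 0 := by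
    rw [Ne, leadingCoeff_eq_zero]
    intro h0
    rw [h0, natDegree_zero] at hβ
    omega
  have hum : (∏ x ∈ OddR (P.comp β), (X - C x) : ℂ[X]).Monic :=
    monic_prod_of_monic _ _ fun y _ => monic_X_sub_C y
  have hud : (∏ x ∈ OddR (P.comp β), (X - C x) : ℂ[X]).natDegree = (OddR D).card := by
    rw [natDegree_prod_of_monic _ _ fun y _ => monic_X_sub_C y, ← hcardO]
    simp
  have e1 : Y.card * β.natDegree = (OddR D).card + 2 * E.natDegree := by
    have k1 := congrArg natDegree hEe
    rw [natDegree_comp, hPd, mul_assoc, natDegree_C_mul (pow_ne_zero _ hlc),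
      natDegree_mul hum.ne_zero (pow_ne_zero _ hEm.ne_zero), natDegree_pow, hud] at k1
    exact k1
  -- the cofactor
  obtain ⟨E', hE'⟩ := hEd
  have hE'0 : E' ≠ 0 := by
    rintro rfl
    rw [mul_zero] at hE'
    exact hder hE'
  have e2 : β.natDegree - 1 = E.natDegree + E'.natDegree := by
    rw [← hderd, hE', natDegree_mul hEm.ne_zero hE'0]
  -- the number of critical values
  have e3 : (OddR D).card ≤ β.natDegree - 1 := by
    have hsub : OddR D ⊆ β.derivative.roots.toFinset.image (fun c => β.eval c) := by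
      intro y hy
      obtain ⟨c, hc1, hc2⟩ := hcv y hy
      exact Finset.mem_image.2 ⟨c, by rw [Multiset.mem_toFinset, mem_roots hder]; exact hc1, hc2⟩
    calc (OddR D).card ≤ _ := Finset.card_le_card hsub
      _ ≤ β.derivative.roots.toFinset.card := Finset.card_image_le
      _ ≤ Multiset.card β.derivative.roots := Multiset.toFinset_card_le _
      _ ≤ β.derivative.natDegree := card_roots' _
      _ = _ := hderd
  have e4 : (OddR D).card ≤ Y.card + E'.natDegree := by
    have hsub : OddR D ⊆ Y ∪ E'.roots.toFinset.image (fun c => β.eval c) := by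
      intro y hy
      obtain ⟨c, hc1, hc2⟩ := hcv y hy
      rw [hE', eval_mul, mul_eq_zero] at hc1
      rw [Finset.mem_union]
      rcases hc1 with hc1 | hc1
      · left
        rw [← hc2]
        exact hEY c hc1
      · right
        exact Finset.mem_image.2 ⟨c, by rw [Multiset.mem_toFinset, mem_roots hE'0]; exact hc1, hc2⟩
    calc (OddR D).card ≤ _ := Finset.card_le_card hsub
      _ ≤ Y.card + _ := Finset.card_union_le _ _
      _ ≤ Y.card + E'.natDegree := by
        refine Nat.add_le_add_left ?_ _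
        exact Finset.card_image_le.trans ((Multiset.toFinset_card_le _).trans (card_roots' _))
  have hσ : 0 < (OddR D).card := hne.card_pos
  -- arithmetic
  have hr : Y.card = 2 := by
    have h5 : Even (Y.card * β.natDegree) := by
      rw [e1]
      exact hev.add (even_two_mul _)
    rw [Nat.even_mul] at h5
    have h6 : Even Y.card := h5.resolve_right (Nat.not_even_iff_odd.2 hd)
    have h7 : Y.card < 3 := by
      by_contra h
      push Not at h
      have := Nat.mul_le_mul_right β.natDegree h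
      omega
    have h8 : Y.card ≠ 0 := by
      intro h
      rw [h, zero_mul] at e1
      omega
    have h9 : Y.card ≠ 1 := by
      intro h
      rw [h] at h6
      exact absurd h6 (by decide)
    omega
  rw [hr] at e1 e4
  have hσ2 : (OddR D).card = 2 := by
    obtain ⟨s, hs⟩ := hev
    omega
  have hE'd : E'.natDegree = 0 := by omega
  have hsub : OddR D ⊆ Y := by
    intro y hy
    obtain ⟨c, hc1, hc2⟩ := hcv y hy
    rw [hE', eval_mul, mul_eq_zero] at hc1
    rcases hc1 with hc1 | hc1
    · rw [← hc2]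
      exact hEY c hc1
    · exfalso
      obtain ⟨z, hz⟩ := natDegree_eq_zero.1 hE'd
      rw [← hz, eval_C] at hc1
      rw [← hz, hc1, C_0] at hE'0
      exact hE'0 rfl
  have heq : OddR D = Y := Finset.eq_of_subset_of_card_le hsub (by rw [hσ2, hr])
  refine (h1 (D * F) (mul_ne_zero hD hF)).1 ?_
  ext x
  rw [h2 D F hD hF x, heq, hY]
  simp

end MP52poly
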