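import Pool.Agent.Lib.MP_52aaf2_al.Poly.PStm

open Polynomial

namespace MP52poly

/-- A finite set of complex numbers with two different points is not invariant under an increasing
affine map other than the identity. -/
theorem a13_inv (L : AffM) (O : Finset ℂ) (x y : ℂ) (hx : x ∈ O) (hy : y ∈ O) (hxy : x ≠ y)
    (hO : ∀ z ∈ O, L.pol.eval z ∈ O) : L = AffM.one := by
  have hev : ∀ z : ℂ, L.pol.eval z = (L.a : ℂ) * z + (L.b : ℂ) := by
    intro z
    unfold AffM.pol
    simp
  have hit : ∀ z ∈ O, ∀ n : ℕ, (fun w => L.pol.eval w)^[n] z ∈ O := by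
    intro z hz n
    induction n with
    | zero => exact hz
    | succ n ih =>
      rw [Function.iterate_succ_apply']
      exact hO _ ih
  obtain ⟨n, m, hnm, heq⟩ := Finite.exists_ne_map_eq_of_infinite
    (fun n : ℕ => ((⟨_, hit x hx n⟩, ⟨_, hit y hy n⟩) : O × O))
  have h1 : (fun w => L.pol.eval w)^[n] x = (fun w => L.pol.eval w)^[m] x :=
    congrArg Subtype.val (congrArg Prod.fst heq)
  have h2 : (fun w => L.pol.eval w)^[n] y = (fun w => L.pol.eval w)^[m] y :=
    congrArg Subtype.val (congrArg Prod.snd heq)
  have hd : ∀ k : ℕ, (fun w => L.pol.eval w)^[k] x - (fun w => L.pol.eval w)^[k] y =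
      (L.a : ℂ) ^ k * (x - y) := by
    intro k
    induction k with
    | zero => simp
    | succ k ih =>
      rw [Function.iterate_succ_apply', Function.iterate_succ_apply', hev, hev, pow_succ]
      linear_combination (L.a : ℂ) * ih
  have h3 : (L.a : ℂ) ^ n * (x - y) = (L.a : ℂ) ^ m * (x - y) := by
    rw [← hd n, ← hd m, h1, h2]
  have h4 : (L.a : ℂ) ^ n = (L.a : ℂ) ^ m := mul_right_cancel₀ (sub_ne_zero.2 hxy) h3
  have h5 : L.a ^ n = L.a ^ m := by exact_mod_cast h4
  have ha : L.a = 1 := by
    by_contra hne
    exact hnm (pow_right_injective₀ L.pos hne h5)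
  have hb : ∀ k : ℕ, (fun w => L.pol.eval w)^[k] x = x + k * (L.b : ℂ) := by
    intro k
    induction k with
    | zero => simp
    | succ k ih =>
      rw [Function.iterate_succ_apply', ih, hev, ha]
      push_cast
      ring
  rw [hb n, hb m] at h1
  have h6 : ((n : ℂ) - m) * (L.b : ℂ) = 0 := by linear_combination h1
  have h7 : (L.b : ℂ) = 0 := by
    rcases mul_eq_zero.1 h6 with h | h
    · exact absurd (by exact_mod_cast sub_eq_zero.1 h) hnm
    · exact h
  have h8 : L.b = 0 := by exact_mod_cast h7
  ext
  · exact ha
  · exact h8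

theorem p_A13 : S_A13 := by
  classical
  intro β L c e hL hcomp x y hx hy
  by_cases hβ : β.derivative = 0
  · have hdeg : β.natDegree = 0 := Polynomial.derivative_eq_zero.1 hβ
    rw [eq_C_of_natDegree_eq_zero hdeg]
    simp
  · by_contra hne
    have hxy : x ≠ y := fun h => hne (by rw [h])
    apply hL
    have hder : β.derivative.comp L.pol * C (L.a : ℂ) = C c * β.derivative := by
      have h := congrArg derivative hcomp
      rw [derivative_comp] at h
      have h1 : derivative L.pol = C (L.a : ℂ) := by
        unfold AffM.pol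
        simp
      rw [h1] at h
      simp only [derivative_add, derivative_mul, derivative_C, zero_mul, zero_add, add_zero] at h
      linear_combination h
    refine a13_inv L β.derivative.roots.toFinset x y ?_ ?_ hxy ?_
    · rw [Multiset.mem_toFinset, mem_roots hβ]
      exact hx
    · rw [Multiset.mem_toFinset, mem_roots hβ]
      exact hy
    · intro z hz
      rw [Multiset.mem_toFinset, mem_roots hβ] at hz ⊢
      have h := congrArg (eval z) hder
      rw [eval_mul, eval_mul, eval_comp, eval_C, eval_C] at h
      have hz' : β.derivative.eval z = 0 := hz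
      rw [hz', mul_zero] at h
      rcases mul_eq_zero.1 h with h | h
      · exact h
      · exact absurd (by exact_mod_cast h) L.pos.ne'

end MP52poly
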