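import Pool.Agent.Lib.MP_52aaf2_al.Poly.PStm

/-! [A14] Finite sets invariant under an increasing affine map. -/

open Polynomial

namespace MP52poly

theorem p_A14 : S_A14 := by
  intro L O hO hL
  obtain ⟨x, hx, y, hy, hxy⟩ := Finset.one_lt_card.1 (by omega : 1 < O.card)
  have ev : ∀ z : ℂ, L.pol.eval z = (L.a : ℂ) * z + (L.b : ℂ) := by
    intro z; simp [AffM.pol]
  have it : ∀ (n : ℕ) (z : ℂ), (fun z : ℂ => L.pol.eval z)^[n] z =
      (L.a : ℂ) ^ n * z + (L.b : ℂ) * ∑ i ∈ Finset.range n, (L.a : ℂ) ^ i := by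
    intro n z
    induction n with
    | zero => simp
    | succ n ih =>
      rw [Function.iterate_succ_apply', ih, ev, Finset.sum_range_succ']
      simp only [pow_succ, pow_zero, ← Finset.sum_mul]
      ring
  have memO : ∀ (n : ℕ) (z : ℂ), z ∈ O → (fun z : ℂ => L.pol.eval z)^[n] z ∈ O := by
    intro n z hz
    induction n with
    | zero => exact hz
    | succ n ih => rw [Function.iterate_succ_apply']; exact hL _ ih
  obtain ⟨m, n, hmn, h1⟩ : ∃ m n : ℕ, m ≠ n ∧
      ((fun z : ℂ => L.pol.eval z)^[m] x, (fun z : ℂ => L.pol.eval z)^[m] y) =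
      ((fun z : ℂ => L.pol.eval z)^[n] x, (fun z : ℂ => L.pol.eval z)^[n] y) := by
    by_contra hcon
    push Not at hcon
    have hinj : Function.Injective (fun n : ℕ =>
        ((fun z : ℂ => L.pol.eval z)^[n] x, (fun z : ℂ => L.pol.eval z)^[n] y)) := by
      intro m n h
      by_contra h'
      exact hcon m n h' h
    exact Set.infinite_of_injective_forall_mem hinj (s := ((O ×ˢ O : Finset (ℂ × ℂ)) : Set (ℂ × ℂ)))
      (fun n => by
        rw [Finset.mem_coe, Finset.mem_product]
        exact ⟨memO n x hx, memO n y hy⟩) (Finset.finite_toSet _)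
  rw [Prod.mk.injEq] at h1
  obtain ⟨h2, h3⟩ := h1
  rw [it, it] at h2 h3
  have h4 : ((L.a : ℂ) ^ m - (L.a : ℂ) ^ n) * (x - y) = 0 := by linear_combination h2 - h3
  have h5 : (L.a : ℂ) ^ m = (L.a : ℂ) ^ n := by
    rcases mul_eq_zero.1 h4 with h | h
    · exact sub_eq_zero.1 h
    · exact absurd (sub_eq_zero.1 h) hxy
  have h6 : L.a ^ m = L.a ^ n := by exact_mod_cast h5
  have ha : L.a = 1 := by
    by_contra h
    exact hmn (pow_right_injective₀ L.pos h h6)
  have hb : L.b = 0 := by
    rw [ha] at h2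
    simp only [Complex.ofReal_one, one_pow, one_mul, Finset.sum_const, Finset.card_range,
      nsmul_eq_mul, mul_one] at h2
    have h7 : (L.b : ℂ) * ((m : ℂ) - n) = 0 := by linear_combination h2
    rcases mul_eq_zero.1 h7 with h | h
    · exact_mod_cast h
    · exact absurd (by exact_mod_cast sub_eq_zero.1 h) hmn
  exact AffM.ext ha hb

end MP52poly
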