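import Pool.Agent.Lib.MP_52aaf2_al.Poly.PStm

/-! Piece [PG A2]. -/

open Polynomial

namespace MP52poly

theorem p_A2 : S_A2 := by
  intro F G hF hG x
  have hFG : F * G ≠ 0 := mul_ne_zero hF hG
  rw [mem_OddR, mem_OddR, mem_OddR, Polynomial.rootMultiplicity_mul hFG, Nat.odd_add]
  have h1 : Even (G.rootMultiplicity x) ↔ ¬ Odd (G.rootMultiplicity x) := Nat.not_odd_iff_even.symm
  rw [h1]
  tauto

end MP52poly
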