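import Pool.Agent.Lib.MP_52aaf2_al.Poly.PStm

/-! # A3 : parity of the degree -/

open Polynomial

namespace MP52poly

theorem p_A3 : S_A3 := by
  classical
  intro F hF
  have h1 : F.natDegree = F.roots.card := (splits_iff_card_roots.1 (IsAlgClosed.splits F)).symm
  have h2 : F.roots.card = ∑ x ∈ F.roots.toFinset, F.rootMultiplicity x := by
    rw [← Multiset.toFinset_sum_count_eq]
    exact Finset.sum_congr rfl fun x _ => count_roots F
  have h3 : OddR F = F.roots.toFinset.filter (fun x => Odd (F.rootMultiplicity x)) := by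
    ext x
    rw [mem_OddR, Finset.mem_filter, Multiset.mem_toFinset, mem_roots hF, ← rootMultiplicity_pos hF]
    exact ⟨fun h => ⟨h.2.pos, h.2⟩, fun h => ⟨hF, h.2⟩⟩
  rw [h1, h2, h3]
  exact Finset.odd_sum_iff_odd_card_odd _

end MP52poly
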