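import Pool.Agent.Lib.MP_52aaf2_al.Poly.PStm

set_option autoImplicit false

/-! Piece A4: multiplicities of a composition. -/

open Polynomial

namespace MP52poly

/-- [A4] -/
theorem p_A4 : S_A4 := by
  intro F β hF hβ
  have hcomp : ∀ G : ℂ[X], G ≠ 0 → G.comp β ≠ 0 := by
    intro G hG h
    rcases comp_eq_zero_iff.1 h with h | ⟨_, h⟩
    · exact hG h
    · rw [h, natDegree_C] at hβ
      exact lt_irrefl _ hβ
  refine ⟨hcomp F hF, fun x => ?_⟩
  obtain ⟨F1, hF1, hnd⟩ := exists_eq_pow_rootMultiplicity_mul_and_not_dvd F hF (β.eval x)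
  have hF10 : F1 ≠ 0 := by
    rintro rfl
    exact hnd (dvd_zero _)
  have hev : F1.eval (β.eval x) ≠ 0 := by
    intro h
    exact hnd (dvd_iff_isRoot.2 h)
  have h1 : F.comp β = (β - C (β.eval x)) ^ (F.rootMultiplicity (β.eval x)) * F1.comp β := by
    conv_lhs => rw [hF1]
    rw [mul_comp, pow_comp, sub_comp, X_comp, C_comp]
  have h2 : β - C (β.eval x) ≠ 0 := by
    intro h
    rw [sub_eq_zero] at h
    rw [h, natDegree_C] at hβ
    exact lt_irrefl _ hβ
  have h3 : (F1.comp β).rootMultiplicity x = 0 := by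
    apply rootMultiplicity_eq_zero
    rw [IsRoot, eval_comp]
    exact hev
  rw [h1, rootMultiplicity_mul (mul_ne_zero (pow_ne_zero _ h2) (hcomp F1 hF10)), h3, add_zero]
  generalize F.rootMultiplicity (β.eval x) = m
  induction m with
  | zero => simp
  | succ m ih =>
    rw [pow_succ, rootMultiplicity_mul (mul_ne_zero (pow_ne_zero _ h2) h2), ih]
    ring

end MP52poly
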