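import Pool.Agent.Lib.MP_52aaf2_al.Poly.PStm

/-! # A5 : composition with a polynomial of odd degree keeps nonsquares nonsquare -/

open Polynomial

namespace MP52poly

theorem p_A5 (h3 : S_A3) (h4 : S_A4) : S_A5 := by
  intro F β hF hβ hne
  obtain ⟨y, hy⟩ := hne
  have hd : (β - C y).natDegree = β.natDegree := natDegree_sub_C
  have h0 : β - C y ≠ 0 := by
    intro h
    rw [h, natDegree_zero] at hd
    rw [← hd] at hβ
    exact absurd hβ (by decide)
  have h5 : Odd (OddR (β - C y)).card := (h3 _ h0).1 (by rw [hd]; exact hβ)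
  obtain ⟨x, hx⟩ := Finset.card_pos.1 h5.pos
  have hx' := (mem_OddR.1 hx).2
  have hroot : IsRoot (β - C y) x := (rootMultiplicity_pos h0).1 hx'.pos
  have hxy : β.eval x = y := by
    have : (β - C y).eval x = 0 := hroot
    rw [eval_sub, eval_C, sub_eq_zero] at this
    exact this
  have h6 := h4 F β hF hβ.pos
  refine ⟨x, mem_OddR.2 ⟨h6.1, ?_⟩⟩
  rw [h6.2 x, hxy]
  exact (mem_OddR.1 hy).2.mul hx'

end MP52poly
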