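import Pool.Agent.Lib.MP_52aaf2_al.Poly.PStm

/-! # A6 : composition with an affine map -/

open Polynomial

namespace MP52poly

private theorem a6_ne (L : AffM) : (L.a : ℂ) ≠ 0 := by
  exact_mod_cast L.pos.ne'

private theorem a6_deg (L : AffM) : L.pol.natDegree = 1 := natDegree_linear (a6_ne L)

private theorem a6_eval (L : AffM) (x : ℂ) : L.pol.eval x = (L.a : ℂ) * x + (L.b : ℂ) := by
  simp [AffM.pol]

theorem p_A6 (h4 : S_A4) : S_A6 := by
  classical
  intro F L hF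
  have hdeg := a6_deg L
  obtain ⟨hne, hmul⟩ := h4 F L.pol hF (by rw [hdeg]; exact one_pos)
  have hone : ∀ x, (L.pol - C (L.pol.eval x)).rootMultiplicity x = 1 := by
    intro x
    have h1 : L.pol - C (L.pol.eval x) = C (L.a : ℂ) * (X - C x) := by
      rw [a6_eval, AffM.pol, C_add, C_mul]
      ring
    have h2 : C (L.a : ℂ) * (X - C x) ≠ 0 := mul_ne_zero (C_ne_zero.2 (a6_ne L)) (X_sub_C_ne_zero x)
    rw [h1, rootMultiplicity_mul h2, rootMultiplicity_C, rootMultiplicity_X_sub_C_self, zero_add]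
  have hmem : ∀ x, x ∈ OddR (F.comp L.pol) ↔ L.pol.eval x ∈ OddR F := by
    intro x
    rw [mem_OddR, mem_OddR, hmul x, hone x, mul_one]
    exact ⟨fun h => ⟨hF, h.2⟩, fun h => ⟨hne, h.2⟩⟩
  refine ⟨hmem, ?_, hne, ?_⟩
  · refine Finset.card_bij (fun x _ => L.pol.eval x) (fun x hx => (hmem x).1 hx) ?_ ?_
    · intro x _ y _ hxy
      rw [a6_eval, a6_eval] at hxy
      exact mul_left_cancel₀ (a6_ne L) (add_right_cancel hxy)
    · intro y hy
      have h2 : L.pol.eval ((y - (L.b : ℂ)) / (L.a : ℂ)) = y := by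
        rw [a6_eval, mul_div_cancel₀ _ (a6_ne L), sub_add_cancel]
      exact ⟨(y - (L.b : ℂ)) / (L.a : ℂ), (hmem _).2 (by rw [h2]; exact hy), h2⟩
  · rw [natDegree_comp, hdeg, mul_one]

end MP52poly
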