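import Pool.Agent.Lib.MP_52aaf2_al.Poly.PStm

/-! Piece A7. -/

open Polynomial

namespace MP52poly

theorem p_A7 (h4 : S_A4) : S_A7 := by
  classical
  intro β Y hβ
  set F : ℂ[X] := ∏ y ∈ Y, (X - C y) with hF
  have hFm : F.Monic := monic_prod_of_monic _ _ fun y _ => monic_X_sub_C y
  have hFdeg : F.natDegree = Y.card := by
    rw [hF, natDegree_prod_of_monic _ _ fun y _ => monic_X_sub_C y]
    simp
  obtain ⟨hP0, hPm⟩ := h4 F β hFm.ne_zero hβ
  set P : ℂ[X] := F.comp β with hP
  have hroot : ∀ x, P.eval x = 0 → β.eval x ∈ Y := by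
    intro x hx
    rw [hP, eval_comp, hF, eval_prod, Finset.prod_eq_zero_iff] at hx
    obtain ⟨y, hy, h1⟩ := hx
    rw [eval_sub, eval_X, eval_C, sub_eq_zero] at h1
    rw [h1]
    exact hy
  have hmF : ∀ y ∈ Y, F.rootMultiplicity y = 1 := by
    intro y hy
    have h1 : F = (X - C y) * ∏ z ∈ Y.erase y, (X - C z) := by
      rw [hF, ← Finset.mul_prod_erase Y _ hy]
    have h2 : (∏ z ∈ Y.erase y, (X - C z)).rootMultiplicity y = 0 := by
      apply rootMultiplicity_eq_zero
      rw [IsRoot.def, eval_prod, Finset.prod_eq_zero_iff]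
      rintro ⟨z, hz, h3⟩
      rw [eval_sub, eval_X, eval_C, sub_eq_zero] at h3
      exact (Finset.mem_erase.1 hz).1 h3.symm
    rw [h1, rootMultiplicity_mul (by rw [← h1]; exact hFm.ne_zero), rootMultiplicity_X_sub_C_self,
      h2]
  refine ⟨∏ x ∈ P.roots.toFinset, (X - C x) ^ (P.rootMultiplicity x / 2), ?_, ?_, ?_, ?_⟩
  · exact monic_prod_of_monic _ _ fun x _ => (monic_X_sub_C x).pow _
  · apply Finset.prod_dvd_of_coprime
    · intro x _ y _ hxy
      apply IsCoprime.pow
      exact pairwise_coprime_X_sub_C (Function.injective_id) hxy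
    · intro x hx
      rw [Multiset.mem_toFinset, mem_roots hP0] at hx
      have h1 := hroot x hx
      have h2 := hPm x
      rw [hmF _ h1, one_mul] at h2
      have h3 : (X - C x) ^ (P.rootMultiplicity x) ∣ β - C (β.eval x) := by
        rw [h2]
        exact pow_rootMultiplicity_dvd _ _
      have h4 := pow_sub_one_dvd_derivative_of_pow_dvd h3
      rw [derivative_sub, derivative_C, sub_zero] at h4
      exact (pow_dvd_pow _ (by omega)).trans h4
  · intro x hx
    rw [eval_prod, Finset.prod_eq_zero_iff] at hx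
    obtain ⟨x', hx', h1⟩ := hx
    rw [eval_pow] at h1
    have h3 : (X - C x').eval x = 0 := by
      by_contra hne
      exact (pow_ne_zero _ hne) h1
    rw [eval_sub, eval_X, eval_C, sub_eq_zero] at h3
    rw [Multiset.mem_toFinset, mem_roots hP0] at hx'
    rw [h3]
    exact hroot x' hx'
  · have h1 : P = C P.leadingCoeff * (P.roots.map fun a => X - C a).prod :=
      (IsAlgClosed.splits P).eq_prod_roots
    have h2 : P.leadingCoeff = β.leadingCoeff ^ Y.card := by
      rw [hP, leadingCoeff_comp hβ.ne', hFm.leadingCoeff, one_mul, hFdeg]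
    have h3 : (P.roots.map fun a => X - C a).prod =
        (∏ x ∈ OddR P, (X - C x)) *
          (∏ x ∈ P.roots.toFinset, (X - C x) ^ (P.rootMultiplicity x / 2)) ^ 2 := by
      rw [Finset.prod_multiset_map_count, ← Finset.prod_pow]
      have h5 : ∏ x ∈ OddR P, (X - C x) =
          ∏ x ∈ P.roots.toFinset, (X - C x) ^ (P.rootMultiplicity x % 2) := by
        have h6 : OddR P = P.roots.toFinset.filter (fun x => Odd (P.rootMultiplicity x)) := by
          unfold OddR
          congr
        rw [h6, Finset.prod_filter]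
        refine Finset.prod_congr rfl fun x _ => ?_
        by_cases ho : Odd (P.rootMultiplicity x)
        · rw [if_pos ho, Nat.odd_iff.1 ho, pow_one]
        · rw [if_neg ho, Nat.even_iff.1 (Nat.not_odd_iff_even.1 ho), pow_zero]
      rw [h5, ← Finset.prod_mul_distrib]
      refine Finset.prod_congr rfl fun x _ => ?_
      rw [count_roots, ← pow_mul, ← pow_add]
      congr 1
      omega
    rw [mul_assoc, ← h3, ← h2]
    exact h1

end MP52poly
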