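import Pool.Agent.Lib.MP_52aaf2_al.Poly.PStm

set_option autoImplicit false

open Polynomial

namespace MP52poly

private theorem a8_sq (F : ℂ[X]) (j : ℕ) (hF : F.Monic) (hd : F.natDegree = 2 * j) :
    ∀ k ≤ j, ∃ A : ℂ[X], A.Monic ∧ A.natDegree = j ∧
      ∀ m, 2 * j - k ≤ m → (F - A ^ 2).coeff m = 0 := by
  intro k
  induction k with
  | zero =>
    intro _
    refine ⟨X ^ j, monic_X_pow j, natDegree_X_pow j, fun m hm => ?_⟩
    rw [coeff_sub, ← pow_mul, coeff_X_pow]
    by_cases h : m = j * 2
    · have h1 : F.coeff m = 1 := by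
        rw [h, mul_comm, ← hd]
        exact hF
      rw [if_pos h, h1, sub_self]
    · rw [if_neg h, sub_zero]
      exact coeff_eq_zero_of_natDegree_lt (by omega)
  | succ k ih =>
    intro hk
    obtain ⟨A, hA, hAd, hR⟩ := ih (by omega)
    have hlow : (C ((F - A ^ 2).coeff (2 * j - k - 1) / 2) * X ^ (j - k - 1) : ℂ[X]).degree <
        A.degree := by
      rw [degree_eq_natDegree hA.ne_zero, hAd]
      refine lt_of_le_of_lt (degree_C_mul_X_pow_le _ _) ?_
      exact_mod_cast (by omega : j - k - 1 < j)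
    refine ⟨A + C ((F - A ^ 2).coeff (2 * j - k - 1) / 2) * X ^ (j - k - 1),
      hA.add_of_left hlow, ?_, fun m hm => ?_⟩
    · rw [natDegree_add_eq_left_of_degree_lt hlow, hAd]
    · set c : ℂ := (F - A ^ 2).coeff (2 * j - k - 1) with hc
      have e : F - (A + C (c / 2) * X ^ (j - k - 1)) ^ 2 =
          (F - A ^ 2) - C c * (X ^ (j - k - 1) * A) -
            C (c ^ 2 / 4) * X ^ (2 * (j - k - 1)) := by
        have e1 : (C c : ℂ[X]) = 2 * C (c / 2) := by
          rw [show (2 : ℂ[X]) = C 2 from (map_ofNat C 2).symm, ← C_mul]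
          congr 1
          ring
        have e2 : (C (c ^ 2 / 4) : ℂ[X]) = C (c / 2) ^ 2 := by
          rw [← C_pow]
          congr 1
          ring
        rw [e1, e2, pow_mul']
        ring
      rw [e, coeff_sub, coeff_sub, coeff_C_mul, coeff_X_pow_mul', coeff_C_mul, coeff_X_pow,
        if_pos (by omega : j - k - 1 ≤ m), if_neg (by omega : ¬ m = 2 * (j - k - 1)), mul_zero,
        sub_zero]
      by_cases h : m = 2 * j - k - 1
      · have h1 : m - (j - k - 1) = A.natDegree := by omega
        rw [h1, h, ← hc]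
        have : A.coeff A.natDegree = 1 := hA
        rw [this, mul_one, sub_self]
      · rw [hR m (by omega), coeff_eq_zero_of_natDegree_lt (by omega : A.natDegree < _), mul_zero,
          sub_zero]

theorem p_A8 (h1 : S_A1) : S_A8 := by
  intro Y hY hne
  obtain ⟨j, hj⟩ := hY
  have hj0 : 0 < j := by
    have := Finset.card_pos.2 hne
    omega
  set F : ℂ[X] := ∏ y ∈ Y, (X - C y) with hFdef
  have hF : F.Monic := monic_prod_of_monic _ _ fun y _ => monic_X_sub_C y
  have hd : F.natDegree = 2 * j := by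
    rw [hFdef, natDegree_finsetProd_X_sub_C_eq_card]
    omega
  obtain ⟨A, hA, hAd, hR⟩ := a8_sq F j hF hd j le_rfl
  refine ⟨A, A ^ 2 - F, hA, by omega, ?_, ?_, by ring⟩
  · intro h0
    have hFA : F = A ^ 2 := (sub_eq_zero.1 h0).symm
    have hemp : OddR F = ∅ := (h1 F hF.ne_zero).2 ⟨A, hFA⟩
    obtain ⟨y, hy⟩ := hne
    have hmem : y ∈ OddR F := by
      rw [mem_OddR]
      refine ⟨hF.ne_zero, ?_⟩
      have h2 : F.rootMultiplicity y = 1 := by
        rw [← count_roots, hFdef, roots_prod_X_sub_C]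
        exact Multiset.count_eq_one_of_mem Y.nodup hy
      rw [h2]
      exact odd_one
    rw [hemp] at hmem
    exact absurd hmem (Finset.notMem_empty y)
  · rw [hAd]
    have h3 : (A ^ 2 - F).degree < (j : WithBot ℕ) := by
      rw [degree_lt_iff_coeff_zero]
      intro m hm
      have h4 := hR m (by omega)
      rw [coeff_sub] at h4 ⊢
      linear_combination -h4
    by_cases h0 : A ^ 2 - F = 0
    · rw [h0, natDegree_zero]
      exact hj0
    · exact (natDegree_lt_iff_degree_lt h0).2 h3

end MP52poly
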