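import Pool.Agent.Lib.MP_52aaf2_al.Poly.PStm

open Polynomial

namespace MP52poly

private theorem pa9_eq (P β : ℂ[X]) :
    P.comp β - C P.leadingCoeff * β ^ P.natDegree = (P.eraseLead).comp β := by
  have h := congrArg (fun Q : ℂ[X] => Q.comp β) P.eraseLead_add_C_mul_X_pow
  simp only [add_comp, mul_comp, C_comp, pow_comp, X_comp] at h
  rw [← h]
  ring

/-- composition: leading term and remainder, times a factor -/
private theorem pa9_comp (P β Q : ℂ[X]) {d n : ℕ} (hβ : β.natDegree = d)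
    (hn : d * P.natDegree + Q.natDegree ≤ d + n) :
    (Q * (P.comp β - C P.leadingCoeff * β ^ P.natDegree)).natDegree ≤ n := by
  rw [pa9_eq]
  rcases P.eraseLead_natDegree_lt_or_eraseLead_eq_zero with h | h
  · refine natDegree_mul_le.trans ?_
    rw [natDegree_comp, hβ]
    have h1 : P.eraseLead.natDegree + 1 ≤ P.natDegree := h
    have h2 : (P.eraseLead.natDegree + 1) * d ≤ P.natDegree * d := Nat.mul_le_mul_right d h1
    rw [Nat.mul_comm d] at hn
    rw [Nat.add_mul, Nat.one_mul] at h2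
    omega
  · rw [h, zero_comp, mul_zero, natDegree_zero]
    exact Nat.zero_le _

theorem p_A9 : S_A9 := by
  intro β β₁ A A₁ B B₁ a hd hβ₁ hA hA₁ hj hB hB₁ hs hs₁ ha h
  have hβ0 : β ≠ 0 := fun h0 => by rw [h0, natDegree_zero] at hd; exact lt_irrefl _ hd
  have hβ₁0 : β₁ ≠ 0 := fun h0 => by
    rw [h0, natDegree_zero] at hβ₁; rw [← hβ₁] at hd; exact lt_irrefl _ hd
  have hne : ∀ (P q : ℂ[X]), P ≠ 0 → 0 < q.natDegree → P.comp q ≠ 0 := by
    intro P q hP hq h0
    rcases comp_eq_zero_iff.1 h0 with h1 | ⟨_, h1⟩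
    · exact hP h1
    · rw [h1, natDegree_C] at hq
      exact lt_irrefl _ hq
  set d := β.natDegree with hdd
  set j := A.natDegree with hjj
  set s := B.natDegree with hss
  have hd₁ : 0 < β₁.natDegree := by rw [hβ₁]; exact hd
  have hAc := hne A β hA.ne_zero hd
  have hA₁c := hne A₁ β₁ hA₁.ne_zero hd₁
  have hBc := hne B β hB hd
  have hB₁c := hne B₁ β₁ hB₁ hd₁
  have hCa : C a ≠ 0 := C_ne_zero.2 ha
  have hs1 : B₁.natDegree = s := by
    have h1 := congrArg natDegree h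
    rw [natDegree_mul (pow_ne_zero _ hAc) hB₁c,
      natDegree_mul (mul_ne_zero hCa (pow_ne_zero _ hA₁c)) hBc,
      natDegree_mul hCa (pow_ne_zero _ hA₁c), natDegree_pow, natDegree_pow, natDegree_comp,
      natDegree_comp, natDegree_comp, natDegree_comp, natDegree_C, hβ₁, hj, ← hdd, ← hjj, ← hss,
      zero_add] at h1
    exact Nat.eq_of_mul_eq_mul_right hd (Nat.add_left_cancel h1)
  set b := B.leadingCoeff with hb
  set b₁ := B₁.leadingCoeff with hb₁
  have hb0 : b ≠ 0 := leadingCoeff_ne_zero.2 hB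
  have hb₁0 : b₁ ≠ 0 := leadingCoeff_ne_zero.2 hB₁
  have hA2 : (A ^ 2).natDegree = 2 * j := by rw [natDegree_pow]
  have hA₁2 : (A₁ ^ 2).natDegree = 2 * j := by rw [natDegree_pow, hj]
  have hA2m : (A ^ 2).leadingCoeff = 1 := (hA.pow 2).leadingCoeff
  have hA₁2m : (A₁ ^ 2).leadingCoeff = 1 := (hA₁.pow 2).leadingCoeff
  set N := d * (2 * j + s - 1) with hN
  have hNd : d + N = 2 * j * d + s * d := by
    have h1 : 2 * j + s - 1 + 1 = 2 * j + s := by omega
    calc d + N = d * (2 * j + s - 1 + 1) := by rw [hN]; ring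
      _ = 2 * j * d + s * d := by rw [h1]; ring
  have hL : ((A.comp β) ^ 2 * B₁.comp β₁ - C b₁ * β ^ (2 * j) * β₁ ^ s).natDegree ≤ N := by
    have e : (A.comp β) ^ 2 * B₁.comp β₁ - C b₁ * β ^ (2 * j) * β₁ ^ s =
        B₁.comp β₁ * ((A ^ 2).comp β - C (A ^ 2).leadingCoeff * β ^ (A ^ 2).natDegree) +
        β ^ (2 * j) * (B₁.comp β₁ - C B₁.leadingCoeff * β₁ ^ B₁.natDegree) := by
      rw [hA2, hA2m, hs1, ← hb₁, pow_comp, C_1]
      ring
    rw [e]
    refine (natDegree_add_le _ _).trans (max_le ?_ ?_)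
    · refine pa9_comp _ _ _ hdd.symm ?_
      rw [hA2, natDegree_comp, hs1, hβ₁, hNd, Nat.mul_comm d]
    · refine pa9_comp _ _ _ hβ₁ ?_
      rw [hs1, natDegree_pow, ← hdd, hNd, Nat.mul_comm d, Nat.add_comm]
  have hR : (C a * (A₁.comp β₁) ^ 2 * B.comp β - C (a * b) * β₁ ^ (2 * j) * β ^ s).natDegree
      ≤ N := by
    have e : C a * (A₁.comp β₁) ^ 2 * B.comp β - C (a * b) * β₁ ^ (2 * j) * β ^ s =
        C a * (B.comp β * ((A₁ ^ 2).comp β₁ - C (A₁ ^ 2).leadingCoeff *
          β₁ ^ (A₁ ^ 2).natDegree) +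
        β₁ ^ (2 * j) * (B.comp β - C B.leadingCoeff * β ^ B.natDegree)) := by
      rw [hA₁2, hA₁2m, ← hb, pow_comp, C_1, C_mul, ← hss]
      ring
    rw [e]
    refine (natDegree_C_mul_le _ _).trans ((natDegree_add_le _ _).trans (max_le ?_ ?_))
    · refine pa9_comp _ _ _ hβ₁ ?_
      rw [hA₁2, natDegree_comp, ← hss, ← hdd, hNd, Nat.mul_comm d]
    · refine pa9_comp _ _ _ hdd.symm ?_
      rw [← hss, natDegree_pow, hβ₁, hNd, Nat.mul_comm d, Nat.add_comm]
  obtain ⟨m, hm⟩ : ∃ m, 2 * j = s + (m + 1) := ⟨2 * j - s - 1, by omega⟩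
  set U := C b₁ * β ^ (m + 1) - C (a * b) * β₁ ^ (m + 1) with hU
  have hT : (β ^ s * β₁ ^ s * U).natDegree ≤ N := by
    have e : β ^ s * β₁ ^ s * U =
        (C a * (A₁.comp β₁) ^ 2 * B.comp β - C (a * b) * β₁ ^ (2 * j) * β ^ s) -
        ((A.comp β) ^ 2 * B₁.comp β₁ - C b₁ * β ^ (2 * j) * β₁ ^ s) := by
      rw [h, hU, hm]
      ring
    rw [e]
    exact (natDegree_sub_le _ _).trans (max_le hR hL)
  have hUd : U.natDegree ≤ m * d := by
    by_cases h0 : U = 0
    · rw [h0, natDegree_zero]; exact Nat.zero_le _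
    · rw [natDegree_mul (mul_ne_zero (pow_ne_zero _ hβ0) (pow_ne_zero _ hβ₁0)) h0,
        natDegree_mul (pow_ne_zero _ hβ0) (pow_ne_zero _ hβ₁0), natDegree_pow, natDegree_pow,
        hβ₁, ← hdd] at hT
      have h1 : N = s * d + s * d + m * d := by
        have h2 : 2 * j + s - 1 = s + s + m := by omega
        rw [hN, h2]
        ring
      omega
  have hlc : β.leadingCoeff ≠ 0 := leadingCoeff_ne_zero.2 hβ0
  have hlc₁ : β₁.leadingCoeff ≠ 0 := leadingCoeff_ne_zero.2 hβ₁0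
  set l := β.leadingCoeff with hl
  set l₁ := β₁.leadingCoeff with hl₁
  have hcf : b₁ * l ^ (m + 1) = a * b * l₁ ^ (m + 1) := by
    have h1 : U.coeff ((m + 1) * d) = 0 := by
      apply coeff_eq_zero_of_natDegree_lt
      refine lt_of_le_of_lt hUd ?_
      rw [Nat.add_mul]
      omega
    rw [hU, coeff_sub, coeff_C_mul, coeff_C_mul, coeff_pow_of_natDegree_le hdd.symm.le,
      coeff_pow_of_natDegree_le hβ₁.le] at h1
    have h2 : β.coeff d = l := rfl
    have h3 : β₁.coeff d = l₁ := by rw [hl₁, leadingCoeff, hβ₁]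
    rw [h2, h3] at h1
    exact sub_eq_zero.1 h1
  set c := l / l₁ with hc
  have hcl : c * l₁ = l := div_mul_cancel₀ _ hlc₁
  have hUV : U = C b₁ * (β ^ (m + 1) - (C c * β₁) ^ (m + 1)) := by
    have h1 : a * b = b₁ * c ^ (m + 1) := by
      have h2 : a * b * l₁ ^ (m + 1) = b₁ * c ^ (m + 1) * l₁ ^ (m + 1) := by
        rw [← hcf, mul_assoc, ← mul_pow, hcl]
      exact mul_right_cancel₀ (pow_ne_zero _ hlc₁) h2
    rw [hU, h1, C_mul, C_pow]
    ring
  have hVd : (β ^ (m + 1) - (C c * β₁) ^ (m + 1)).natDegree ≤ m * d := by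
    rw [hUV, natDegree_C_mul hb₁0] at hUd
    exact hUd
  set W := ∑ i ∈ Finset.range (m + 1), β ^ i * (C c * β₁) ^ (m + 1 - 1 - i) with hW
  have hWV : W * (β - C c * β₁) = β ^ (m + 1) - (C c * β₁) ^ (m + 1) :=
    (Commute.all β (C c * β₁)).geom_sum₂_mul (m + 1)
  have hcβ : (C c * β₁).natDegree ≤ d := (natDegree_C_mul_le _ _).trans hβ₁.le
  have hWc : W.coeff (m * d) ≠ 0 := by
    have h1 : W.coeff (m * d) = (m + 1 : ℕ) * l ^ m := by
      rw [hW, finsetSum_coeff]
      have h2 : ∀ i ∈ Finset.range (m + 1),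
          (β ^ i * (C c * β₁) ^ (m + 1 - 1 - i)).coeff (m * d) = l ^ m := by
        intro i hi
        have hi' : i ≤ m := Nat.lt_succ_iff.1 (Finset.mem_range.1 hi)
        have e : m * d = i * d + (m + 1 - 1 - i) * d := by
          rw [← Nat.add_mul]
          congr 1
          omega
        rw [e, coeff_mul_add_eq_of_natDegree_le (natDegree_pow_le_of_le _ hdd.symm.le)
          (natDegree_pow_le_of_le _ hcβ), coeff_pow_of_natDegree_le hdd.symm.le,
          coeff_pow_of_natDegree_le hcβ, coeff_C_mul]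
        have h2 : β.coeff d = l := rfl
        have h3 : β₁.coeff d = l₁ := by rw [hl₁, leadingCoeff, hβ₁]
        rw [h2, h3, hcl, ← pow_add]
        congr 1
        omega
      rw [Finset.sum_congr rfl h2, Finset.sum_const, Finset.card_range, nsmul_eq_mul]
    rw [h1]
    exact mul_ne_zero (Nat.cast_ne_zero.2 (Nat.succ_ne_zero m)) (pow_ne_zero _ hlc)
  have hW0 : W ≠ 0 := fun h0 => hWc (by rw [h0, coeff_zero])
  have hWd : m * d ≤ W.natDegree := le_natDegree_of_ne_zero hWc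
  refine ⟨c, (β - C c * β₁).coeff 0, ?_⟩
  have hfin : (β - C c * β₁) = C ((β - C c * β₁).coeff 0) := by
    by_cases h0 : β - C c * β₁ = 0
    · rw [h0, coeff_zero, C_0]
    · apply eq_C_of_natDegree_eq_zero
      have h1 := hVd
      rw [← hWV, natDegree_mul hW0 h0] at h1
      omega
  rw [← hfin]
  ring

end MP52poly
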