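import Pool.Agent.Lib.MP_52aaf2_al.Poly.PStm

/-! [B1] Fibres in an algebraically closed field. -/

open Polynomial

namespace MP52poly

theorem p_B1 : S_B1 := by
  classical
  intro K _ _ _ β t hβ
  have hinj : Function.Injective (algebraMap ℂ K) := (algebraMap ℂ K).injective
  set p : K[X] := β.map (algebraMap ℂ K) - C t with hp
  have hdeg : p.natDegree = β.natDegree := by
    rw [hp, natDegree_sub_C, natDegree_map]
  have hp0 : p ≠ 0 := by
    intro h
    rw [h, natDegree_zero] at hdeg
    omega
  have hmem : ∀ Y, Y ∈ Rt β t ↔ aeval Y β = t := by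
    intro Y
    have h1 : Rt β t = p.roots.toFinset := by
      unfold Rt
      congr
    rw [h1, Multiset.mem_toFinset, mem_roots hp0, IsRoot.def, hp, eval_sub, eval_C, eval_map,
      ← aeval_def, sub_eq_zero]
  refine ⟨hmem, ?_⟩
  intro ht
  have hnd : p.roots.Nodup := by
    rw [Multiset.nodup_iff_count_le_one]
    intro Y
    rw [count_roots]
    by_contra hcon
    push Not at hcon
    have hY : (derivative p).IsRoot Y := by
      have := (one_lt_rootMultiplicity_iff_isRoot hp0).1 hcon
      exact this.2
    have hY' : p.IsRoot Y := by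
      have := (one_lt_rootMultiplicity_iff_isRoot hp0).1 hcon
      exact this.1
    have hd : aeval Y (derivative β) = 0 := by
      rw [hp, derivative_sub, derivative_C, sub_zero, derivative_map, IsRoot.def, eval_map,
        ← aeval_def] at hY
      exact hY
    have hd0 : derivative β ≠ 0 := by
      intro h
      have := derivative_eq_zero.1 h
      omega
    have halg : IsAlgebraic ℂ Y := ⟨derivative β, hd0, hd⟩
    apply ht
    have ht' : aeval Y β = t := by
      rw [hp, IsRoot.def, eval_sub, eval_C, eval_map, ← aeval_def, sub_eq_zero] at hY'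
      exact hY'
    rw [← ht']
    exact (IsIntegral.of_mem_of_fg (Algebra.adjoin ℂ {Y}) halg.isIntegral.fg_adjoin_singleton
      _ (Polynomial.aeval_mem_adjoin_singleton ℂ Y)).isAlgebraic
  have h1 : Rt β t = p.roots.toFinset := by
    unfold Rt
    congr
  rw [h1, Multiset.toFinset_card_of_nodup hnd, ← hdeg]
  exact ((IsAlgClosed.splits p).natDegree_eq_card_roots).symm

end MP52poly
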