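import Pool.Agent.Lib.MP_52aaf2_al.Poly.PStm

set_option autoImplicit false

/-! Piece B2: transcendental elements. -/

open Polynomial

namespace MP52poly

/-- [B2] -/
theorem p_B2 : S_B2 := by
  intro K _ _ β Y hβ
  rw [transcendental_aeval_iff]
  refine ⟨fun h => h.1, fun h => ⟨h, ?_⟩⟩
  have h1 : Transcendental ℂ (aeval (X : ℂ[X]) β) := by
    refine (transcendental_X ℂ).aeval β hβ.ne' ?_
    rw [mem_nonZeroDivisors_iff_ne_zero, Ne, leadingCoeff_eq_zero]
    rintro rfl
    simp at hβ
  rwa [aeval_X_left_apply] at h1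

end MP52poly
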