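import Pool.Agent.Lib.MP_52aaf2_al.Poly.PStm

open Polynomial

namespace MP52poly

/-- the product of the values of a product of linear factors -/
private theorem b3_fibre {K : Type} [Field K] [Algebra ℂ K] [IsAlgClosed K] {β : ℂ[X]} {t : K}
    (hd : 0 < β.natDegree) (hc : (Rt β t).card = β.natDegree) :
    β.map (algebraMap ℂ K) - C t =
      C (algebraMap ℂ K β.leadingCoeff) * ∏ Y ∈ Rt β t, (X - C Y) := by
  classical
  set F : K[X] := β.map (algebraMap ℂ K) - C t with hF
  have hinj : Function.Injective (algebraMap ℂ K) := (algebraMap ℂ K).injective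
  have hdeg : F.natDegree = β.natDegree := by
    rw [hF, natDegree_sub_C, natDegree_map]
  have hlc : F.leadingCoeff = algebraMap ℂ K β.leadingCoeff := by
    rw [leadingCoeff, hdeg, hF, coeff_sub, coeff_map, coeff_C, if_neg hd.ne', sub_zero,
      leadingCoeff]
  have hsp : F.Splits := IsAlgClosed.splits F
  have hroots : F.roots.card = F.natDegree := hsp.natDegree_eq_card_roots.symm
  have hRt : Rt β t = F.roots.toFinset := by
    unfold Rt
    exact Finset.ext fun x => by simp only [Multiset.mem_toFinset, hF]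
  have hnd : F.roots.Nodup := by
    rw [← Multiset.toFinset_card_eq_card_iff_nodup, ← hRt, hc, hroots, hdeg]
  have h1 := C_leadingCoeff_mul_prod_multiset_X_sub_C hroots
  rw [hlc] at h1
  rw [← h1, hRt, Finset.prod, Multiset.toFinset_val, hnd.dedup]

/-- the norm of one linear factor -/
private theorem b3_lin {K : Type} [Field K] [Algebra ℂ K] [IsAlgClosed K] {β : ℂ[X]} {t : K}
    (hd : 0 < β.natDegree) (hc : (Rt β t).card = β.natDegree) (ρ : ℂ) :
    ∏ Y ∈ Rt β t, aeval Y (X - C ρ) =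
      aeval t (C ((-1) ^ β.natDegree / β.leadingCoeff) * (C (β.eval ρ) - X)) := by
  have h := congrArg (Polynomial.eval (algebraMap ℂ K ρ)) (b3_fibre hd hc)
  rw [eval_sub, eval_C, eval_map_algebraMap, aeval_algebraMap_apply, eval_mul, eval_C,
    eval_prod] at h
  simp only [eval_sub, eval_X, eval_C] at h
  have h2 : ∏ Y ∈ Rt β t, aeval Y (X - C ρ) =
      (-1) ^ β.natDegree * ∏ Y ∈ Rt β t, (algebraMap ℂ K ρ - Y) := by
    rw [← hc, ← Finset.prod_const, ← Finset.prod_mul_distrib]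
    refine Finset.prod_congr rfl fun Y _ => ?_
    rw [map_sub, aeval_X, aeval_C]
    ring
  have hlc : algebraMap ℂ K β.leadingCoeff ≠ 0 := by
    rw [Ne, map_eq_zero, leadingCoeff_eq_zero]
    rintro rfl
    simp at hd
  rw [h2, map_mul, map_sub, aeval_C, aeval_C, aeval_X, map_div₀, map_pow, map_neg, map_one]
  have h3 : ∏ Y ∈ Rt β t, (algebraMap ℂ K ρ - Y) =
      (algebraMap ℂ K (β.eval ρ) - t) / algebraMap ℂ K β.leadingCoeff := by
    rw [eq_div_iff hlc]
    rw [coe_aeval_eq_eval] at h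
    rw [h]
    ring
  rw [h3]
  ring

theorem p_B3 (h1 : S_B1) : S_B3 := by
  classical
  intro K _ _ _ β P hd hP
  have hlc : β.leadingCoeff ≠ 0 := by
    rw [Ne, leadingCoeff_eq_zero]
    rintro rfl
    simp at hd
  have hlin : ∀ ρ : ℂ, (C ((-1) ^ β.natDegree / β.leadingCoeff) * (C (β.eval ρ) - X) : ℂ[X]) ≠ 0 ∧
      (C ((-1) ^ β.natDegree / β.leadingCoeff) * (C (β.eval ρ) - X) : ℂ[X]).natDegree = 1 := by
    intro ρ
    have e : (C (β.eval ρ) - X : ℂ[X]) = -(X - C (β.eval ρ)) := by ring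
    have h0 : ((-1) ^ β.natDegree / β.leadingCoeff : ℂ) ≠ 0 :=
      div_ne_zero (pow_ne_zero _ (by norm_num)) hlc
    constructor
    · rw [e]
      exact mul_ne_zero (C_ne_zero.2 h0) (neg_ne_zero.2 (X_sub_C_ne_zero _))
    · rw [natDegree_C_mul h0, e, natDegree_neg, natDegree_X_sub_C]
  have key : ∀ m : Multiset ℂ, ∃ Ψ : ℂ[X], Ψ ≠ 0 ∧ Ψ.natDegree = m.card ∧
      ∀ t : K, Transcendental ℂ t → ∏ Y ∈ Rt β t, aeval Y (m.map fun ρ => (X - C ρ : ℂ[X])).prod =
        aeval t Ψ := by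
    intro m
    induction m using Multiset.induction_on with
    | empty => exact ⟨1, one_ne_zero, by simp, fun t _ => by simp⟩
    | cons ρ m ih =>
      obtain ⟨Ψ, h2, h3, h4⟩ := ih
      refine ⟨C ((-1) ^ β.natDegree / β.leadingCoeff) * (C (β.eval ρ) - X) * Ψ,
        mul_ne_zero (hlin ρ).1 h2, ?_, fun t ht => ?_⟩
      · rw [natDegree_mul (hlin ρ).1 h2, (hlin ρ).2, h3, Multiset.card_cons, add_comm]
      · rw [map_mul, ← h4 t ht, ← b3_lin hd ((h1 K β t hd).2 ht) ρ, ← Finset.prod_mul_distrib]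
        refine Finset.prod_congr rfl fun Y _ => ?_
        rw [Multiset.map_cons, Multiset.prod_cons, map_mul]
  obtain ⟨Ψ, h2, h3, h4⟩ := key P.roots
  have hsp : P.Splits := IsAlgClosed.splits P
  have hroots : P.roots.card = P.natDegree := hsp.natDegree_eq_card_roots.symm
  have hPe := C_leadingCoeff_mul_prod_multiset_X_sub_C hroots
  have hPl : P.leadingCoeff ^ β.natDegree ≠ 0 := pow_ne_zero _ (leadingCoeff_ne_zero.2 hP)
  refine ⟨C (P.leadingCoeff ^ β.natDegree) * Ψ, mul_ne_zero (C_ne_zero.2 hPl) h2, ?_,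
    fun t ht => ?_⟩
  · rw [natDegree_C_mul hPl, h3, hroots]
  · rw [map_mul, aeval_C, ← h4 t ht, map_pow, ← (h1 K β t hd).2 ht, ← Finset.prod_const,
      ← Finset.prod_mul_distrib]
    refine Finset.prod_congr rfl fun Y _ => ?_
    conv_lhs => rw [← hPe]
    rw [map_mul, aeval_C]

end MP52poly
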