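import Pool.Agent.Lib.MP_52aaf2_al.Poly.PStm

open Polynomial

namespace MP52poly

theorem p_B4 : S_B4 := by
  intro K _ _ v θ F p q hv hq h1 h2
  have hinj : Function.Injective (aeval v : ℂ[X] →ₐ[ℂ] K) := transcendental_iff_injective.1 hv
  have h3 : p ^ 2 = F * q ^ 2 := by
    apply hinj
    rw [map_pow, map_mul, map_pow, ← h1, ← h2]
    ring
  have h4 : q ^ 2 ∣ p ^ 2 := ⟨F, by rw [h3]; ring⟩
  have h5 : q ∣ p := by
    rcases eq_or_ne p 0 with rfl | hp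
    · exact dvd_zero q
    · exact (UniqueFactorizationMonoid.pow_dvd_pow_iff_dvd two_ne_zero).1 h4
  obtain ⟨G, rfl⟩ := h5
  refine ⟨G, ?_⟩
  have h6 : q ^ 2 ≠ 0 := pow_ne_zero _ hq
  apply mul_right_cancel₀ h6
  rw [← h3]
  ring

end MP52poly
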