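import Pool.Agent.Lib.MP_52aaf2_al.Poly.PStm

/-! Piece C2. -/

open Polynomial

namespace MP52poly

private theorem c2_sq {K : Type} [Field K] [Algebra ℂ K] (D : ℂ[X]) (t a : K) (h : K ≃ₐ[ℂ] K)
    (ht : h t = t) (ha : a ^ 2 = aeval t D) : h a = a ∨ h a = -a := by
  have e1 : (h a) ^ 2 = a ^ 2 := by
    have e2 : aeval (h t) D = h (aeval t D) :=
      Polynomial.aeval_algHom_apply (f := (h : K →ₐ[ℂ] K)) t D
    rw [← map_pow, ha, ← e2, ht]
  exact sq_eq_sq_iff_eq_or_eq_neg.1 e1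

private theorem c2_fix (hA1 : S_A1) (hB4 : S_B4) {K : Type} [Field K] [Algebra ℂ K]
    (β D : ℂ[X]) (hG : Good K β D) (H : Subgroup (K ≃ₐ[ℂ] K)) (z b : K)
    (hz : Transcendental ℂ z) (hF : Full β (H : Set _) z) (hb : b ^ 2 = aeval z D)
    (hfix : ∀ h ∈ H, h b = b) : False := by
  have h1 : ∀ g : K ≃ₐ[ℂ] K, g z = z → g b = b := by
    intro g hg
    obtain ⟨h, hh, hY⟩ := hF g hg
    have h2 : (h⁻¹ * g) b = b := by
      refine hG.fix z b hz hb (h⁻¹ * g) fun Y hYz => ?_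
      change h.symm (g Y) = Y
      rw [AlgEquiv.symm_apply_eq]
      exact (hY Y hYz).symm
    have h3 : h.symm (g b) = b := h2
    rw [AlgEquiv.symm_apply_eq] at h3
    rw [h3]
    exact hfix h hh
  obtain ⟨p, q, hq, hpq⟩ := hG.field z b hz h1
  obtain ⟨G, hDG⟩ := hB4 K z b D p q hz hq hpq hb
  have h4 := (hA1 D hG.D_ne).2 ⟨G, hDG⟩
  have h5 := hG.odd_ne
  rw [h4] at h5
  exact Finset.not_nonempty_empty h5

theorem p_C2 (hA1 : S_A1) (hB4 : S_B4) : S_C2 := by
  intro K _ _ _ β D hG t z a b H N ht hz hH hFt hFz ha hb hg hN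
  have hNH : N ≤ H := fun n hn => ((hN n).1 hn).1
  have hroot : ∀ (h : K ≃ₐ[ℂ] K) (Y : K), aeval (h Y) β = h (aeval Y β) := fun h Y =>
    Polynomial.aeval_algHom_apply (f := (h : K →ₐ[ℂ] K)) Y β
  have hnorm : ∀ h ∈ H, ∀ n ∈ N, h * n * h⁻¹ ∈ N := by
    intro h hh n hn
    rw [hN]
    refine ⟨H.mul_mem (H.mul_mem hh (hNH hn)) (H.inv_mem hh), fun Y hY => ?_⟩
    change h (n (h.symm Y)) = Y
    have h1 : aeval (h.symm Y) β = z := by
      rw [hroot h.symm Y, hY]
      rw [AlgEquiv.symm_apply_eq]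
      exact (hH h hh).2.symm
    rw [((hN n).1 hn).2 _ h1]
    exact h.apply_symm_apply Y
  refine hG.norm t a ht ha H N hNH (fun h hh => (hH h hh).1) hnorm hFt ?_
  by_contra hcon
  push Not at hcon
  have hsa : ∀ h ∈ H, h a = a ∨ h a = -a := fun h hh => c2_sq D t a h (hH h hh).1 ha
  have hsb : ∀ h ∈ H, h b = b ∨ h b = -b := fun h hh => c2_sq D z b h (hH h hh).2 hb
  -- the subgroup M
  let M : Subgroup (K ≃ₐ[ℂ] K) :=
    { carrier := {h | h ∈ H ∧ h a = a}
      mul_mem' := by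
        rintro f g ⟨hf, hf'⟩ ⟨hg, hg'⟩
        refine ⟨H.mul_mem hf hg, ?_⟩
        change f (g a) = a
        rw [hg', hf']
      one_mem' := ⟨H.one_mem, rfl⟩
      inv_mem' := by
        rintro f ⟨hf, hf'⟩
        refine ⟨H.inv_mem hf, ?_⟩
        change f.symm a = a
        rw [AlgEquiv.symm_apply_eq]
        exact hf'.symm }
  have hM : ∀ m, m ∈ M ↔ m ∈ H ∧ m a = a := fun m => Iff.rfl
  have hMn : ∀ h ∈ H, ∀ m ∈ M, h * m * h⁻¹ ∈ M := by
    intro h hh m hm
    rw [hM] at hm ⊢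
    refine ⟨H.mul_mem (H.mul_mem hh hm.1) (H.inv_mem hh), ?_⟩
    change h (m (h.symm a)) = a
    have h1 : m (h.symm a) = h.symm a := by
      rcases hsa h⁻¹ (H.inv_mem hh) with h2 | h2
      · have h3 : h.symm a = a := h2
        rw [h3, hm.2]
      · have h3 : h.symm a = -a := h2
        rw [h3, map_neg, hm.2]
    rw [h1]
    exact h.apply_symm_apply a
  by_cases hcase : ∃ m ∈ M, m b ≠ b
  · have hFM := hG.norm z b hz hb H M (fun m hm => hm.1) (fun h hh => (hH h hh).2) hMn hFz hcase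
    refine c2_fix hA1 hB4 β D hG H t a ht hFt ha fun h hh => ?_
    obtain ⟨m, hm, hmY⟩ := hFM h (hH h hh).2
    have h1 : m⁻¹ * h ∈ N := by
      rw [hN]
      refine ⟨H.mul_mem (H.inv_mem hm.1) hh, fun Y hY => ?_⟩
      change m.symm (h Y) = Y
      rw [AlgEquiv.symm_apply_eq]
      exact (hmY Y hY).symm
    have h2 : m.symm (h a) = a := hcon _ h1
    rw [AlgEquiv.symm_apply_eq] at h2
    rw [h2]
    exact hm.2
  · push Not at hcase
    obtain ⟨g, hgH, hgab⟩ := hg
    have hga : g a ≠ a := by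
      intro h1
      apply hgab
      rw [map_mul, h1, hcase g ⟨hgH, h1⟩]
    have hga' : g a = -a := (hsa g hgH).resolve_left hga
    have hgb : g b = b := by
      rcases hsb g hgH with h1 | h1
      · exact h1
      · exfalso
        apply hgab
        rw [map_mul, hga', h1]
        ring
    obtain ⟨h, hh, hhb⟩ : ∃ h ∈ H, h b ≠ b := by
      by_contra hno
      push Not at hno
      exact c2_fix hA1 hB4 β D hG H z b hz hFz hb hno
    have hhb' : h b = -b := (hsb h hh).resolve_left hhb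
    have hha : h a ≠ a := fun h1 => hhb (hcase h ⟨hh, h1⟩)
    have hha' : h a = -a := (hsa h hh).resolve_left hha
    have h1 : g * h ∈ M := by
      refine ⟨H.mul_mem hgH hh, ?_⟩
      change g (h a) = a
      rw [hha', map_neg, hga', neg_neg]
    have h2 : g (h b) = b := hcase _ h1
    rw [hhb', map_neg, hgb] at h2
    exact hhb (hhb'.trans h2)

end MP52poly
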