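import Pool.Agent.Lib.MP_52aaf2_al.Poly.PStm

/-! Piece C3. -/

open Polynomial

namespace MP52poly

private theorem c3_sign {K : Type} [Field K] [Algebra ℂ K] (g : K ≃ₐ[ℂ] K) (s : K)
    (hs : s = 1 ∨ s = -1) : g s = s := by
  rcases hs with rfl | rfl
  · exact map_one g
  · rw [map_neg, map_one]

theorem p_C3 : S_C3 := by
  intro K _ _ F H R v a b r hv hodd htr hsa ha hb hbv hab hr h hh hfix
  obtain ⟨s, hs, hhs⟩ : ∃ s : K, (s = 1 ∨ s = -1) ∧ h a = s * a := by
    rcases hsa h hh with h1 | h1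
    · exact ⟨1, Or.inl rfl, by rw [h1, one_mul]⟩
    · exact ⟨-1, Or.inr rfl, by rw [h1, neg_one_mul]⟩
  have hss : s * s = 1 := by
    rcases hs with rfl | rfl <;> ring
  have hcan : ∀ x : K, s * a * x = a * b → x = s * b := by
    intro x hx
    have h1 : a * (s * x) = a * b := by rw [← hx]; ring
    have h2 := mul_left_cancel₀ ha h1
    rw [← h2, ← mul_assoc, hss, one_mul]
  have hhb : h b = s * b := by
    apply hcan
    rw [← hhs, ← map_mul]
    exact hab h hh (hfix v hv)
  have hrY : ∀ Y ∈ R, h (r Y) = s * r Y := by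
    intro Y hY
    obtain ⟨g, hg, hgv⟩ := htr Y hY
    obtain ⟨e, he, hge⟩ : ∃ e : K, (e = 1 ∨ e = -1) ∧ g a = e * a := by
      rcases hsa g hg with h1 | h1
      · exact ⟨1, Or.inl rfl, by rw [h1, one_mul]⟩
      · exact ⟨-1, Or.inr rfl, by rw [h1, neg_one_mul]⟩
    have hee : e * e = 1 := by
      rcases he with rfl | rfl <;> ring
    have hgi : g.symm a = e * a := by
      rw [AlgEquiv.symm_apply_eq, map_mul, c3_sign g e he, hge, ← mul_assoc, hee, one_mul]
    have hmem : g⁻¹ * h * g ∈ H := H.mul_mem (H.mul_mem (H.inv_mem hg) hh) hg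
    have h1 : (g⁻¹ * h * g) v = v := by
      change g.symm (h (g v)) = v
      rw [hgv, hfix Y hY, ← hgv]
      exact g.symm_apply_apply v
    have h2 : g.symm (h (g (a * b))) = a * b := hab _ hmem h1
    have h3 : g.symm (h (g a)) = s * a := by
      rw [hge, map_mul, c3_sign h e he, hhs, map_mul, map_mul, c3_sign g.symm e he,
        c3_sign g.symm s hs, hgi]
      linear_combination s * a * hee
    have h4 : g.symm (h (g b)) = s * b := by
      apply hcan
      rw [← h3, ← map_mul, ← map_mul, ← map_mul]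
      exact h2
    rw [AlgEquiv.symm_apply_eq, map_mul, c3_sign g s hs] at h4
    have h5 : (r Y) ^ 2 = (g b) ^ 2 := by
      have e2 : aeval (g v) F = g (aeval v F) :=
        Polynomial.aeval_algHom_apply (f := (g : K →ₐ[ℂ] K)) v F
      rw [hr Y hY, ← map_pow, hbv, ← e2, hgv]
    rcases sq_eq_sq_iff_eq_or_eq_neg.1 h5 with h6 | h6
    · rw [h6, h4]
    · rw [h6, map_neg, h4, mul_neg]
  rw [map_mul, map_prod, Finset.prod_congr rfl hrY, Finset.prod_mul_distrib, Finset.prod_const,
    hhb]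
  have hpow : s * s ^ R.card = 1 := by
    obtain ⟨m, hm⟩ := hodd
    rw [hm, pow_succ, pow_mul]
    have : s ^ 2 = 1 := by rw [sq, hss]
    rw [this, one_pow, one_mul, hss]
  linear_combination (b * ∏ Y ∈ R, r Y) * hpow

end MP52poly
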