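import Pool.Agent.Lib.MP_52aaf2_al.Poly.PStm

open Polynomial

namespace MP52poly

/-- a product of terms each equal to `± f` is `±` the product of `f` -/
private theorem c4_sign {ι K : Type} [Field K] (s : Finset ι) (f g : ι → K)
    (h : ∀ i ∈ s, g i = f i ∨ g i = -f i) :
    ∏ i ∈ s, g i = ∏ i ∈ s, f i ∨ ∏ i ∈ s, g i = -∏ i ∈ s, f i := by
  classical
  induction s using Finset.induction_on with
  | empty => left; simp
  | insert a s ha ih =>
    have h1 := h a (Finset.mem_insert_self _ _)
    have h2 := ih (fun i hi => h i (Finset.mem_insert_of_mem hi))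
    rw [Finset.prod_insert ha, Finset.prod_insert ha]
    rcases h1 with h1 | h1 <;> rcases h2 with h2 | h2 <;> rw [h1, h2]
    · left; rfl
    · right; ring
    · right; ring
    · left; ring

private theorem c4_sq {K : Type} [Field K] [Algebra ℂ K] (g : K ≃ₐ[ℂ] K) (F : ℂ[X])
    (b b' v v' : K) (hb : b ^ 2 = aeval v F) (hb' : b' ^ 2 = aeval v' F) (hg : g v = v') :
    g b = b' ∨ g b = -b' := by
  have h : g b ^ 2 = b' ^ 2 := by
    rw [← map_pow, hb, hb', ← hg]
    exact (aeval_algHom_apply g.toAlgHom v F).symm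
  exact sq_eq_sq_iff_eq_or_eq_neg.1 h

theorem p_C4 : S_C4 := by
  classical
  intro K _ _ F R v b r g hb hr hv hR
  have h1 := c4_sq g F b b v v hb hb hv
  have himg : R.image g = R := by
    refine Finset.eq_of_subset_of_card_le ?_ ?_
    · intro y hy
      obtain ⟨Y, hY, rfl⟩ := Finset.mem_image.1 hy
      exact hR Y hY
    · rw [Finset.card_image_of_injective _ g.injective]
  have h2 : ∏ Y ∈ R, r (g Y) = ∏ Y ∈ R, r Y := by
    conv_rhs => rw [← himg]
    rw [Finset.prod_image (fun x _ y _ h => g.injective h)]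
  have h3 := c4_sign R (fun Y => r (g Y)) (fun Y => g (r Y)) (fun Y hY =>
    c4_sq g F (r Y) (r (g Y)) Y (g Y) (hr Y hY) (hr _ (hR Y hY)) rfl)
  rw [map_mul, map_prod]
  rw [h2] at h3
  rcases h1 with h1 | h1 <;> rcases h3 with h3 | h3 <;> rw [h1, h3]
  · left; rfl
  · right; ring
  · right; ring
  · left; ring

end MP52poly
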