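import Pool.Agent.Lib.MP_52aaf2_al.Poly.PStm

/-! # C5 : from an invariant product of square roots to a polynomial identity -/

open Polynomial

namespace MP52poly

private theorem c5_fix {K : Type} [Field K] [Algebra ℂ K] (g : K ≃ₐ[ℂ] K) (v : K)
    (F : ℂ[X]) : aeval (g v) F = g (aeval v F) := by
  rw [← AlgEquiv.coe_toAlgHom, aeval_algHom_apply]

theorem p_C5 (hB1 : S_B1) (hB2 : S_B2) (hB3 : S_B3) (hB4 : S_B4) (hC4 : S_C4) : S_C5 := by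
  intro K _ _ _ β D hG F v b r hF hv hb hr hfix
  have hβ : 0 < β.natDegree := lt_of_lt_of_le (by norm_num) hG.deg_ge
  have hy : Transcendental ℂ (aeval v β) := (hB2 K β v hβ).2 hv
  obtain ⟨hmem, -⟩ := hB1 K β (aeval v β) hβ
  obtain ⟨r0, hr0⟩ := IsAlgClosed.exists_pow_nat_eq (aeval (aeval v β) D) (n := 2) (by norm_num)
  obtain ⟨Ψ, hΨ, -, hΨ2⟩ := hB3 K β F hβ hF
  set θ := b * ∏ Y ∈ Rt β (aeval v β), r Y with hθ
  have hθ2 : θ ^ 2 = aeval v (F * Ψ.comp β) := by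
    rw [hθ, mul_pow, hb, ← Finset.prod_pow, map_mul, aeval_comp, ← hΨ2 _ hy]
    congr 1
    exact Finset.prod_congr rfl hr
  have hsign : ∀ g : K ≃ₐ[ℂ] K, g v = v → g θ = θ ∨ g θ = -θ := by
    intro g hg
    refine hC4 K F (Rt β (aeval v β)) v b r g hb hr hg ?_
    intro Y hY
    rw [hmem] at hY ⊢
    rw [c5_fix, hY, ← c5_fix, hg]
  have hfix' : ∀ g : K ≃ₐ[ℂ] K, (∀ Y : K, aeval Y β = aeval v β → g Y = Y) → g θ = θ :=
    fun g hg => hfix g fun Y hY => hg Y ((hmem Y).1 hY)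
  rcases hG.pt v r0 hv hr0 θ hsign hfix' with h | h
  · obtain ⟨p, q, hq, hpq⟩ := hG.field v θ hv h
    obtain ⟨G, hG'⟩ := hB4 K v θ _ p q hv hq hpq hθ2
    exact ⟨Ψ, G, hΨ, hG'⟩
  · obtain ⟨p, q, hq, hpq⟩ := hG.field v (θ * r0) hv h
    have hθ3 : (θ * r0) ^ 2 = aeval v (F * (Ψ * D).comp β) := by
      rw [mul_pow, hθ2, hr0, mul_comp, map_mul, map_mul, map_mul, aeval_comp (p := D)]
      ring
    obtain ⟨G, hG'⟩ := hB4 K v (θ * r0) _ p q hv hq hpq hθ3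
    exact ⟨Ψ * D, G, mul_ne_zero hΨ hG.D_ne, hG'⟩

end MP52poly
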