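import Pool.Agent.Lib.MP_52aaf2_al.Poly.PStm

/-! # C6 : the start of the induction -/

open Polynomial

namespace MP52poly

private theorem c6_pol {K : Type} [Field K] [Algebra ℂ K] (L : AffM) (t : K) :
    aeval t L.pol = L.ap t := by
  simp [AffM.pol, AffM.ap]

theorem p_C6 (hA1 : S_A1) (hA2 : S_A2) (hA6 : S_A6) (hA14 : S_A14) (hB4 : S_B4) : S_C6 := by
  intro K _ _ β D hG L t a b hL ht ha hb
  by_contra hcon
  push Not at hcon
  obtain ⟨p, q, hq, hpq⟩ := hG.field t (a * b) ht hcon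
  obtain ⟨h1, -, h2, -⟩ := hA6 D L hG.D_ne
  have hsq : (a * b) ^ 2 = aeval t (D * D.comp L.pol) := by
    rw [mul_pow, ha, hb, map_mul, aeval_comp, c6_pol]
  have hne : D * D.comp L.pol ≠ 0 := mul_ne_zero hG.D_ne h2
  have hempty := (hA1 _ hne).2 (hB4 K t (a * b) _ p q ht hq hpq hsq)
  apply hL
  refine hA14 L (OddR D) ?_ ?_
  · obtain ⟨k, hk⟩ := hG.odd_even
    have h3 := Finset.card_pos.2 hG.odd_ne
    omega
  · intro x hx
    have h4 : x ∉ OddR (D * D.comp L.pol) := by rw [hempty]; simp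
    rw [hA2 _ _ hG.D_ne h2, not_not] at h4
    exact (h1 x).1 (h4.1 hx)

end MP52poly
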