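import Pool.Agent.Lib.MP_52aaf2_al.Poly.PStm

/-! # C7 : the exceptional case, signs -/

open Polynomial

namespace MP52poly

private theorem c7_pol {K : Type} [Field K] [Algebra ℂ K] (L : AffM) (t : K) :
    aeval t L.pol = L.ap t := by
  simp [AffM.pol, AffM.ap]

private theorem c7_fix {K : Type} [Field K] [Algebra ℂ K] (g : K ≃ₐ[ℂ] K) (v : K) (hv : g v = v)
    (F : ℂ[X]) : g (aeval v F) = aeval v F := by
  have h1 : aeval (g v) F = g (aeval v F) := by
    rw [← AlgEquiv.coe_toAlgHom, aeval_algHom_apply]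
  rw [← h1, hv]

theorem p_C7 (hB2 : S_B2) : S_C7 := by
  intro K _ _ β D Φ G G' L v b c hβ hΦ hv h1 h2 hb hc g hg
  have hy : Transcendental ℂ (aeval v β) := (hB2 K β v hβ).2 hv
  have hΦy : aeval (aeval v β) Φ ≠ 0 := fun h => hΦ (transcendental_iff.1 hy Φ h)
  have hgy : g (aeval v β) = aeval v β := c7_fix g v hg β
  have e1 : aeval (L.ap v) D * aeval (aeval v β) Φ = (aeval v G) ^ 2 := by
    have := congrArg (aeval v) h1
    rw [map_mul, aeval_comp, aeval_comp, c7_pol, map_pow] at this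
    exact this
  have e2 : aeval (aeval v β) D * aeval (aeval v β) Φ = (aeval (aeval v β) G') ^ 2 := by
    have := congrArg (aeval (aeval v β)) h2
    rw [map_mul, map_pow] at this
    exact this
  have e3 : (b * c * aeval (aeval v β) Φ) ^ 2 = (aeval v G * aeval (aeval v β) G') ^ 2 := by
    rw [mul_pow _ (aeval (aeval v β) G'), ← e1, ← e2, mul_pow, mul_pow, hb, hc]
    ring
  have e4 : g (b * c * aeval (aeval v β) Φ) = b * c * aeval (aeval v β) Φ := by
    rcases sq_eq_sq_iff_eq_or_eq_neg.1 e3 with h | h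
    · rw [h, map_mul, c7_fix g v hg, c7_fix g _ hgy]
    · rw [h, map_neg, map_mul, c7_fix g v hg, c7_fix g _ hgy]
  rw [map_mul, c7_fix g _ hgy] at e4
  exact mul_right_cancel₀ hΦy e4

end MP52poly
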