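import Mathlib

open Polynomial

namespace MP52poly

private theorem e1_deriv_pos (β : Polynomial ℝ) (h1 : 0 < β.natDegree) (h2 : 0 < β.leadingCoeff) :
    ∀ᶠ x in Filter.atTop, 0 < β.derivative.eval x := by
  have hd : β.derivative.natDegree = β.natDegree - 1 := natDegree_derivative β
  have hl : 0 < β.derivative.leadingCoeff := by
    rw [leadingCoeff, hd, coeff_derivative]
    have h3 : β.natDegree - 1 + 1 = β.natDegree := by omega
    rw [h3]
    have h4 : (0 : ℝ) < ((β.natDegree - 1 : ℕ) : ℝ) + 1 := by positivity
    exact mul_pos h2 h4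
  rcases Nat.eq_zero_or_pos β.derivative.natDegree with h | h
  · rw [eq_C_of_natDegree_eq_zero h] at hl ⊢
    rw [leadingCoeff_C] at hl
    simp only [eval_C]
    exact Filter.Eventually.of_forall fun _ => hl
  · have h5 : Filter.Tendsto (fun x => β.derivative.eval x) Filter.atTop Filter.atTop :=
      tendsto_atTop_of_leadingCoeff_nonneg _ (natDegree_pos_iff_degree_pos.1 h) hl.le
    exact h5.eventually_gt_atTop 0

/-- A real polynomial with positive leading coefficient agrees near infinity with an increasing
bijection of the line. -/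
theorem exists_homeo (β : Polynomial ℝ) (h1 : 0 < β.natDegree) (h2 : 0 < β.leadingCoeff) :
    ∃ f : ℝ ≃o ℝ, ∀ᶠ x in Filter.atTop, f x = β.eval x := by
  classical
  obtain ⟨M, hM⟩ := Filter.eventually_atTop.1 (e1_deriv_pos β h1 h2)
  have hlim : Filter.Tendsto (fun x => β.eval x) Filter.atTop Filter.atTop :=
    tendsto_atTop_of_leadingCoeff_nonneg _ (natDegree_pos_iff_degree_pos.1 h1) h2.le
  have hmono : StrictMonoOn (fun x => β.eval x) (Set.Ici M) := by
    apply strictMonoOn_of_deriv_pos (convex_Ici M) β.continuous.continuousOn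
    intro x hx
    rw [interior_Ici] at hx
    rw [Polynomial.deriv]
    exact hM x (le_of_lt hx)
  let f : ℝ → ℝ := fun x => if x ≤ M then β.eval M + (x - M) else β.eval x
  have hf1 : ∀ x, x ≤ M → f x = β.eval M + (x - M) := fun x hx => if_pos hx
  have hf2 : ∀ x, M < x → f x = β.eval x := fun x hx => if_neg (not_le.2 hx)
  have hsm : StrictMono f := by
    intro x y hxy
    rcases le_or_gt y M with h | h
    · rw [hf1 x (hxy.le.trans h), hf1 y h]; linarith
    · rw [hf2 y h]
      rcases le_or_gt x M with h' | h'
      · rw [hf1 x h']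
        have := hmono (Set.mem_Ici.2 le_rfl) (Set.mem_Ici.2 h.le) h
        simp only at this
        linarith
      · rw [hf2 x h']
        exact hmono (Set.mem_Ici.2 h'.le) (Set.mem_Ici.2 h.le) hxy
  have hsurj : Function.Surjective f := by
    intro y
    rcases le_or_gt y (β.eval M) with h | h
    · refine ⟨M + (y - β.eval M), ?_⟩
      rw [hf1 _ (by linarith)]
      ring
    · obtain ⟨N, hN⟩ := Filter.eventually_atTop.1 (hlim.eventually_ge_atTop y)
      have hN2 := hN (max M N) (le_max_right _ _)
      have hiv := intermediate_value_Icc (le_max_left M N) (f := fun x => β.eval x)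
        β.continuous.continuousOn
      obtain ⟨x, hx, hxy⟩ := hiv ⟨h.le, hN2⟩
      refine ⟨x, ?_⟩
      have hxy' : β.eval x = y := hxy
      have hxM : M < x := by
        rcases lt_or_eq_of_le hx.1 with h3 | h3
        · exact h3
        · exfalso
          rw [← h3] at hxy'
          linarith
      rw [hf2 x hxM, hxy']
  refine ⟨hsm.orderIsoOfSurjective f hsurj, ?_⟩
  filter_upwards [Filter.eventually_gt_atTop M] with x hx
  exact hf2 x hx

end MP52poly
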