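import Pool.Agent.Lib.MP_52aaf2_al.Poly.PStm

/-! G1: the discriminant. -/

open Polynomial

namespace MP52poly

/-- the square of the Vandermonde determinant as a product over ordered pairs -/
private theorem G1_vander {K : Type} [Field K] (n : ℕ) (r : Fin n → K) :
    ∃ e : ℤ, (e = 1 ∨ e = -1) ∧
      ∏ i, ∏ j ∈ Finset.univ.erase i, (r i - r j) = (e : K) * (Matrix.vandermonde r).det ^ 2 := by
  have h1 : ∀ i : Fin n, ∏ j ∈ Finset.univ.erase i, (r i - r j) =
      (∏ j ∈ Finset.Ioi i, (r i - r j)) * ∏ j ∈ Finset.Iio i, (r i - r j) := by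
    intro i
    rw [← Finset.prod_union]
    · refine Finset.prod_congr ?_ fun _ _ => rfl
      ext j
      simp only [Finset.mem_erase, Finset.mem_univ, and_true, Finset.mem_union, Finset.mem_Ioi,
        Finset.mem_Iio]
      constructor
      · intro h
        rcases lt_or_gt_of_ne h with h | h
        · exact Or.inr h
        · exact Or.inl h
      · rintro (h | h)
        · exact h.ne'
        · exact h.ne
    · rw [Finset.disjoint_left]
      intro j hj hj'
      rw [Finset.mem_Ioi] at hj
      rw [Finset.mem_Iio] at hj'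
      exact absurd hj (not_lt.2 hj'.le)
  have h2 : ∏ i : Fin n, ∏ j ∈ Finset.Iio i, (r i - r j) = (Matrix.vandermonde r).det := by
    rw [Matrix.det_vandermonde]
    refine Finset.prod_comm' ?_
    intro x y
    simp
  have h3 : ∏ i : Fin n, ∏ j ∈ Finset.Ioi i, (r i - r j) =
      (∏ i : Fin n, ∏ _j ∈ Finset.Ioi i, (-1 : K)) * (Matrix.vandermonde r).det := by
    rw [Matrix.det_vandermonde, ← Finset.prod_mul_distrib]
    refine Finset.prod_congr rfl fun i _ => ?_
    rw [← Finset.prod_mul_distrib]
    refine Finset.prod_congr rfl fun j _ => ?_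
    ring
  refine ⟨∏ i : Fin n, ∏ _j ∈ Finset.Ioi i, (-1 : ℤ), ?_, ?_⟩
  · simp only [Finset.prod_const]
    rw [Finset.prod_pow_eq_pow_sum]
    exact neg_one_pow_eq_or ℤ _
  · rw [Finset.prod_congr rfl fun i _ => h1 i, Finset.prod_mul_distrib, h2, h3]
    push_cast
    ring

theorem p_G1 : S_G1 := by
  intro K _ _ _ β t r hd ht hr hrt
  classical
  have hβ0 : β ≠ 0 := by
    rintro rfl
    simp at hd
  have hlc : β.leadingCoeff ≠ 0 := leadingCoeff_ne_zero.2 hβ0
  set p : K[X] := β.map (algebraMap ℂ K) - C t with hp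
  have hpdeg : p.natDegree = β.natDegree := by
    rw [hp, natDegree_sub_C, natDegree_map]
  have hplc : p.leadingCoeff = algebraMap ℂ K β.leadingCoeff := by
    rw [leadingCoeff, hpdeg, hp, coeff_sub, coeff_C_ne_zero hd.ne', sub_zero, coeff_map]
    rfl
  have hp0 : p ≠ 0 := by
    intro h
    rw [h, natDegree_zero] at hpdeg
    omega
  have hpe : ∀ x : K, p.eval x = aeval x β - t := by
    intro x
    rw [hp, eval_sub, eval_C, eval_map_algebraMap]
  have hroots : p.roots = Finset.univ.val.map r := by
    symm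
    refine Multiset.eq_of_le_of_card_le ?_ ?_
    · rw [Multiset.le_iff_subset (Multiset.Nodup.map hr Finset.univ.nodup)]
      intro x hx
      obtain ⟨i, _, rfl⟩ := Multiset.mem_map.1 hx
      rw [mem_roots hp0, IsRoot, hpe, hrt, sub_self]
    · rw [Multiset.card_map]
      refine (card_roots' p).trans ?_
      rw [hpdeg]
      simp
  have hcard : Multiset.card p.roots = p.natDegree := by
    rw [hroots, Multiset.card_map, hpdeg]
    simp
  have hfac : p = C (algebraMap ℂ K β.leadingCoeff) * ∏ i, (X - C (r i)) := by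
    have h := C_leadingCoeff_mul_prod_multiset_X_sub_C hcard
    rw [hplc, hroots, Multiset.map_map] at h
    exact h.symm
  have hev : ∀ x : K, aeval x β - t = algebraMap ℂ K β.leadingCoeff * ∏ i, (x - r i) := by
    intro x
    rw [← hpe, hfac, eval_mul, eval_C, eval_prod]
    simp
  have hder : ∀ i, aeval (r i) (derivative β) =
      algebraMap ℂ K β.leadingCoeff * ∏ j ∈ Finset.univ.erase i, (r i - r j) := by
    intro i
    have h1 : (derivative p).eval (r i) = aeval (r i) (derivative β) := by
      rw [hp, derivative_sub, derivative_C, sub_zero, derivative_map, eval_map_algebraMap]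
    rw [← h1, hfac, derivative_mul, derivative_C, zero_mul, zero_add, eval_mul, eval_C]
    congr 1
    have h2 := eval_multiset_prod_X_sub_C_derivative (S := Finset.univ.val.map r) (r := r i)
      (Multiset.mem_map_of_mem r (Finset.mem_univ i))
    rw [Multiset.map_map] at h2
    refine h2.trans ?_
    rw [← Multiset.map_erase _ hr, Multiset.map_map]
    rfl
  -- the derivative over its roots
  have hdβ : derivative β ≠ 0 := by
    intro h
    have := natDegree_eq_zero_of_derivative_eq_zero h
    omega
  have hld : (derivative β).leadingCoeff ≠ 0 := leadingCoeff_ne_zero.2 hdβ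
  have hdfac := (IsAlgClosed.splits (derivative β)).eq_prod_roots
  have hder2 : ∀ x : K, aeval x (derivative β) = algebraMap ℂ K (derivative β).leadingCoeff *
      ((derivative β).roots.map fun c => x - algebraMap ℂ K c).prod := by
    intro x
    conv_lhs => rw [hdfac]
    rw [map_mul, aeval_C, map_multiset_prod, Multiset.map_map]
    congr 2
    refine Multiset.map_congr rfl fun c _ => ?_
    simp
  have hdisc : aeval t (discP β) =
      ((derivative β).roots.map fun c => t - algebraMap ℂ K (β.eval c)).prod := by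
    rw [discP, map_multiset_prod, Multiset.map_map]
    congr 1
    refine Multiset.map_congr rfl fun c _ => ?_
    simp
  -- the product of the derivatives
  have hprod1 : ∏ i, aeval (r i) (derivative β) =
      algebraMap ℂ K β.leadingCoeff ^ β.natDegree * ∏ i, ∏ j ∈ Finset.univ.erase i, (r i - r j) := by
    rw [Finset.prod_congr rfl fun i _ => hder i, Finset.prod_mul_distrib]
    simp
  set m := Multiset.card (derivative β).roots with hm
  set κ₁ : ℂ := (-1) ^ (β.natDegree + 1) * (β.leadingCoeff)⁻¹ with hκ₁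
  have hκ₁0 : κ₁ ≠ 0 := mul_ne_zero (pow_ne_zero _ (by norm_num)) (inv_ne_zero hlc)
  have hc : ∀ c : ℂ, ∏ i, (r i - algebraMap ℂ K c) =
      algebraMap ℂ K κ₁ * (t - algebraMap ℂ K (β.eval c)) := by
    intro c
    have h1 : ∏ i, (r i - algebraMap ℂ K c) = (-1) ^ β.natDegree * ∏ i, (algebraMap ℂ K c - r i) := by
      have : ∀ i, r i - algebraMap ℂ K c = (-1) * (algebraMap ℂ K c - r i) := fun i => by ring
      rw [Finset.prod_congr rfl fun i _ => this i, Finset.prod_mul_distrib]
      simp
    have h2 := hev (algebraMap ℂ K c)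
    rw [aeval_algebraMap_apply_eq_algebraMap_eval] at h2
    have hlcK : algebraMap ℂ K β.leadingCoeff ≠ 0 := by
      rw [Ne, FaithfulSMul.algebraMap_eq_zero_iff]
      exact hlc
    rw [h1, hκ₁, map_mul, map_inv₀, map_pow, map_neg, map_one]
    have h3 : ∏ i, (algebraMap ℂ K c - r i) =
        (algebraMap ℂ K β.leadingCoeff)⁻¹ * (algebraMap ℂ K (β.eval c) - t) := by
      rw [h2]
      field_simp
    rw [h3]
    ring
  have hprod2 : ∏ i, aeval (r i) (derivative β) =
      algebraMap ℂ K ((derivative β).leadingCoeff ^ β.natDegree * κ₁ ^ m) * aeval t (discP β) := by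
    rw [Finset.prod_congr rfl fun i _ => hder2 (r i), Finset.prod_mul_distrib]
    have h1 : ∏ i, ((derivative β).roots.map fun c => r i - algebraMap ℂ K c).prod =
        ((derivative β).roots.map fun c => ∏ i, (r i - algebraMap ℂ K c)).prod := by
      rw [Multiset.prod_map_prod]
    rw [h1, Multiset.map_congr rfl fun c _ => hc c, Multiset.prod_map_mul, hdisc]
    simp only [Finset.prod_const, Finset.card_univ, Fintype.card_fin, Multiset.map_const',
      Multiset.prod_replicate, map_mul, map_pow]
    ring
  obtain ⟨e, he, hV⟩ := G1_vander _ r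
  have he2 : (e : K) * (e : K) = 1 := by
    rcases he with rfl | rfl <;> simp
  have hlcK : algebraMap ℂ K β.leadingCoeff ≠ 0 := by
    rw [Ne, FaithfulSMul.algebraMap_eq_zero_iff]
    exact hlc
  have heC : ((e : ℤ) : ℂ) ≠ 0 := by
    rcases he with rfl | rfl <;> simp
  refine ⟨(e : ℂ) * (β.leadingCoeff ^ β.natDegree)⁻¹ * ((derivative β).leadingCoeff ^ β.natDegree * κ₁ ^ m), ?_, ?_⟩
  · exact mul_ne_zero (mul_ne_zero heC (inv_ne_zero (pow_ne_zero _ hlc)))
      (mul_ne_zero (pow_ne_zero _ hld) (pow_ne_zero _ hκ₁0))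
  · have h1 : algebraMap ℂ K β.leadingCoeff ^ β.natDegree * ((e : K) * (Matrix.vandermonde r).det ^ 2) =
        algebraMap ℂ K ((derivative β).leadingCoeff ^ β.natDegree * κ₁ ^ m) * aeval t (discP β) := by
      rw [← hV, ← hprod1, hprod2]
    have h2 : (Matrix.vandermonde r).det ^ 2 = (e : K) *
        (algebraMap ℂ K β.leadingCoeff ^ β.natDegree)⁻¹ *
        (algebraMap ℂ K β.leadingCoeff ^ β.natDegree * ((e : K) * (Matrix.vandermonde r).det ^ 2)) := by
      have h3 : (algebraMap ℂ K β.leadingCoeff ^ β.natDegree)⁻¹ * algebraMap ℂ K β.leadingCoeff ^ β.natDegree = 1 :=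
        inv_mul_cancel₀ (pow_ne_zero _ hlcK)
      calc (Matrix.vandermonde r).det ^ 2 = ((e : K) * (e : K)) *
          ((algebraMap ℂ K β.leadingCoeff ^ β.natDegree)⁻¹ * algebraMap ℂ K β.leadingCoeff ^ β.natDegree) *
            (Matrix.vandermonde r).det ^ 2 := by rw [he2, h3]; ring
        _ = _ := by ring
    rw [h2, h1]
    simp only [map_mul, map_inv₀, map_pow, map_intCast]
    ring

end MP52poly
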