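import Pool.Agent.Lib.MP_52aaf2_al.Poly.PStm

open Polynomial

namespace MP52poly

/-- [G2] The sign of a permutation and the Vandermonde determinant. -/
theorem p_G2 : S_G2 := by
  intro K _ _ n r σ g h
  have h1 : (g : K →+* K).mapMatrix (Matrix.vandermonde r)
      = (Matrix.vandermonde r).submatrix σ id := by
    ext i j
    rw [RingHom.mapMatrix_apply, Matrix.map_apply, Matrix.submatrix_apply,
      Matrix.vandermonde_apply, Matrix.vandermonde_apply]
    change g (r i ^ (j : ℕ)) = r (σ i) ^ ((id j : Fin n) : ℕ)
    rw [map_pow, h i, id]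
  have h2 : g (Matrix.vandermonde r).det = ((g : K →+* K).mapMatrix (Matrix.vandermonde r)).det :=
    RingHom.map_det (g : K →+* K) (Matrix.vandermonde r)
  rw [h2, h1, Matrix.det_permute]

end MP52poly
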