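import Pool.Agent.Lib.MP_52aaf2_al.Poly.PStm

/-! Piece [PG G4]. -/

open Polynomial

namespace MP52poly

theorem pg4_three : ∀ σ : Equiv.Perm (Fin 3), Equiv.Perm.sign σ = -1 → ∀ τ : Equiv.Perm (Fin 3),
    ∃ g : Equiv.Perm (Fin 3), τ = g * σ * g⁻¹ ∨ τ = σ * (g * σ * g⁻¹) := by
  decide

theorem p_G4 : S_G4 := by
  intro n hn hn3 N hN ⟨σ, hσN, hσ⟩
  rw [eq_top_iff]
  intro τ _
  rcases Nat.lt_or_ge n 5 with h5 | h5
  · have hn' : n = 3 := by
      rcases hn with ⟨k, hk⟩
      omega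
    subst hn'
    obtain ⟨g, hg⟩ := pg4_three σ hσ τ
    have hc : g * σ * g⁻¹ ∈ N := hN.conj_mem σ hσN g
    rcases hg with hg | hg
    · rw [hg]; exact hc
    · rw [hg]; exact N.mul_mem hσN hc
  · have hnt : Nontrivial N := by
      refine ⟨⟨⟨σ, hσN⟩, 1, ?_⟩⟩
      intro h
      have h1 : σ = 1 := congrArg Subtype.val h
      rw [h1, Equiv.Perm.sign_one] at hσ
      exact absurd hσ (by decide)
    have hle : alternatingGroup (Fin n) ≤ N :=
      Equiv.Perm.alternatingGroup_le_of_normal (by rw [Nat.card_eq_fintype_card, Fintype.card_fin]; exact h5) hnt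
    rcases Int.units_eq_one_or (Equiv.Perm.sign τ) with h | h
    · exact hle (Equiv.Perm.mem_alternatingGroup.mpr h)
    · have h2 : τ * σ⁻¹ ∈ N := by
        apply hle
        rw [Equiv.Perm.mem_alternatingGroup, Equiv.Perm.sign_mul, Equiv.Perm.sign_inv, h, hσ]
        decide
      have h3 : τ = (τ * σ⁻¹) * σ := by group
      rw [h3]
      exact N.mul_mem h2 hσN

end MP52poly
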