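import Pool.Agent.Lib.MP_52aaf2_al.Poly.PStm

/-!
# Characters of point stabilisers in the symmetric group (piece G5)
-/

open Polynomial

namespace MP52poly

theorem p_G5 : S_G5 := by
  intro n x χ hχ
  have hfix : ∀ τ : Equiv.Perm {i : Fin n // i ≠ x}, (Equiv.Perm.ofSubtype τ) x = x := fun τ =>
    Equiv.Perm.ofSubtype_apply_of_not_mem τ (fun h => h rfl)
  have h1 : χ 1 = 1 := by
    have h := hχ 1 1 rfl rfl
    rw [mul_one] at h
    exact left_eq_mul.1 h
  let s : Equiv.Perm {i : Fin n // i ≠ x} →* ℤˣ :=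
    { toFun := fun τ => χ (Equiv.Perm.ofSubtype τ)
      map_one' := by rw [map_one, h1]
      map_mul' := fun σ τ => by
        rw [map_mul]
        exact hχ _ _ (hfix σ) (hfix τ) }
  have hs : ∀ τ, s τ = χ (Equiv.Perm.ofSubtype τ) := fun _ => rfl
  have hlift : ∀ σ : Equiv.Perm (Fin n), σ x = x →
      ∃ τ : Equiv.Perm {i : Fin n // i ≠ x}, Equiv.Perm.ofSubtype τ = σ := by
    intro σ hσ
    have h2 : ∀ i, σ i ≠ x ↔ i ≠ x := by
      intro i
      refine not_congr ⟨fun h => ?_, fun h => by rw [h, hσ]⟩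
      exact σ.injective (h.trans hσ.symm)
    exact ⟨σ.subtypePerm h2, Equiv.Perm.ofSubtype_subtypePerm h2 fun i hi h => hi (by rw [h, hσ])⟩
  by_cases hsur : Function.Surjective s
  · right
    intro σ hσ
    obtain ⟨τ, rfl⟩ := hlift σ hσ
    rw [← hs, Equiv.Perm.eq_sign_of_surjective_hom hsur, Equiv.Perm.sign_ofSubtype]
  · left
    intro σ hσ
    obtain ⟨τ, rfl⟩ := hlift σ hσ
    rcases Int.units_eq_one_or (s τ) with h | h
    · exact h
    · exfalso
      apply hsur
      intro u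
      rcases Int.units_eq_one_or u with hu | hu
      · exact ⟨1, by rw [map_one, hu]⟩
      · exact ⟨τ, by rw [h, hu]⟩

end MP52poly
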