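import Pool.Agent.Lib.MP_52aaf2_al.Poly.PStm

open Polynomial

namespace MP52poly

theorem g6_discP_monic (β : ℂ[X]) : (discP β).Monic := by
  unfold discP
  exact monic_multiset_prod_of_monic _ _ (fun c _ => monic_X_sub_C _)

theorem g6_natDegree_discP (β : ℂ[X]) : (discP β).natDegree = β.natDegree - 1 := by
  unfold discP
  rw [natDegree_multiset_prod_of_monic]
  · rw [Multiset.map_map]
    have h1 : (β.derivative.roots.map (natDegree ∘ fun c => (X - C (β.eval c) : ℂ[X]))) =
        β.derivative.roots.map (fun _ => 1) := by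
      apply Multiset.map_congr rfl
      intro c _
      change (X - C (β.eval c) : ℂ[X]).natDegree = 1
      exact natDegree_X_sub_C _
    rw [h1, Multiset.map_const', Multiset.sum_replicate, smul_eq_mul, mul_one]
    have h2 : Multiset.card β.derivative.roots = β.derivative.natDegree :=
      (splits_iff_card_roots.1 (IsAlgClosed.splits β.derivative))
    rw [h2, natDegree_derivative]
  · intro f hf
    rw [Multiset.mem_map] at hf
    obtain ⟨c, _, rfl⟩ := hf
    exact monic_X_sub_C _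

theorem g6_discP_root {β : ℂ[X]} {y : ℂ} (h : (discP β).eval y = 0) :
    ∃ c, β.derivative.eval c = 0 ∧ β.eval c = y := by
  unfold discP at h
  rw [eval_multiset_prod, Multiset.map_map, Multiset.prod_eq_zero_iff, Multiset.mem_map] at h
  obtain ⟨c, hc, hy⟩ := h
  refine ⟨c, (mem_roots'.1 hc).2, ?_⟩
  have hy' : (X - C (β.eval c) : ℂ[X]).eval y = 0 := hy
  rw [eval_sub, eval_X, eval_C] at hy'
  exact (sub_eq_zero.1 hy').symm

/-- Enumeration of a fibre. -/
theorem g6_fibre_enum (hB1 : S_B1) {K : Type} [Field K] [Algebra ℂ K] [IsAlgClosed K] {β : ℂ[X]}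
    {t : K} (hβ : 0 < β.natDegree) (ht : Transcendental ℂ t) :
    ∃ r : Fin β.natDegree → K, Function.Injective r ∧ (∀ i, aeval (r i) β = t) ∧
      ∀ Y, aeval Y β = t → ∃ i, r i = Y := by
  obtain ⟨h1, h2⟩ := hB1 K β t hβ
  let e := (Rt β t).equivFinOfCardEq (h2 ht)
  refine ⟨fun i => (e.symm i : K), ?_, ?_, ?_⟩
  · intro i j hij
    exact e.symm.injective (Subtype.ext hij)
  · intro i
    exact (h1 _).1 (e.symm i).2
  · intro Y hY
    refine ⟨e ⟨Y, (h1 Y).2 hY⟩, ?_⟩
    change ((e.symm (e ⟨Y, (h1 Y).2 hY⟩) : Rt β t) : K) = Y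
    rw [Equiv.symm_apply_apply]

theorem p_G6 (hB1 : S_B1) (hB2 : S_B2) (hB4 : S_B4) (hA1 : S_A1) (hA3 : S_A3) (hG3 : S_G3)
    (hG6a : S_G6a) (hG6b : S_G6b) : S_G6 := by
  intro K _ _ _ β hex hfield hfull hodd hdeg
  have hpos : 0 < β.natDegree := by omega
  have hD : discP β ≠ 0 := (g6_discP_monic β).ne_zero
  have : CharZero K := charZero_of_injective_algebraMap (algebraMap ℂ K).injective
  refine
    { deg_odd := hodd
      deg_ge := hdeg
      D_ne := hD
      odd_ne := ?_
      odd_even := ?_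
      odd_cv := ?_
      field := hfield
      fix := ?_
      trans := ?_
      norm := hG6a K β hfull hodd hdeg
      pt := ?_ }
  · by_contra hne
    rw [Finset.not_nonempty_iff_eq_empty] at hne
    obtain ⟨G, hG⟩ := (hA1 (discP β) hD).1 hne
    obtain ⟨t, ht⟩ := hex
    obtain ⟨r, hr1, hr2, _⟩ := g6_fibre_enum hB1 hpos ht
    let i0 : Fin β.natDegree := ⟨0, by omega⟩
    let i1 : Fin β.natDegree := ⟨1, by omega⟩
    have hi : i0 ≠ i1 := by
      intro h
      have := congrArg Fin.val h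
      simp [i0, i1] at this
    obtain ⟨g, hg1, hg2⟩ := hfull t ht r hr1 hr2 (Equiv.swap i0 i1)
    have hs : (aeval t G) ^ 2 = aeval t (discP β) := by
      rw [hG, map_pow]
    have h3 := hG3 K β t (aeval t G) r (Equiv.swap i0 i1) g hpos ht hr1 hr2 hg2 hs
    rw [Equiv.Perm.sign_swap hi] at h3
    have h4 : g (aeval t G) = aeval t G := by
      rw [← Polynomial.aeval_algHom_apply g t G, hg1]
    rw [h4] at h3
    have h5 : aeval t G = 0 := by
      have h6 : aeval t G = -aeval t G := by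
        simpa using h3
      exact self_eq_neg.1 h6
    have h7 : G = 0 := by
      by_contra hG0
      exact ht ⟨G, hG0, h5⟩
    apply hD
    rw [hG, h7]
    simp
  · rw [← Nat.not_odd_iff_even, ← hA3 (discP β) hD, g6_natDegree_discP, Nat.not_odd_iff_even]
    exact Nat.Odd.sub_odd hodd odd_one
  · intro y hy
    rw [mem_OddR] at hy
    have h1 : 0 < (discP β).rootMultiplicity y := hy.2.pos
    rw [rootMultiplicity_pos hD] at h1
    exact g6_discP_root h1
  · intro t r ht hr g hg
    obtain ⟨r0, hr1, hr2, _⟩ := g6_fibre_enum hB1 hpos ht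
    obtain ⟨i⟩ : Nonempty (Fin β.natDegree) := ⟨⟨0, hpos⟩⟩
    have h3 := hG3 K β t r r0 1 g hpos ht hr1 hr2 (fun i => hg (r0 i) (hr2 i)) hr
    simpa using h3
  · intro t ht Y Y' hY hY'
    obtain ⟨r0, hr1, hr2, hr3⟩ := g6_fibre_enum hB1 hpos ht
    obtain ⟨i, rfl⟩ := hr3 Y hY
    obtain ⟨j, rfl⟩ := hr3 Y' hY'
    obtain ⟨g, hg1, hg2⟩ := hfull t ht r0 hr1 hr2 (Equiv.swap i j)
    refine ⟨g, hg1, ?_⟩
    rw [hg2 i, Equiv.swap_apply_left]
  · intro v r hv hr θ h1 h2
    exact hG6b K β hfull hdeg v r ((hB2 K β v hpos).2 hv) hr θ h1 h2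

end MP52poly
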