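import Pool.Agent.Lib.MP_52aaf2_al.Poly.PStm

/-! [G6a] The normal subgroup property. -/

open Polynomial

namespace MP52poly

private theorem G6a_perm {K : Type} [Field K] [Algebra ℂ K] {β : ℂ[X]} {y : K} {n : ℕ}
    (r : Fin n → K) (hinj : Function.Injective r) (hr : ∀ i, aeval (r i) β = y)
    (hs : ∀ Y : K, aeval Y β = y → ∃ i, r i = Y) (g : K ≃ₐ[ℂ] K) (hg : g y = y) :
    ∃ σ : Equiv.Perm (Fin n), ∀ i, g (r i) = r (σ i) := by
  have h1 : ∀ i, ∃ j, r j = g (r i) := by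
    intro i
    apply hs
    have h2 := aeval_algHom_apply (g : K →ₐ[ℂ] K) (r i) β
    rw [hr i] at h2
    have h3 : (g : K →ₐ[ℂ] K) (r i) = g (r i) := rfl
    have h4 : (g : K →ₐ[ℂ] K) y = g y := rfl
    rw [h3, h4, hg] at h2
    exact h2
  choose f hf using h1
  have hfi : Function.Injective f := by
    intro i j hij
    apply hinj
    apply g.injective
    rw [← hf i, ← hf j, hij]
  refine ⟨Equiv.ofBijective f (Finite.injective_iff_bijective.1 hfi), fun i => ?_⟩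
  rw [Equiv.ofBijective_apply, hf]

theorem p_G6a (hB1 : S_B1) (hG3 : S_G3) (hG4 : S_G4) : S_G6a := by
  intro K _ _ _ β hFS hodd hd t r ht hr H N hNH hHt hnorm hfull hex
  classical
  have hd0 : 0 < β.natDegree := by omega
  obtain ⟨hR, hRc⟩ := hB1 K β t hd0
  have hc := hRc ht
  obtain ⟨r0, hinj, hr0, hs0⟩ : ∃ r0 : Fin β.natDegree → K, Function.Injective r0 ∧
      (∀ i, aeval (r0 i) β = t) ∧ ∀ Y : K, aeval Y β = t → ∃ i, r0 i = Y := by
    let e := (Rt β t).equivFinOfCardEq hc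
    refine ⟨fun i => (e.symm i : K), ?_, fun i => (hR _).1 (e.symm i).2, fun Y hY => ?_⟩
    · intro i j hij
      exact e.symm.injective (Subtype.ext hij)
    · exact ⟨e ⟨Y, (hR Y).2 hY⟩, by simp⟩
  let Nb : Subgroup (Equiv.Perm (Fin β.natDegree)) :=
    { carrier := {σ | ∃ n ∈ N, ∀ i, n (r0 i) = r0 (σ i)}
      mul_mem' := by
        rintro σ τ ⟨n, hn, hn'⟩ ⟨m, hm, hm'⟩
        refine ⟨n * m, mul_mem hn hm, fun i => ?_⟩
        change n (m (r0 i)) = r0 (σ (τ i))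
        rw [hm', hn']
      one_mem' := ⟨1, one_mem _, fun _ => rfl⟩
      inv_mem' := by
        rintro σ ⟨n, hn, hn'⟩
        refine ⟨n⁻¹, inv_mem hn, fun i => ?_⟩
        change n.symm (r0 i) = r0 (σ⁻¹ i)
        have h1 : σ (σ⁻¹ i) = i := σ.apply_symm_apply i
        rw [AlgEquiv.symm_apply_eq, hn', h1] }
  have hNbn : Nb.Normal := by
    constructor
    rintro σ ⟨n, hn, hn'⟩ τ
    obtain ⟨g, hg, hg'⟩ := hFS t ht r0 hinj hr0 τ
    obtain ⟨h, hh, hh'⟩ := hfull g hg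
    have hh0 : ∀ i, h (r0 i) = r0 (τ i) := fun i => by rw [hh' _ (hr0 i), hg' i]
    refine ⟨h * n * h⁻¹, hnorm h hh n hn, fun i => ?_⟩
    change h (n (h.symm (r0 i))) = r0 (τ (σ (τ⁻¹ i)))
    have h1 : h.symm (r0 i) = r0 (τ⁻¹ i) := by
      have h2 : τ (τ⁻¹ i) = i := τ.apply_symm_apply i
      rw [AlgEquiv.symm_apply_eq, hh0, h2]
    rw [h1, hn', hh0]
  have hodd' : ∃ σ ∈ Nb, Equiv.Perm.sign σ = -1 := by
    obtain ⟨n, hn, hnr⟩ := hex
    obtain ⟨σ, hσ⟩ := G6a_perm r0 hinj hr0 hs0 n (hHt n (hNH hn))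
    refine ⟨σ, ⟨n, hn, hσ⟩, ?_⟩
    rcases Int.units_eq_one_or (Equiv.Perm.sign σ) with h6 | h6
    · exfalso
      apply hnr
      have h5 := hG3 K β t r r0 σ n hd0 ht hinj hr0 hσ hr
      rw [h5, h6]
      simp
    · exact h6
  have htop := hG4 β.natDegree hodd hd Nb hNbn hodd'
  intro g hg
  obtain ⟨σ, hσ⟩ := G6a_perm r0 hinj hr0 hs0 g hg
  have hmem : σ ∈ Nb := by rw [htop]; exact Subgroup.mem_top _
  obtain ⟨n, hn, hn'⟩ := hmem
  refine ⟨n, hn, fun Y hY => ?_⟩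
  obtain ⟨i, rfl⟩ := hs0 Y hY
  rw [hn', hσ]

end MP52poly
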