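import Pool.Agent.Lib.MP_52aaf2_al.Poly.PStm

/-! [G6b] The point stabiliser property. -/

open Polynomial

namespace MP52poly

/-- automorphisms agreeing on the fibre agree on `θ` -/
private theorem G6b_agree {K : Type} [Field K] [Algebra ℂ K] {β : ℂ[X]} {y θ : K}
    (h2 : ∀ g : K ≃ₐ[ℂ] K, (∀ Y : K, aeval Y β = y → g Y = Y) → g θ = θ)
    (g g' : K ≃ₐ[ℂ] K) (h : ∀ Y : K, aeval Y β = y → g Y = g' Y) : g θ = g' θ := by
  have h3 := h2 (g.trans g'.symm) (fun Y hY => by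
    rw [AlgEquiv.trans_apply, h Y hY, AlgEquiv.symm_apply_apply])
  rw [AlgEquiv.trans_apply, AlgEquiv.symm_apply_eq] at h3
  exact h3

/-- the permutation induced on the fibre -/
private theorem G6b_perm {K : Type} [Field K] [Algebra ℂ K] {β : ℂ[X]} {y : K} {n : ℕ}
    (r : Fin n → K) (hinj : Function.Injective r) (hr : ∀ i, aeval (r i) β = y)
    (hs : ∀ Y : K, aeval Y β = y → ∃ i, r i = Y) (g : K ≃ₐ[ℂ] K) (hg : g y = y) :
    ∃ σ : Equiv.Perm (Fin n), ∀ i, g (r i) = r (σ i) := by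
  have h1 : ∀ i, ∃ j, r j = g (r i) := by
    intro i
    apply hs
    have h2 := aeval_algHom_apply (g : K →ₐ[ℂ] K) (r i) β
    rw [hr i] at h2
    have h3 : (g : K →ₐ[ℂ] K) (r i) = g (r i) := rfl
    have h4 : (g : K →ₐ[ℂ] K) y = g y := rfl
    rw [h3, h4, hg] at h2
    exact h2
  choose f hf using h1
  have hfi : Function.Injective f := by
    intro i j hij
    apply hinj
    apply g.injective
    rw [← hf i, ← hf j, hij]
  refine ⟨Equiv.ofBijective f (Finite.injective_iff_bijective.1 hfi), fun i => ?_⟩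
  rw [Equiv.ofBijective_apply, hf]

theorem p_G6b (hB1 : S_B1) (hG3 : S_G3) (hG5 : S_G5) : S_G6b := by
  intro K _ _ _ β hFS hd v r hy hr θ h1 h2
  classical
  have hd0 : 0 < β.natDegree := by omega
  obtain ⟨hR, hRc⟩ := hB1 K β (aeval v β) hd0
  have hc := hRc hy
  -- enumeration of the fibre
  obtain ⟨r0, hinj, hr0, hs0⟩ : ∃ r0 : Fin β.natDegree → K, Function.Injective r0 ∧
      (∀ i, aeval (r0 i) β = aeval v β) ∧ ∀ Y : K, aeval Y β = aeval v β → ∃ i, r0 i = Y := by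
    let e := (Rt β (aeval v β)).equivFinOfCardEq hc
    refine ⟨fun i => (e.symm i : K), ?_, fun i => (hR _).1 (e.symm i).2, fun Y hY => ?_⟩
    · intro i j hij
      exact e.symm.injective (Subtype.ext hij)
    · exact ⟨e ⟨Y, (hR Y).2 hY⟩, by simp⟩
  obtain ⟨i0, hi0⟩ := hs0 v rfl
  by_cases hθ : θ = 0
  · left; intro g _; rw [hθ, map_zero]
  have : CharZero K := charZero_of_injective_algebraMap (algebraMap ℂ K).injective
  have hne : θ ≠ -θ := by
    intro h
    apply hθ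
    have : (2 : K) * θ = 0 := by linear_combination h
    rcases mul_eq_zero.1 this with h3 | h3
    · exact absurd h3 two_ne_zero
    · exact h3
  choose G hG1 hG2 using hFS (aeval v β) hy r0 hinj hr0
  let χ : Equiv.Perm (Fin β.natDegree) → ℤˣ := fun σ => if G σ θ = θ then 1 else -1
  have hχ : ∀ σ : Equiv.Perm (Fin β.natDegree), σ i0 = i0 → G σ θ = ((χ σ : ℤ) : K) * θ := by
    intro σ hσ
    have h3 : G σ v = v := by
      have h4 := hG2 σ i0
      rwa [hσ, hi0] at h4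
    rcases h1 (G σ) h3 with h4 | h4
    · have : χ σ = 1 := if_pos h4
      rw [this, h4]; simp
    · have : χ σ = -1 := if_neg (by rw [h4]; exact fun h => hne h.symm)
      rw [this, h4]; simp
  have hmul : ∀ σ τ : Equiv.Perm (Fin β.natDegree), σ i0 = i0 → τ i0 = i0 →
      χ (σ * τ) = χ σ * χ τ := by
    intro σ τ hσ hτ
    have hστ : (σ * τ) i0 = i0 := by rw [Equiv.Perm.mul_apply, hτ, hσ]
    have h3 : G (σ * τ) θ = (G τ).trans (G σ) θ := by
      refine G6b_agree h2 _ _ fun Y hY => ?_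
      obtain ⟨i, rfl⟩ := hs0 Y hY
      rw [AlgEquiv.trans_apply, hG2, hG2, hG2, Equiv.Perm.mul_apply]
    rw [AlgEquiv.trans_apply, hχ _ hστ, hχ _ hτ, map_mul, map_intCast, hχ _ hσ, ← mul_assoc] at h3
    have h4 := mul_right_cancel₀ hθ h3
    have h5 : ((χ (σ * τ) : ℤˣ) : ℤ) = ((χ σ * χ τ : ℤˣ) : ℤ) := by
      have h6 : (((χ (σ * τ) : ℤˣ) : ℤ) : K) = ((((χ σ : ℤˣ) : ℤ) * ((χ τ : ℤˣ) : ℤ) : ℤ) : K) := by
        rw [h4]; push_cast; ring
      rw [Units.val_mul]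
      exact_mod_cast h6
    exact Units.ext h5
  -- comparison of an automorphism with `G σ`
  have hcmp : ∀ g : K ≃ₐ[ℂ] K, g v = v → ∃ σ : Equiv.Perm (Fin β.natDegree), σ i0 = i0 ∧
      (∀ i, g (r0 i) = r0 (σ i)) ∧ g θ = ((χ σ : ℤ) : K) * θ := by
    intro g hg
    have hgy : g (aeval v β) = aeval v β := by
      have h3 := aeval_algHom_apply (g : K →ₐ[ℂ] K) v β
      have h4 : (g : K →ₐ[ℂ] K) v = g v := rfl
      have h5 : (g : K →ₐ[ℂ] K) (aeval v β) = g (aeval v β) := rfl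
      rw [h4, h5, hg] at h3
      exact h3.symm
    obtain ⟨σ, hσ⟩ := G6b_perm r0 hinj hr0 hs0 g hgy
    have hσ0 : σ i0 = i0 := by
      apply hinj
      rw [← hσ, hi0, hg]
    refine ⟨σ, hσ0, hσ, ?_⟩
    rw [← hχ σ hσ0]
    refine G6b_agree h2 _ _ fun Y hY => ?_
    obtain ⟨i, rfl⟩ := hs0 Y hY
    rw [hσ, hG2]
  rcases hG5 β.natDegree i0 χ hmul with h3 | h3
  · left
    intro g hg
    obtain ⟨σ, hσ0, -, h4⟩ := hcmp g hg
    rw [h4, h3 σ hσ0]
    simp
  · right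
    intro g hg
    obtain ⟨σ, hσ0, hσ, h4⟩ := hcmp g hg
    have h5 := hG3 K β (aeval v β) r r0 σ g hd0 hy hinj hr0 hσ hr
    rw [map_mul, h4, h5, h3 σ hσ0]
    rcases Int.units_eq_one_or (Equiv.Perm.sign σ) with h6 | h6 <;> rw [h6] <;> simp

end MP52poly
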