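import Pool.Agent.Lib.MP_52aaf2_al.Poly.PStm

set_option autoImplicit false

/-! Piece H1: critical values of the Chebyshev polynomials. -/

open Polynomial

namespace MP52poly

private theorem h1_der (n : ℕ) (θ : ℝ) (h1 : 0 < θ) (h2 : θ < Real.pi)
    (h3 : Real.sin (n * θ) = 0) :
    (Polynomial.Chebyshev.T ℂ n).derivative.eval (Complex.cos (θ : ℂ)) = 0 := by
  have hs : Complex.sin (θ : ℂ) ≠ 0 := by
    rw [← Complex.ofReal_sin]
    exact_mod_cast (Real.sin_pos_of_pos_of_lt_pi h1 h2).ne'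
  have hU := Polynomial.Chebyshev.U_complex_cos (θ : ℂ) ((n : ℤ) - 1)
  have h4 : Complex.sin ((((n : ℤ) - 1 : ℤ) + 1) * (θ : ℂ)) = 0 := by
    have e : (((((n : ℤ) - 1 : ℤ) : ℂ) + 1) * (θ : ℂ)) = ((n * θ : ℝ) : ℂ) := by
      push_cast
      ring
    rw [e, ← Complex.ofReal_sin, h3]
    rfl
  rw [h4] at hU
  have h5 := (mul_eq_zero.1 hU).resolve_right hs
  rw [Polynomial.Chebyshev.T_derivative_eq_U, eval_mul, h5, mul_zero]

/-- [H1] -/
theorem p_H1 : S_H1 := by
  intro n _ hn
  have hn' : (3 : ℝ) ≤ n := by exact_mod_cast hn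
  have hn0 : (n : ℝ) ≠ 0 := by positivity
  have hπ := Real.pi_pos
  constructor
  · refine ⟨Complex.cos ((2 * Real.pi / n : ℝ) : ℂ), ?_, ?_⟩
    · apply h1_der
      · positivity
      · rw [div_lt_iff₀ (by positivity)]
        nlinarith
      · have e : (n : ℝ) * (2 * Real.pi / n) = 2 * Real.pi := by field_simp
        rw [e, Real.sin_two_pi]
    · rw [Polynomial.Chebyshev.T_complex_cos]
      have e : (((n : ℤ) : ℂ) * ((2 * Real.pi / n : ℝ) : ℂ)) = ((n * (2 * Real.pi / n) : ℝ) : ℂ) := by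
        push_cast
        ring
      have e2 : (n : ℝ) * (2 * Real.pi / n) = 2 * Real.pi := by field_simp
      rw [e, e2, ← Complex.ofReal_cos, Real.cos_two_pi]
      rfl
  · refine ⟨Complex.cos ((Real.pi / n : ℝ) : ℂ), ?_, ?_⟩
    · apply h1_der
      · positivity
      · rw [div_lt_iff₀ (by positivity)]
        nlinarith
      · have e : (n : ℝ) * (Real.pi / n) = Real.pi := by field_simp
        rw [e, Real.sin_pi]
    · rw [Polynomial.Chebyshev.T_complex_cos]
      have e : (((n : ℤ) : ℂ) * ((Real.pi / n : ℝ) : ℂ)) = ((n * (Real.pi / n) : ℝ) : ℂ) := by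
        push_cast
        ring
      have e2 : (n : ℝ) * (Real.pi / n) = Real.pi := by field_simp
      rw [e, e2, ← Complex.ofReal_cos, Real.cos_pi]
      simp

end MP52poly
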