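import Pool.Agent.Lib.MP_52aaf2_al.Poly.PStm

open Polynomial

namespace MP52poly

theorem h2_alg {K : Type} [Field K] [Algebra ℂ K] {u : K} (h : IsAlgebraic ℂ u) :
    ∃ c : ℂ, algebraMap ℂ K c = u := by
  have h1 : IsIntegral ℂ u := h.isIntegral
  have h2 := IsAlgClosed.degree_eq_one_of_irreducible ℂ (minpoly.irreducible h1)
  exact minpoly.mem_range_of_degree_eq_one ℂ u h2

theorem h2_cheb {K : Type} [Field K] [Algebra ℂ K] (n : ℕ) (z Y : K) (hz : z ≠ 0)
    (hY : 2 * Y = z + z⁻¹) :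
    2 * aeval Y (Polynomial.Chebyshev.T ℂ n) = z ^ n + (z ^ n)⁻¹ := by
  rw [Polynomial.Chebyshev.aeval_T]
  have h1 := congrArg (eval Y) (Polynomial.Chebyshev.C_comp_two_mul_X K n)
  have h2 : (2 * Polynomial.Chebyshev.T K n : K[X]).eval Y =
      2 * (Polynomial.Chebyshev.T K n).eval Y := by
    rw [eval_mul]
    congr 1
    exact eval_ofNat ..
  have h3 : (2 * X : K[X]).eval Y = 2 * Y := by
    rw [eval_mul, eval_X]
    congr 1
    exact eval_ofNat ..
  rw [h2, eval_comp, h3, hY, ← Polynomial.dickson_one_one_eq_chebyshev_C,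
    Polynomial.dickson_one_one_eval_add_inv z z⁻¹ (mul_inv_cancel₀ hz)] at h1
  rw [← h1, inv_pow]

theorem p_H2 : S_H2 := by
  intro K _ _ _ n t hn ht
  have hC0 : CharZero K := charZero_of_injective_algebraMap (algebraMap ℂ K).injective
  have h20 : (2 : K) ≠ 0 := two_ne_zero
  obtain ⟨s, hs⟩ := IsAlgClosed.exists_pow_nat_eq (t ^ 2 - 1) (n := 2) (by norm_num)
  obtain ⟨w, hw⟩ := IsAlgClosed.exists_pow_nat_eq (t + s) hn
  have hts : (t + s) * (t - s) = 1 := by linear_combination -hs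
  have hts0 : t + s ≠ 0 := left_ne_zero_of_mul_eq_one hts
  have hw0 : w ≠ 0 := by
    intro h
    rw [h, zero_pow hn.ne'] at hw
    exact hts0 hw.symm
  have hinv : (w ^ n)⁻¹ = t - s := by
    rw [hw]
    exact inv_eq_of_mul_eq_one_right hts
  have hsum : w ^ n + (w ^ n)⁻¹ = 2 * t := by
    rw [hinv, hw]
    ring
  refine ⟨w, hw0, ?_, hsum, ?_⟩
  · intro halg
    obtain ⟨c, hc⟩ := h2_alg halg
    apply ht
    have h1 : t = algebraMap ℂ K ((c ^ n + (c ^ n)⁻¹) / 2) := by
      rw [map_div₀, map_add, map_inv₀, map_pow, hc, hsum, map_ofNat]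
      field_simp
    rw [h1]
    exact isAlgebraic_algebraMap _
  · intro Y
    constructor
    · intro hY
      obtain ⟨s', hs'⟩ := IsAlgClosed.exists_pow_nat_eq (Y ^ 2 - 1) (n := 2) (by norm_num)
      have hzz : (Y + s') * (Y - s') = 1 := by linear_combination -hs'
      have hz0 : Y + s' ≠ 0 := left_ne_zero_of_mul_eq_one hzz
      have hzi : (Y + s')⁻¹ = Y - s' := inv_eq_of_mul_eq_one_right hzz
      have hz : 2 * Y = (Y + s') + (Y + s')⁻¹ := by
        rw [hzi]
        ring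
      have h1 := h2_cheb n (Y + s') Y hz0 hz
      rw [hY, ← hsum] at h1
      set z := Y + s' with hzdef
      have hzn : z ^ n ≠ 0 := pow_ne_zero _ hz0
      have hwn : w ^ n ≠ 0 := pow_ne_zero _ hw0
      have h2 : (z ^ n - w ^ n) * (z ^ n * w ^ n - 1) = 0 := by
        field_simp at h1
        linear_combination -h1
      have key : ∀ u : K, u ≠ 0 → u ^ n = w ^ n → 2 * Y = u + u⁻¹ →
          ∃ ζ : ℂ, ζ ^ n = 1 ∧ 2 * Y = algebraMap ℂ K ζ * w + (algebraMap ℂ K ζ * w)⁻¹ := by
        intro u hu hun hYu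
        have h3 : (u / w) ^ n = 1 := by
          rw [div_pow, hun]
          exact div_self hwn
        have h4 : IsAlgebraic ℂ (u / w) := by
          refine ⟨X ^ n - 1, ?_, ?_⟩
          · exact (monic_X_pow_sub_C (1 : ℂ) hn.ne').ne_zero
          · simp [h3]
        obtain ⟨ζ, hζ⟩ := h2_alg h4
        refine ⟨ζ, ?_, ?_⟩
        · apply (algebraMap ℂ K).injective
          rw [map_pow, hζ, h3, map_one]
        · rw [hζ, div_mul_cancel₀ u hw0]
          exact hYu
      rcases mul_eq_zero.1 h2 with h3 | h3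
      · exact key z hz0 (sub_eq_zero.1 h3) hz
      · refine key z⁻¹ (inv_ne_zero hz0) ?_ ?_
        · rw [inv_pow]
          exact inv_eq_of_mul_eq_one_right (sub_eq_zero.1 h3)
        · rw [inv_inv, hz]
          ring
    · rintro ⟨ζ, hζ, hY⟩
      have hζ0 : algebraMap ℂ K ζ ≠ 0 := by
        intro h
        have h' : ζ = 0 := (map_eq_zero _).1 h
        rw [h', zero_pow hn.ne'] at hζ
        exact zero_ne_one hζ
      have h1 := h2_cheb n (algebraMap ℂ K ζ * w) Y (mul_ne_zero hζ0 hw0) hY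
      rw [mul_pow, ← map_pow, hζ, map_one, one_mul, hsum] at h1
      exact mul_left_cancel₀ h20 h1

end MP52poly
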