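import Pool.Agent.Lib.MP_52aaf2_al.Poly.PStm

open Polynomial

namespace MP52poly

private theorem ph3_root {K : Type} [Field K] [Algebra ℂ K] {n : ℕ} (hn : 0 < n) {z : K}
    (hz : z ^ n = 1) : ∃ ζ : ℂ, ζ ^ n = 1 ∧ algebraMap ℂ K ζ = z := by
  have hint : IsIntegral ℂ z := by
    refine ⟨X ^ n - 1, monic_X_pow_sub_C (1 : ℂ) hn.ne', ?_⟩
    rw [eval₂_sub, eval₂_pow, eval₂_X, eval₂_one, hz, sub_self]
  obtain ⟨ζ, hζ⟩ := minpoly.mem_range_of_degree_eq_one ℂ z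
    (IsAlgClosed.degree_eq_one_of_irreducible ℂ (minpoly.irreducible hint))
  refine ⟨ζ, ?_, hζ⟩
  apply (algebraMap ℂ K).injective
  rw [map_pow, hζ, hz, map_one]

theorem p_H3 : S_H3 := by
  intro K _ _ n t w hn hw g hg
  obtain ⟨hw0, _, hwt, _⟩ := hw
  have hgw0 : g w ≠ 0 := by
    intro h
    exact hw0 ((map_eq_zero_iff g g.injective).1 h)
  have h1 : (g w) ^ n + ((g w) ^ n)⁻¹ = w ^ n + (w ^ n)⁻¹ := by
    have h2 := congrArg g hwt
    rw [map_add, map_inv₀, map_pow, map_mul, hg, map_ofNat] at h2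
    rw [h2, hwt]
  set u := (g w) ^ n with hu
  set v := w ^ n with hv
  have hu0 : u ≠ 0 := pow_ne_zero _ hgw0
  have hv0 : v ≠ 0 := pow_ne_zero _ hw0
  have h3 : (u - v) * (u * v - 1) = 0 := by
    field_simp at h1
    linear_combination h1
  rcases mul_eq_zero.1 h3 with h4 | h4
  · have h5 : (g w / w) ^ n = 1 := by
      rw [div_pow, ← hu, ← hv, sub_eq_zero.1 h4, div_self hv0]
    obtain ⟨ζ, hζ1, hζ2⟩ := ph3_root hn h5
    refine ⟨ζ, hζ1, Or.inl ?_⟩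
    rw [hζ2, div_mul_cancel₀ _ hw0]
  · have h5 : ((g w * w)⁻¹) ^ n = 1 := by
      rw [inv_pow, mul_pow, ← hu, ← hv, sub_eq_zero.1 h4, inv_one]
    obtain ⟨ζ, hζ1, hζ2⟩ := ph3_root hn h5
    refine ⟨ζ, hζ1, Or.inr ?_⟩
    rw [hζ2]
    field_simp

end MP52poly
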