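import Pool.Agent.Lib.MP_52aaf2_al.Poly.PStm

/-! Piece H4. -/

open Polynomial

namespace MP52poly

private theorem h4_trans {K : Type} [Field K] [Algebra ℂ K] (w : K) (hw : Transcendental ℂ w)
    (c : ℂ) : algebraMap ℂ K c * w ^ 2 ≠ 1 := by
  intro h
  apply hw
  refine ⟨C c * X ^ 2 - 1, ?_, ?_⟩
  · intro h0
    have := congrArg (Polynomial.eval 0) h0
    simp at this
  · rw [map_sub, map_mul, map_pow, aeval_C, aeval_X, map_one, h, sub_self]

private theorem h4_xy {K : Type} [Field K] (x y : K) (hx : x ≠ 0) (hy : y ≠ 0)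
    (h : x + x⁻¹ = y + y⁻¹) : x = y ∨ x * y = 1 := by
  have h1 : (x - y) * (x * y - 1) = 0 := by
    have h2 : (x + x⁻¹) * (x * y) = (y + y⁻¹) * (x * y) := by rw [h]
    have e1 : (x + x⁻¹) * (x * y) = x * x * y + y := by field_simp
    have e2 : (y + y⁻¹) * (x * y) = x * y * y + x := by field_simp
    rw [e1, e2] at h2
    linear_combination h2
  rcases mul_eq_zero.1 h1 with h2 | h2
  · exact Or.inl (sub_eq_zero.1 h2)
  · exact Or.inr (sub_eq_zero.1 h2)

theorem p_H4 : S_H4 := by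
  intro K _ _ n t w hodd hn hD g ζ hζ hgt
  obtain ⟨hw0, hwt, _, hY⟩ := hD
  have hn0 : n ≠ 0 := by omega
  have hne : ∀ z : ℂ, z ^ n = 1 → algebraMap ℂ K z ≠ 0 := by
    intro z hz h0
    have h1 : z = 0 := (algebraMap ℂ K).injective (by rw [h0, map_zero])
    rw [h1, zero_pow hn0] at hz
    exact zero_ne_one hz
  have hgA : ∀ z : ℂ, g (algebraMap ℂ K z) = algebraMap ℂ K z := fun z => g.commutes z
  have hζ0 := hne ζ hζ
  have h20 : (2 : K) ≠ 0 := by
    have h1 : algebraMap ℂ K (2 : ℂ) = 2 := map_ofNat _ 2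
    rw [← h1]
    intro h2
    have : (2 : ℂ) = 0 := (algebraMap ℂ K).injective (by rw [h2, map_zero])
    norm_num at this
  refine ⟨?_, ?_⟩
  · rintro hgw ⟨Y, hYt, hgY⟩
    obtain ⟨z, hz, h2Y⟩ := (hY Y).1 hYt
    have hz0 := hne z hz
    have h1 : g (2 * Y) = 2 * Y := by rw [map_mul, hgY, map_ofNat]
    rw [h2Y, map_add, map_inv₀, map_mul, hgA, hgw] at h1
    rcases h4_xy _ _ (mul_ne_zero hz0 (mul_ne_zero hζ0 hw0)) (mul_ne_zero hz0 hw0) h1 with h2 | h2
    · rw [hgw]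
      exact mul_left_cancel₀ hz0 h2
    · exfalso
      apply h4_trans w hwt (z * ζ * z)
      rw [← h2, map_mul, map_mul]
      ring
  · intro hgw
    obtain ⟨z, hz, hzζ⟩ : ∃ z : ℂ, z ^ n = 1 ∧ z ^ 2 ≠ ζ := by
      by_cases h1 : ζ = 1
      · have hp := Complex.isPrimitiveRoot_exp n hn0
        refine ⟨_, hp.pow_eq_one, ?_⟩
        rw [h1]
        intro h2
        have h3 := (hp.pow_eq_one_iff_dvd 2).1 h2
        have h4 := Nat.le_of_dvd (by norm_num) h3
        omega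
      · exact ⟨1, one_pow n, fun h2 => h1 (by rw [← h2, one_pow])⟩
    have hz0 := hne z hz
    set Y : K := (algebraMap ℂ K z * w + (algebraMap ℂ K z * w)⁻¹) / 2 with hYd
    have h2Y : 2 * Y = algebraMap ℂ K z * w + (algebraMap ℂ K z * w)⁻¹ := by
      rw [hYd]
      field_simp
    refine ⟨Y, (hY Y).2 ⟨z, hz, h2Y⟩, ?_⟩
    intro hgY
    have h1 : g (2 * Y) = 2 * Y := by rw [map_mul, hgY, map_ofNat]
    rw [h2Y, map_add, map_inv₀, map_mul, hgA, hgw] at h1
    rcases h4_xy _ _ (mul_ne_zero hz0 (inv_ne_zero (mul_ne_zero hζ0 hw0)))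
      (mul_ne_zero hz0 hw0) h1 with h2 | h2
    · have h3 := mul_left_cancel₀ hz0 h2
      apply h4_trans w hwt ζ
      have h4 : (algebraMap ℂ K ζ * w) * (algebraMap ℂ K ζ * w)⁻¹ = 1 :=
        mul_inv_cancel₀ (mul_ne_zero hζ0 hw0)
      rw [h3] at h4
      rw [← h4]
      ring
    · apply hzζ
      apply (algebraMap ℂ K).injective
      rw [map_pow]
      have h4 : algebraMap ℂ K z * (algebraMap ℂ K ζ * w)⁻¹ * (algebraMap ℂ K z * w) *
          (algebraMap ℂ K ζ * w) = algebraMap ℂ K ζ * w := by rw [h2, one_mul]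
      have h5 : algebraMap ℂ K z * (algebraMap ℂ K ζ * w)⁻¹ * (algebraMap ℂ K z * w) *
          (algebraMap ℂ K ζ * w) = algebraMap ℂ K z ^ 2 * w := by
        field_simp
      rw [h5] at h4
      exact mul_right_cancel₀ hw0 h4

end MP52poly
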