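import Pool.Agent.Lib.MP_52aaf2_al.Poly.PStm

/-! [H6] The normal subgroup property of Chebyshev polynomials. -/

open Polynomial

namespace MP52poly

theorem p_H6 (hH2 : S_H2) (hH3 : S_H3) (hH4 : S_H4) (hH5 : S_H5) : S_H6 := by
  intro K _ _ _ n hom hodd hn3 t r ht hr H N hNH hHt hconj hfull hex
  have hn0 : 0 < n := by omega
  obtain ⟨w, hw⟩ := hH2 K n t hn0 ht
  obtain ⟨hw0, hwtr, hwt, hfib⟩ := id hw
  obtain ⟨nu, hnuN, hnur⟩ := hex
  have h2 : (2 : K) ≠ 0 := by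
    have : (2 : K) = algebraMap ℂ K 2 := (map_ofNat (algebraMap ℂ K) 2).symm
    rw [this]
    intro h0
    have := (map_eq_zero (algebraMap ℂ K)).1 h0
    exact two_ne_zero this
  -- roots of unity are nonzero
  have hz0 : ∀ z : ℂ, z ^ n = 1 → z ≠ 0 := by
    intro z hz h0
    rw [h0, zero_pow (by omega)] at hz
    exact zero_ne_one hz
  have hzK : ∀ z : ℂ, z ^ n = 1 → algebraMap ℂ K z ≠ 0 := by
    intro z hz h0
    exact hz0 z hz ((map_eq_zero (algebraMap ℂ K)).1 h0)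
  -- `nu` is a reflection
  have hnut : nu t = t := hHt nu (hNH hnuN)
  obtain ⟨z0, hz0n, hz0w⟩ : ∃ z0 : ℂ, z0 ^ n = 1 ∧ nu w = (algebraMap ℂ K z0 * w)⁻¹ := by
    obtain ⟨z, hz, h | h⟩ := hH3 K n t w hn0 hw nu hnut
    · exact absurd ((hH5 K n t w r hn0 hw hr nu z hz).1 h) hnur
    · exact ⟨z, hz, h⟩
  -- rotations in `H`
  have hrot : ∀ z : ℂ, z ^ n = 1 → ∃ h ∈ H, h w = algebraMap ℂ K z * w := by
    intro z hz
    have htr : Transcendental ℂ (algebraMap ℂ K z * w) := by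
      intro halg
      apply hwtr
      have h1 : IsAlgebraic ℂ (algebraMap ℂ K z⁻¹ * (algebraMap ℂ K z * w)) :=
        (isAlgebraic_algebraMap (z⁻¹)).mul halg
      have h3 : algebraMap ℂ K z⁻¹ * (algebraMap ℂ K z * w) = w := by
        rw [← mul_assoc, ← map_mul, inv_mul_cancel₀ (hz0 z hz), map_one, one_mul]
      rwa [h3] at h1
    obtain ⟨g, hg⟩ := hom w (algebraMap ℂ K z * w) hwtr htr
    have hgt : g t = t := by
      have h1 : g (2 * t) = 2 * t := by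
        rw [← hwt, map_add, map_inv₀, map_pow, hg, mul_pow, ← map_pow, hz, map_one, one_mul]
      have h3 : g (2 * t) = 2 * g t := by
        rw [map_mul, map_ofNat]
      exact mul_left_cancel₀ h2 (h3.symm.trans h1)
    obtain ⟨h, hhH, hh⟩ := hfull g hgt
    refine ⟨h, hhH, ?_⟩
    have hht : h t = t := hHt h hhH
    -- k = h⁻¹ g
    have hkt : (h⁻¹ * g) t = t := by
      change h.symm (g t) = t
      rw [hgt, AlgEquiv.symm_apply_eq, hht]
    have hkY : ∀ Y : K, aeval Y (Polynomial.Chebyshev.T ℂ n) = t → (h⁻¹ * g) Y = Y := by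
      intro Y hY
      change h.symm (g Y) = Y
      rw [AlgEquiv.symm_apply_eq, hh Y hY]
    have hkw : (h⁻¹ * g) w = w := by
      obtain ⟨z', hz', h' | h'⟩ := hH3 K n t w hn0 hw (h⁻¹ * g) hkt
      · refine (hH4 K n t w hodd hn3 hw (h⁻¹ * g) z' hz' hkt).1 h' ?_
        have hYf : aeval ((w + w⁻¹) / 2) (Polynomial.Chebyshev.T ℂ n) = t := by
          rw [hfib]
          refine ⟨1, one_pow _, ?_⟩
          rw [map_one, one_mul, mul_div_cancel₀ _ h2]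
        exact ⟨_, hYf, hkY _ hYf⟩
      · obtain ⟨Y, hY, hYne⟩ := (hH4 K n t w hodd hn3 hw (h⁻¹ * g) z' hz' hkt).2 h'
        exact absurd (hkY Y hY) hYne
    have h5 : h.symm (g w) = w := hkw
    rw [AlgEquiv.symm_apply_eq] at h5
    rw [← h5, hg]
  -- rotations in `N`
  have hrotN : ∀ z : ℂ, z ^ n = 1 → ∃ m ∈ N, m w = algebraMap ℂ K z * w := by
    intro z hz
    obtain ⟨k, hk⟩ := hodd
    have hζn : (z ^ (k + 1)) ^ n = 1 := by
      rw [← pow_mul, mul_comm, pow_mul, hz, one_pow]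
    have hζ2 : (z ^ (k + 1)) ^ 2 = z := by
      rw [← pow_mul]
      have : (k + 1) * 2 = n + 1 := by omega
      rw [this, pow_succ, hz, one_mul]
    obtain ⟨h, hhH, hhw⟩ := hrot _ hζn
    obtain ⟨ζ, hζ⟩ : ∃ ζ : ℂ, ζ = z ^ (k + 1) := ⟨_, rfl⟩
    rw [← hζ] at hζn hζ2 hhw
    have hzz : algebraMap ℂ K z = (algebraMap ℂ K ζ) ^ 2 := by
      rw [← map_pow, hζ2]
    have hζ0 : algebraMap ℂ K ζ ≠ 0 := hzK ζ hζn
    have hz00 : algebraMap ℂ K z0 ≠ 0 := hzK z0 hz0n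
    refine ⟨(h * nu * h⁻¹) * nu⁻¹, N.mul_mem (hconj h hhH nu hnuN) (N.inv_mem hnuN), ?_⟩
    have hhinv : h.symm w = (algebraMap ℂ K ζ)⁻¹ * w := by
      rw [AlgEquiv.symm_apply_eq, map_mul, map_inv₀, AlgEquiv.commutes, hhw, ← mul_assoc,
        inv_mul_cancel₀ hζ0, one_mul]
    have hnuinv : nu.symm w = (algebraMap ℂ K z0 * w)⁻¹ := by
      rw [AlgEquiv.symm_apply_eq, map_inv₀, map_mul, AlgEquiv.commutes, hz0w, mul_inv,
        inv_inv, inv_mul_cancel_left₀ hz00 w]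
    change h (nu (h.symm (nu.symm w))) = _
    have s1 : h.symm (nu.symm w) = (algebraMap ℂ K z0 * ((algebraMap ℂ K ζ)⁻¹ * w))⁻¹ := by
      rw [hnuinv, map_inv₀, map_mul, AlgEquiv.commutes, hhinv]
    have s2 : nu (h.symm (nu.symm w)) =
        (algebraMap ℂ K z0 * ((algebraMap ℂ K ζ)⁻¹ * (algebraMap ℂ K z0 * w)⁻¹))⁻¹ := by
      rw [s1, map_inv₀, map_mul, map_mul, map_inv₀, AlgEquiv.commutes, AlgEquiv.commutes, hz0w]
    have s3 : h (nu (h.symm (nu.symm w))) =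
        (algebraMap ℂ K z0 * ((algebraMap ℂ K ζ)⁻¹ *
          (algebraMap ℂ K z0 * (algebraMap ℂ K ζ * w))⁻¹))⁻¹ := by
      rw [s2, map_inv₀, map_mul, map_mul, map_inv₀, map_inv₀, map_mul, AlgEquiv.commutes,
        AlgEquiv.commutes, hhw]
    rw [s3, hzz]
    field_simp
  -- reflections in `N`
  have hrefN : ∀ z : ℂ, z ^ n = 1 → ∃ m ∈ N, m w = (algebraMap ℂ K z * w)⁻¹ := by
    intro z hz
    have hq : (z / z0) ^ n = 1 := by
      rw [div_pow, hz, hz0n, div_one]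
    obtain ⟨m, hmN, hmw⟩ := hrotN _ hq
    refine ⟨m * nu, N.mul_mem hmN hnuN, ?_⟩
    change m (nu w) = _
    rw [hz0w, map_inv₀, map_mul, AlgEquiv.commutes, hmw, ← mul_assoc, ← map_mul,
      mul_div_cancel₀ z (hz0 z0 hz0n)]
  intro g hgt
  obtain ⟨m, hmN, hmw⟩ : ∃ m ∈ N, m w = g w := by
    obtain ⟨z, hz, h | h⟩ := hH3 K n t w hn0 hw g hgt
    · obtain ⟨m, hmN, hmw⟩ := hrotN z hz
      exact ⟨m, hmN, hmw.trans h.symm⟩
    · obtain ⟨m, hmN, hmw⟩ := hrefN z hz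
      exact ⟨m, hmN, hmw.trans h.symm⟩
  refine ⟨m, hmN, ?_⟩
  intro Y hY
  obtain ⟨z, hz, hzY⟩ := (hfib Y).1 hY
  have e1 : m (2 * Y) = g (2 * Y) := by
    rw [hzY, map_add, map_add, map_inv₀, map_inv₀, map_mul, map_mul, AlgEquiv.commutes,
      AlgEquiv.commutes, hmw]
  rw [map_mul, map_mul, map_ofNat, map_ofNat] at e1
  exact mul_left_cancel₀ h2 e1

end MP52poly

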