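import Pool.Agent.Lib.MP_52aaf2_al.Poly.PStm

open Polynomial

namespace MP52poly

private lemma h7_factor : (X ^ 2 - 1 : ℂ[X]) = (X - C 1) * (X - C (-1)) := by
  simp only [map_neg, map_one]
  ring

private lemma h7_ne : (X ^ 2 - 1 : ℂ[X]) ≠ 0 := by
  rw [h7_factor]
  exact mul_ne_zero (X_sub_C_ne_zero _) (X_sub_C_ne_zero _)

private lemma h7_OddR (x : ℂ) : x ∈ OddR (X ^ 2 - 1 : ℂ[X]) ↔ x = 1 ∨ x = -1 := by
  classical
  rw [mem_OddR]
  constructor
  · rintro ⟨_, h2⟩
    have h3 : 0 < rootMultiplicity x (X ^ 2 - 1 : ℂ[X]) := h2.pos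
    rw [rootMultiplicity_pos h7_ne, IsRoot.def] at h3
    simp only [eval_sub, eval_pow, eval_X, eval_one] at h3
    have h4 : (x - 1) * (x + 1) = 0 := by linear_combination h3
    rcases mul_eq_zero.1 h4 with h | h
    · left; exact sub_eq_zero.1 h
    · right; exact eq_neg_of_add_eq_zero_left h
  · intro h
    refine ⟨h7_ne, ?_⟩
    have hne : (X - C (1 : ℂ)) * (X - C (-1)) ≠ 0 :=
      mul_ne_zero (X_sub_C_ne_zero _) (X_sub_C_ne_zero _)
    rw [h7_factor, rootMultiplicity_mul hne, rootMultiplicity_X_sub_C, rootMultiplicity_X_sub_C]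
    have h11 : (1 : ℂ) ≠ -1 := by norm_num
    rcases h with rfl | rfl
    · rw [if_pos rfl, if_neg h11]
      exact odd_one
    · rw [if_pos rfl, if_neg h11.symm]
      exact odd_one

private lemma h7_OddR_eq : OddR (X ^ 2 - 1 : ℂ[X]) = {1, -1} := by
  ext x
  rw [h7_OddR]
  simp

section

variable {K : Type} [Field K] [Algebra ℂ K]

private lemma h7_two : (2 : K) ≠ 0 := by
  have : (2 : K) = algebraMap ℂ K 2 := by rw [map_ofNat]
  rw [this]
  intro h
  rw [← map_zero (algebraMap ℂ K)] at h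
  exact two_ne_zero ((algebraMap ℂ K).injective h)

private lemma h7_aeval (β : ℂ[X]) (g : K ≃ₐ[ℂ] K) (Y : K) : g (aeval Y β) = aeval (g Y) β := by
  exact (Polynomial.aeval_algHom_apply g Y β).symm

/-- an automorphism fixing `w` fixes the fibre pointwise -/
private lemma h7_fixfib {n : ℕ} {t w : K} (hw : ChebData K n t w) (g : K ≃ₐ[ℂ] K) (hg : g w = w)
    (Y : K) (hY : aeval Y (Polynomial.Chebyshev.T ℂ n) = t) : g Y = Y := by
  obtain ⟨ζ, _, h2⟩ := (hw.2.2.2 Y).1 hY
  have h3 := congrArg g h2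
  rw [map_mul, map_add, map_inv₀, map_mul, hg, AlgEquiv.commutes, map_ofNat, ← h2] at h3
  exact mul_left_cancel₀ h7_two h3

end

/-- [H7] Chebyshev polynomials of odd degree are good. -/
theorem p_H7 (hB1 : S_B1) (hB2 : S_B2) (hH1 : S_H1) (hH2 : S_H2) (hH3 : S_H3) (hH4 : S_H4)
    (hH5 : S_H5) (hH6 : S_H6) : S_H7 := by
  intro K _ _ _ n hfield hhom hn h3
  have hdeg : (Polynomial.Chebyshev.T ℂ (n : ℤ)).natDegree = n := by
    rw [Polynomial.Chebyshev.natDegree_T, Int.natAbs_natCast]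
  have hn0 : 0 < n := by omega
  have hdeg0 : 0 < (Polynomial.Chebyshev.T ℂ (n : ℤ)).natDegree := by rw [hdeg]; exact hn0
  refine
    { deg_odd := by rw [hdeg]; exact hn
      deg_ge := by rw [hdeg]; exact h3
      D_ne := h7_ne
      odd_ne := by rw [h7_OddR_eq]; exact ⟨1, by simp⟩
      odd_even := ?_
      odd_cv := ?_
      field := hfield
      fix := ?_
      trans := ?_
      norm := fun t r ht hr H N hNH hH hN hF hne => hH6 K n hhom hn h3 t r ht hr H N hNH hH hN hF hne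
      pt := ?_ }
  · rw [h7_OddR_eq, Finset.card_pair (by norm_num)]
    exact even_two
  · intro y hy
    rcases (h7_OddR y).1 hy with rfl | rfl
    · exact (hH1 n hn h3).1
    · exact (hH1 n hn h3).2
  · intro t r ht hr g hg
    obtain ⟨w, hw⟩ := hH2 K n t hn0 ht
    -- the fibre is not empty
    have hY : aeval (2⁻¹ * (w + w⁻¹)) (Polynomial.Chebyshev.T ℂ n) = t := by
      rw [hw.2.2.2]
      refine ⟨1, one_pow n, ?_⟩
      rw [map_one, one_mul, ← mul_assoc, mul_inv_cancel₀ h7_two, one_mul]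
    have hgt : g t = t := by
      have h5 := h7_aeval (Polynomial.Chebyshev.T ℂ n) g (2⁻¹ * (w + w⁻¹))
      rw [hg _ hY, hY] at h5
      exact h5
    obtain ⟨ζ, hζ, hgw | hgw⟩ := hH3 K n t w hn0 hw g hgt
    · exact (hH5 K n t w r hn0 hw hr g ζ hζ).1 hgw
    · obtain ⟨Y, hY1, hY2⟩ := (hH4 K n t w hn h3 hw g ζ hζ hgt).2 hgw
      exact absurd (hg Y hY1) hY2
  · intro t ht Y Y' hY hY'
    have h1 : Transcendental ℂ Y := (hB2 K _ Y hdeg0).1 (by rw [hY]; exact ht)
    have h2 : Transcendental ℂ Y' := (hB2 K _ Y' hdeg0).1 (by rw [hY']; exact ht)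
    obtain ⟨g, hg⟩ := hhom Y Y' h1 h2
    refine ⟨g, ?_, hg⟩
    rw [← hY, h7_aeval, hg, hY', hY]
  · intro v r hv hr θ hθ hθ'
    have hy : Transcendental ℂ (aeval v (Polynomial.Chebyshev.T ℂ n)) := (hB2 K _ v hdeg0).2 hv
    obtain ⟨w, hw⟩ := hH2 K n _ hn0 hy
    have hgy : ∀ g : K ≃ₐ[ℂ] K, g v = v →
        g (aeval v (Polynomial.Chebyshev.T ℂ n)) = aeval v (Polynomial.Chebyshev.T ℂ n) := by
      intro g hg
      rw [h7_aeval, hg]
    -- rotations fixing `v` fix `w` and `θ`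
    have hrot : ∀ (g : K ≃ₐ[ℂ] K) (ζ : ℂ), ζ ^ n = 1 → g v = v → g w = algebraMap ℂ K ζ * w →
        g θ = θ := by
      intro g ζ hζ hg hgw
      have h5 := (hH4 K n _ w hn h3 hw g ζ hζ (hgy g hg)).1 hgw ⟨v, rfl, hg⟩
      exact hθ' g (fun Y hY => h7_fixfib hw g h5 Y hY)
    by_cases hall : ∀ g : K ≃ₐ[ℂ] K, g v = v → g θ = θ
    · exact Or.inl hall
    · right
      push Not at hall
      obtain ⟨g1, hg1, hg1θ⟩ := hall
      obtain ⟨ζ1, hζ1, hg1w | hg1w⟩ := hH3 K n _ w hn0 hw g1 (hgy g1 hg1)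
      · exact absurd (hrot g1 ζ1 hζ1 hg1 hg1w) hg1θ
      · intro g hg
        obtain ⟨ζ, hζ, hgw | hgw⟩ := hH3 K n _ w hn0 hw g (hgy g hg)
        · rw [map_mul, hrot g ζ hζ hg hgw, (hH5 K n _ w r hn0 hw hr g ζ hζ).1 hgw]
        · have hgr := (hH5 K n _ w r hn0 hw hr g ζ hζ).2 hgw
          have hne1 : ζ ≠ 0 := by
            rintro rfl
            rw [zero_pow hn0.ne'] at hζ
            exact zero_ne_one hζ
          have hne2 : ζ1 ≠ 0 := by
            rintro rfl
            rw [zero_pow hn0.ne'] at hζ1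
            exact zero_ne_one hζ1
          have hprod : (g1 * g) w = algebraMap ℂ K (ζ⁻¹ * ζ1) * w := by
            change g1 (g w) = _
            rw [hgw, map_inv₀, map_mul, hg1w, AlgEquiv.commutes, mul_inv, inv_inv, map_mul,
              map_inv₀, mul_assoc]
          have hpow : (ζ⁻¹ * ζ1) ^ n = 1 := by
            rw [mul_pow, inv_pow, hζ, hζ1, inv_one, one_mul]
          have hv' : (g1 * g) v = v := by
            change g1 (g v) = v
            rw [hg, hg1]
          have h6 : g1 (g θ) = θ := hrot (g1 * g) _ hpow hv' hprod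
          rcases hθ g hg with h7 | h7
          · rw [h7] at h6
            exact absurd h6 hg1θ
          · rw [map_mul, h7, hgr]
            ring

end MP52poly
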