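import Pool.Agent.Lib.MP_52aaf2_al.Poly.PStm

/-! I1: the field property. -/

open Polynomial

namespace MP52poly

private theorem I1_trdeg : Algebra.trdeg ℂ KK = 1 := by
  have h1 : Algebra.IsAlgebraic ℂ[X] (RatFunc ℂ) := IsLocalization.isAlgebraic (RatFunc ℂ) (nonZeroDivisors ℂ[X])
  have h2 : Algebra.IsAlgebraic ℂ[X] KK := Algebra.IsAlgebraic.trans ℂ[X] (RatFunc ℂ) KK
  have h3 : FaithfulSMul ℂ[X] KK := by
    rw [faithfulSMul_iff_algebraMap_injective, IsScalarTower.algebraMap_eq ℂ[X] (RatFunc ℂ) KK]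
    exact (algebraMap (RatFunc ℂ) KK).injective.comp (IsFractionRing.injective ℂ[X] (RatFunc ℂ))
  have h4 := trdeg_add_eq ℂ ℂ[X] (A := KK)
  rw [← h4, Polynomial.trdeg_of_isDomain, trdeg_eq_zero, add_zero]

private theorem I1_alg (t : KK) (ht : Transcendental ℂ t) :
    Algebra.IsAlgebraic (IntermediateField.adjoin ℂ {t}) KK := by
  have h1 : AlgebraicIndependent ℂ (fun _ : Unit => t) := by
    rw [algebraicIndependent_unique_type_iff]
    exact ht
  have h2 : IsTranscendenceBasis ℂ (fun _ : Unit => t) :=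
    h1.isTranscendenceBasis_of_trdeg_le_of_finite (by rw [I1_trdeg]; simp)
  have h3 := h2.isAlgebraic_field
  rwa [Set.range_const] at h3

theorem p_I1 : S_I1 := by
  intro t θ ht hθ
  have halg := I1_alg t ht
  have hgal : IsGalois (IntermediateField.adjoin ℂ {t}) KK := by
    have : IsAlgClosure (IntermediateField.adjoin ℂ {t}) KK := ⟨inferInstance, halg⟩
    have : Normal (IntermediateField.adjoin ℂ {t}) KK := IsAlgClosure.normal _ _
    exact ⟨⟩
  have h1 : θ ∈ (⊥ : IntermediateField (IntermediateField.adjoin ℂ {t}) KK) := by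
    rw [InfiniteGalois.mem_bot_iff_fixed]
    intro σ
    refine hθ (σ.restrictScalars ℂ) ?_
    have := σ.commutes (IntermediateField.AdjoinSimple.gen ℂ t)
    rw [IntermediateField.AdjoinSimple.algebraMap_gen] at this
    exact this
  rw [IntermediateField.mem_bot] at h1
  obtain ⟨⟨x, hx⟩, rfl⟩ := h1
  rw [IntermediateField.mem_adjoin_simple_iff] at hx
  obtain ⟨p, q, hpq⟩ := hx
  change ∃ p q : ℂ[X], q ≠ 0 ∧ x * aeval t q = aeval t p
  by_cases hq : q = 0
  · refine ⟨0, 1, one_ne_zero, ?_⟩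
    rw [hpq, hq]
    simp
  · refine ⟨p, q, hq, ?_⟩
    have h2 : aeval t q ≠ 0 := fun h => ht ⟨q, hq, h⟩
    rw [hpq, div_mul_cancel₀ _ h2]

end MP52poly
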