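import Pool.Agent.Lib.MP_52aaf2_al.Poly.PStm

open Polynomial

namespace MP52poly

private theorem i2_trdeg : Algebra.trdeg ℂ KK = 1 := by
  have hf : FaithfulSMul ℂ[X] KK := by
    rw [faithfulSMul_iff_algebraMap_injective, IsScalarTower.algebraMap_eq ℂ[X] (RatFunc ℂ) KK]
    exact (algebraMap (RatFunc ℂ) KK).injective.comp (IsFractionRing.injective ℂ[X] (RatFunc ℂ))
  have h := trdeg_add_eq ℂ ℂ[X] (A := KK)
  have h1 : Algebra.trdeg ℂ[X] KK = 0 := by
    have h2 : Algebra.IsAlgebraic ℂ[X] (RatFunc ℂ) := IsLocalization.isAlgebraic (RatFunc ℂ) (nonZeroDivisors ℂ[X])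
    have h3 : Algebra.IsAlgebraic ℂ[X] KK := Algebra.IsAlgebraic.trans ℂ[X] (RatFunc ℂ) KK
    exact trdeg_eq_zero
  rw [h1, Polynomial.trdeg_of_isDomain, add_zero] at h
  exact h.symm

private theorem i2_alg (s : KK) (hs : Transcendental ℂ s) :
    Algebra.IsAlgebraic (IntermediateField.adjoin ℂ {s}) KK := by
  have h1 : AlgebraicIndependent ℂ (fun _ : Unit => s) :=
    (algebraicIndependent_unique_type_iff).2 hs
  have h2 : IsTranscendenceBasis ℂ (fun _ : Unit => s) := by
    apply h1.isTranscendenceBasis_of_lift_trdeg_le_of_finite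
    rw [i2_trdeg]
    simp
  have h3 := h2.isAlgebraic_field
  rwa [Set.range_const] at h3

theorem p_I2 : S_I2 := by
  intro t t' ht ht'
  have := i2_alg t ht
  have := i2_alg t' ht'
  have : IsAlgClosure (IntermediateField.adjoin ℂ {t}) KK := ⟨inferInstance, inferInstance⟩
  have : IsAlgClosure (IntermediateField.adjoin ℂ {t'}) KK := ⟨inferInstance, inferInstance⟩
  let e : (IntermediateField.adjoin ℂ {t}) ≃ₐ[ℂ] (IntermediateField.adjoin ℂ {t'}) :=
    (RatFunc.algEquivOfTranscendental t ht).symm.trans (RatFunc.algEquivOfTranscendental t' ht')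
  let g : KK ≃+* KK := IsAlgClosure.equivOfEquiv KK KK e.toRingEquiv
  have hg : ∀ x : IntermediateField.adjoin ℂ {t}, g (x : KK) = ((e x : IntermediateField.adjoin ℂ {t'}) : KK) :=
    fun x => IsAlgClosure.equivOfEquiv_algebraMap KK KK e.toRingEquiv x
  refine ⟨AlgEquiv.ofRingEquiv (f := g) ?_, ?_⟩
  · intro r
    have h := hg (algebraMap ℂ _ r)
    rw [e.commutes] at h
    exact h
  · have h := hg (IntermediateField.AdjoinSimple.gen ℂ t)
    have h2 : e (IntermediateField.AdjoinSimple.gen ℂ t) = IntermediateField.AdjoinSimple.gen ℂ t' := by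
      change RatFunc.algEquivOfTranscendental t' ht' ((RatFunc.algEquivOfTranscendental t ht).symm _) = _
      rw [RatFunc.algEquivOfTranscendental_symm_gen]
      apply Subtype.ext
      rw [RatFunc.algEquivOfTranscendental_X]
      rfl
    rw [h2] at h
    exact h

end MP52poly
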