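import Pool.Agent.Lib.MP_52aaf2_al.Poly.PStm

/-! # I3 : the symmetric Galois group acts on all fibres -/

open Polynomial

namespace MP52poly

private theorem i3_T : Transcendental ℂ (algebraMap (RatFunc ℂ) KK RatFunc.X) :=
  (transcendental_algebraMap_iff (algebraMap (RatFunc ℂ) KK).injective).2 RatFunc.transcendental_X

private theorem i3_aeval (β : ℂ[X]) (Y : KK) :
    aeval Y (β.map (algebraMap ℂ (RatFunc ℂ)) - C (RatFunc.X : RatFunc ℂ)) =
      aeval Y β - algebraMap (RatFunc ℂ) KK RatFunc.X := by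
  rw [map_sub, aeval_C, aeval_map_algebraMap]

private theorem i3_ne (β : ℂ[X]) (hβ : 0 < β.natDegree) :
    β.map (algebraMap ℂ (RatFunc ℂ)) - C (RatFunc.X : RatFunc ℂ) ≠ 0 := by
  intro h
  have h1 := congrArg natDegree h
  rw [natDegree_sub_C, natDegree_map, natDegree_zero] at h1
  omega

/-- every permutation of the roots over `T` comes from an automorphism over `ℂ(X)` -/
private theorem i3_perm (hB1 : S_B1) (β : ℂ[X]) (hβ : 0 < β.natDegree)
    (hc : Nat.card (MonGrp β) = β.natDegree.factorial) (s : Fin β.natDegree → KK)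
    (hs : Function.Injective s) (hsT : ∀ i, aeval (s i) β = algebraMap (RatFunc ℂ) KK RatFunc.X)
    (σ : Equiv.Perm (Fin β.natDegree)) :
    ∃ g : KK ≃ₐ[RatFunc ℂ] KK, ∀ i, g (s i) = s (σ i) := by
  classical
  set p : (RatFunc ℂ)[X] := β.map (algebraMap ℂ (RatFunc ℂ)) - C (RatFunc.X : RatFunc ℂ) with hp
  have hp0 : p ≠ 0 := i3_ne β hβ
  have hfact : Fact ((p.map (algebraMap (RatFunc ℂ) KK)).Splits) := ⟨IsAlgClosed.splits _⟩
  have hmem : ∀ Y : KK, Y ∈ p.rootSet KK ↔ aeval Y β = algebraMap (RatFunc ℂ) KK RatFunc.X := by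
    intro Y
    rw [mem_rootSet, hp, i3_aeval, sub_eq_zero]
    exact ⟨fun h => h.2, fun h => ⟨hp0, h⟩⟩
  have hB := hB1 KK β (algebraMap (RatFunc ℂ) KK RatFunc.X) hβ
  have hcard : Nat.card (p.rootSet KK) = β.natDegree := by
    rw [← hB.2 i3_T]
    have h1 : p.rootSet KK = (Rt β (algebraMap (RatFunc ℂ) KK RatFunc.X) : Set KK) := by
      ext Y
      rw [hmem, Finset.mem_coe, hB.1]
    rw [h1]
    simp
  -- the bijection between the indices and the roots
  let e0 : Fin β.natDegree → p.rootSet KK := fun i => ⟨s i, (hmem _).2 (hsT i)⟩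
  have he0 : Function.Bijective e0 := by
    have hinj : Function.Injective e0 := fun i j h => hs (congrArg Subtype.val h)
    have hfin : Finite (p.rootSet KK) := inferInstance
    refine (Nat.bijective_iff_injective_and_card e0).2 ⟨hinj, ?_⟩
    rw [hcard, Nat.card_fin]
  let e := Equiv.ofBijective e0 he0
  -- the action homomorphism is surjective
  have hfinG : Finite p.Gal := inferInstance
  have hfinP : Finite (Equiv.Perm (p.rootSet KK)) := inferInstance
  have hbij : Function.Bijective (Gal.galActionHom p KK) := by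
    refine (Nat.bijective_iff_injective_and_card _).2 ⟨Gal.galActionHom_injective p KK, ?_⟩
    rw [Nat.card_perm, hcard]
    exact hc
  obtain ⟨γ, hγ⟩ := hbij.2 ((e.symm.trans σ).trans e)
  obtain ⟨g, hg⟩ := Gal.restrict_surjective p KK γ
  refine ⟨g, fun i => ?_⟩
  have h2 := Gal.galActionHom_restrict p KK g (e i)
  rw [hg, hγ] at h2
  have h3 : ((e.symm.trans σ).trans e) (e i) = e (σ i) := by simp
  rw [h3] at h2
  exact h2.symm

theorem p_I3 (hI2 : S_I2) (hB1 : S_B1) : S_I3 := by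
  intro β hβ hc t ht r hr hrt σ
  obtain ⟨φ, hφ⟩ := hI2 _ t i3_T ht
  have hs : ∀ i, aeval (φ.symm (r i)) β = algebraMap (RatFunc ℂ) KK RatFunc.X := by
    intro i
    have h1 : aeval (φ.symm (r i)) β = φ.symm (aeval (r i) β) := by
      rw [← AlgEquiv.coe_toAlgHom, aeval_algHom_apply]
    rw [h1, hrt i, ← hφ, AlgEquiv.symm_apply_apply]
  obtain ⟨g0, hg0⟩ := i3_perm hB1 β hβ hc (fun i => φ.symm (r i))
    (fun i j h => hr (φ.symm.injective h)) hs σ
  refine ⟨(φ.symm.trans (g0.restrictScalars ℂ)).trans φ, ?_, fun i => ?_⟩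
  · change φ (g0 (φ.symm t)) = t
    rw [← hφ, AlgEquiv.symm_apply_apply, AlgEquiv.commutes]
  · change φ (g0 (φ.symm (r i))) = r (σ i)
    rw [hg0 i, AlgEquiv.apply_symm_apply]

end MP52poly
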