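import Pool.Agent.Lib.MP_52aaf2_al.Poly.PStm

/-! J1: a fibre over a point with exactly one double point gives a transposition. -/

open Polynomial

namespace MP52poly

private theorem J1_trans (v : ℂ) : Transcendental ℂ (algebraMap ℂ (LaurentSeries ℂ) v +
    algebraMap (PowerSeries ℂ) (LaurentSeries ℂ) PowerSeries.X) := by
  intro h
  have h1 : IsAlgebraic ℂ (algebraMap (PowerSeries ℂ) (LaurentSeries ℂ) PowerSeries.X) := by
    have h2 := h.sub (isAlgebraic_algebraMap (R := ℂ) (A := LaurentSeries ℂ) v)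
    rwa [add_sub_cancel_left] at h2
  obtain ⟨P, hP0, hP⟩ := h1
  have tow : @IsScalarTower ℂ (PowerSeries ℂ) (LaurentSeries ℂ) Algebra.toSMul Algebra.toSMul
      Algebra.toSMul := IsScalarTower.of_algebraMap_eq fun x => rfl
  rw [aeval_algebraMap_apply] at hP
  have h3 : aeval (PowerSeries.X : PowerSeries ℂ) P = 0 := by
    have hinj : Function.Injective (algebraMap (PowerSeries ℂ) (LaurentSeries ℂ)) :=
      IsFractionRing.injective (PowerSeries ℂ) (LaurentSeries ℂ)
    exact hinj (by rw [hP, map_zero])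
  have h4 : (aeval (PowerSeries.X : PowerSeries ℂ) : ℂ[X] →ₐ[ℂ] PowerSeries ℂ) =
      coeToPowerSeries.algHom ℂ := by
    refine algHom_ext ?_
    simp [coeToPowerSeries.algHom_apply]
  rw [h4, coeToPowerSeries.algHom_apply] at h3
  simp only [Algebra.algebraMap_self, PowerSeries.map_id, id_eq] at h3
  exact hP0 (coe_injective ℂ (by simpa using h3))

theorem p_J1 (hJ1a : S_J1a) (hJ1b : S_J1b) (hJ1c : S_J1c) : S_J1 := by
  intro β v hd hv
  have ht := J1_trans v
  obtain ⟨g, Y, Y', hg, hYY, hY, hY', hgY, hgY', hgZ⟩ :=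
    hJ1b (LaurentSeries ℂ) β _ hd ht (hJ1a β v hd hv)
  have ht0 : Transcendental ℂ (algebraMap (LaurentSeries ℂ) (AlgebraicClosure (LaurentSeries ℂ))
      (algebraMap ℂ (LaurentSeries ℂ) v +
        algebraMap (PowerSeries ℂ) (LaurentSeries ℂ) PowerSeries.X)) := by
    intro h
    exact ht ((isAlgebraic_algebraMap_iff (algebraMap (LaurentSeries ℂ)
      (AlgebraicClosure (LaurentSeries ℂ))).injective).1 h)
  obtain ⟨t, g', φ, htt, hg't, hφ⟩ := hJ1c (AlgebraicClosure (LaurentSeries ℂ)) _ g ht0 hg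
  obtain ⟨h1, h2, h3⟩ := hφ β (by omega)
  refine ⟨t, g', φ Y, φ Y', htt, hg't, fun h => hYY (h3 Y Y' hY hY' h), (h1 Y hY).1,
    (h1 Y' hY').1, ?_, ?_, ?_⟩
  · rw [(h1 Y hY).2, hgY]
  · rw [(h1 Y' hY').2, hgY']
  · intro Z hZ hZY hZY'
    obtain ⟨W, hW, rfl⟩ := h2 Z hZ
    have h4 : W ≠ Y := fun h => hZY (by rw [h])
    have h5 : W ≠ Y' := fun h => hZY' (by rw [h])
    rw [(h1 W hW).2, hgZ W hW h4 h5]

end MP52poly
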