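import Pool.Agent.Lib.MP_52aaf2_al.Poly.PStm

/-!
# Roots of `β = v + τ` in the field of Laurent series (piece J1a)
-/

open Polynomial

namespace MP52poly

/-- a polynomial with one distinct root less than its degree has exactly one multiple root -/
private theorem j1a_count (F : ℂ[X]) (hd : 2 ≤ F.natDegree)
    (h : {x : ℂ | F.eval x = 0}.ncard = F.natDegree - 1) :
    {x : ℂ | F.eval x = 0 ∧ F.derivative.eval x ≠ 0}.ncard = F.natDegree - 2 := by
  classical
  have hF : F ≠ 0 := by
    rintro rfl
    simp at hd
  have hroots : F.roots.card = F.natDegree :=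
    (Polynomial.splits_iff_card_roots.1 (IsAlgClosed.splits F))
  have hs : {x : ℂ | F.eval x = 0} = (F.roots.toFinset : Set ℂ) := by
    ext x
    rw [Finset.mem_coe, Multiset.mem_toFinset, mem_roots hF]
    rfl
  rw [hs, Set.ncard_coe_finset] at h
  have hs2 : {x : ℂ | F.eval x = 0 ∧ F.derivative.eval x ≠ 0} =
      ((F.roots.toFinset.filter fun x => F.roots.count x = 1 : Finset ℂ) : Set ℂ) := by
    ext x
    rw [Finset.mem_coe, Finset.mem_filter, Multiset.mem_toFinset, mem_roots hF, count_roots]
    constructor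
    · rintro ⟨h1, h2⟩
      refine ⟨h1, ?_⟩
      have h3 : 0 < F.rootMultiplicity x := (rootMultiplicity_pos hF).2 h1
      have h4 : ¬ 1 < F.rootMultiplicity x := fun h5 =>
        h2 ((one_lt_rootMultiplicity_iff_isRoot hF).1 h5).2
      omega
    · rintro ⟨h1, h2⟩
      refine ⟨h1, fun h3 => ?_⟩
      have := (one_lt_rootMultiplicity_iff_isRoot hF).2 ⟨h1, h3⟩
      omega
  rw [hs2, Set.ncard_coe_finset]
  have hsum : ∑ x ∈ F.roots.toFinset, F.roots.count x = F.natDegree := by
    rw [Multiset.toFinset_sum_count_eq, hroots]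
  have hpos : ∀ x ∈ F.roots.toFinset, 1 ≤ F.roots.count x := fun x hx =>
    Multiset.one_le_count_iff_mem.2 (Multiset.mem_toFinset.1 hx)
  have hcard := Finset.card_filter_add_card_filter_not (s := F.roots.toFinset)
    (fun x => F.roots.count x = 1)
  have hsplit := Finset.sum_filter_add_sum_filter_not F.roots.toFinset
    (fun x => F.roots.count x = 1) (fun x => F.roots.count x)
  have h1 : ∑ x ∈ F.roots.toFinset.filter (fun x => F.roots.count x = 1), F.roots.count x =
      (F.roots.toFinset.filter fun x => F.roots.count x = 1).card := by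
    rw [Finset.card_eq_sum_ones]
    exact Finset.sum_congr rfl fun x hx => (Finset.mem_filter.1 hx).2
  have h2 : 2 * (F.roots.toFinset.filter fun x => ¬ F.roots.count x = 1).card ≤
      ∑ x ∈ F.roots.toFinset.filter (fun x => ¬ F.roots.count x = 1), F.roots.count x := by
    rw [mul_comm, ← smul_eq_mul, ← Finset.sum_const]
    refine Finset.sum_le_sum fun x hx => ?_
    rw [Finset.mem_filter] at hx
    have := hpos x hx.1
    omega
  have h3 : (F.roots.toFinset.filter fun x => ¬ F.roots.count x = 1).card ≠ 0 := by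
    intro h0
    rw [Finset.card_eq_zero] at h0
    rw [h0, Finset.sum_empty] at hsplit
    rw [h0, Finset.card_empty] at hcard
    omega
  omega

/-- the value of a polynomial over `ℂ` at a power series, constant coefficient -/
private theorem j1a_cc (P : ℂ[X]) (y : PowerSeries ℂ) :
    PowerSeries.constantCoeff (aeval y P) = P.eval (PowerSeries.constantCoeff y) := by
  rw [aeval_def, hom_eval₂]
  have h : (PowerSeries.constantCoeff (R := ℂ)).comp (algebraMap ℂ (PowerSeries ℂ)) =
      RingHom.id ℂ := by
    refine RingHom.ext fun v => ?_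
    rw [RingHom.comp_apply, PowerSeries.algebraMap_apply, Algebra.algebraMap_self,
      RingHom.id_apply, PowerSeries.constantCoeff_C]
  rw [h, eval₂_id]

private theorem j1a_map (P : ℂ[X]) (y : PowerSeries ℂ) :
    aeval (algebraMap (PowerSeries ℂ) (LaurentSeries ℂ) y) P =
      algebraMap (PowerSeries ℂ) (LaurentSeries ℂ) (aeval y P) := by
  rw [aeval_def, aeval_def, hom_eval₂]
  rfl

/-- roots in the field of Laurent series are power series -/
private theorem j1a_int (β : ℂ[X]) (v : ℂ) (hd : 2 ≤ β.natDegree) (Y : LaurentSeries ℂ)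
    (hY : aeval Y β = algebraMap ℂ (LaurentSeries ℂ) v +
      algebraMap (PowerSeries ℂ) (LaurentSeries ℂ) PowerSeries.X) :
    ∃ y : PowerSeries ℂ, algebraMap (PowerSeries ℂ) (LaurentSeries ℂ) y = Y := by
  have hβ : β ≠ 0 := by
    rintro rfl
    simp at hd
  have hlc : β.leadingCoeff ≠ 0 := leadingCoeff_ne_zero.2 hβ
  let f : (PowerSeries ℂ)[X] := (C (β.leadingCoeff⁻¹) * β).map (algebraMap ℂ (PowerSeries ℂ)) -
    C (algebraMap ℂ (PowerSeries ℂ) β.leadingCoeff⁻¹ *
      (algebraMap ℂ (PowerSeries ℂ) v + PowerSeries.X))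
  have hmon : (C (β.leadingCoeff⁻¹) * β).Monic := by
    rw [Monic, leadingCoeff_mul, leadingCoeff_C, inv_mul_cancel₀ hlc]
  have hdeg : 0 < ((C (β.leadingCoeff⁻¹) * β).map (algebraMap ℂ (PowerSeries ℂ))).degree := by
    rw [hmon.degree_map, degree_C_mul (inv_ne_zero hlc), ← natDegree_pos_iff_degree_pos]
    omega
  have hf : f.Monic := (hmon.map _).sub_of_left (lt_of_le_of_lt degree_C_le hdeg)
  refine IsIntegrallyClosed.isIntegral_iff.1 ⟨f, hf, ?_⟩
  change eval₂ _ Y (_ - _) = 0
  rw [eval₂_sub, eval₂_C, eval₂_map]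
  have h1 : eval₂ ((algebraMap (PowerSeries ℂ) (LaurentSeries ℂ)).comp
      (algebraMap ℂ (PowerSeries ℂ))) Y (C (β.leadingCoeff⁻¹) * β) =
      algebraMap (PowerSeries ℂ) (LaurentSeries ℂ)
        (algebraMap ℂ (PowerSeries ℂ) β.leadingCoeff⁻¹) * aeval Y β := by
    rw [eval₂_mul, eval₂_C]
    rfl
  rw [h1, hY, map_mul, map_add]
  exact sub_self _

theorem p_J1a : S_J1a := by
  intro β v hd hfib
  -- the polynomial `β - v`
  have hF1 : ∀ x, (β - C v).eval x = β.eval x - v := fun x => by rw [eval_sub, eval_C]
  have hFd : (β - C v).natDegree = β.natDegree := natDegree_sub_C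
  have hF2 : (β - C v).derivative = β.derivative := by
    rw [derivative_sub, derivative_C, sub_zero]
  have hcount := j1a_count (β - C v) (by rw [hFd]; exact hd) (by
    rw [hFd, ← hfib]
    congr 1
    ext x
    change (β - C v).eval x = 0 ↔ β.eval x = v
    rw [hF1, sub_eq_zero])
  rw [hFd, hF2] at hcount
  rw [← hcount]
  have hβ : β ≠ 0 := by
    rintro rfl
    simp at hd
  have hlc : β.leadingCoeff ≠ 0 := leadingCoeff_ne_zero.2 hβ
  have hinj : Function.Injective (algebraMap (PowerSeries ℂ) (LaurentSeries ℂ)) :=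
    IsFractionRing.injective (PowerSeries ℂ) (LaurentSeries ℂ)
  -- roots that are power series
  have hroot : ∀ y : PowerSeries ℂ, aeval (algebraMap (PowerSeries ℂ) (LaurentSeries ℂ) y) β =
      algebraMap ℂ (LaurentSeries ℂ) v +
        algebraMap (PowerSeries ℂ) (LaurentSeries ℂ) PowerSeries.X ↔
      aeval y β = PowerSeries.C v + PowerSeries.X := by
    intro y
    rw [j1a_map]
    constructor
    · intro h
      apply hinj
      rw [h, map_add]
      rfl
    · intro h
      rw [h, map_add]
      rfl
  -- the constant coefficient of a root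
  have hcc : ∀ y : PowerSeries ℂ, aeval y β = PowerSeries.C v + PowerSeries.X →
      β.eval (PowerSeries.constantCoeff y) = v ∧
      β.derivative.eval (PowerSeries.constantCoeff y) ≠ 0 := by
    intro y hy
    constructor
    · rw [← j1a_cc, hy, map_add, PowerSeries.constantCoeff_C, PowerSeries.constantCoeff_X,
        add_zero]
    · intro h0
      have h1 := Derivation.map_aeval (PowerSeries.derivative ℂ) β y
      rw [hy, map_add, PowerSeries.derivative_C, PowerSeries.derivative_X, zero_add,
        smul_eq_mul] at h1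
      have h2 := congrArg PowerSeries.constantCoeff h1
      rw [map_mul, j1a_cc, h0, zero_mul, map_one] at h2
      exact one_ne_zero h2
  -- roots with the same constant coefficient
  have huniq : ∀ y z : PowerSeries ℂ, aeval y β = PowerSeries.C v + PowerSeries.X →
      aeval z β = PowerSeries.C v + PowerSeries.X →
      PowerSeries.constantCoeff y = PowerSeries.constantCoeff z → y = z := by
    intro y z hy hz hyz
    obtain ⟨k, hk⟩ := binomExpansion (β.map (algebraMap ℂ (PowerSeries ℂ))) z (y - z)
    rw [add_sub_cancel, derivative_map, eval_map, eval_map, eval_map] at hk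
    change aeval y β = aeval z β + aeval z (derivative β) * (y - z) + k * (y - z) ^ 2 at hk
    rw [hy, hz] at hk
    have h1 : (y - z) * (aeval z (derivative β) + k * (y - z)) = 0 := by
      linear_combination -hk
    rcases mul_eq_zero.1 h1 with h2 | h2
    · exact sub_eq_zero.1 h2
    · exfalso
      have h3 := congrArg PowerSeries.constantCoeff h2
      rw [map_add, map_mul, map_sub, hyz, sub_self, mul_zero, add_zero, j1a_cc, map_zero] at h3
      exact (hcc z hz).2 h3
  -- Hensel
  have hlift : ∀ c : ℂ, β.eval c = v → β.derivative.eval c ≠ 0 →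
      ∃ y : PowerSeries ℂ, aeval y β = PowerSeries.C v + PowerSeries.X ∧
        PowerSeries.constantCoeff y = c := by
    intro c hc1 hc2
    let J : Ideal (PowerSeries ℂ) := Ideal.span {(PowerSeries.X : PowerSeries ℂ)}
    have : HenselianRing (PowerSeries ℂ) J := IsAdicComplete.henselianRing _ _
    let f : (PowerSeries ℂ)[X] := (C (β.leadingCoeff⁻¹) * β).map (algebraMap ℂ (PowerSeries ℂ)) -
      C (algebraMap ℂ (PowerSeries ℂ) β.leadingCoeff⁻¹ *
        (algebraMap ℂ (PowerSeries ℂ) v + PowerSeries.X))
    have hmon : (C (β.leadingCoeff⁻¹) * β).Monic := by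
      rw [Monic, leadingCoeff_mul, leadingCoeff_C, inv_mul_cancel₀ hlc]
    have hdeg : 0 < ((C (β.leadingCoeff⁻¹) * β).map (algebraMap ℂ (PowerSeries ℂ))).degree := by
      rw [hmon.degree_map, degree_C_mul (inv_ne_zero hlc), ← natDegree_pos_iff_degree_pos]
      omega
    have hf : f.Monic := (hmon.map _).sub_of_left (lt_of_le_of_lt degree_C_le hdeg)
    have hev : ∀ y, f.eval y = algebraMap ℂ (PowerSeries ℂ) β.leadingCoeff⁻¹ *
        (aeval y β - (PowerSeries.C v + PowerSeries.X)) := by
      intro y
      change eval y (_ - _) = _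
      rw [eval_sub, eval_C, eval_map, eval₂_mul, eval₂_C, mul_sub]
      rfl
    have hcst : ∀ P : ℂ[X], aeval (PowerSeries.C c) P = PowerSeries.C (P.eval c) := by
      intro P
      have h1 : aeval (algebraMap ℂ (PowerSeries ℂ) c) P =
          algebraMap ℂ (PowerSeries ℂ) (P.eval c) := by
        rw [aeval_algebraMap_apply, coe_aeval_eq_eval]
      exact h1
    have hder : f.derivative.eval (PowerSeries.C c) =
        PowerSeries.C (β.leadingCoeff⁻¹ * β.derivative.eval c) := by
      change eval _ (derivative (_ - _)) = _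
      rw [derivative_sub, derivative_C, sub_zero, derivative_map, eval_map, derivative_C_mul]
      change aeval (PowerSeries.C c) (C β.leadingCoeff⁻¹ * derivative β) = _
      rw [hcst, eval_mul, eval_C]
    obtain ⟨y, hy1, hy2⟩ := HenselianRing.is_henselian (I := J) f hf (PowerSeries.C c) (by
      rw [hev, hcst, hc1]
      refine Ideal.mul_mem_left _ _ ?_
      rw [sub_add_cancel_left]
      exact J.neg_mem (Ideal.subset_span rfl)) (by
      rw [hder]
      refine IsUnit.map _ (IsUnit.map _ (isUnit_iff_ne_zero.2 ?_))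
      exact mul_ne_zero (inv_ne_zero hlc) hc2)
    refine ⟨y, ?_, ?_⟩
    · have h1 : algebraMap ℂ (PowerSeries ℂ) β.leadingCoeff⁻¹ *
          (aeval y β - (PowerSeries.C v + PowerSeries.X)) = 0 := by
        rw [← hev]
        exact hy1
      rcases mul_eq_zero.1 h1 with h2 | h2
      · exfalso
        have h3 := congrArg PowerSeries.constantCoeff h2
        rw [PowerSeries.algebraMap_apply, Algebra.algebraMap_self, RingHom.id_apply,
          PowerSeries.constantCoeff_C, map_zero] at h3
        exact inv_ne_zero hlc h3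
      · exact sub_eq_zero.1 h2
    · rw [Ideal.mem_span_singleton, PowerSeries.X_dvd_iff, map_sub,
        PowerSeries.constantCoeff_C] at hy2
      exact sub_eq_zero.1 hy2
  -- the bijection
  symm
  refine Set.ncard_congr (fun c hc => algebraMap (PowerSeries ℂ) (LaurentSeries ℂ)
    (hlift c (by have := hc.1; rw [hF1] at this; exact sub_eq_zero.1 this) hc.2).choose) ?_ ?_ ?_
  · intro c hc
    have h1 := (hlift c (by have := hc.1; rw [hF1] at this; exact sub_eq_zero.1 this)
      hc.2).choose_spec
    exact (hroot _).2 h1.1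
  · intro c c' hc hc' h
    have h1 := (hlift c (by have := hc.1; rw [hF1] at this; exact sub_eq_zero.1 this)
      hc.2).choose_spec
    have h2 := (hlift c' (by have := hc'.1; rw [hF1] at this; exact sub_eq_zero.1 this)
      hc'.2).choose_spec
    rw [← h1.2, ← h2.2, hinj h]
  · intro Y hY
    obtain ⟨y, rfl⟩ := j1a_int β v hd Y hY
    have hy := (hroot y).1 hY
    obtain ⟨h1, h2⟩ := hcc y hy
    refine ⟨PowerSeries.constantCoeff y, ⟨by rw [hF1, h1, sub_self], h2⟩, ?_⟩
    have h3 := (hlift (PowerSeries.constantCoeff y) h1 h2).choose_spec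
    congr 1
    exact huniq _ _ h3.1 hy h3.2

end MP52poly
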