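import Pool.Agent.Lib.MP_52aaf2_al.Poly.PStm

open Polynomial

namespace MP52poly

theorem p_J1b (hB1 : S_B1) : S_J1b := by
  classical
  intro M _ _ β t hd ht hcard
  have hchar : CharZero M := charZero_of_injective_algebraMap (algebraMap ℂ M).injective
  set Ω := AlgebraicClosure M with hΩ
  set T : Ω := algebraMap M Ω t with hT
  have hTt : Transcendental ℂ T :=
    (transcendental_algebraMap_iff (algebraMap M Ω).injective).2 ht
  obtain ⟨hmem, hRc⟩ := hB1 Ω β T (by omega)
  have hRcard : (Rt β T).card = β.natDegree := hRc hTt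
  -- the rational roots
  have hval : ∀ m : M, aeval (algebraMap M Ω m) β = algebraMap M Ω (aeval m β) := fun m =>
    aeval_algebraMap_apply Ω m β
  set R0 : Finset Ω := (Rt β T).filter (fun Y => ∃ m : M, algebraMap M Ω m = Y) with hR0
  have hR0eq : (R0 : Set Ω) = (algebraMap M Ω) '' {Y : M | aeval Y β = t} := by
    ext Y
    simp only [hR0, Finset.coe_filter, Set.mem_image]
    constructor
    · rintro ⟨h1, m, rfl⟩
      refine ⟨m, ?_, rfl⟩
      have h2 := (hmem _).1 h1
      rw [hval] at h2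
      exact (algebraMap M Ω).injective h2
    · rintro ⟨m, hm, rfl⟩
      refine ⟨(hmem _).2 ?_, m, rfl⟩
      rw [hval]
      exact congrArg _ hm
  have hR0card : R0.card = β.natDegree - 2 := by
    rw [← Set.ncard_coe_finset, hR0eq, Set.ncard_image_of_injective _ (algebraMap M Ω).injective,
      hcard]
  have hsub : R0 ⊆ Rt β T := Finset.filter_subset _ _
  have h2 : (Rt β T \ R0).card = 2 := by
    rw [Finset.card_sdiff_of_subset hsub, hRcard, hR0card]
    omega
  obtain ⟨Y, Y', hne, hYY⟩ := Finset.card_eq_two.1 h2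
  have hin : ∀ Z : Ω, (aeval Z β = T ∧ ¬ ∃ m : M, algebraMap M Ω m = Z) ↔ Z = Y ∨ Z = Y' := by
    intro Z
    have h3 : Z ∈ Rt β T \ R0 ↔ Z ∈ ({Y, Y'} : Finset Ω) := by rw [hYY]
    rw [Finset.mem_sdiff, Finset.mem_insert, Finset.mem_singleton, hR0, Finset.mem_filter,
      hmem] at h3
    rw [← h3]
    tauto
  have hY := (hin Y).2 (Or.inl rfl)
  have hY' := (hin Y').2 (Or.inr rfl)
  have hgal : IsGalois M Ω := inferInstance
  have hYbot : Y ∉ (⊥ : IntermediateField M Ω) := by
    rw [IntermediateField.mem_bot]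
    rintro ⟨m, hm⟩
    exact hY.2 ⟨m, hm⟩
  rw [InfiniteGalois.mem_bot_iff_fixed] at hYbot
  push Not at hYbot
  obtain ⟨g, hg⟩ := hYbot
  have hroot : ∀ Z : Ω, aeval Z β = T → aeval (g Z) β = T := by
    intro Z hZ
    have h4 : aeval (g Z) β = g (aeval Z β) :=
      aeval_algHom_apply (g.restrictScalars ℂ).toAlgHom Z β
    rw [h4, hZ, hT]
    exact g.commutes t
  have hnr : ∀ Z : Ω, (¬ ∃ m : M, algebraMap M Ω m = Z) → ¬ ∃ m : M, algebraMap M Ω m = g Z := by
    rintro Z hZ ⟨m, hm⟩
    refine hZ ⟨m, g.injective ?_⟩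
    rw [g.commutes, hm]
  have hgY : g Y = Y' := by
    rcases (hin (g Y)).1 ⟨hroot Y hY.1, hnr Y hY.2⟩ with h | h
    · exact absurd h hg
    · exact h
  have hgY' : g Y' = Y := by
    rcases (hin (g Y')).1 ⟨hroot Y' hY'.1, hnr Y' hY'.2⟩ with h | h
    · exact h
    · exfalso
      rw [← hgY] at h
      have := g.injective h
      rw [hgY] at this
      exact hne this.symm
  refine ⟨g.restrictScalars ℂ, Y, Y', g.commutes t, hne, hY.1, hY'.1, hgY, hgY', ?_⟩
  intro Z hZ hZY hZY'
  by_cases h5 : ∃ m : M, algebraMap M Ω m = Z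
  · obtain ⟨m, rfl⟩ := h5
    exact g.commutes m
  · rcases (hin Z).1 ⟨hZ, h5⟩ with h | h
    · exact absurd h hZY
    · exact absurd h hZY'

end MP52poly
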