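import Pool.Agent.Lib.MP_52aaf2_al.Poly.PStm

/-! J2: an indecomposable polynomial has no nontrivial blocks. -/

open Polynomial

namespace MP52poly

private theorem J2_comp (R : Finset KK) (blk : KK → Finset KK) (m : ℕ) (h : ℂ[X])
    (hm : 1 ≤ m) (hhm : h.natDegree = m)
    (hh : ∀ Y ∈ R, ∀ Y' ∈ blk Y, aeval Y' h = aeval Y h)
    (hdvd : ∀ f : ℂ[X], f ≠ 0 → (∀ Y ∈ R, ∀ Y' ∈ blk Y, aeval Y' f = aeval Y f) →
      m ∣ f.natDegree) :
    ∀ (n : ℕ) (f : ℂ[X]), f.natDegree = n →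
      (∀ Y ∈ R, ∀ Y' ∈ blk Y, aeval Y' f = aeval Y f) → ∃ g : ℂ[X], f = g.comp h := by
  intro n
  induction n using Nat.strong_induction_on with
  | _ n ih =>
    intro f hfn hf
    by_cases hn : n = 0
    · refine ⟨C (f.coeff 0), ?_⟩
      rw [C_comp]
      exact eq_C_of_natDegree_eq_zero (by rw [hfn, hn])
    have hf0 : f ≠ 0 := by
      rintro rfl
      rw [natDegree_zero] at hfn
      exact hn hfn.symm
    have hh0 : h ≠ 0 := by
      rintro rfl
      rw [natDegree_zero] at hhm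
      omega
    obtain ⟨q, hq⟩ := hdvd f hf0 hf
    have hlh : h.leadingCoeff ≠ 0 := leadingCoeff_ne_zero.2 hh0
    have hlf : f.leadingCoeff ≠ 0 := leadingCoeff_ne_zero.2 hf0
    set c : ℂ := f.leadingCoeff / h.leadingCoeff ^ q with hc
    have hc0 : c ≠ 0 := div_ne_zero hlf (pow_ne_zero _ hlh)
    have hdeg : degree f = degree (C c * h ^ q) := by
      rw [degree_C_mul hc0, degree_pow, degree_eq_natDegree hf0, degree_eq_natDegree hh0, hq, hhm]
      rw [← Nat.cast_smul_eq_nsmul ℕ, nsmul_eq_mul] at *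
      push_cast
      simp [mul_comm]
    have hlc : f.leadingCoeff = (C c * h ^ q).leadingCoeff := by
      rw [leadingCoeff_mul, leadingCoeff_C, leadingCoeff_pow, hc,
        div_mul_cancel₀ _ (pow_ne_zero _ hlh)]
    have hlt := degree_sub_lt_left hdeg hf0 hlc
    have hlt' : (f - C c * h ^ q).natDegree < n := by
      by_cases h0 : f - C c * h ^ q = 0
      · rw [h0, natDegree_zero]
        exact Nat.pos_of_ne_zero hn
      · rw [← hfn]
        exact natDegree_lt_natDegree h0 hlt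
    obtain ⟨g, hg⟩ := ih _ hlt' (f - C c * h ^ q) rfl (by
      intro Y hY Y' hY'
      simp only [map_sub, map_mul, map_pow, aeval_C]
      rw [hf Y hY Y' hY', hh Y hY Y' hY'])
    refine ⟨g + C c * X ^ q, ?_⟩
    rw [add_comp, ← hg, mul_comp, C_comp, pow_comp, X_comp]
    ring

theorem p_J2 (hB1 : S_B1) (hB2 : S_B2) (hI2 : S_I2) (hJ2a : S_J2a) (hJ2d : S_J2d) : S_J2 := by
  intro β hd hind t B ht hB hblock
  rcases B.eq_empty_or_nonempty with rfl | hne
  · exact Or.inl Set.subsingleton_empty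
  have hd0 : 0 < β.natDegree := by omega
  obtain ⟨hRt, hcard⟩ := hB1 KK β t hd0
  have htr : ∀ Y Y' : KK, aeval Y β = t → aeval Y' β = t →
      ∃ g : KK ≃ₐ[ℂ] KK, g t = t ∧ g Y = Y' := by
    intro Y Y' hY hY'
    have h1 : Transcendental ℂ Y := (hB2 KK β Y hd0).1 (by rw [hY]; exact ht)
    have h2 : Transcendental ℂ Y' := (hB2 KK β Y' hd0).1 (by rw [hY']; exact ht)
    obtain ⟨g, hg⟩ := hI2 Y Y' h1 h2
    refine ⟨g, ?_, hg⟩
    conv_lhs => rw [← hY]
    have h3 := aeval_algHom_apply (g : KK →ₐ[ℂ] KK) Y β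
    change aeval (g Y) β = g (aeval Y β) at h3
    rw [← h3, hg, hY']
  obtain ⟨blk, hblk, hblkB⟩ := hJ2a KK β t B hd0 ht htr hB hne hblock
  obtain ⟨hdvd, h, hhm, hh⟩ := hJ2d β t B.ncard blk hd0 ht hblk
  obtain ⟨Y0, hY0⟩ := hne
  have hfin : B.Finite := by
    rw [← hblkB Y0 hY0]
    exact (blk Y0).finite_toSet
  have hm : 1 ≤ B.ncard := by
    exact (Set.ncard_pos hfin).2 ⟨Y0, hY0⟩
  obtain ⟨g, hg⟩ := J2_comp (Rt β t) blk B.ncard h hm hhm hh hdvd _ β rfl (by
    intro Y hY Y' hY'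
    rw [(hRt Y').1 ((hblk.1 Y hY).2.1 hY'), (hRt Y).1 hY])
  rcases hind g h hg with h1 | h1
  · right
    have h2 : β.natDegree = g.natDegree * B.ncard := by
      conv_lhs => rw [hg]
      rw [natDegree_comp, hhm]
    have h3 : g.natDegree = 1 := by
      rcases Nat.eq_zero_or_pos g.natDegree with h4 | h4
      · rw [h4, zero_mul] at h2
        omega
      · omega
    rw [h3, one_mul] at h2
    have h5 : {Y : KK | aeval Y β = t} = (Rt β t : Set KK) := by
      ext Y
      rw [Finset.mem_coe, hRt]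
      rfl
    rw [h5] at hB ⊢
    refine Set.eq_of_subset_of_ncard_le hB ?_ (Finset.finite_toSet _)
    rw [Set.ncard_coe_finset, hcard ht, h2]
  · left
    rw [hhm] at h1
    have := hfin.to_subtype
    exact Set.ncard_le_one_iff_subsingleton.1 h1

end MP52poly
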