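import Pool.Agent.Lib.MP_52aaf2_al.Poly.PStm

/-! [J2a] A block generates a system of blocks. -/

open Polynomial

namespace MP52poly

/-- two translates with a common point are equal -/
private theorem J2a_uniq {K : Type} [Field K] [Algebra ℂ K] {t : K} {B : Set K}
    (hB : ∀ g : K ≃ₐ[ℂ] K, g t = t → g '' B = B ∨ Disjoint (g '' B) B)
    {g g' : K ≃ₐ[ℂ] K} (hg : g t = t) (hg' : g' t = t) {Y : K} (h : Y ∈ g '' B)
    (h' : Y ∈ g' '' B) : g '' B = g' '' B := by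
  have e : ((g.trans g'.symm : K ≃ₐ[ℂ] K) : K → K) '' B = g'.symm '' (g '' B) := by
    rw [Set.image_image]; rfl
  rcases hB (g.trans g'.symm) (by
    rw [AlgEquiv.trans_apply, hg, AlgEquiv.symm_apply_eq, hg']) with h1 | h1
  · rw [e] at h1
    have h2 : g' '' (g'.symm '' (g '' B)) = g' '' B := by rw [h1]
    rw [Set.image_image] at h2
    simpa using h2
  · exfalso
    rw [e] at h1
    obtain ⟨b, hb, hbY⟩ := h'
    have h2 : g'.symm Y = b := by rw [AlgEquiv.symm_apply_eq, hbY]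
    exact Set.disjoint_left.1 h1 ⟨Y, h, h2⟩ hb

private theorem J2a_aeval {K : Type} [Field K] [Algebra ℂ K] {β : ℂ[X]} {t Y : K}
    (g : K ≃ₐ[ℂ] K) (hg : g t = t) (hY : aeval Y β = t) : aeval (g Y) β = t := by
  have h3 := aeval_algHom_apply (g : K →ₐ[ℂ] K) Y β
  have h4 : (g : K →ₐ[ℂ] K) Y = g Y := rfl
  have h5 : (g : K →ₐ[ℂ] K) (aeval Y β) = g (aeval Y β) := rfl
  rw [h4, h5, hY, hg] at h3
  exact h3

theorem p_J2a (hB1 : S_B1) : S_J2a := by
  intro K _ _ _ β t B hd _ htr hBs hBn hB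
  classical
  obtain ⟨hR, -⟩ := hB1 K β t hd
  let blk : K → Finset K := fun Y => (Rt β t).filter (fun Z =>
    ∃ g : K ≃ₐ[ℂ] K, g t = t ∧ Y ∈ g '' B ∧ Z ∈ g '' B)
  have key : ∀ (g : K ≃ₐ[ℂ] K) (Y : K), g t = t → Y ∈ g '' B → (blk Y : Set K) = g '' B := by
    intro g Y hg hY
    ext Z
    simp only [blk, Finset.coe_filter, Set.mem_ofPred_eq]
    constructor
    · rintro ⟨_, g', hg', h1, h2⟩
      rw [J2a_uniq hB hg hg' hY h1]
      exact h2
    · intro hZ
      refine ⟨?_, g, hg, hY, hZ⟩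
      obtain ⟨b, hb, rfl⟩ := hZ
      exact (hR _).2 (J2a_aeval g hg (hBs hb))
  have ex : ∀ Y, aeval Y β = t → ∃ g : K ≃ₐ[ℂ] K, g t = t ∧ Y ∈ g '' B := by
    intro Y hY
    obtain ⟨b, hb⟩ := hBn
    obtain ⟨g, hg, hg'⟩ := htr b Y (hBs hb) hY
    exact ⟨g, hg, b, hb, hg'⟩
  refine ⟨blk, ⟨?_, ?_, ?_⟩, ?_⟩
  · intro Y hY
    obtain ⟨g, hg, hYg⟩ := ex Y ((hR Y).1 hY)
    have h1 := key g Y hg hYg
    refine ⟨?_, Finset.filter_subset _ _, ?_⟩
    · rw [← Finset.mem_coe, h1]; exact hYg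
    · rw [← Set.ncard_coe_finset, h1]
      exact Set.ncard_image_of_injective B g.injective
  · intro Y hY Y' hY'
    obtain ⟨g, hg, hYg⟩ := ex Y ((hR Y).1 hY)
    have h1 := key g Y hg hYg
    rw [← Finset.mem_coe, h1] at hY'
    apply Finset.coe_injective
    rw [h1, key g Y' hg hY']
  · intro g0 hg0 Y hY Z
    obtain ⟨g, hg, hYg⟩ := ex Y ((hR Y).1 hY)
    have h1 := key g Y hg hYg
    have e : ((g.trans g0 : K ≃ₐ[ℂ] K) : K → K) '' B = g0 '' (g '' B) := by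
      rw [Set.image_image]; rfl
    have h2 := key (g.trans g0) (g0 Y) (by rw [AlgEquiv.trans_apply, hg, hg0])
      (by rw [e]; exact Set.mem_image_of_mem _ hYg)
    rw [← Finset.mem_coe, h1, ← Finset.mem_coe, h2, e]
    exact (Function.Injective.mem_set_image g0.injective).symm
  · intro Y hY
    have h1 := key AlgEquiv.refl Y rfl (by simpa using hY)
    rw [h1]
    simp

end MP52poly
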