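import Pool.Agent.Lib.MP_52aaf2_al.Poly.PStm

open Polynomial

namespace MP52poly

/-- [J2b] A product over a fibre of a function which is constant on the blocks is a power. -/
theorem p_J2b : S_J2b := by
  classical
  intro K _ _ _ β t m blk f hB hf
  obtain ⟨hB1, hB2, hB3⟩ := hB
  -- the value on a block
  obtain ⟨F, hF⟩ : ∃ F : Finset K → K, ∀ Y ∈ Rt β t, F (blk Y) = f Y := by
    refine ⟨fun c => if h : ∃ Y ∈ Rt β t, blk Y = c then f h.choose else 1, fun Y hY => ?_⟩
    have h : ∃ Y' ∈ Rt β t, blk Y' = blk Y := ⟨Y, hY, rfl⟩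
    change (if h : ∃ Y' ∈ Rt β t, blk Y' = blk Y then f h.choose else 1) = f Y
    rw [dif_pos h]
    have h1 := h.choose_spec
    have key : ∀ W ∈ Rt β t, blk W = blk Y → f W = f Y := by
      intro W hW h
      refine hf Y hY W ?_
      rw [← h]
      exact (hB1 W hW).1
    exact key _ h1.1 h1.2
  refine ⟨∏ c ∈ (Rt β t).image blk, F c, ?_, ?_⟩
  · rw [← Finset.prod_fiberwise_of_maps_to (g := blk) (t := (Rt β t).image blk)
      (fun Y hY => Finset.mem_image_of_mem blk hY), ← Finset.prod_pow]
    refine Finset.prod_congr rfl (fun c hc => ?_)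
    obtain ⟨Y0, hY0, rfl⟩ := Finset.mem_image.1 hc
    have hfil : (Rt β t).filter (fun Y => blk Y = blk Y0) = blk Y0 := by
      ext Y
      rw [Finset.mem_filter]
      constructor
      · rintro ⟨h1, h2⟩
        rw [← h2]
        exact (hB1 Y h1).1
      · intro h
        exact ⟨(hB1 Y0 hY0).2.1 h, hB2 Y0 hY0 Y h⟩
    rw [hfil, Finset.prod_congr rfl (fun Y hY => (hf Y0 hY0 Y hY)), Finset.prod_const,
      (hB1 Y0 hY0).2.2, hF Y0 hY0]
  · intro g hg hgR hgf
    have himg : ∀ Y ∈ Rt β t, (blk Y).image g = blk (g Y) := by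
      intro Y hY
      ext Z
      rw [Finset.mem_image]
      constructor
      · rintro ⟨W, hW, rfl⟩
        exact (hB3 g hg Y hY W).1 hW
      · intro hZ
        refine ⟨g.symm Z, ?_, g.apply_symm_apply Z⟩
        rw [hB3 g hg Y hY, g.apply_symm_apply]
        exact hZ
    have hinj : Function.Injective (fun c : Finset K => c.image g) :=
      Finset.image_injective g.injective
    have hsub : ((Rt β t).image blk).image (fun c : Finset K => c.image g) ⊆ (Rt β t).image blk := by
      intro c hc
      obtain ⟨c', hc', rfl⟩ := Finset.mem_image.1 hc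
      obtain ⟨Y, hY, rfl⟩ := Finset.mem_image.1 hc'
      change (blk Y).image g ∈ _
      rw [himg Y hY]
      exact Finset.mem_image_of_mem blk (hgR Y hY)
    have heq : ((Rt β t).image blk).image (fun c : Finset K => c.image g) = (Rt β t).image blk :=
      Finset.eq_of_subset_of_card_le hsub (by rw [Finset.card_image_of_injective _ hinj])
    rw [map_prod]
    conv_rhs => rw [← heq]
    rw [Finset.prod_image (fun a _ b _ h => hinj h)]
    refine Finset.prod_congr rfl (fun c hc => ?_)
    obtain ⟨Y, hY, rfl⟩ := Finset.mem_image.1 hc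
    change g (F (blk Y)) = F ((blk Y).image g)
    rw [himg Y hY, hF Y hY, hF _ (hgR Y hY), hgf Y hY]

end MP52poly
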