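import Pool.Agent.Lib.MP_52aaf2_al.Poly.PStm

/-! Piece [PG J2c]. -/

open Polynomial

namespace MP52poly

theorem p_J2c : S_J2c := by
  intro K _ _ Y e p q hY hq he hint
  have hinj : Function.Injective (aeval Y : ℂ[X] →ₐ[ℂ] K) := transcendental_iff_injective.mp hY
  have hadj : Algebra.adjoin ℂ {Y} = (aeval Y : ℂ[X] →ₐ[ℂ] K).range :=
    Algebra.adjoin_singleton_eq_range_aeval ℂ Y
  let E := AlgEquiv.ofInjective (aeval Y : ℂ[X] →ₐ[ℂ] K) hinj
  let E2 := Subalgebra.equivOfEq _ _ hadj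
  let ψ : Algebra.adjoin ℂ {Y} →ₐ[ℂ] ℂ[X] := E.symm.toAlgHom.comp E2.toAlgHom
  have hψ : ∀ x : Algebra.adjoin ℂ {Y}, aeval Y (ψ x) = (x : K) := by
    intro x
    have h1 : E (E.symm (E2 x)) = E2 x := E.apply_symm_apply _
    have h2 : ((E (E.symm (E2 x)) : (aeval Y : ℂ[X] →ₐ[ℂ] K).range) : K) = ((E2 x : (aeval Y : ℂ[X] →ₐ[ℂ] K).range) : K) := by
      rw [h1]
    exact h2
  let _ : Algebra ℂ[X] K := (aeval Y : ℂ[X] →ₐ[ℂ] K).toRingHom.toAlgebra
  have halg : ∀ f : ℂ[X], algebraMap ℂ[X] K f = aeval Y f := fun f => rfl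
  have hintX : IsIntegral ℂ[X] e := by
    obtain ⟨P, hPm, hP⟩ := hint
    refine ⟨P.map (ψ : Algebra.adjoin ℂ {Y} →+* ℂ[X]), hPm.map _, ?_⟩
    rw [Polynomial.eval₂_map]
    have hcomp : (algebraMap ℂ[X] K).comp (ψ : Algebra.adjoin ℂ {Y} →+* ℂ[X]) = algebraMap (Algebra.adjoin ℂ {Y}) K := by
      ext x
      exact hψ x
    rw [hcomp]
    exact hP
  have hinj' : Function.Injective (algebraMap ℂ[X] K) := hinj
  let φ : FractionRing ℂ[X] →ₐ[ℂ[X]] K := IsFractionRing.liftAlgHom (g := Algebra.ofId ℂ[X] K) hinj'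
  let r : FractionRing ℂ[X] := algebraMap ℂ[X] _ p / algebraMap ℂ[X] _ q
  have hq' : aeval Y q ≠ 0 := by
    intro h0
    apply hq
    apply hinj
    rw [h0, map_zero]
  have hφr : φ r = e := by
    have h1 : φ r = algebraMap ℂ[X] K p / algebraMap ℂ[X] K q := by
      rw [map_div₀, AlgHom.commutes, AlgHom.commutes]
    rw [h1, halg, halg, div_eq_iff hq']
    exact he.symm
  have hr : IsIntegral ℂ[X] r := by
    rw [← isIntegral_algHom_iff φ φ.toRingHom.injective, hφr]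
    exact hintX
  obtain ⟨h, hh⟩ := IsIntegrallyClosed.isIntegral_iff.mp hr
  refine ⟨h, ?_⟩
  rw [← hφr, ← hh, AlgHom.commutes]
  rfl

end MP52poly
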