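import Pool.Agent.Lib.MP_52aaf2_al.Poly.PStm

open Polynomial

namespace MP52poly

namespace J2d

/-- integrality of the points of a fibre -/
theorem isInt {K : Type} [Field K] [Algebra ℂ K] (β : ℂ[X]) (hβ : 0 < β.natDegree) (Y Z : K)
    (h : aeval Z β = aeval Y β) : IsIntegral (Algebra.adjoin ℂ {Y}) Z := by
  have htA : aeval Y β ∈ Algebra.adjoin ℂ {Y} := by
    rw [Algebra.adjoin_singleton_eq_range_aeval]
    exact ⟨β, rfl⟩
  set A := Algebra.adjoin ℂ {Y} with hA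
  set t' : A := ⟨aeval Y β, htA⟩ with ht'
  have hlc : β.leadingCoeff ≠ 0 := by
    rw [leadingCoeff_ne_zero]
    rintro rfl
    simp at hβ
  have hinj : Function.Injective (algebraMap ℂ A) := (algebraMap ℂ A).injective
  set P : A[X] := C (algebraMap ℂ A β.leadingCoeff⁻¹) * (β.map (algebraMap ℂ A) - C t') with hP
  refine ⟨P, ?_, ?_⟩
  · have h1 : (β.map (algebraMap ℂ A) - C t').leadingCoeff = algebraMap ℂ A β.leadingCoeff := by
      rw [leadingCoeff_sub_of_degree_lt, leadingCoeff_map_of_injective hinj]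
      refine lt_of_le_of_lt degree_C_le ?_
      rw [← natDegree_pos_iff_degree_pos, natDegree_map_eq_of_injective hinj]
      exact hβ
    unfold Monic
    rw [hP, leadingCoeff_mul, leadingCoeff_C, h1, ← map_mul, inv_mul_cancel₀ hlc, map_one]
  · have h2 : (algebraMap A K).comp (algebraMap ℂ A) = algebraMap ℂ K := rfl
    have h3 : eval₂ (algebraMap ℂ K) Z β = aeval Y β := h
    have h4 : algebraMap A K t' = aeval Y β := rfl
    rw [hP, eval₂_mul, eval₂_sub, eval₂_map, eval₂_C, h2, eval₂_C, h3, h4, sub_self, mul_zero]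

theorem aeval_inj {K : Type} [Field K] [Algebra ℂ K] (t : K) (ht : Transcendental ℂ t)
    (p q : ℂ[X]) (h : aeval t p = aeval t q) : p = q :=
  transcendental_iff_injective.1 ht h

end J2d

open J2d in
theorem p_J2d (hI1 : S_I1) (hI2 : S_I2) (hB1 : S_B1) (hB2 : S_B2) (hB3 : S_B3)
    (hJ2b : S_J2b) (hJ2c : S_J2c) : S_J2d := by
  classical
  intro β t m blk hβ ht hblk
  obtain ⟨hRt, hcard⟩ := hB1 KK β t hβ
  have hcard' := hcard ht
  obtain ⟨hb1, hb2, hb3⟩ := hblk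
  have hgR : ∀ g : KK ≃ₐ[ℂ] KK, g t = t → ∀ Y ∈ Rt β t, g Y ∈ Rt β t := by
    intro g hg Y hY
    rw [hRt] at hY ⊢
    have h := Polynomial.aeval_algHom_apply (g : KK →ₐ[ℂ] KK) Y β
    change aeval (g Y) β = g (aeval Y β) at h
    rw [h, hY, hg]
  have hgae : ∀ (g : KK ≃ₐ[ℂ] KK) (f : ℂ[X]) (Y : KK), aeval (g Y) f = g (aeval Y f) := by
    intro g f Y
    exact Polynomial.aeval_algHom_apply (g : KK →ₐ[ℂ] KK) Y f
  have htrR : ∀ Y ∈ Rt β t, Transcendental ℂ Y := by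
    intro Y hY
    rw [hRt] at hY
    rw [← hB2 KK β Y hβ, hY]
    exact ht
  constructor
  · intro f hf hconst
    obtain ⟨Ψ, hΨ0, hΨd, hΨ⟩ := hB3 KK β f hβ hf
    obtain ⟨G, hG, hGfix⟩ := hJ2b KK β t m blk (fun Y => aeval Y f) ⟨hb1, hb2, hb3⟩ hconst
    have hfix : ∀ g : KK ≃ₐ[ℂ] KK, g t = t → g G = G := by
      intro g hg
      exact hGfix g hg (hgR g hg) (fun Y _ => hgae g f Y)
    obtain ⟨p, q, hq, hpq⟩ := hI1 t G ht hfix
    have h1 : aeval t (Ψ * q ^ m) = aeval t (p ^ m) := by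
      rw [map_mul, map_pow, map_pow, ← hpq, mul_pow, ← hG, ← hΨ t ht]
    have h2 := aeval_inj t ht _ _ h1
    have h3 : (Ψ * q ^ m).natDegree = (p ^ m).natDegree := by rw [h2]
    rw [natDegree_mul hΨ0 (pow_ne_zero _ hq), natDegree_pow, natDegree_pow, hΨd] at h3
    have h4 : m ∣ f.natDegree + m * q.natDegree := by
      rw [h3]
      exact dvd_mul_right _ _
    exact (Nat.dvd_add_left (dvd_mul_right _ _)).1 h4
  · -- the products over the blocks
    have himg : ∀ g : KK ≃ₐ[ℂ] KK, g t = t → ∀ Y ∈ Rt β t, (blk Y).image g = blk (g Y) := by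
      intro g hg Y hY
      apply Finset.eq_of_subset_of_card_le
      · intro Z hZ
        rw [Finset.mem_image] at hZ
        obtain ⟨W, hW, rfl⟩ := hZ
        exact (hb3 g hg Y hY W).1 hW
      · rw [(hb1 _ (hgR g hg Y hY)).2.2, Finset.card_image_of_injective _ g.injective,
          (hb1 _ hY).2.2]
    have hprod : ∀ g : KK ≃ₐ[ℂ] KK, g t = t → ∀ Y ∈ Rt β t,
        ∏ Z ∈ blk (g Y), Z = g (∏ Z ∈ blk Y, Z) := by
      intro g hg Y hY
      rw [← himg g hg Y hY, Finset.prod_image (fun a _ b _ h => g.injective h), map_prod]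
    have hne : (Rt β t).Nonempty := by
      rw [← Finset.card_pos, hcard']
      exact hβ
    obtain ⟨Y₁, hY₁⟩ := hne
    have hY₁' := (hRt Y₁).1 hY₁
    have hfix₁ : ∀ g : KK ≃ₐ[ℂ] KK, g Y₁ = Y₁ → g (∏ Z ∈ blk Y₁, Z) = ∏ Z ∈ blk Y₁, Z := by
      intro g hg
      have hgt : g t = t := by rw [← hY₁', ← hgae, hg]
      rw [← hprod g hgt Y₁ hY₁, hg]
    obtain ⟨p, q, hq, hpq⟩ := hI1 Y₁ _ (htrR Y₁ hY₁) hfix₁
    have hint : IsIntegral (Algebra.adjoin ℂ {Y₁}) (∏ Z ∈ blk Y₁, Z) := by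
      apply IsIntegral.prod
      intro Z hZ
      apply isInt β hβ
      rw [hY₁', (hRt Z).1 ((hb1 _ hY₁).2.1 hZ)]
    obtain ⟨h, hh⟩ := hJ2c KK Y₁ _ p q (htrR Y₁ hY₁) hq hpq hint
    have hval : ∀ Y ∈ Rt β t, ∏ Z ∈ blk Y, Z = aeval Y h := by
      intro Y hY
      obtain ⟨g, hg⟩ := hI2 Y₁ Y (htrR Y₁ hY₁) (htrR Y hY)
      have hgt : g t = t := by rw [← hY₁', ← hgae, hg, hY₁', (hRt Y).1 hY]
      rw [← hg, hprod g hgt Y₁ hY₁, hh, hgae]
    have hh0 : h ≠ 0 := by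
      rintro rfl
      rw [map_zero, Finset.prod_eq_zero_iff] at hh
      obtain ⟨Z, hZ, hZ0⟩ := hh
      have h1 := htrR Z ((hb1 _ hY₁).2.1 hZ)
      rw [hZ0] at h1
      exact h1 isAlgebraic_zero
    refine ⟨h, ?_, ?_⟩
    · obtain ⟨Ψ, hΨ0, hΨd, hΨ⟩ := hB3 KK β h hβ hh0
      obtain ⟨Φ, hΦ0, hΦd, hΦ⟩ := hB3 KK β X hβ X_ne_zero
      have h1 : ∏ Y ∈ Rt β t, aeval Y h = (∏ Z ∈ Rt β t, Z) ^ m := by
        have h2 : ∏ Y ∈ Rt β t, aeval Y h = ∏ Y ∈ Rt β t, ∏ Z ∈ blk Y, Z :=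
          Finset.prod_congr rfl (fun Y hY => (hval Y hY).symm)
        have h3 : ∏ Y ∈ Rt β t, ∏ Z ∈ blk Y, Z = ∏ Z ∈ Rt β t, ∏ Y ∈ blk Z, Z := by
          apply Finset.prod_comm'
          intro Y Z
          constructor
          · rintro ⟨hY, hZ⟩
            have hZR := (hb1 _ hY).2.1 hZ
            refine ⟨?_, hZR⟩
            rw [hb2 Y hY Z hZ]
            exact (hb1 Y hY).1
          · rintro ⟨hY, hZ⟩
            have hYR := (hb1 _ hZ).2.1 hY
            refine ⟨hYR, ?_⟩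
            rw [hb2 Z hZ Y hY]
            exact (hb1 Z hZ).1
        rw [h2, h3, ← Finset.prod_pow]
        apply Finset.prod_congr rfl
        intro Z hZ
        rw [Finset.prod_const, (hb1 Z hZ).2.2]
      have h4 : aeval t Ψ = aeval t (Φ ^ m) := by
        rw [← hΨ t ht, h1, map_pow, ← hΦ t ht]
        simp only [aeval_X]
      have h5 := aeval_inj t ht _ _ h4
      rw [← hΨd, h5, natDegree_pow, hΦd, natDegree_X, mul_one]
    · intro Y hY Y' hY'
      rw [← hval Y hY, ← hval Y' ((hb1 _ hY).2.1 hY'), hb2 Y hY Y' hY']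

end MP52poly
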