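import Pool.Agent.Lib.MP_52aaf2_al.Poly.PStm

set_option autoImplicit false

open Polynomial
open scoped Pointwise

namespace MP52poly

theorem p_J3 (hI2 : S_I2) (hB1 : S_B1) (hB2 : S_B2) (hJ1 : S_J1) (hJ2 : S_J2) : S_J3 := by
  classical
  intro β v hd hind hv
  have hd0 : 0 < β.natDegree := by omega
  obtain ⟨t0, g0, Y, Y', ht0, hg0, hne, hY, hY', hgY, hgY', hgZ⟩ := hJ1 β v (by omega) hv
  have hiff : ∀ (g : KK ≃ₐ[ℂ] KK), g t0 = t0 →
      ∀ Z : KK, aeval Z β = t0 ↔ aeval (g.toEquiv Z) β = t0 := by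
    intro g hg Z
    have h1 : aeval (g.toEquiv Z) β = g (aeval Z β) := aeval_algHom_apply g Z β
    rw [h1]
    constructor
    · intro h
      rw [h, hg]
    · intro h
      exact g.injective (h.trans hg.symm)
  let X0 : Type := {Z : KK // aeval Z β = t0}
  let perm : (g : KK ≃ₐ[ℂ] KK) → g t0 = t0 → Equiv.Perm X0 :=
    fun g hg => g.toEquiv.subtypeEquiv (hiff g hg)
  have perm_val : ∀ (g : KK ≃ₐ[ℂ] KK) (hg : g t0 = t0) (Z : X0),
      ((perm g hg Z : X0) : KK) = g Z.1 := fun _ _ _ => rfl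
  let G : Subgroup (Equiv.Perm X0) :=
    { carrier := {σ | ∃ g : KK ≃ₐ[ℂ] KK, g t0 = t0 ∧ ∀ Z : X0, (σ Z).1 = g Z.1}
      mul_mem' := by
        rintro σ τ ⟨g, hg, hσ⟩ ⟨h, hh, hτ⟩
        refine ⟨h.trans g, ?_, fun Z => ?_⟩
        · rw [AlgEquiv.trans_apply, hh, hg]
        · rw [Equiv.Perm.mul_apply, hσ, hτ]
          rfl
      one_mem' := ⟨AlgEquiv.refl, rfl, fun _ => rfl⟩
      inv_mem' := by
        rintro σ ⟨g, hg, hσ⟩
        refine ⟨g.symm, ?_, fun Z => ?_⟩
        · rw [AlgEquiv.symm_apply_eq]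
          exact hg.symm
        · rw [AlgEquiv.eq_symm_apply, ← hσ]
          exact congrArg Subtype.val (Equiv.apply_symm_apply σ Z) }
  have hGmem : ∀ σ : Equiv.Perm X0, σ ∈ G ↔
      ∃ g : KK ≃ₐ[ℂ] KK, g t0 = t0 ∧ ∀ Z : X0, (σ Z).1 = g Z.1 := fun σ => Iff.rfl
  have hB := hB1 KK β t0 hd0
  have hset : {Z : KK | aeval Z β = t0} = (Rt β t0 : Set KK) := by
    ext Z
    exact (hB.1 Z).symm
  have hfinX : Finite X0 := by
    have : ({Z : KK | aeval Z β = t0}).Finite := by
      rw [hset]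
      exact (Rt β t0).finite_toSet
    exact this.to_subtype
  have hcard : Nat.card X0 = β.natDegree := by
    have h1 : Nat.card X0 = ({Z : KK | aeval Z β = t0}).ncard := rfl
    rw [h1, hset, Set.ncard_coe_finset]
    exact hB.2 ht0
  -- transitivity
  have htr : ∀ Z : X0, Transcendental ℂ Z.1 := by
    intro Z
    rw [← hB2 KK β Z.1 hd0, Z.2]
    exact ht0
  have htrans : ∀ Z Z' : X0, ∃ σ ∈ G, σ Z = Z' := by
    intro Z Z'
    obtain ⟨g, hg⟩ := hI2 Z.1 Z'.1 (htr Z) (htr Z')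
    have hgt : g t0 = t0 := by
      have h1 : aeval (g Z.1) β = g (aeval Z.1 β) := aeval_algHom_apply g Z.1 β
      rw [hg, Z.2, Z'.2] at h1
      exact h1.symm
    exact ⟨perm g hgt, ⟨g, hgt, perm_val g hgt⟩, Subtype.ext hg⟩
  have hprim : MulAction.IsPreprimitive G X0 := by
    have hpre : MulAction.IsPretransitive G X0 := by
      refine ⟨fun Z Z' => ?_⟩
      obtain ⟨σ, hσ, h⟩ := htrans Z Z'
      exact ⟨⟨σ, hσ⟩, h⟩
    refine { toIsPretransitive := hpre, isTrivialBlock_of_isBlock := ?_ }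
    intro B hBl
    have hblock := hJ2 β (by omega) hind t0 (Subtype.val '' B) ht0 (by
        rintro _ ⟨Z, -, rfl⟩
        exact Z.2) (by
        intro g hg
        have hmemG : perm g hg ∈ G := ⟨g, hg, perm_val g hg⟩
        have himg : (fun Z : KK => g Z) '' (Subtype.val '' B) =
            Subtype.val '' ((⟨perm g hg, hmemG⟩ : G) • B) := by
          ext z
          constructor
          · rintro ⟨_, ⟨Z, hZ, rfl⟩, rfl⟩
            exact ⟨perm g hg Z, ⟨Z, hZ, rfl⟩, rfl⟩
          · rintro ⟨_, ⟨Z, hZ, rfl⟩, rfl⟩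
            exact ⟨Z.1, ⟨Z, hZ, rfl⟩, rfl⟩
        have himg' : g '' (Subtype.val '' B) =
            Subtype.val '' ((⟨perm g hg, hmemG⟩ : G) • B) := himg
        rw [himg']
        rcases MulAction.IsBlock.smul_eq_or_disjoint hBl (⟨perm g hg, hmemG⟩ : G) with h | h
        · left
          rw [h]
        · right
          exact (Set.disjoint_image_iff Subtype.val_injective).2 h)
    rcases hblock with h | h
    · left
      intro a ha b hb
      exact Subtype.ext (h ⟨a, ha, rfl⟩ ⟨b, hb, rfl⟩)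
    · right
      rw [Set.eq_univ_iff_forall]
      intro a
      have : a.1 ∈ Subtype.val '' B := by
        rw [h]
        exact a.2
      obtain ⟨b, hb, hba⟩ := this
      rw [← Subtype.ext hba]
      exact hb
  have htop : G = ⊤ := by
    refine Equiv.Perm.subgroup_eq_top_of_isPreprimitive_of_isSwap_mem hprim (perm g0 hg0) ?_
      ⟨g0, hg0, perm_val g0 hg0⟩
    refine ⟨⟨Y, hY⟩, ⟨Y', hY'⟩, fun h => hne (congrArg Subtype.val h), ?_⟩
    refine Equiv.ext fun Z => ?_
    by_cases h1 : Z = ⟨Y, hY⟩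
    · rw [h1, Equiv.swap_apply_left]
      exact Subtype.ext hgY
    · by_cases h2 : Z = ⟨Y', hY'⟩
      · rw [h2, Equiv.swap_apply_right]
        exact Subtype.ext hgY'
      · rw [Equiv.swap_apply_of_ne_of_ne h1 h2]
        exact Subtype.ext (hgZ Z.1 Z.2 (fun h => h1 (Subtype.ext h))
          (fun h => h2 (Subtype.ext h)))
  intro t ht r hr hrt σ
  obtain ⟨φ, hφ⟩ := hI2 t0 t ht0 ht
  have hφs : φ.symm t = t0 := by
    rw [AlgEquiv.symm_apply_eq]
    exact hφ.symm
  have hr0 : ∀ i, aeval (φ.symm (r i)) β = t0 := by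
    intro i
    have h1 : aeval (φ.symm (r i)) β = φ.symm (aeval (r i) β) :=
      aeval_algHom_apply φ.symm (r i) β
    rw [h1, hrt, hφs]
  let e0 : Fin β.natDegree → X0 := fun i => ⟨φ.symm (r i), hr0 i⟩
  have he0 : Function.Injective e0 := by
    intro i j hij
    exact hr (φ.symm.injective (congrArg Subtype.val hij))
  have hbij : Function.Bijective e0 := by
    have hft : Fintype X0 := Fintype.ofFinite X0
    rw [Fintype.bijective_iff_injective_and_card]
    refine ⟨he0, ?_⟩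
    rw [Fintype.card_fin, ← Nat.card_eq_fintype_card, hcard]
  let e : Fin β.natDegree ≃ X0 := Equiv.ofBijective e0 hbij
  have hτ : (e.permCongr σ) ∈ G := by
    rw [htop]
    exact Subgroup.mem_top _
  obtain ⟨g, hg, hgτ⟩ := (hGmem _).1 hτ
  refine ⟨(φ.symm.trans g).trans φ, ?_, fun i => ?_⟩
  · rw [AlgEquiv.trans_apply, AlgEquiv.trans_apply, hφs, hg, hφ]
  · have h1 : (e.permCongr σ) (e i) = e (σ i) := by
      rw [Equiv.permCongr_apply, Equiv.symm_apply_apply]
    have h2 := hgτ (e i)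
    rw [h1] at h2
    have h3 : (e i).1 = φ.symm (r i) := rfl
    have h4 : (e (σ i)).1 = φ.symm (r (σ i)) := rfl
    rw [h3, h4] at h2
    rw [AlgEquiv.trans_apply, AlgEquiv.trans_apply, ← h2, AlgEquiv.apply_symm_apply]

end MP52poly
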