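import Pool.Agent.Lib.MP_52aaf2_al.Poly.PStmK

/-! [K1] It suffices to consider words whose last letter is `b⁻¹`. -/

namespace MP52poly

private theorem k1_head {G : Type} [Group G] (b : G) (ε : ℕ → Bool) (l : ℕ → G) (k : ℕ) :
    wp b ε l (k + 1) = wp b (fun j => ε (j + 1)) (fun j => l (j + 1)) k *
      (bif ε 0 then b else b⁻¹) * l 0 := by
  induction k with
  | zero => rfl
  | succ k ih =>
    change l (k + 2) * (bif ε (k + 1) then b else b⁻¹) * wp b ε l (k + 1) = _
    rw [ih]
    change _ = (l (k + 2) * (bif ε (k + 1) then b else b⁻¹) *
      wp b (fun j => ε (j + 1)) (fun j => l (j + 1)) k) * _ * _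
    simp only [mul_assoc]

private theorem k1_inv {G : Type} [Group G] (b : G) (ε : ℕ → Bool) (l : ℕ → G) (k : ℕ) :
    (wp b ε l k)⁻¹ = wp b (fun j => !ε (k - 1 - j)) (fun j => (l (k - j))⁻¹) k := by
  induction k with
  | zero => rfl
  | succ k ih =>
    rw [k1_head b (fun j => !ε (k + 1 - 1 - j))]
    have e1 : (fun j => !ε (k + 1 - 1 - (j + 1))) = fun j => !ε (k - 1 - j) := by
      funext j
      congr 2
      omega
    have e2 : (fun j => (l (k + 1 - (j + 1)))⁻¹) = fun j => (l (k - j))⁻¹ := by
      funext j
      congr 2
      omega
    rw [e1, e2, ← ih]
    change (l (k + 1) * (bif ε k then b else b⁻¹) * wp b ε l k)⁻¹ = _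
    have e3 : (bif !ε (k + 1 - 1 - 0) then b else b⁻¹) = (bif ε k then b else b⁻¹)⁻¹ := by
      rw [show k + 1 - 1 - 0 = k by omega]
      cases ε k <;> simp
    rw [e3]
    simp only [mul_inv_rev, mul_assoc, Nat.sub_zero]

private theorem k1_congr {G : Type} [Group G] (b : G) {ε ε' : ℕ → Bool} {l l' : ℕ → G} (k : ℕ)
    (h1 : ∀ j < k, ε j = ε' j) (h2 : ∀ j ≤ k, l j = l' j) : wp b ε l k = wp b ε' l' k := by
  induction k with
  | zero => exact h2 0 le_rfl
  | succ k ih =>
    change l (k + 1) * (bif ε k then b else b⁻¹) * wp b ε l k =
      l' (k + 1) * (bif ε' k then b else b⁻¹) * wp b ε' l' k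
    rw [ih (fun j hj => h1 j (by omega)) (fun j hj => h2 j (by omega)), h1 k (by omega),
      h2 (k + 1) le_rfl]

theorem p_K1 : S_K1 := by
  intro G _ A b H k
  induction k using Nat.strong_induction_on with
  | _ k IH =>
    intro ε l hl hr hx
    cases hk : ε k with
    | false => exact H k ε l hl hr hk hx
    | true =>
      cases h0 : ε 0 with
      | true =>
        have hi := k1_inv b ε l (k + 1)
        rw [hx, inv_one] at hi
        refine H k _ _ (fun i => A.inv_mem (hl _)) ?_ ?_ hi.symm
        · intro i hi1 hne hc
          have hc' : l (k + 1 - (i + 1)) = 1 := inv_eq_one.1 hc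
          have hne' : ε (k + 1 - 1 - i) ≠ ε (k + 1 - 1 - (i + 1)) := by
            intro h
            apply hne
            change (!ε (k + 1 - 1 - i)) = !ε (k + 1 - 1 - (i + 1))
            rw [h]
          refine hr (k - i - 1) (by omega) ?_ ?_
          · rw [show k + 1 - 1 - i = k - i - 1 + 1 by omega,
              show k + 1 - 1 - (i + 1) = k - i - 1 by omega] at hne'
            exact hne'.symm
          · rw [show k - i - 1 + 1 = k + 1 - (i + 1) by omega]
            exact hc'
        · rw [show k + 1 - 1 - k = 0 by omega, h0]
          rfl
      | false =>
        obtain _ | k := k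
        · rw [hk] at h0
          exact absurd h0 (by simp)
        · obtain ⟨m, hm⟩ : ∃ m, m = wp b (fun j => ε (j + 1)) (fun j => l (j + 1)) k := ⟨_, rfl⟩
          obtain ⟨c, hc⟩ : ∃ c, c = l 0 * l (k + 2) := ⟨_, rfl⟩
          have e1 : b⁻¹ * c * b * m = 1 := by
            have h1 : l (k + 2) * b * (m * b⁻¹ * l 0) = 1 := by
              have h2 := hx
              change l (k + 2) * (bif ε (k + 1) then b else b⁻¹) * wp b ε l (k + 1) = 1 at h2
              rw [k1_head, hk, h0] at h2
              rw [hm]
              exact h2
            have h3 : b⁻¹ * c * b * m = (b⁻¹ * l 0) * (l (k + 2) * b * (m * b⁻¹ * l 0)) *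
                (b⁻¹ * l 0)⁻¹ := by
              rw [hc]
              group
            rw [h3, h1]
            group
          by_cases hc1 : c = 1
          · rw [hc1] at e1
            have hm1 : m = 1 := by simpa using e1
            obtain _ | k := k
            · refine hr 0 (by omega) ?_ ?_
              · rw [h0, hk]
                simp
              · rw [hm] at hm1
                exact hm1
            · refine IH k (by omega) (fun j => ε (j + 1)) (fun j => l (j + 1)) (fun i => hl _) ?_
                (hm ▸ hm1)
              intro i hi hne
              exact hr (i + 1) (by omega) hne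
          · -- the word `b⁻¹ c b m`
            refine H (k + 1) (fun j => if j < k + 1 then ε (j + 1) else false)
              (fun j => if j ≤ k then l (j + 1) else if j = k + 1 then c else 1) ?_ ?_ ?_ ?_
            · intro i
              split_ifs
              · exact hl _
              · rw [hc]
                exact A.mul_mem (hl _) (hl _)
              · exact A.one_mem
            · intro i hi hne
              simp only at hne ⊢
              by_cases hik : i + 1 ≤ k
              · rw [if_pos hik]
                rw [if_pos (by omega), if_pos (by omega)] at hne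
                exact hr (i + 1) (by omega) hne
              · rw [if_neg hik, if_pos (by omega)]
                exact hc1
            · simp
            · change (if k + 2 ≤ k then l (k + 2 + 1) else if k + 2 = k + 1 then c else 1) *
                (bif (if k + 1 < k + 1 then ε (k + 1 + 1) else false) then b else b⁻¹) *
                ((if k + 1 ≤ k then l (k + 1 + 1) else if k + 1 = k + 1 then c else 1) *
                (bif (if k < k + 1 then ε (k + 1) else false) then b else b⁻¹) *
                wp b _ _ k) = 1
              rw [if_neg (by omega), if_neg (by omega), if_neg (by omega), if_neg (by omega),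
                if_pos rfl, if_pos (by omega), hk]
              have e4 : wp b (fun j => if j < k + 1 then ε (j + 1) else false)
                  (fun j => if j ≤ k then l (j + 1) else if j = k + 1 then c else 1) k = m := by
                rw [hm]
                refine k1_congr b k (fun j hj => ?_) (fun j hj => ?_)
                · rw [if_pos (by omega)]
                · rw [if_pos hj]
              rw [e4]
              refine Eq.trans ?_ e1
              simp only [cond_true, cond_false, one_mul, mul_assoc]

end MP52poly
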