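import Pool.Agent.Lib.MP_52aaf2_al.Poly.PStmK

/-! [K2] From words to the normal form hypothesis. -/

namespace MP52poly

open MP52aaf2 (NF Red)

private theorem k2_congr {G : Type} [Group G] (b : G) {ε ε' : ℕ → Bool} {l l' : ℕ → G} (k : ℕ)
    (h1 : ∀ j < k, ε j = ε' j) (h2 : ∀ j ≤ k, l j = l' j) : wp b ε l k = wp b ε' l' k := by
  induction k with
  | zero => exact h2 0 le_rfl
  | succ k ih =>
    change l (k + 1) * (bif ε k then b else b⁻¹) * wp b ε l k =
      l' (k + 1) * (bif ε' k then b else b⁻¹) * wp b ε' l' k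
    rw [ih (fun j hj => h1 j (by omega)) (fun j hj => h2 j (by omega)), h1 k (by omega),
      h2 (k + 1) le_rfl]

/-- appending `n + 1` equal letters -/
private theorem k2_append {G : Type} [Group G] (A : Subgroup G) (b : G) (e : Bool) (n k : ℕ)
    (ε : ℕ → Bool) (l : ℕ → G) (hl : ∀ i, l i ∈ A) (hr : WRed ε l k) (h0 : 0 < k → l k ≠ 1) :
    ∃ (ε' : ℕ → Bool) (l' : ℕ → G), (∀ i, l' i ∈ A) ∧ WRed ε' l' (k + n + 1) ∧
      l' (k + n + 1) = 1 ∧ (bif e then b else b⁻¹) ^ (n + 1) * wp b ε l k =
        wp b ε' l' (k + n + 1) := by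
  refine ⟨fun j => if j < k then ε j else e, fun j => if j ≤ k then l j else 1, ?_, ?_, ?_, ?_⟩
  · intro i
    beta_reduce
    split_ifs
    · exact hl i
    · exact A.one_mem
  · intro i hi hne
    beta_reduce at hne ⊢
    rcases lt_trichotomy (i + 1) k with h | h | h
    · have h1 := hr i h
      rw [if_pos (by omega), if_pos (by omega)] at hne
      rw [if_pos (by omega)]
      exact h1 hne
    · rw [if_pos (by omega), h]
      exact h0 (by omega)
    · rw [if_neg (by omega), if_neg (by omega)] at hne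
      exact absurd rfl hne
  · beta_reduce
    rw [if_neg (by omega)]
  · have key : ∀ j : ℕ, wp b (fun j => if j < k then ε j else e)
        (fun j => if j ≤ k then l j else 1) (k + j) = (bif e then b else b⁻¹) ^ j * wp b ε l k := by
      intro j
      induction j with
      | zero =>
        rw [pow_zero, one_mul]
        refine k2_congr b k (fun j hj => ?_) (fun j hj => ?_)
        · rw [if_pos hj]
        · rw [if_pos hj]
      | succ j ih =>
        change (if k + j + 1 ≤ k then l (k + j + 1) else 1) *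
          (bif (if k + j < k then ε (k + j) else e) then b else b⁻¹) * wp b _ _ (k + j) = _
        rw [ih, if_neg (by omega), if_neg (by omega), one_mul, pow_succ', mul_assoc]
    exact (key (n + 1)).symm

private theorem k2_zpow {G : Type} [Group G] (b : G) (m : ℤ) (hm : m ≠ 0) :
    ∃ (e : Bool) (n : ℕ), b ^ m = (bif e then b else b⁻¹) ^ (n + 1) := by
  rcases lt_or_gt_of_ne hm with h | h
  · refine ⟨false, (-m).toNat - 1, ?_⟩
    have h1 : (-m).toNat - 1 + 1 = (-m).toNat := by omega
    rw [h1, cond_false, ← zpow_natCast, Int.toNat_of_nonneg (by omega), inv_zpow, zpow_neg, inv_inv]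
  · refine ⟨true, m.toNat - 1, ?_⟩
    have h1 : m.toNat - 1 + 1 = m.toNat := by omega
    rw [h1, cond_true, ← zpow_natCast, Int.toNat_of_nonneg (by omega)]

/-- what an alternating product with leftmost factor in `HH2 A b i` looks like -/
private def K2Q {G : Type} [Group G] (A : Subgroup G) (b : G) (i : Bool) (g : G) : Prop :=
  match i with
  | true => ∃ (k : ℕ) (ε : ℕ → Bool) (l : ℕ → G), (∀ i, l i ∈ A) ∧ WRed ε l (k + 1) ∧
      l (k + 1) = 1 ∧ g = wp b ε l (k + 1)
  | false => (g ∈ A ∧ g ≠ 1) ∨ ∃ (k : ℕ) (ε : ℕ → Bool) (l : ℕ → G), (∀ i, l i ∈ A) ∧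
      WRed ε l (k + 1) ∧ l (k + 1) ≠ 1 ∧ g = wp b ε l (k + 1)

private theorem k2_red {G : Type} [Group G] (A : Subgroup G) (b : G) (i j : Bool) (n : ℕ) (g : G)
    (h : Red (HH2 A b) i j n g) : K2Q A b i g := by
  induction h with
  | one i g hg hc =>
    cases i with
    | false =>
      left
      refine ⟨hg, ?_⟩
      rintro rfl
      exact hc (Subgroup.one_mem _)
    | true =>
      have hg' : g ∈ Subgroup.zpowers b := hg
      have hc' : g ∉ A := hc
      obtain ⟨m, rfl⟩ := Subgroup.mem_zpowers_iff.1 hg'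
      have hm : m ≠ 0 := by
        rintro rfl
        exact hc' (by rw [zpow_zero]; exact A.one_mem)
      obtain ⟨e, n, hn⟩ := k2_zpow b m hm
      obtain ⟨ε', l', h1, h2, h3, h4⟩ := k2_append A b e n 0 (fun _ => true) (fun _ => 1)
        (fun _ => A.one_mem) (fun i hi => by omega) (fun h => absurd h (lt_irrefl 0))
      refine ⟨0 + n, ε', l', h1, h2, h3, ?_⟩
      rw [hn, ← h4]
      exact (mul_one _).symm
  | cons i j n x g hx hc hg ih =>
    cases i with
    | false =>
      have hx' : x ∈ A := hx
      have hx1 : x ≠ 1 := by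
        rintro rfl
        exact hc (Subgroup.one_mem _)
      obtain ⟨k, ε, l, h1, h2, h3, h4⟩ := ih
      right
      refine ⟨k, ε, fun j => if j = k + 1 then x else l j, ?_, ?_, ?_, ?_⟩
      · intro i
        beta_reduce
        split_ifs
        · exact hx'
        · exact h1 i
      · intro i hi hne
        beta_reduce
        rw [if_neg (by omega)]
        exact h2 i hi hne
      · beta_reduce
        rw [if_pos rfl]
        exact hx1
      · have e1 : wp b ε (fun j => if j = k + 1 then x else l j) (k + 1) =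
            (if k + 1 = k + 1 then x else l (k + 1)) * (bif ε k then b else b⁻¹) *
              wp b ε (fun j => if j = k + 1 then x else l j) k := rfl
        have e2 : wp b ε l (k + 1) = l (k + 1) * (bif ε k then b else b⁻¹) * wp b ε l k := rfl
        have e3 : wp b ε (fun j => if j = k + 1 then x else l j) k = wp b ε l k := by
          refine k2_congr b k (fun j hj => rfl) (fun j hj => ?_)
          rw [if_neg (by omega)]
        rw [e1, e3, h4, e2, h3, if_pos rfl, one_mul, mul_assoc]
    | true =>
      have hx' : x ∈ Subgroup.zpowers b := hx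
      have hc' : x ∉ A := hc
      obtain ⟨m, rfl⟩ := Subgroup.mem_zpowers_iff.1 hx'
      have hm : m ≠ 0 := by
        rintro rfl
        exact hc' (by rw [zpow_zero]; exact A.one_mem)
      obtain ⟨e, n, hn⟩ := k2_zpow b m hm
      rcases ih with ⟨hgA, hg1⟩ | ⟨k, ε, l, h1, h2, h3, h4⟩
      · obtain ⟨ε', l', h1, h2, h3, h4⟩ := k2_append A b e n 0 (fun _ => true) (fun _ => g)
          (fun _ => hgA) (fun i hi => by omega) (fun h => absurd h (lt_irrefl 0))
        refine ⟨0 + n, ε', l', h1, h2, h3, ?_⟩
        rw [hn, ← h4]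
        rfl
      · obtain ⟨ε', l', h1', h2', h3', h4'⟩ := k2_append A b e n (k + 1) ε l h1 h2 (fun _ => h3)
        refine ⟨k + 1 + n, ε', l', h1', h2', h3', ?_⟩
        rw [hn, ← h4', h4]

theorem p_K2 : S_K2 := by
  intro G _ A b H
  constructor
  · intro i j n h
    have h1 := k2_red A b i j n 1 h
    cases i with
    | false =>
      rcases h1 with ⟨-, h2⟩ | ⟨k, ε, l, h1, h2, -, h4⟩
      · exact h2 rfl
      · exact H k ε l h1 h2 h4.symm
    | true =>
      obtain ⟨k, ε, l, h1, h2, -, h4⟩ := h1
      exact H k ε l h1 h2 h4.symm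
  · intro m hm hA
    obtain ⟨e, n, hn⟩ := k2_zpow b m hm
    obtain ⟨ε', l', h1, h2, h3, h4⟩ := k2_append A b e n 0 (fun _ => true) (fun _ => 1)
      (fun _ => A.one_mem) (fun i hi => by omega) (fun h => absurd h (lt_irrefl 0))
    refine H (0 + n) ε' (fun j => if j = 0 + n + 1 then (b ^ m)⁻¹ else l' j) ?_ ?_ ?_
    · intro i
      split_ifs
      · exact A.inv_mem hA
      · exact h1 i
    · intro i hi hne
      beta_reduce
      rw [if_neg (by omega)]
      exact h2 i hi hne
    · have e1 : wp b ε' (fun j => if j = 0 + n + 1 then (b ^ m)⁻¹ else l' j) (0 + n + 1) =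
          (if 0 + n + 1 = 0 + n + 1 then (b ^ m)⁻¹ else l' (0 + n + 1)) *
            (bif ε' (0 + n) then b else b⁻¹) *
            wp b ε' (fun j => if j = 0 + n + 1 then (b ^ m)⁻¹ else l' j) (0 + n) := rfl
      have e2 : wp b ε' l' (0 + n + 1) = l' (0 + n + 1) * (bif ε' (0 + n) then b else b⁻¹) *
        wp b ε' l' (0 + n) := rfl
      have e3 : wp b ε' (fun j => if j = 0 + n + 1 then (b ^ m)⁻¹ else l' j) (0 + n) =
          wp b ε' l' (0 + n) := by
        refine k2_congr b _ (fun j hj => rfl) (fun j hj => ?_)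
        rw [if_neg (by omega)]
      rw [h3, one_mul] at e2
      rw [e1, e3, if_pos rfl, mul_assoc, ← e2, ← h4, hn]
      change _ * (_ * (1 : G)) = 1
      rw [mul_one, inv_mul_cancel]

end MP52poly
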