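import Pool.Agent.Lib.MP_52aaf2_al.Poly.PStmK

/-! [K4] Paths can be moved to the field `KK`. -/

open Polynomial

namespace MP52poly

/-- The field generated by the path embeds in `KK`. -/
private theorem k4_embed (F : Type) [Field F] [Algebra ℂ F] (β : ℂ[X]) (k : ℕ) (x : ℕ → F)
    (ε : ℕ → Bool) (L : ℕ → AffM) (hβ : 0 < β.natDegree) (hP : Path β k x ε L) :
    ∃ (E : Type) (_ : Field E) (_ : Algebra ℂ E) (i : E →ₐ[ℂ] F) (_ : E →ₐ[ℂ] KK),
      ∀ j ≤ k, ∃ y : E, i y = x j := by
  have hinj : Function.Injective (aeval (x 0) : ℂ[X] →ₐ[ℂ] F).toRingHom :=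
    transcendental_iff_injective.1 hP.tr
  obtain ⟨φ0, hφ0⟩ : ∃ φ0 : RatFunc ℂ →+* F, ∀ P : ℂ[X],
      φ0 (algebraMap ℂ[X] (RatFunc ℂ) P) = aeval (x 0) P :=
    ⟨IsFractionRing.lift hinj, fun P => IsFractionRing.lift_algebraMap hinj P⟩
  let _ : Algebra (RatFunc ℂ) F := φ0.toAlgebra
  have : IsScalarTower ℂ (RatFunc ℂ) F := IsScalarTower.of_algebraMap_eq (fun c => by
    rw [IsScalarTower.algebraMap_apply ℂ ℂ[X] (RatFunc ℂ) c]
    change _ = φ0 _
    rw [hφ0]
    exact (aeval_C (x 0) c).symm)
  obtain ⟨ψ, -⟩ : ∃ ψ : algebraicClosure (RatFunc ℂ) F →ₐ[RatFunc ℂ] KK, True :=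
    ⟨IsAlgClosed.lift, trivial⟩
  have hmem : ∀ j ≤ k, x j ∈ algebraicClosure (RatFunc ℂ) F := by
    intro j
    induction j with
    | zero =>
      intro _
      have h1 : x 0 = algebraMap (RatFunc ℂ) F (algebraMap ℂ[X] (RatFunc ℂ) X) := by
        change _ = φ0 _
        rw [hφ0, aeval_X]
      rw [h1]
      exact IntermediateField.algebraMap_mem _ _
    | succ j ih =>
      intro hj
      have h1 := ih (by omega)
      have h2 : (L j).ap (x j) ∈ algebraicClosure (RatFunc ℂ) F := by
        unfold AffM.ap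
        refine add_mem (mul_mem ?_ h1) ?_
        · rw [IsScalarTower.algebraMap_apply ℂ (RatFunc ℂ) F]
          exact IntermediateField.algebraMap_mem _ _
        · rw [IsScalarTower.algebraMap_apply ℂ (RatFunc ℂ) F]
          exact IntermediateField.algebraMap_mem _ _
      cases hε : ε j with
      | true =>
        rw [hP.up j (by omega) hε]
        have h3 : aeval ((L j).ap (x j)) β =
            ((aeval (⟨(L j).ap (x j), h2⟩ : algebraicClosure (RatFunc ℂ) F) β :
              algebraicClosure (RatFunc ℂ) F) : F) :=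
          aeval_algHom_apply ((algebraicClosure (RatFunc ℂ) F).val.restrictScalars ℂ)
            (⟨(L j).ap (x j), h2⟩ : algebraicClosure (RatFunc ℂ) F) β
        rw [h3]
        exact SetLike.coe_mem _
      | false =>
        have h4 := hP.down j (by omega) hε
        rw [mem_algebraicClosure_iff] at h2 ⊢
        refine IsAlgebraic.of_aeval (β.map (algebraMap ℂ (RatFunc ℂ))) ?_ ?_ ?_
        · rw [natDegree_map]
          exact hβ.ne'
        · refine mem_nonZeroDivisors_of_ne_zero (leadingCoeff_ne_zero.2 ?_)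
          intro h0
          have : (β.map (algebraMap ℂ (RatFunc ℂ))).natDegree = 0 := by rw [h0, natDegree_zero]
          rw [natDegree_map] at this
          omega
        · rw [aeval_map_algebraMap, h4]
          exact h2
  exact ⟨algebraicClosure (RatFunc ℂ) F, inferInstance, inferInstance,
    (algebraicClosure (RatFunc ℂ) F).val.restrictScalars ℂ, ψ.restrictScalars ℂ,
    fun j hj => ⟨⟨x j, hmem j hj⟩, rfl⟩⟩

private theorem k4_ap {F E : Type} [Field F] [Field E] [Algebra ℂ F] [Algebra ℂ E] (i : E →ₐ[ℂ] F)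
    (L : AffM) (y : E) : i (L.ap y) = L.ap (i y) := by
  unfold AffM.ap
  rw [map_add, map_mul, AlgHom.commutes, AlgHom.commutes]

theorem p_K4 : S_K4 := by
  intro F _ _ β k x ε L hβ hP hclose
  obtain ⟨E, _, _, i, ψ, hE⟩ := k4_embed F β k x ε L hβ hP
  choose! y hy using hE
  refine ⟨fun j => ψ (y j), ⟨?_, ?_, ?_, hP.red⟩, ?_⟩
  · rw [transcendental_iff]
    intro P hP0
    rw [aeval_algHom_apply] at hP0
    have h1 : aeval (y 0) P = 0 := ψ.toRingHom.injective (by rw [map_zero]; exact hP0)
    have h2 := hP.tr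
    rw [transcendental_iff] at h2
    apply h2 P
    rw [← hy 0 (Nat.zero_le _), aeval_algHom_apply, h1, map_zero]
  · intro j hj hε
    have h1 := hP.up j hj hε
    rw [← hy (j + 1) (by omega), ← hy j (by omega), ← k4_ap, aeval_algHom_apply] at h1
    have h2 : y (j + 1) = aeval ((L j).ap (y j)) β := i.toRingHom.injective h1
    rw [h2, ← k4_ap, aeval_algHom_apply]
  · intro j hj hε
    have h1 := hP.down j hj hε
    rw [← hy (j + 1) (by omega), ← hy j (by omega), ← k4_ap, aeval_algHom_apply] at h1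
    have h2 : aeval (y (j + 1)) β = (L j).ap (y j) := i.toRingHom.injective h1
    rw [← k4_ap, aeval_algHom_apply, h2]
  · have h1 := hclose
    rw [← hy k le_rfl, ← hy 0 (Nat.zero_le _), ← k4_ap] at h1
    have h2 : (L k).ap (y k) = y 0 := i.toRingHom.injective h1
    rw [← k4_ap, h2]

end MP52poly
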