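import Pool.Agent.Lib.MP_52aaf2_al.Poly.PCore3
import Pool.Agent.Lib.MP_52aaf2_al.Reduce

/-! From the core theorem to free subgroups. -/

open Polynomial Filter

namespace MP52poly

open MP52aaf2 (GermGroup germ NF germ_eq_iff germ_mul germ_one germ_inv germ_zpow germ_pow alpha
  pair free_dichotomy)

/-- `a` and `b` freely generate the subgroup `⟨a, b⟩`. -/
def FreelyGenerate (a b : GermGroup) : Prop := Function.Injective (FreeGroup.lift ![a, b])

theorem freelyGenerate_iff {a b : GermGroup} :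
    FreelyGenerate a b ↔ Function.Injective (FreeGroup.lift (pair a b)) := by
  let e : FreeGroup Bool ≃* FreeGroup (Fin 2) := FreeGroup.freeGroupCongr finTwoEquiv.symm
  have h1 : (FreeGroup.lift ![a, b]).comp e.toMonoidHom = FreeGroup.lift (pair a b) := by
    ext i
    cases i
    · simp [e, pair]
      rfl
    · simp [e, pair]
      rfl
  unfold FreelyGenerate
  rw [← h1, MonoidHom.coe_comp]
  constructor
  · intro h
    exact h.comp e.injective
  · intro h x y hxy
    have h2 : e.symm x = e.symm y := h (by simpa using hxy)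
    exact e.symm.injective h2

theorem oi_one : AffM.one.oi = 1 := by
  ext x
  change 1 * x + 0 = x
  ring

theorem wred_of {l : ℕ → GermGroup} {L : ℕ → AffM} {ε : ℕ → Bool} (hL : ∀ i, l i = germ (L i).oi)
    {k : ℕ} (h : WRed ε l k) : ∀ i, i + 1 < k → ε i ≠ ε (i + 1) → L (i + 1) ≠ AffM.one := by
  intro i hi hne hone
  apply h i hi hne
  rw [hL, hone, oi_one, germ_one]

/-- No nonempty reduced word is trivial. -/
theorem words_ne_one (hK1 : S_K1) (hK3 : S_K3) (hK4 : S_K4) (hcore : S_core) {β : ℝ[X]}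
    {D : ℂ[X]} (hG : Good KK (β.map (algebraMap ℝ ℂ)) D) {f : ℝ ≃o ℝ}
    (hf : ∀ᶠ x in atTop, f x = β.eval x) :
    ∀ (k : ℕ) (ε : ℕ → Bool) (l : ℕ → GermGroup), (∀ i, l i ∈ AffG) → WRed ε l (k + 1) →
      wp (germ f) ε l (k + 1) ≠ 1 := by
  apply hK1
  intro k ε l hl hr he h1
  choose L hL using hl
  have hL' : l = fun i => germ (L i).oi := funext hL
  have hβ : 0 < β.natDegree := by
    have := hG.deg_ge
    rw [natDegree_map] at this
    omega
  have hred := wred_of hL hr
  rw [hL'] at h1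
  obtain ⟨F, _, _, x, hx, hx'⟩ := hK3 β f hβ hf (k + 1) ε L hred h1
  obtain ⟨w, hw, hw'⟩ := hK4 F (β.map (algebraMap ℝ ℂ)) (k + 1) x ε L (by rwa [natDegree_map]) hx hx'
  obtain ⟨g, hg, hg'⟩ := hcore KK (β.map (algebraMap ℝ ℂ)) D hG k w ε L hw he
  apply hg'
  apply ap_inj (L := L (k + 1))
  rw [← ap_map, hw', hg 0 (by omega)]

theorem alpha_mem : alpha ∈ AffG := by
  refine ⟨⟨1, 1, one_pos⟩, ?_⟩
  unfold alpha
  congr 1
  ext x
  change x + 1 = 1 * x + 1
  ring

theorem oi_pow (L : AffM) (n : ℕ) : ∃ M : AffM, M.a = L.a ^ n ∧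
    M.b = L.b * ∑ i ∈ Finset.range n, L.a ^ i ∧ (L.oi ^ n : ℝ ≃o ℝ) = M.oi := by
  induction n with
  | zero =>
    refine ⟨AffM.one, by simp [AffM.one], by simp [AffM.one], ?_⟩
    rw [pow_zero, oi_one]
  | succ n ih =>
    obtain ⟨M, h1, h2, h3⟩ := ih
    refine ⟨L.comp M, ?_, ?_, ?_⟩
    · change L.a * M.a = _
      rw [h1]; ring
    · change L.a * M.b + L.b = _
      rw [h2, Finset.sum_range_succ']
      have : ∀ i, L.a ^ (i + 1) = L.a * L.a ^ i := fun i => by ring
      simp_rw [this]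
      rw [← Finset.mul_sum]
      ring
    · rw [pow_succ', h3]
      ext x
      change L.a * (M.a * x + M.b) + L.b = L.a * M.a * x + (L.a * M.b + L.b)
      ring

/-- affine maps with the same germ are equal -/
theorem affine_germ_inj {L M : AffM} (h : germ L.oi = germ M.oi) : L = M := by
  rw [germ_eq_iff] at h
  obtain ⟨N, hN⟩ := eventually_atTop.1 h
  have h1 : L.a * N + L.b = M.a * N + M.b := hN N le_rfl
  have h2 : L.a * (N + 1) + L.b = M.a * (N + 1) + M.b := hN (N + 1) (by linarith)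
  have ha : L.a = M.a := by linarith
  apply AffM.ext ha
  rw [ha] at h1
  linarith

theorem aff_torsion {x : GermGroup} (hx : x ∈ AffG) {n : ℕ} (hn : 1 ≤ n) (h : x ^ n = 1) :
    x = 1 := by
  obtain ⟨L, rfl⟩ := hx
  obtain ⟨M, h1, h2, h3⟩ := oi_pow L n
  have h4 : germ M.oi = germ AffM.one.oi := by
    rw [← h3, oi_one, germ_one, ← h, germ_pow]
  have h5 := affine_germ_inj h4
  rw [h5] at h1 h2
  have ha : L.a = 1 := by
    have h6 : L.a ^ n = 1 := h1.symm
    exact (pow_eq_one_iff_of_nonneg L.pos.le (by omega)).1 h6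
  have hb : L.b = 0 := by
    have h6 : (0 : ℝ) = L.b * ∑ i ∈ Finset.range n, L.a ^ i := h2
    rw [ha] at h6
    simp only [one_pow, Finset.sum_const, Finset.card_range, nsmul_eq_mul, mul_one] at h6
    have hn' : (n : ℝ) ≠ 0 := by
      have : n ≠ 0 := by omega
      exact_mod_cast this
    have := h6.symm
    exact (mul_eq_zero.1 this).resolve_right hn'
  have : L = AffM.one := AffM.ext ha hb
  rw [this, oi_one, germ_one]

theorem alpha_ne_one : alpha ≠ 1 := by
  intro h
  have h1 : germ (⟨1, 1, one_pos⟩ : AffM).oi = germ AffM.one.oi := by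
    rw [oi_one, germ_one, ← h]
    unfold alpha
    congr 1
    ext x
    change 1 * x + 1 = x + 1
    ring
  have h2 := congrArg AffM.b (affine_germ_inj h1)
  exact one_ne_zero h2

theorem alpha_zpow {n : ℤ} (hn : n ≠ 0) : alpha ^ n ≠ 1 := by
  intro h
  have h1 : alpha ^ n.natAbs = 1 := by
    rcases Int.natAbs_eq n with h2 | h2
    · rw [h2, zpow_natCast] at h
      exact h
    · rw [h2, zpow_neg, zpow_natCast, inv_eq_one] at h
      exact h
  exact alpha_ne_one (aff_torsion alpha_mem (by omega) h1)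

/-- the commutator of `alpha` and an affine germ commutes with `alpha` -/
theorem aff_comm {γ : GermGroup} (h : γ ∈ AffG) :
    alpha * γ * alpha⁻¹ * γ⁻¹ * alpha = alpha * (alpha * γ * alpha⁻¹ * γ⁻¹) := by
  obtain ⟨L, rfl⟩ := h
  have key : (OrderIso.addRight (1 : ℝ) * L.oi * (OrderIso.addRight (1 : ℝ))⁻¹ * L.oi⁻¹ : ℝ ≃o ℝ) =
      OrderIso.addRight (1 - L.a) := by
    ext x
    change L.a * ((x - L.b) / L.a + -1) + L.b + 1 = x + (1 - L.a)
    have := L.pos.ne'
    field_simp
    ring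
  have h1 : alpha * germ L.oi * alpha⁻¹ * (germ L.oi)⁻¹ = germ (OrderIso.addRight (1 - L.a)) := by
    rw [← key]
    rfl
  rw [h1]
  unfold alpha
  rw [germ_mul, germ_mul]
  congr 1
  ext x
  change x + 1 + (1 - L.a) = x + (1 - L.a) + 1
  ring

/-- the word `⁅⁅x, y⁆, x⁆` is not trivial in the free group -/
theorem free_word_ne :
    (FreeGroup.of (0 : Fin 2) * FreeGroup.of 1 * (FreeGroup.of 0)⁻¹ * (FreeGroup.of 1)⁻¹ *
      FreeGroup.of 0 : FreeGroup (Fin 2)) ≠
    FreeGroup.of 0 * (FreeGroup.of 0 * FreeGroup.of 1 * (FreeGroup.of 0)⁻¹ * (FreeGroup.of 1)⁻¹) := by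
  intro h
  have h1 := congrArg (FreeGroup.lift (![Equiv.swap (0 : Fin 3) 1, Equiv.swap 1 2])) h
  simp only [map_mul, map_inv, FreeGroup.lift_apply_of, Matrix.cons_val_zero,
    Matrix.cons_val_one] at h1
  revert h1
  decide

theorem not_free_of_affine {γ : GermGroup} (h : γ ∈ AffG) : ¬ FreelyGenerate alpha γ := by
  intro hf
  apply free_word_ne
  apply hf
  simp only [map_mul, map_inv, FreeGroup.lift_apply_of, Matrix.cons_val_zero,
    Matrix.cons_val_one]
  exact aff_comm h

open scoped commutatorElement in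
/-- **Main theorem, abstract form.** -/
theorem free_of_good (hK1 : S_K1) (hK2 : S_K2) (hK3 : S_K3) (hK4 : S_K4) (hcore : S_core)
    {β : ℝ[X]} {D : ℂ[X]} (hG : Good KK (β.map (algebraMap ℝ ℂ)) D) {f : ℝ ≃o ℝ}
    (hf : ∀ᶠ x in atTop, f x = β.eval x) {γ : GermGroup}
    (hγ : γ ∈ Subgroup.closure ((AffG : Set GermGroup) ∪ {germ f})) :
    FreelyGenerate alpha γ ↔ γ ∉ AffG := by
  constructor
  · intro h h'
    exact not_free_of_affine h' h
  intro hγn
  obtain ⟨hNF, hpow⟩ := hK2 GermGroup AffG (germ f) (words_ne_one hK1 hK3 hK4 hcore hG hf)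
  have hcl : Subgroup.closure ((AffG : Set GermGroup) ∪ {germ f}) ≤
      HH2 AffG (germ f) false ⊔ HH2 AffG (germ f) true := by
    rw [Subgroup.closure_le]
    rintro x (hx | hx)
    · exact Subgroup.mem_sup_left hx
    · rw [Set.mem_singleton_iff] at hx
      rw [hx]
      exact Subgroup.mem_sup_right (Subgroup.mem_zpowers _)
  have hint : ∀ x, x ∈ AffG → x ∈ Subgroup.zpowers (germ f) → x = 1 := by
    rintro x hx ⟨m, hm⟩
    by_cases h0 : m = 0
    · rw [← hm, h0]
      simp
    · exfalso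
      apply hpow m h0
      have : germ f ^ m = x := hm
      rw [this]
      exact hx
  rw [freelyGenerate_iff]
  have hαc : ∀ n : ℤ, n ≠ 0 → ∀ a ∈ HH2 AffG (germ f) false,
      a⁻¹ * alpha ^ n * a ∉ HH2 AffG (germ f) (!false) := by
    intro n hn a ha hmem
    have ha' : a ∈ AffG := ha
    have h1 : a⁻¹ * alpha ^ n * a ∈ AffG :=
      AffG.mul_mem (AffG.mul_mem (AffG.inv_mem ha') (AffG.zpow_mem alpha_mem n)) ha'
    have h2 := hint _ h1 hmem
    apply alpha_zpow hn
    have h3 : alpha ^ n = a * (a⁻¹ * alpha ^ n * a) * a⁻¹ := by group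
    rw [h3, h2, mul_one, mul_inv_cancel]
  have hmeta : ∀ x ∈ HH2 AffG (germ f) false ⊓ HH2 AffG (germ f) true,
      ∀ y ∈ HH2 AffG (germ f) false ⊓ HH2 AffG (germ f) true, ⁅⁅x, y⁆, ⁅x, y ^ 2⁆⁆ = 1 := by
    rintro x ⟨hx1, hx2⟩ y ⟨hy1, hy2⟩
    have : x = 1 := hint x hx1 hx2
    rw [this]
    simp
  rcases free_dichotomy hNF false (α := alpha) (β := γ) alpha_mem (hcl hγ) hγn hαc hmeta with
    h | ⟨k, n, hn, hbad, -, -⟩
  · exact h
  · exfalso
    obtain ⟨l, x, hx, hxc, hxn, -⟩ := hbad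
    cases l with
    | false =>
      have h1 : x ^ n = 1 := hint _ (AffG.pow_mem hx n) hxn
      apply hxc
      rw [aff_torsion hx (by omega) h1]
      exact one_mem _
    | true =>
      have h1 : x ^ n = 1 := hint _ hxn (Subgroup.pow_mem _ hx n)
      obtain ⟨m, hm⟩ := hx
      have hm' : germ f ^ m = x := hm
      apply hxc
      by_cases h0 : m = 0
      · rw [← hm', h0, zpow_zero]
        exact one_mem _
      · exfalso
        apply hpow (m * n) (mul_ne_zero h0 (by exact_mod_cast (by omega : n ≠ 0)))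
        rw [zpow_mul, hm', zpow_natCast, h1]
        exact one_mem _

end MP52poly
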