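import Pool.Agent.Lib.MP_52aaf2_al.Poly.PA1
import Pool.Agent.Lib.MP_52aaf2_al.Poly.PA2
import Pool.Agent.Lib.MP_52aaf2_al.Poly.PA3
import Pool.Agent.Lib.MP_52aaf2_al.Poly.PA4
import Pool.Agent.Lib.MP_52aaf2_al.Poly.PA5
import Pool.Agent.Lib.MP_52aaf2_al.Poly.PA6
import Pool.Agent.Lib.MP_52aaf2_al.Poly.PA7
import Pool.Agent.Lib.MP_52aaf2_al.Poly.PA8
import Pool.Agent.Lib.MP_52aaf2_al.Poly.PA9
import Pool.Agent.Lib.MP_52aaf2_al.Poly.PA10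
import Pool.Agent.Lib.MP_52aaf2_al.Poly.PA11
import Pool.Agent.Lib.MP_52aaf2_al.Poly.PA12
import Pool.Agent.Lib.MP_52aaf2_al.Poly.PA13
import Pool.Agent.Lib.MP_52aaf2_al.Poly.PA14
import Pool.Agent.Lib.MP_52aaf2_al.Poly.PB1
import Pool.Agent.Lib.MP_52aaf2_al.Poly.PB2
import Pool.Agent.Lib.MP_52aaf2_al.Poly.PB3
import Pool.Agent.Lib.MP_52aaf2_al.Poly.PB4
import Pool.Agent.Lib.MP_52aaf2_al.Poly.PC1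
import Pool.Agent.Lib.MP_52aaf2_al.Poly.PC2
import Pool.Agent.Lib.MP_52aaf2_al.Poly.PC3
import Pool.Agent.Lib.MP_52aaf2_al.Poly.PC4
import Pool.Agent.Lib.MP_52aaf2_al.Poly.PC5
import Pool.Agent.Lib.MP_52aaf2_al.Poly.PC6
import Pool.Agent.Lib.MP_52aaf2_al.Poly.PC7
import Pool.Agent.Lib.MP_52aaf2_al.Poly.PE1
import Pool.Agent.Lib.MP_52aaf2_al.Poly.PG1
import Pool.Agent.Lib.MP_52aaf2_al.Poly.PG2
import Pool.Agent.Lib.MP_52aaf2_al.Poly.PG3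
import Pool.Agent.Lib.MP_52aaf2_al.Poly.PG4
import Pool.Agent.Lib.MP_52aaf2_al.Poly.PG5
import Pool.Agent.Lib.MP_52aaf2_al.Poly.PG6
import Pool.Agent.Lib.MP_52aaf2_al.Poly.PG6a
import Pool.Agent.Lib.MP_52aaf2_al.Poly.PG6b
import Pool.Agent.Lib.MP_52aaf2_al.Poly.PH1
import Pool.Agent.Lib.MP_52aaf2_al.Poly.PH2
import Pool.Agent.Lib.MP_52aaf2_al.Poly.PH3
import Pool.Agent.Lib.MP_52aaf2_al.Poly.PH4
import Pool.Agent.Lib.MP_52aaf2_al.Poly.PH5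
import Pool.Agent.Lib.MP_52aaf2_al.Poly.PH6
import Pool.Agent.Lib.MP_52aaf2_al.Poly.PH7
import Pool.Agent.Lib.MP_52aaf2_al.Poly.PI1
import Pool.Agent.Lib.MP_52aaf2_al.Poly.PI2
import Pool.Agent.Lib.MP_52aaf2_al.Poly.PI3
import Pool.Agent.Lib.MP_52aaf2_al.Poly.PJ1
import Pool.Agent.Lib.MP_52aaf2_al.Poly.PJ1a
import Pool.Agent.Lib.MP_52aaf2_al.Poly.PJ1b
import Pool.Agent.Lib.MP_52aaf2_al.Poly.PJ1c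
import Pool.Agent.Lib.MP_52aaf2_al.Poly.PJ2
import Pool.Agent.Lib.MP_52aaf2_al.Poly.PJ2a
import Pool.Agent.Lib.MP_52aaf2_al.Poly.PJ2b
import Pool.Agent.Lib.MP_52aaf2_al.Poly.PJ2c
import Pool.Agent.Lib.MP_52aaf2_al.Poly.PJ2d
import Pool.Agent.Lib.MP_52aaf2_al.Poly.PJ3
import Pool.Agent.Lib.MP_52aaf2_al.Poly.PK1
import Pool.Agent.Lib.MP_52aaf2_al.Poly.PK2
import Pool.Agent.Lib.MP_52aaf2_al.Poly.PK3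
import Pool.Agent.Lib.MP_52aaf2_al.Poly.PK4
import Pool.Agent.Lib.MP_52aaf2_al.Poly.PWords

/-! All pieces together. -/

namespace MP52poly

theorem q_A7 : S_A7 := p_A7 p_A4
theorem q_A10 : S_A10 := p_A10 (p_A8 p_A1) p_A9
theorem q_A11 : S_A11 := p_A11 p_A1 p_A2 p_A3 p_A4 q_A7 q_A10
theorem q_A12 : S_A12 := p_A12 p_A1 p_A2 p_A3 p_A4 (p_A6 p_A4) q_A7
theorem q_C5 : S_C5 := p_C5 p_B1 p_B2 (p_B3 p_B1) p_B4 p_C4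
theorem q_core : S_core := p_core p_A3 (p_A5 p_A3 p_A4) (p_A6 p_A4) q_A11 q_A12 p_A13 p_B1 p_B2 p_C1
  (p_C2 p_A1 p_B4) p_C3 p_C4 q_C5 (p_C6 p_A1 p_A2 (p_A6 p_A4) p_A14 p_B4) (p_C7 p_B2)
theorem q_G3 : S_G3 := p_G3 p_G1 p_G2
theorem q_G6 : S_G6 := p_G6 p_B1 p_B2 p_B4 p_A1 p_A3 q_G3 (p_G6a p_B1 q_G3 p_G4)
  (p_G6b p_B1 q_G3 p_G5)
theorem q_I3 : S_I3 := p_I3 p_I2 p_B1
theorem q_H6 : S_H6 := p_H6 p_H2 p_H3 p_H4 p_H5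
theorem q_H7 : S_H7 := p_H7 p_B1 p_B2 p_H1 p_H2 p_H3 p_H4 p_H5 q_H6
theorem q_J1 : S_J1 := p_J1 p_J1a (p_J1b p_B1) p_J1c
theorem q_J2d : S_J2d := p_J2d p_I1 p_I2 p_B1 p_B2 (p_B3 p_B1) p_J2b p_J2c
theorem q_J2 : S_J2 := p_J2 p_B1 p_B2 p_I2 (p_J2a p_B1) q_J2d
theorem q_J3 : S_J3 := p_J3 p_I2 p_B1 p_B2 q_J1 q_J2

end MP52poly
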