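import Pool.Agent.Lib.MP_52aaf2_al.Poly.PStm

set_option autoImplicit false

/-! Piece C1: a sign that is trivial on the stabiliser of a point of a fibre of odd size is
trivial. -/

open Polynomial

namespace MP52poly

section

variable {K : Type} [Field K] [Algebra ℂ K]

open Classical in
/-- the orbit of `y` under `N` in `R` -/
private noncomputable def c1O (N : Subgroup (K ≃ₐ[ℂ] K)) (R : Finset K) (y : K) : Finset K :=
  R.filter fun z => ∃ n ∈ N, n y = z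

private theorem c1_mem {N : Subgroup (K ≃ₐ[ℂ] K)} {R : Finset K} {y z : K} :
    z ∈ c1O N R y ↔ z ∈ R ∧ ∃ n ∈ N, n y = z := by
  classical
  unfold c1O
  rw [Finset.mem_filter]

private theorem c1_mul (a b : K ≃ₐ[ℂ] K) (y : K) : (a * b) y = a (b y) := rfl

private theorem c1_inv (a : K ≃ₐ[ℂ] K) (y : K) : a⁻¹ (a y) = y := by
  rw [← c1_mul, inv_mul_cancel]
  rfl

private theorem c1_inv' (a : K ≃ₐ[ℂ] K) (y : K) : a (a⁻¹ y) = y := by
  rw [← c1_mul, mul_inv_cancel]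
  rfl

private theorem c1_self {N : Subgroup (K ≃ₐ[ℂ] K)} {R : Finset K} {y : K} (hy : y ∈ R) :
    y ∈ c1O N R y := c1_mem.2 ⟨hy, 1, N.one_mem, rfl⟩

private theorem c1_eq {N : Subgroup (K ≃ₐ[ℂ] K)} {R : Finset K} {y z : K}
    (h : z ∈ c1O N R y) : c1O N R z = c1O N R y := by
  obtain ⟨_, n, hn, hnz⟩ := c1_mem.1 h
  ext w
  rw [c1_mem, c1_mem]
  constructor
  · rintro ⟨hw, m, hm, hmw⟩
    exact ⟨hw, m * n, N.mul_mem hm hn, by rw [c1_mul, hnz, hmw]⟩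
  · rintro ⟨hw, m, hm, hmw⟩
    refine ⟨hw, m * n⁻¹, N.mul_mem hm (N.inv_mem hn), ?_⟩
    rw [c1_mul, ← hnz, c1_inv, hmw]

private theorem c1_card {A N : Subgroup (K ≃ₐ[ℂ] K)} {R : Finset K} {x : K}
    (hnorm : ∀ a ∈ A, ∀ n ∈ N, a * n * a⁻¹ ∈ N)
    (hR : ∀ a ∈ A, ∀ y ∈ R, a y ∈ R) (a : K ≃ₐ[ℂ] K) (ha : a ∈ A) :
    (c1O N R (a x)).card = (c1O N R x).card := by
  classical
  have h : c1O N R (a x) = (c1O N R x).image a := by
    ext z
    rw [Finset.mem_image, c1_mem]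
    constructor
    · rintro ⟨hz, n, hn, hnz⟩
      refine ⟨a⁻¹ z, c1_mem.2 ⟨hR _ (A.inv_mem ha) _ hz, a⁻¹ * n * a, ?_, ?_⟩, c1_inv' a z⟩
      · have := hnorm _ (A.inv_mem ha) n hn
        rwa [inv_inv] at this
      · rw [c1_mul, c1_mul, hnz]
    · rintro ⟨w, hw, rfl⟩
      obtain ⟨hw1, n, hn, hnw⟩ := c1_mem.1 hw
      refine ⟨hR a ha w hw1, a * n * a⁻¹, hnorm a ha n hn, ?_⟩
      rw [c1_mul, c1_mul, c1_inv, hnw]
  rw [h, Finset.card_image_of_injective _ a.injective]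

private theorem c1_odd {A N : Subgroup (K ≃ₐ[ℂ] K)} {R : Finset K} {x : K}
    (hnorm : ∀ a ∈ A, ∀ n ∈ N, a * n * a⁻¹ ∈ N) (hodd : Odd R.card)
    (hR : ∀ a ∈ A, ∀ y ∈ R, a y ∈ R) (htr : ∀ y ∈ R, ∃ a ∈ A, a x = y) :
    Odd (c1O N R x).card := by
  classical
  have h1 : R.card = (R.image (c1O N R)).card * (c1O N R x).card := by
    rw [Finset.card_eq_sum_card_image (c1O N R) R, Finset.sum_const_nat]
    intro c hc
    obtain ⟨y, hy, rfl⟩ := Finset.mem_image.1 hc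
    have h2 : R.filter (fun z => c1O N R z = c1O N R y) = c1O N R y := by
      ext z
      rw [Finset.mem_filter]
      constructor
      · rintro ⟨hz, he⟩
        rw [← he]
        exact c1_self hz
      · intro hz
        exact ⟨(c1_mem.1 hz).1, c1_eq hz⟩
    obtain ⟨a, ha, rfl⟩ := htr y hy
    rw [h2, c1_card hnorm hR a ha]
  rw [h1] at hodd
  exact (Nat.odd_mul.1 hodd).2

private theorem c1_even {N : Subgroup (K ≃ₐ[ℂ] K)} {R : Finset K} {x θ : K}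
    (hR : ∀ n ∈ N, ∀ y ∈ R, n y ∈ R)
    (hs : ∀ n ∈ N, n θ = θ ∨ n θ = -θ) (hx : ∀ n ∈ N, n x = x → n θ = θ)
    (n0 : K ≃ₐ[ℂ] K) (hn0 : n0 ∈ N) (h0 : n0 θ ≠ θ) : Even (c1O N R x).card := by
  classical
  have h0' : n0 θ = -θ := (hs n0 hn0).resolve_left h0
  set P : K → Prop := fun z => ∃ n ∈ N, n x = z ∧ n θ = θ with hP
  have him : (c1O N R x).filter (fun z => ¬ P z) = ((c1O N R x).filter P).image n0 := by
    ext z
    rw [Finset.mem_image, Finset.mem_filter, c1_mem]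
    constructor
    · rintro ⟨⟨hz, n, hn, hnz⟩, hnP⟩
      have h1 : n θ = -θ := (hs n hn).resolve_left fun h => hnP ⟨n, hn, hnz, h⟩
      have h2 : (n0⁻¹ * n) θ = θ := by
        rw [c1_mul, h1, ← h0', c1_inv]
      refine ⟨n0⁻¹ z, ?_, c1_inv' n0 z⟩
      rw [Finset.mem_filter, c1_mem]
      have h3 : (n0⁻¹ * n) x = n0⁻¹ z := by rw [c1_mul, hnz]
      exact ⟨⟨hR _ (N.inv_mem hn0) _ hz, n0⁻¹ * n, N.mul_mem (N.inv_mem hn0) hn, h3⟩,
        n0⁻¹ * n, N.mul_mem (N.inv_mem hn0) hn, h3, h2⟩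
    · rintro ⟨w, hw, rfl⟩
      rw [Finset.mem_filter, c1_mem] at hw
      obtain ⟨⟨hw1, _⟩, n, hn, hnw, hnθ⟩ := hw
      refine ⟨⟨hR n0 hn0 w hw1, n0 * n, N.mul_mem hn0 hn, by rw [c1_mul, hnw]⟩, ?_⟩
      rintro ⟨m, hm, hmw, hmθ⟩
      have h1 : (m⁻¹ * (n0 * n)) x = x := by
        rw [c1_mul, c1_mul, hnw, ← hmw, c1_inv]
      have h2 := hx _ (N.mul_mem (N.inv_mem hm) (N.mul_mem hn0 hn)) h1
      have h3 : (n0 * n) θ = m θ := by
        have h4 : m ((m⁻¹ * (n0 * n)) θ) = m θ := by rw [h2]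
        rwa [c1_mul, c1_inv'] at h4
      rw [c1_mul, hnθ, hmθ] at h3
      exact h0 h3
  have hc := Finset.card_filter_add_card_filter_not (s := c1O N R x) P
  rw [him, Finset.card_image_of_injective _ n0.injective] at hc
  exact ⟨_, hc.symm⟩

end

/-- [C1] -/
theorem p_C1 : S_C1 := by
  intro K _ _ A N R x θ hNA hnorm hodd hx hR htr hs hst n hn
  by_contra hne
  have h1 := c1_odd (N := N) hnorm hodd hR htr
  have h2 := c1_even (R := R) (fun m hm => hR m (hNA hm)) hs hst n hn hne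
  exact (Nat.not_even_iff_odd.2 h1) h2

end MP52poly
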