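import Pool.Agent.Lib.MP_52aaf2_al.Poly.PRev

/-! The induction, part one. -/

open Polynomial

namespace MP52poly

section

variable (K : Type) [Field K] [Algebra ℂ K]

/-- The first induction statement. -/
def PI (β : ℂ[X]) (k : ℕ) : Prop := ∀ (w : ℕ → K) (ε : ℕ → Bool) (L : ℕ → AffM),
  Path β k w ε L → LExt k ε L → Full β (Fix k w : Set (K ≃ₐ[ℂ] K)) (w 0)

/-- The second induction statement. -/
def PQ (β D : ℂ[X]) (k : ℕ) : Prop := ∀ (w : ℕ → K) (ε : ℕ → Bool) (L : ℕ → AffM),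
  Path β k w ε L → LExt k ε L → RExt k ε L → ∀ a b : K, a ^ 2 = aeval (w 0) D →
    b ^ 2 = aeval ((L k).ap (w k)) D → ∃ g ∈ Fix k w, g (a * b) ≠ a * b

variable {K}

theorem Full.trans {β D : ℂ[X]} (hG : Good K β D) {H : Set (K ≃ₐ[ℂ] K)} {t : K}
    (ht : Transcendental ℂ t) (hF : Full β H t) {Y Y' : K} (hY : aeval Y β = t)
    (hY' : aeval Y' β = t) : ∃ h ∈ H, h Y = Y' := by
  obtain ⟨g, hg, hgY⟩ := hG.trans t ht Y Y' hY hY'
  obtain ⟨h, hh, hhY⟩ := hF g hg
  exact ⟨h, hh, by rw [hhY Y hY, hgY]⟩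

theorem Full.mono {β : ℂ[X]} {H H' : Set (K ≃ₐ[ℂ] K)} {t : K} (h : H ⊆ H') (hF : Full β H t) :
    Full β H' t := by
  intro g hg
  obtain ⟨h1, hh, hY⟩ := hF g hg
  exact ⟨h1, h hh, hY⟩

theorem map_aeval (g : K ≃ₐ[ℂ] K) (x : K) (P : ℂ[X]) : g (aeval x P) = aeval (g x) P := by
  have := aeval_algHom_apply (g : K →ₐ[ℂ] K) x P
  exact this.symm

theorem Good.pos {β D : ℂ[X]} (hG : Good K β D) : 0 < β.natDegree := by
  have := hG.deg_ge
  omega

theorem Fix_succ_up {β : ℂ[X]} {k : ℕ} {w : ℕ → K} {ε : ℕ → Bool} {L : ℕ → AffM}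
    (h : Path β (k + 1) w ε L) (he : ε k = true) : Fix (k + 1) w = Fix k w := by
  ext g
  rw [mem_Fix, mem_Fix]
  constructor
  · intro h1 j hj
    exact h1 j (by omega)
  · intro h1 j hj
    rcases Nat.lt_or_ge j (k + 1) with hj' | hj'
    · exact h1 j (by omega)
    · have : j = k + 1 := by omega
      subst this
      rw [h.up k (by omega) he, map_aeval, ap_map, h1 k le_rfl]

theorem PI_zero (β : ℂ[X]) : PI K β 0 := by
  intro w ε L _ _ g hg
  refine ⟨g, ?_, fun _ _ => rfl⟩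
  intro j hj
  have : j = 0 := by omega
  rw [this]
  exact hg

/-- full action at the right end, from the reversed path -/
theorem full_right (hB2 : S_B2) {β : ℂ[X]} (hβ : 0 < β.natDegree) {k : ℕ} (hk : PI K β k)
    {w : ℕ → K} {ε : ℕ → Bool} {L : ℕ → AffM} (h : Path β k w ε L)
    (hr : 0 < k → ε (k - 1) = true → L k ≠ AffM.one) :
    Full β (Fix k w : Set (K ≃ₐ[ℂ] K)) ((L k).ap (w k)) := by
  have h1 := hk _ _ _ (h.reverse hB2 hβ) (LExt.reverse1 hr)
  rw [Fix_reverse] at h1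
  exact h1

theorem PI_succ [IsAlgClosed K] (hB2 : S_B2) (hC2 : S_C2) {β D : ℂ[X]} (hG : Good K β D) {k : ℕ}
    (hk : PI K β k) (hq : PQ K β D k) : PI K β (k + 1) := by
  intro w ε L hp hl
  have hp' : Path β k w ε L := hp.take (by omega)
  have hl' : LExt k ε L := hl.take (by omega)
  have h1 := hk w ε L hp' hl'
  cases he : ε k with
  | true =>
    rw [Fix_succ_up hp he]
    exact h1
  | false =>
    have hr : RExt k ε L := hp.rext hl (by omega) he
    have h2 := full_right hB2 hG.pos hk hp' hr.1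
    have ht := hp.transc hB2 hG.pos
    obtain ⟨a, ha⟩ := IsAlgClosed.exists_pow_nat_eq (aeval (w 0) D) (n := 2) (by norm_num)
    obtain ⟨b, hb⟩ := IsAlgClosed.exists_pow_nat_eq (aeval ((L k).ap (w k)) D) (n := 2)
      (by norm_num)
    have h3 := hq w ε L hp' hl' hr a b ha hb
    -- the kernel
    let N : Subgroup (K ≃ₐ[ℂ] K) :=
      { carrier := {n | n ∈ Fix k w ∧ ∀ Y, aeval Y β = (L k).ap (w k) → n Y = Y}
        mul_mem' := by
          rintro f g ⟨hf, hf'⟩ ⟨hg, hg'⟩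
          refine ⟨mul_mem hf hg, fun Y hY => ?_⟩
          change f (g Y) = Y
          rw [hg' Y hY, hf' Y hY]
        one_mem' := ⟨one_mem _, fun _ _ => rfl⟩
        inv_mem' := by
          rintro f ⟨hf, hf'⟩
          refine ⟨inv_mem hf, fun Y hY => ?_⟩
          change f.symm Y = Y
          rw [AlgEquiv.symm_apply_eq]
          exact (hf' Y hY).symm }
    have h4 : Full β (N : Set (K ≃ₐ[ℂ] K)) (w 0) := by
      refine hC2 K β D hG (w 0) ((L k).ap (w k)) a b (Fix k w) N (ht 0 (by omega))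
        (transc_ap hB2 (ht k (by omega))) ?_ h1 h2 ha hb h3 (fun n => Iff.rfl)
      intro h hh
      refine ⟨hh 0 (by omega), ?_⟩
      rw [ap_map, hh k le_rfl]
    refine h4.mono ?_
    rintro n ⟨hn, hn'⟩ j hj
    rcases Nat.lt_or_ge j (k + 1) with hj' | hj'
    · exact hn j (by omega)
    · have : j = k + 1 := by omega
      subst this
      exact hn' _ (hp.down k (by omega) he)

end

end MP52poly
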