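import Pool.Agent.Lib.MP_52aaf2_al.Poly.PCore1

/-! The induction, part two. -/

open Polynomial

namespace MP52poly

section

variable {K : Type} [Field K] [Algebra ℂ K]

omit [Algebra ℂ K] in
theorem sq_cases {a b : K} (h : a ^ 2 = b ^ 2) : a = b ∨ a = -b := sq_eq_sq_iff_eq_or_eq_neg.1 h

theorem sign_of_fix {D : ℂ[X]} {t a : K} (ha : a ^ 2 = aeval t D) {g : K ≃ₐ[ℂ] K}
    (hg : g t = t) : g a = a ∨ g a = -a := by
  apply sq_cases
  rw [← map_pow, ha, map_aeval, hg]

theorem ne_zero_of_sq {D : ℂ[X]} (hD : D ≠ 0) {t a : K} (ht : Transcendental ℂ t)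
    (ha : a ^ 2 = aeval t D) : a ≠ 0 := by
  rintro rfl
  have h0 : aeval t D = 0 := by rw [← ha]; ring
  exact ht ⟨D, hD, h0⟩

theorem last_down {k : ℕ} {ε : ℕ → Bool} (h : ∃ i < k, ε i = false) :
    ∃ i < k, ε i = false ∧ ∀ j, i < j → j < k → ε j = true := by
  induction k with
  | zero => obtain ⟨i, hi, -⟩ := h; omega
  | succ k ih =>
    cases he : ε k with
    | false => exact ⟨k, by omega, he, fun j h1 h2 => by omega⟩
    | true =>
      obtain ⟨i, hi, hi'⟩ := h
      have hik : i ≠ k := by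
        rintro rfl
        rw [he] at hi'
        exact Bool.noConfusion hi'
      obtain ⟨i, h1, h2, h3⟩ := ih ⟨i, by omega, hi'⟩
      refine ⟨i, by omega, h2, fun j hj hj' => ?_⟩
      rcases Nat.lt_or_ge j k with h4 | h4
      · exact h3 j hj h4
      · have : j = k := by omega
        rw [this]; exact he

/-- points after the last root step are determined by the point following it -/
theorem up_chain {β : ℂ[X]} {k i : ℕ} {w : ℕ → K} {ε : ℕ → Bool} {L : ℕ → AffM}
    (h : Path β k w ε L) (hi : i < k) (hu : ∀ j, i < j → j < k → ε j = true)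
    {g : K ≃ₐ[ℂ] K} (hg : g ∈ Fix i w) (hv : g (w (i + 1)) = w (i + 1)) : g ∈ Fix k w := by
  have key : ∀ m, i + 1 + m ≤ k → g (w (i + 1 + m)) = w (i + 1 + m) := by
    intro m
    induction m with
    | zero => intro _; exact hv
    | succ m ih =>
      intro hm
      have h1 := ih (by omega)
      have h2 := h.up (i + 1 + m) (by omega) (hu _ (by omega) (by omega))
      rw [← add_assoc, h2, map_aeval, ap_map, h1]
  intro j hj
  rcases Nat.lt_or_ge i j with h1 | h1
  · obtain ⟨m, rfl⟩ : ∃ m, j = i + 1 + m := ⟨j - (i + 1), by omega⟩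
    exact key m hj
  · exact hg j h1

theorem natDegree_pol (L : AffM) : L.pol.natDegree = 1 := by
  have : (L.a : ℂ) ≠ 0 := by exact_mod_cast L.pos.ne'
  unfold AffM.pol
  rw [natDegree_linear this]

theorem up_poly {β : ℂ[X]} (hβ : Odd β.natDegree) {k i : ℕ} {w : ℕ → K} {ε : ℕ → Bool}
    {L : ℕ → AffM} (h : Path β k w ε L) (hu : ∀ j, i < j → j < k → ε j = true) :
    ∀ m, i + 2 + m ≤ k → ∃ Q : ℂ[X], Odd Q.natDegree ∧ w (i + 2 + m) = aeval (w (i + 2)) Q := by
  intro m
  induction m with
  | zero => intro _; exact ⟨X, by rw [natDegree_X]; exact odd_one, by simp⟩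
  | succ m ih =>
    intro hm
    obtain ⟨Q, hQ, hQ'⟩ := ih (by omega)
    refine ⟨(β.comp (L (i + 2 + m)).pol).comp Q, ?_, ?_⟩
    · rw [natDegree_comp, natDegree_comp, natDegree_pol, mul_one]
      exact hβ.mul hQ
    · have h2 := h.up (i + 2 + m) (by omega) (hu _ (by omega) (by omega))
      rw [← add_assoc, h2, aeval_comp, aeval_comp, ← hQ', ap_eq_aeval]

theorem descent [IsAlgClosed K] (hB1 : S_B1) (hB2 : S_B2) (hC1 : S_C1) (hC3 : S_C3) (hC4 : S_C4)
    (hC5 : S_C5) {β D : ℂ[X]} (hG : Good K β D) {k i : ℕ} (hPI : ∀ j < k, PI K β j)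
    {w : ℕ → K} {ε : ℕ → Bool} {L : ℕ → AffM} (h : Path β k w ε L)
    (hi : i < k) (hiε : ε i = false) (hu : ∀ j, i < j → j < k → ε j = true) {a b : K} {F : ℂ[X]}
    (hF : F ≠ 0) (ha : a ^ 2 = aeval (w 0) D) (hb : b ^ 2 = aeval (w (i + 1)) F)
    (hab : ∀ g ∈ Fix k w, g (a * b) = a * b) : ∃ Φ G : ℂ[X], Φ ≠ 0 ∧ F * Φ.comp β = G ^ 2 := by
  classical
  have ht := h.transc hB2 hG.pos
  set v := w (i + 1) with hv
  have hvt : Transcendental ℂ v := ht (i + 1) (by omega)
  have hy : aeval v β = (L i).ap (w i) := h.down i hi hiε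
  have hyt : Transcendental ℂ (aeval v β) := (hB2 K β v hG.pos).2 hvt
  obtain ⟨hR, hRc⟩ := hB1 K β (aeval v β) hG.pos
  have hRc := hRc hyt
  have hRo : Odd (Rt β (aeval v β)).card := by rw [hRc]; exact hG.deg_odd
  have hvR : v ∈ Rt β (aeval v β) := (hR v).2 rfl
  have hr : ∀ Y : K, ∃ r : K, r ^ 2 = aeval Y F := fun Y =>
    IsAlgClosed.exists_pow_nat_eq (aeval Y F) (n := 2) (by norm_num)
  choose r hr using hr
  set θ := b * ∏ Y ∈ Rt β (aeval v β), r Y with hθ
  -- transitivity of the prefix group on the fibre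
  have hpi : Path β i w ε L := h.take (by omega)
  have hfull : Full β (Fix i w : Set (K ≃ₐ[ℂ] K)) (aeval v β) := by
    rw [hy]
    exact full_right hB2 hG.pos (hPI i hi) hpi (h.rext1 hi hiε)
  have htr : ∀ Y ∈ Rt β (aeval v β), ∃ g ∈ Fix i w, g v = Y := by
    intro Y hY
    exact hfull.trans hG hyt rfl ((hR Y).1 hY)
  -- step A
  have hA : ∀ g ∈ Fix i w, (∀ Y ∈ Rt β (aeval v β), g Y = Y) → g θ = θ := by
    refine hC3 K F (Fix i w) (Rt β (aeval v β)) v a b r hvR hRo htr ?_ ?_ ?_ hb ?_
      (fun Y _ => hr Y)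
    · intro g hg
      exact sign_of_fix ha (hg 0 (by omega))
    · exact ne_zero_of_sq hG.D_ne (ht 0 (by omega)) ha
    · exact ne_zero_of_sq hF hvt hb
    · intro g hg hgv
      exact hab g (up_chain h hi hu hg hgv)
  -- step B
  have hB : ∀ g : K ≃ₐ[ℂ] K, (∀ Y ∈ Rt β (aeval v β), g Y = Y) → g θ = θ ∨ g θ = -θ := by
    intro g hg
    refine hC4 K F (Rt β (aeval v β)) v b r g hb (fun Y _ => hr Y) (hg v hvR) ?_
    intro Y hY
    rw [hg Y hY]
    exact hY
  -- step C
  have hrev : Path β i (rw' i w L) (re' i ε) (rL' i L) := hpi.reverse hB2 hG.pos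
  have hw0 : rw' i w L 0 = aeval v β := by
    unfold rw'
    rw [Nat.sub_zero, hy]
  have hC : ∀ m ≤ i, ∀ g ∈ Fix (i - m) (rw' i w L), (∀ Y ∈ Rt β (aeval v β), g Y = Y) →
      g θ = θ := by
    intro m
    induction m with
    | zero =>
      intro _ g hg hgR
      rw [Nat.sub_zero, Fix_reverse] at hg
      exact hA g hg hgR
    | succ m ih =>
      intro hm
      have ih := ih (by omega)
      obtain ⟨j, hj⟩ : ∃ j, j = i - (m + 1) := ⟨_, rfl⟩
      have hj1 : i - m = j + 1 := by omega
      rw [hj1] at ih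
      rw [← hj]
      have hji : j < i := by omega
      cases he : re' i ε j with
      | true =>
        have := Fix_succ_up (hrev.take (j := j + 1) (by omega)) he
        rw [this] at ih
        exact ih
      | false =>
        have hpj : Path β j (rw' i w L) (re' i ε) (rL' i L) := hrev.take (by omega)
        have hz : Transcendental ℂ ((rL' i L j).ap (rw' i w L j)) :=
          transc_ap hB2 (hrev.transc hB2 hG.pos j (by omega))
        obtain ⟨hR', hRc'⟩ := hB1 K β ((rL' i L j).ap (rw' i w L j)) hG.pos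
        have hRc' := hRc' hz
        have hfull' : Full β (Fix j (rw' i w L) : Set (K ≃ₐ[ℂ] K))
            ((rL' i L j).ap (rw' i w L j)) :=
          full_right hB2 hG.pos (hPI j (by omega)) hpj (hrev.rext1 hji he)
        have hx : aeval (rw' i w L (j + 1)) β = (rL' i L j).ap (rw' i w L j) :=
          hrev.down j hji he
        have hfy : ∀ g ∈ Fix j (rw' i w L), g (aeval v β) = aeval v β := by
          intro g hg
          have := hg 0 (by omega)
          rwa [hw0] at this
        let N : Subgroup (K ≃ₐ[ℂ] K) :=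
          { carrier := {n | n ∈ Fix j (rw' i w L) ∧ ∀ Y ∈ Rt β (aeval v β), n Y = Y}
            mul_mem' := by
              rintro f g ⟨hf, hf'⟩ ⟨hg, hg'⟩
              refine ⟨mul_mem hf hg, fun Y hY => ?_⟩
              change f (g Y) = Y
              rw [hg' Y hY, hf' Y hY]
            one_mem' := ⟨one_mem _, fun _ _ => rfl⟩
            inv_mem' := by
              rintro f ⟨hf, hf'⟩
              refine ⟨inv_mem hf, fun Y hY => ?_⟩
              change f.symm Y = Y
              rw [AlgEquiv.symm_apply_eq]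
              exact (hf' Y hY).symm }
        have hmain := hC1 K (Fix j (rw' i w L)) N (Rt β ((rL' i L j).ap (rw' i w L j)))
          (rw' i w L (j + 1)) θ (fun n hn => hn.1) ?_ (by rw [hRc']; exact hG.deg_odd)
          ((hR' _).2 hx) ?_ ?_ ?_ ?_
        · intro g hg hgR
          exact hmain g ⟨hg, hgR⟩
        · rintro f hf n ⟨hn, hn'⟩
          refine ⟨mul_mem (mul_mem hf hn) (inv_mem hf), fun Y hY => ?_⟩
          change f (n (f.symm Y)) = Y
          have h1 : f.symm Y ∈ Rt β (aeval v β) := by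
            rw [hR] at hY ⊢
            rw [← map_aeval, hY, AlgEquiv.symm_apply_eq]
            exact (hfy f hf).symm
          rw [hn' _ h1, AlgEquiv.apply_symm_apply]
        · intro f hf Y hY
          rw [hR'] at hY ⊢
          rw [← map_aeval, hY, ap_map, hf j le_rfl]
        · intro Y hY
          exact hfull'.trans hG hz hx ((hR' Y).1 hY)
        · rintro n ⟨-, hn⟩
          exact hB n hn
        · rintro n ⟨hn, hn'⟩ hnx
          apply ih n _ hn'
          intro l hl
          rcases Nat.lt_or_ge l (j + 1) with h1 | h1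
          · exact hn l (by omega)
          · have : l = j + 1 := by omega
            rw [this]
            exact hnx
  have hC' := hC i le_rfl
  rw [Nat.sub_self] at hC'
  refine hC5 K β D hG F v b r hF hvt hb (fun Y _ => hr Y) ?_
  intro g hg
  apply hC' g _ hg
  intro j hj
  have : j = 0 := by omega
  rw [this, hw0, map_aeval, hg v hvR]

end

end MP52poly
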