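import Pool.Agent.Lib.MP_52aaf2_al.Poly.PCore2

/-! The induction, part three: the core theorem. -/

open Polynomial

namespace MP52poly

section

variable {K : Type} [Field K] [Algebra ℂ K]

theorem PQ_zero (hC6 : S_C6) {β D : ℂ[X]} (hG : Good K β D) : PQ K β D 0 := by
  intro w ε L hp _ hr a b ha hb
  obtain ⟨g, hg, hg'⟩ := hC6 K β D hG (L 0) (w 0) a b (hr.2 rfl) hp.tr ha hb
  refine ⟨g, ?_, hg'⟩
  intro j hj
  have : j = 0 := by omega
  rw [this]; exact hg

/-- Two different odd roots of `D`. -/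
theorem Good.two {β D : ℂ[X]} (hG : Good K β D) : ∃ x ∈ OddR D, ∃ y ∈ OddR D, x ≠ y := by
  have h1 : 1 < (OddR D).card := by
    have h0 := Finset.card_pos.2 hG.odd_ne
    rcases hG.odd_even with ⟨m, hm⟩
    omega
  obtain ⟨x, hx, y, hy, hxy⟩ := Finset.one_lt_card.1 h1
  exact ⟨x, hx, y, hy, hxy⟩

theorem natDegree_comp_pol (β : ℂ[X]) (L : AffM) : (β.comp L.pol).natDegree = β.natDegree := by
  rw [natDegree_comp, natDegree_pol, mul_one]

theorem Good.no_sym (hA13 : S_A13) {β D : ℂ[X]} (hG : Good K β D) {L : AffM} (hL : L ≠ AffM.one)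
    {c e : ℂ} (h : β = C c * β.comp L.pol + C e) : False := by
  have hc : c ≠ 0 := by
    rintro rfl
    have h1 : β.natDegree = 0 := by
      rw [h]
      simp
    have := hG.deg_ge
    omega
  have h2 : β.comp L.pol = C c⁻¹ * β + C (-(c⁻¹ * e)) := by
    have h3 : C c⁻¹ * β = β.comp L.pol + C (c⁻¹ * e) := by
      conv_lhs => rw [h]
      rw [mul_add, ← mul_assoc, ← C_mul, inv_mul_cancel₀ hc, C_1, one_mul, C_mul]
    rw [h3, C_neg]
    ring
  obtain ⟨x, hx, y, hy, hxy⟩ := hG.two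
  obtain ⟨p, hp, hp'⟩ := hG.odd_cv x hx
  obtain ⟨q, hq, hq'⟩ := hG.odd_cv y hy
  apply hxy
  rw [← hp', ← hq']
  exact hA13 β L _ _ hL h2 p q hp hq

theorem PQ_down [IsAlgClosed K] (hA3 : S_A3) (hA5 : S_A5) (hA6 : S_A6) (hA11 : S_A11)
    (hA12 : S_A12) (hA13 : S_A13) (hB1 : S_B1) (hB2 : S_B2) (hC1 : S_C1) (hC3 : S_C3)
    (hC4 : S_C4) (hC5 : S_C5) (hC7 : S_C7) {β D : ℂ[X]} (hG : Good K β D) {k : ℕ}
    (hPI : ∀ j < k, PI K β j) (hPQ : ∀ j < k, PQ K β D j) {w : ℕ → K} {ε : ℕ → Bool}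
    {L : ℕ → AffM} (h : Path β k w ε L) (hl : LExt k ε L) (hex : ∃ i < k, ε i = false) {a b : K}
    (ha : a ^ 2 = aeval (w 0) D) (hb : b ^ 2 = aeval ((L k).ap (w k)) D) :
    ∃ g ∈ Fix k w, g (a * b) ≠ a * b := by
  by_contra hcon
  push Not at hcon
  obtain ⟨i, hi, hiε, hu⟩ := last_down hex
  have ht := h.transc hB2 hG.pos
  rcases Nat.lt_or_ge (i + 1) k with hik | hik
  · -- there are further steps
    obtain ⟨m, hm⟩ : ∃ m, k = i + 2 + m := ⟨k - (i + 2), by omega⟩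
    obtain ⟨Q, hQ, hQ'⟩ := up_poly hG.deg_odd h hu m (by omega)
    rw [← hm] at hQ'
    set F₁ := D.comp ((L k).pol.comp Q) with hF₁
    have hQd : Odd ((L k).pol.comp Q).natDegree := by
      rw [natDegree_comp, natDegree_pol, one_mul]
      exact hQ
    have hF₁0 : F₁ ≠ 0 := by
      intro h0
      rw [hF₁, comp_eq_zero_iff] at h0
      rcases h0 with h0 | ⟨-, h0⟩
      · exact hG.D_ne h0
      · rw [h0, natDegree_C] at hQd
        exact absurd hQd (by decide)
    have hF₁o : (OddR F₁).Nonempty := hA5 D _ hG.D_ne hQd hG.odd_ne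
    have hF₁e : Even (OddR F₁).card := by
      by_contra hne
      rw [Nat.not_even_iff_odd, ← hA3 F₁ hF₁0, hF₁, natDegree_comp, Nat.odd_mul] at hne
      have := (hA3 D hG.D_ne).1 hne.1
      rw [← Nat.not_even_iff_odd] at this
      exact this hG.odd_even
    have hup := h.up (i + 1) hik (hu _ (by omega) hik)
    set F := F₁.comp (β.comp (L (i + 1)).pol) with hF
    have hFv : aeval (w (i + 1)) F = aeval ((L k).ap (w k)) D := by
      have e1 : aeval (w (i + 1)) (β.comp (L (i + 1)).pol) = w (i + 2) := by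
        rw [aeval_comp, ← ap_eq_aeval, ← hup]
      have e2 : aeval (w (i + 2)) ((L k).pol.comp Q) = (L k).ap (w k) := by
        rw [aeval_comp, ← hQ', ← ap_eq_aeval]
      rw [hF, aeval_comp, e1, hF₁, aeval_comp, e2]
    have hF0 : F ≠ 0 := by
      intro h0
      have h1 := ne_zero_of_sq hG.D_ne (transc_ap hB2 (ht k le_rfl)) hb
      apply h1
      rw [← hFv, h0, map_zero] at hb
      exact pow_eq_zero_iff (two_ne_zero) |>.1 hb
    rw [← hFv] at hb
    obtain ⟨Φ, G, hΦ, hΦG⟩ := descent hB1 hB2 hC1 hC3 hC4 hC5 hG hPI h hi hiε hu hF0 ha hb hcon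
    obtain ⟨c, e, hce⟩ := hA11 β (β.comp (L (i + 1)).pol) Φ F₁ G hG.deg_odd
      (natDegree_comp_pol β _) hΦ hF₁0 hF₁e hF₁o (by rw [mul_comm]; exact hΦG)
    refine hG.no_sym hA13 (h.red i hik ?_) hce
    rw [hiε, hu (i + 1) (by omega) hik]
    exact Bool.false_ne_true
  · -- the root step is the last step
    have hk : k = i + 1 := by omega
    subst hk
    have hFv : aeval (w (i + 1)) (D.comp (L (i + 1)).pol) = aeval ((L (i + 1)).ap (w (i + 1))) D := by
      rw [aeval_comp, ← ap_eq_aeval]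
    have hb' := hb
    rw [← hFv] at hb'
    obtain ⟨Φ, G, hΦ, hΦG⟩ := descent hB1 hB2 hC1 hC3 hC4 hC5 hG hPI h hi hiε hu
      (hA6 D (L (i + 1)) hG.D_ne).2.2.1 ha hb' hcon
    obtain ⟨G', hG'⟩ := hA12 β D Φ G (L (i + 1)) hG.deg_odd hG.deg_ge hG.D_ne hΦ hG.odd_even
      hG.odd_ne hG.odd_cv hΦG
    have hvt := ht (i + 1) le_rfl
    have hy : aeval (w (i + 1)) β = (L i).ap (w i) := h.down i hi hiε
    have hyt : Transcendental ℂ (aeval (w (i + 1)) β) := (hB2 K β _ hG.pos).2 hvt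
    obtain ⟨c, hc⟩ := IsAlgClosed.exists_pow_nat_eq (aeval (aeval (w (i + 1)) β) D) (n := 2)
      (by norm_num)
    have h7 := hC7 K β D Φ G G' (L (i + 1)) (w (i + 1)) b c hG.pos hΦ hvt hΦG hG' hb hc
    have hpi : Path β i w ε L := h.take (by omega)
    have hri : RExt i ε L := h.rext hl hi hiε
    have hc' : c ^ 2 = aeval ((L i).ap (w i)) D := by rw [hc, hy]
    obtain ⟨g, hg, hg'⟩ := hPQ i hi w ε L hpi (hl.take (by omega)) hri a c ha hc'
    apply hg'
    obtain ⟨hR, hRc⟩ := hB1 K β (aeval (w (i + 1)) β) hG.pos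
    have hRc := hRc hyt
    have hfull : Full β (Fix i w : Set (K ≃ₐ[ℂ] K)) (aeval (w (i + 1)) β) := by
      rw [hy]
      exact full_right hB2 hG.pos (hPI i hi) hpi hri.1
    have hfy : ∀ f ∈ Fix i w, f (aeval (w (i + 1)) β) = aeval (w (i + 1)) β := by
      intro f hf
      rw [hy, ap_map, hf i le_rfl]
    refine hC1 K (Fix i w) (Fix i w) (Rt β (aeval (w (i + 1)) β)) (w (i + 1)) (a * c) le_rfl
      ?_ (by rw [hRc]; exact hG.deg_odd) ((hR _).2 rfl) ?_ ?_ ?_ ?_ g hg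
    · intro f hf n hn
      exact mul_mem (mul_mem hf hn) (inv_mem hf)
    · intro f hf Y hY
      rw [hR] at hY ⊢
      rw [← map_aeval, hY, hfy f hf]
    · intro Y hY
      exact hfull.trans hG hyt rfl ((hR Y).1 hY)
    · intro n hn
      rcases sign_of_fix ha (hn 0 (by omega)) with h1 | h1 <;>
        rcases sign_of_fix hc (hfy n hn) with h2 | h2 <;> rw [map_mul, h1, h2] <;> simp
    · intro n hn hnx
      have hnk : n ∈ Fix (i + 1) w := up_chain h hi hu hn hnx
      have e1 := hcon n hnk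
      have e2 := h7 n hnx
      have hb0 := ne_zero_of_sq hG.D_ne (transc_ap hB2 hvt) hb
      have e3 : n b * n b = b * b := by
        have hzf : n ((L (i + 1)).ap (w (i + 1))) = (L (i + 1)).ap (w (i + 1)) := by
          rw [ap_map, hnx]
        rcases sign_of_fix hb hzf with h1 | h1 <;> rw [h1]
        ring
      have e4 : n (a * c) * (b * b) = (a * c) * (b * b) := by
        calc n (a * c) * (b * b) = n (a * c) * (n b * n b) := by rw [e3]
          _ = n (a * b) * n (b * c) := by rw [map_mul, map_mul, map_mul]; ring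
          _ = (a * b) * (b * c) := by rw [e1, e2]
          _ = (a * c) * (b * b) := by ring
      exact mul_right_cancel₀ (mul_ne_zero hb0 hb0) e4

theorem PQ_pos [IsAlgClosed K] (hA3 : S_A3) (hA5 : S_A5) (hA6 : S_A6) (hA11 : S_A11)
    (hA12 : S_A12) (hA13 : S_A13) (hB1 : S_B1) (hB2 : S_B2) (hC1 : S_C1) (hC3 : S_C3)
    (hC4 : S_C4) (hC5 : S_C5) (hC7 : S_C7) {β D : ℂ[X]} (hG : Good K β D) {k : ℕ} (hk : 0 < k)
    (hPI : ∀ j < k, PI K β j) (hPQ : ∀ j < k, PQ K β D j) : PQ K β D k := by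
  intro w ε L hp hl hr a b ha hb
  by_cases hex : ∃ i < k, ε i = false
  · exact PQ_down hA3 hA5 hA6 hA11 hA12 hA13 hB1 hB2 hC1 hC3 hC4 hC5 hC7 hG hPI hPQ hp hl hex ha hb
  · push Not at hex
    have hrev := hp.reverse hB2 hG.pos
    have h1 := PQ_down hA3 hA5 hA6 hA11 hA12 hA13 hB1 hB2 hC1 hC3 hC4 hC5 hC7 hG hPI hPQ
      (a := b) (b := a) hrev (LExt.reverse hr) ⟨0, hk, ?_⟩ ?_ ?_
    · obtain ⟨g, hg, hg'⟩ := h1
      rw [Fix_reverse] at hg
      refine ⟨g, hg, ?_⟩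
      rw [mul_comm]
      exact hg'
    · unfold re'
      have := hex (k - 1 - 0) (by omega)
      simpa using this
    · unfold rw'
      rw [Nat.sub_zero]
      exact hb
    · unfold rw' rL'
      rw [Nat.sub_self, ap_inv]
      exact ha

theorem PIQ [IsAlgClosed K] (hA3 : S_A3) (hA5 : S_A5) (hA6 : S_A6) (hA11 : S_A11)
    (hA12 : S_A12) (hA13 : S_A13) (hB1 : S_B1) (hB2 : S_B2) (hC1 : S_C1) (hC2 : S_C2)
    (hC3 : S_C3) (hC4 : S_C4) (hC5 : S_C5) (hC6 : S_C6) (hC7 : S_C7) {β D : ℂ[X]}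
    (hG : Good K β D) : ∀ k, (∀ j ≤ k, PI K β j) ∧ ∀ j ≤ k, PQ K β D j := by
  intro k
  induction k with
  | zero =>
    constructor
    · intro j hj
      have : j = 0 := by omega
      rw [this]; exact PI_zero β
    · intro j hj
      have : j = 0 := by omega
      rw [this]; exact PQ_zero hC6 hG
  | succ k ih =>
    obtain ⟨h1, h2⟩ := ih
    have h3 : PI K β (k + 1) := PI_succ hB2 hC2 hG (h1 k le_rfl) (h2 k le_rfl)
    have h4 : PQ K β D (k + 1) := PQ_pos hA3 hA5 hA6 hA11 hA12 hA13 hB1 hB2 hC1 hC3 hC4 hC5 hC7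
      hG (by omega) (fun j hj => h1 j (by omega)) (fun j hj => h2 j (by omega))
    constructor
    · intro j hj
      rcases Nat.lt_or_ge j (k + 1) with h | h
      · exact h1 j (by omega)
      · have : j = k + 1 := by omega
        rw [this]; exact h3
    · intro j hj
      rcases Nat.lt_or_ge j (k + 1) with h | h
      · exact h2 j (by omega)
      · have : j = k + 1 := by omega
        rw [this]; exact h4

end

theorem p_core (hA3 : S_A3) (hA5 : S_A5) (hA6 : S_A6) (hA11 : S_A11)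
    (hA12 : S_A12) (hA13 : S_A13) (hB1 : S_B1) (hB2 : S_B2) (hC1 : S_C1) (hC2 : S_C2)
    (hC3 : S_C3) (hC4 : S_C4) (hC5 : S_C5) (hC6 : S_C6) (hC7 : S_C7) : S_core := by
  intro K _ _ _ β D hG k w ε L hp he
  have hPI := (PIQ hA3 hA5 hA6 hA11 hA12 hA13 hB1 hB2 hC1 hC2 hC3 hC4 hC5 hC6 hC7 hG k).1 k le_rfl
  have hpk : Path β k w ε L := hp.take (by omega)
  have ht := hp.transc hB2 hG.pos
  have hz : Transcendental ℂ ((L k).ap (w k)) := transc_ap hB2 (ht k (by omega))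
  have hfull := full_right hB2 hG.pos hPI hpk (hp.rext1 (by omega) he)
  obtain ⟨hR, hRc⟩ := hB1 K β ((L k).ap (w k)) hG.pos
  have hRc := hRc hz
  have hx : aeval (w (k + 1)) β = (L k).ap (w k) := hp.down k (by omega) he
  -- another point of the fibre
  obtain ⟨Y, hY, hne⟩ : ∃ Y ∈ Rt β ((L k).ap (w k)), Y ≠ w (k + 1) := by
    apply Finset.exists_mem_ne
    rw [hRc]
    have := hG.deg_ge
    omega
  obtain ⟨g, hg, hg'⟩ := hfull.trans hG hz hx ((hR Y).1 hY)
  refine ⟨g, fun j hj => hg j hj, ?_⟩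
  rw [hg']
  exact hne

end MP52poly
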