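import Pool.Agent.Lib.MP_52aaf2_al.Poly.PMain

/-! Cubic polynomials. -/

open Polynomial

namespace MP52poly

/-- A cubic polynomial which is not of the form `b (x - h) ^ 3 + e` is admissible. -/
theorem admissible_cubic {β : ℝ[X]} (h3 : β.natDegree = 3)
    (h : ¬ ∃ b h e : ℝ, β = C b * (X - C h) ^ 3 + C e) : Admissible β := by
  right; left
  have hd : (β.map (algebraMap ℝ ℂ)).natDegree = 3 := by rw [natDegree_map, h3]
  refine ⟨fun g k hgk => ?_, ?_⟩
  · have h1 := congrArg natDegree hgk
    rw [hd, natDegree_comp] at h1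
    have h2 : g.natDegree ∣ 3 := ⟨_, h1⟩
    rcases (Nat.dvd_prime Nat.prime_three).1 h2 with h4 | h4
    · left; omega
    · right
      rw [h4] at h1
      omega
  · -- coefficients
    obtain ⟨a, b, c, d, ha, hβ⟩ : ∃ a b c d : ℝ, a ≠ 0 ∧
        β = C a * X ^ 3 + C b * X ^ 2 + C c * X + C d := by
      refine ⟨β.coeff 3, β.coeff 2, β.coeff 1, β.coeff 0, ?_, ?_⟩
      · have : β.leadingCoeff ≠ 0 := by
          rw [Ne, leadingCoeff_eq_zero]
          rintro rfl
          simp at h3
        rwa [leadingCoeff, h3] at this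
      · conv_lhs => rw [β.as_sum_range_C_mul_X_pow, h3]
        simp only [Finset.sum_range_succ, Finset.sum_range_zero, pow_zero, mul_one, pow_one,
          zero_add]
        ring
    have hev : ∀ x : ℂ, aeval x β = a * x ^ 3 + b * x ^ 2 + c * x + d := by
      intro x
      rw [hβ]
      simp [aeval_def]
    have ha' : (a : ℂ) ≠ 0 := by exact_mod_cast ha
    -- a critical point
    obtain ⟨s, hs⟩ := IsAlgClosed.exists_pow_nat_eq ((b : ℂ) ^ 2 - 3 * a * c) (n := 2)
      (by norm_num)
    have hs0 : s ≠ 0 := by
      rintro rfl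
      apply h
      have h1 : b ^ 2 - 3 * a * c = 0 := by
        have h2 : ((b ^ 2 - 3 * a * c : ℝ) : ℂ) = 0 := by
          push_cast
          rw [← hs]
          ring
        exact_mod_cast h2
      refine ⟨a, -b / (3 * a), d - a * (b / (3 * a)) ^ 3, ?_⟩
      rw [hβ]
      have hc : c = b ^ 2 / (3 * a) := by
        field_simp
        linarith
      apply Polynomial.funext
      intro x
      simp only [eval_add, eval_mul, eval_pow, eval_sub, eval_C, eval_X]
      rw [hc]
      field_simp
      ring
    set p : ℂ := (-b + s) / (3 * a) with hp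
    set q : ℂ := (-b - 2 * s) / (3 * a) with hq
    have hpq : p ≠ q := by
      intro h1
      rw [hp, hq, div_left_inj' (by simpa using ha')] at h1
      apply hs0
      have : (3 : ℂ) * s = 0 := by linear_combination h1
      simpa using this
    refine ⟨a * p ^ 3 + b * p ^ 2 + c * p + d, ?_⟩
    have hset : {x : ℂ | aeval x β = a * p ^ 3 + b * p ^ 2 + c * p + d} = {p, q} := by
      ext x
      rw [Set.mem_ofPred_eq, hev]
      have key : (a * x ^ 3 + b * x ^ 2 + c * x + d : ℂ) - (a * p ^ 3 + b * p ^ 2 + c * p + d) =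
          a * (x - p) ^ 2 * (x - q) := by
        have e1 : 3 * a * p = -b + s := by
          rw [hp]; field_simp
        have e2 : 3 * a * q = -b - 2 * s := by
          rw [hq]; field_simp
        have hb : (b : ℂ) = -a * (2 * p + q) := by
          linear_combination (2 / 3 : ℂ) * e1 + (1 / 3 : ℂ) * e2
        have hc : (c : ℂ) = a * (p ^ 2 + 2 * p * q) := by
          have h9 : (9 : ℂ) * a ≠ 0 := by simpa using ha'
          apply mul_left_cancel₀ h9
          have e3 : (3 * a * p) ^ 2 + 2 * (3 * a * p) * (3 * a * q) = 9 * a * c := by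
            rw [e1, e2]
            linear_combination (-3 : ℂ) * hs
          linear_combination -e3
        linear_combination (x ^ 2 - p ^ 2) * hb + (x - p) * hc
      rw [← sub_eq_zero, key]
      simp [ha', sub_eq_zero]
    rw [hset, Set.ncard_pair hpq, h3]

end MP52poly
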