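import Mathlib

open Polynomial

namespace MP52poly

/-- The points at which a complex polynomial vanishes to an odd order. -/
noncomputable def OddR (F : ℂ[X]) : Finset ℂ := by
  classical
  exact F.roots.toFinset.filter (fun x => Odd (F.rootMultiplicity x))

theorem mem_OddR {F : ℂ[X]} {x : ℂ} : x ∈ OddR F ↔ F ≠ 0 ∧ Odd (F.rootMultiplicity x) := by
  classical
  unfold OddR
  rw [Finset.mem_filter, Multiset.mem_toFinset]
  constructor
  · rintro ⟨h1, h2⟩
    exact ⟨(mem_roots'.1 h1).1, h2⟩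
  · rintro ⟨h1, h2⟩
    refine ⟨?_, h2⟩
    rw [mem_roots h1, ← rootMultiplicity_pos h1]
    exact h2.pos

/-- Increasing affine maps `x ↦ a x + b`. -/
@[ext] structure AffM where
  a : ℝ
  b : ℝ
  pos : 0 < a

namespace AffM

/-- the identity -/
def one : AffM := ⟨1, 0, one_pos⟩

/-- the inverse map -/
noncomputable def inv (L : AffM) : AffM := ⟨L.a⁻¹, -(L.b / L.a), inv_pos.2 L.pos⟩

/-- composition -/
def comp (L M : AffM) : AffM := ⟨L.a * M.a, L.a * M.b + L.b, mul_pos L.pos M.pos⟩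

/-- the affine map on a field containing `ℂ` -/
noncomputable def ap {K : Type} [Field K] [Algebra ℂ K] (L : AffM) (x : K) : K :=
  algebraMap ℂ K (L.a : ℂ) * x + algebraMap ℂ K (L.b : ℂ)

/-- the affine map as a polynomial -/
noncomputable def pol (L : AffM) : ℂ[X] := C (L.a : ℂ) * X + C (L.b : ℂ)

end AffM

section

variable {K : Type} [Field K] [Algebra ℂ K]

/-- A path of length `k`: `w (i+1) = β (L i (w i))` for the steps with `ε i = true` and
`β (w (i+1)) = L i (w i)` for the steps with `ε i = false`; no affine map between two steps of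
different kinds is the identity. -/
structure Path (β : ℂ[X]) (k : ℕ) (w : ℕ → K) (ε : ℕ → Bool) (L : ℕ → AffM) : Prop where
  tr : Transcendental ℂ (w 0)
  up : ∀ i < k, ε i = true → w (i + 1) = aeval ((L i).ap (w i)) β
  down : ∀ i < k, ε i = false → aeval (w (i + 1)) β = (L i).ap (w i)
  red : ∀ i, i + 1 < k → ε i ≠ ε (i + 1) → L (i + 1) ≠ AffM.one

/-- The path stays reduced when a fibre is attached at its start. -/
def LExt (k : ℕ) (ε : ℕ → Bool) (L : ℕ → AffM) : Prop :=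
  0 < k → ε 0 = false → L 0 ≠ AffM.one

/-- The path stays reduced when a fibre is attached at its end (for `k = 0`: when fibres are
attached at both ends). -/
def RExt (k : ℕ) (ε : ℕ → Bool) (L : ℕ → AffM) : Prop :=
  (0 < k → ε (k - 1) = true → L k ≠ AffM.one) ∧ (k = 0 → L 0 ≠ AffM.one)

/-- The automorphisms fixing `w 0, …, w k`. -/
def Fix (k : ℕ) (w : ℕ → K) : Subgroup (K ≃ₐ[ℂ] K) where
  carrier := {g | ∀ j ≤ k, g (w j) = w j}
  mul_mem' := by
    intro f g hf hg j hj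
    change f (g (w j)) = w j
    rw [hg j hj, hf j hj]
  one_mem' := fun _ _ => rfl
  inv_mem' := by
    intro f hf j hj
    change f.symm (w j) = w j
    rw [AlgEquiv.symm_apply_eq]
    exact (hf j hj).symm

theorem mem_Fix {k : ℕ} {w : ℕ → K} {g : K ≃ₐ[ℂ] K} :
    g ∈ Fix k w ↔ ∀ j ≤ k, g (w j) = w j := Iff.rfl

/-- `H` acts on the fibre `{Y | β Y = t}` like the whole stabiliser of `t`. -/
def Full (β : ℂ[X]) (H : Set (K ≃ₐ[ℂ] K)) (t : K) : Prop :=
  ∀ g : K ≃ₐ[ℂ] K, g t = t → ∃ h ∈ H, ∀ Y : K, aeval Y β = t → h Y = g Y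

/-- The fibre. -/
noncomputable def Rt (β : ℂ[X]) (t : K) : Finset K := by
  classical
  exact (β.map (algebraMap ℂ K) - C t).roots.toFinset

end

/-- The properties of the polynomial `β` and of the field `K` used in the main induction; `D` is a
polynomial whose square root generates the quadratic extension attached to the unique subgroup of
index two of the monodromy group. -/
structure Good (K : Type) [Field K] [Algebra ℂ K] (β D : ℂ[X]) : Prop where
  deg_odd : Odd β.natDegree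
  deg_ge : 3 ≤ β.natDegree
  D_ne : D ≠ 0
  odd_ne : (OddR D).Nonempty
  odd_even : Even (OddR D).card
  odd_cv : ∀ y ∈ OddR D, ∃ c, β.derivative.eval c = 0 ∧ β.eval c = y
  field : ∀ t θ : K, Transcendental ℂ t → (∀ g : K ≃ₐ[ℂ] K, g t = t → g θ = θ) →
    ∃ p q : ℂ[X], q ≠ 0 ∧ θ * aeval t q = aeval t p
  fix : ∀ t r : K, Transcendental ℂ t → r ^ 2 = aeval t D → ∀ g : K ≃ₐ[ℂ] K,
    (∀ Y : K, aeval Y β = t → g Y = Y) → g r = r
  trans : ∀ t : K, Transcendental ℂ t → ∀ Y Y' : K, aeval Y β = t → aeval Y' β = t →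
    ∃ g : K ≃ₐ[ℂ] K, g t = t ∧ g Y = Y'
  norm : ∀ t r : K, Transcendental ℂ t → r ^ 2 = aeval t D → ∀ H N : Subgroup (K ≃ₐ[ℂ] K),
    N ≤ H → (∀ h ∈ H, h t = t) → (∀ h ∈ H, ∀ n ∈ N, h * n * h⁻¹ ∈ N) → Full β (H : Set _) t →
    (∃ n ∈ N, n r ≠ r) → Full β (N : Set _) t
  pt : ∀ v r : K, Transcendental ℂ v → r ^ 2 = aeval (aeval v β) D → ∀ θ : K,
    (∀ g : K ≃ₐ[ℂ] K, g v = v → g θ = θ ∨ g θ = -θ) →
    (∀ g : K ≃ₐ[ℂ] K, (∀ Y : K, aeval Y β = aeval v β → g Y = Y) → g θ = θ) →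
    (∀ g : K ≃ₐ[ℂ] K, g v = v → g θ = θ) ∨ (∀ g : K ≃ₐ[ℂ] K, g v = v → g (θ * r) = θ * r)

end MP52poly
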