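import Pool.Agent.Lib.MP_52aaf2_al.Poly.PStm

/-! [G3] The sign of a permutation and the square root of the discriminant. -/

open Polynomial

namespace MP52poly

theorem p_G3 (h1 : S_G1) (h2 : S_G2) : S_G3 := by
  intro K _ _ _ β t s r σ g hd ht hinj hr hg hs
  obtain ⟨κ, hκ, hV⟩ := h1 K β t r hd ht hinj hr
  have hgV := h2 K β.natDegree r σ g hg
  generalize (Matrix.vandermonde r).det = V at hV hgV
  obtain ⟨l, hl⟩ := IsAlgClosed.exists_pow_nat_eq κ (n := 2) (by norm_num)
  have hl0 : l ≠ 0 := by
    rintro rfl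
    exact hκ (by rw [← hl]; norm_num)
  have hl1 : algebraMap ℂ K l ≠ 0 := by
    rw [Ne, map_eq_zero]
    exact hl0
  have hgl : g (algebraMap ℂ K l) = algebraMap ℂ K l := g.commutes l
  rw [← hs, ← hl, map_pow] at hV
  have h3 : (V - algebraMap ℂ K l * s) * (V + algebraMap ℂ K l * s) = 0 := by
    linear_combination hV
  rcases mul_eq_zero.1 h3 with h4 | h4
  · have h5 : V = algebraMap ℂ K l * s := by linear_combination h4
    rw [h5, map_mul, hgl] at hgV
    apply mul_left_cancel₀ hl1
    rw [hgV]
    ring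
  · have h5 : V = -(algebraMap ℂ K l * s) := by linear_combination h4
    rw [h5, map_neg, map_mul, hgl] at hgV
    apply mul_left_cancel₀ hl1
    linear_combination -hgV

end MP52poly
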