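import Pool.Agent.Lib.MP_52aaf2_al.Poly.PStm

/-! [H5] Square roots of `t ^ 2 - 1`. -/

open Polynomial

namespace MP52poly

theorem p_H5 : S_H5 := by
  intro K _ _ n t w r hn hC hr g ζ hζ
  obtain ⟨hw, -, hwt, -⟩ := hC
  have hwn : w ^ n ≠ 0 := pow_ne_zero _ hw
  have hchar : (2 : K) ≠ 0 := by
    have h : algebraMap ℂ K 2 ≠ 0 := by
      rw [Ne, map_eq_zero]
      norm_num
    rwa [map_ofNat] at h
  have hr' : r ^ 2 = t ^ 2 - 1 := by
    rw [hr]
    simp
  set V : K := w ^ n - (w ^ n)⁻¹ with hV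
  have hV2 : (2 * r) ^ 2 = V ^ 2 := by
    have h1 : (2 * r) ^ 2 = (2 * t) ^ 2 - 4 := by
      rw [mul_pow, hr']
      ring
    rw [h1, ← hwt, hV]
    have h2 : w ^ n * (w ^ n)⁻¹ = 1 := mul_inv_cancel₀ hwn
    linear_combination 4 * h2
  have hg2 : g 2 = 2 := map_ofNat g 2
  have hζ' : (algebraMap ℂ K ζ) ^ n = 1 := by
    rw [← map_pow, hζ, map_one]
  constructor
  · intro hgw
    have hgn : g (w ^ n) = w ^ n := by
      rw [map_pow, hgw, mul_pow, hζ', one_mul]
    have hgV : g V = V := by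
      rw [hV, map_sub, map_inv₀, hgn]
    rcases sq_eq_sq_iff_eq_or_eq_neg.1 hV2 with h | h
    · have h3 : g (2 * r) = 2 * r := by rw [h, hgV]
      rw [map_mul, hg2] at h3
      exact mul_left_cancel₀ hchar h3
    · have h3 : g (2 * r) = 2 * r := by rw [h, map_neg, hgV]
      rw [map_mul, hg2] at h3
      exact mul_left_cancel₀ hchar h3
  · intro hgw
    have hgn : g (w ^ n) = (w ^ n)⁻¹ := by
      rw [map_pow, hgw, inv_pow, mul_pow, hζ', one_mul]
    have hgV : g V = -V := by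
      rw [hV, map_sub, map_inv₀, hgn, inv_inv]
      ring
    rcases sq_eq_sq_iff_eq_or_eq_neg.1 hV2 with h | h
    · have h3 : g (2 * r) = 2 * -r := by rw [h, hgV, mul_neg, h]
      rw [map_mul, hg2] at h3
      exact mul_left_cancel₀ hchar h3
    · have h3 : g (2 * r) = 2 * -r := by rw [h, map_neg, hgV, mul_neg, h]
      rw [map_mul, hg2] at h3
      exact mul_left_cancel₀ hchar h3

end MP52poly
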