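import Pool.Agent.Lib.MP_52aaf2_al.Poly.PStm

open Polynomial

namespace MP52poly

namespace J1c

variable {Ω : Type} [Field Ω] [Algebra ℂ Ω] [IsAlgClosed Ω]

/-- the embedding of `KK` sending the variable to `t₀` -/
theorem exists_emb (t₀ : Ω) (ht : Transcendental ℂ t₀) :
    ∃ ι : KK →ₐ[ℂ] Ω, ι (algebraMap (RatFunc ℂ) KK RatFunc.X) = t₀ := by
  have hinj : Function.Injective (aeval t₀ : ℂ[X] →ₐ[ℂ] Ω) :=
    transcendental_iff_injective.1 ht
  have hle : nonZeroDivisors ℂ[X] ≤ (nonZeroDivisors Ω).comap (aeval t₀ : ℂ[X] →ₐ[ℂ] Ω) :=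
    nonZeroDivisors_le_comap_nonZeroDivisors_of_injective _ hinj
  let f : RatFunc ℂ →ₐ[ℂ] Ω := RatFunc.liftAlgHom (aeval t₀ : ℂ[X] →ₐ[ℂ] Ω) hle
  have hf : f RatFunc.X = t₀ := by
    have h := RatFunc.liftAlgHom_apply_div (aeval t₀ : ℂ[X] →ₐ[ℂ] Ω) hle X 1
    rw [map_one, map_one, div_one, div_one, RatFunc.algebraMap_X, aeval_X] at h
    exact h
  letI : Algebra (RatFunc ℂ) Ω := f.toRingHom.toAlgebra
  haveI : IsScalarTower ℂ (RatFunc ℂ) Ω := IsScalarTower.of_algebraMap_eq (fun x => by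
    change algebraMap ℂ Ω x = f (algebraMap ℂ (RatFunc ℂ) x)
    rw [AlgHom.commutes])
  let j : KK →ₐ[RatFunc ℂ] Ω := IsAlgClosed.lift
  refine ⟨j.restrictScalars ℂ, ?_⟩
  change j (algebraMap (RatFunc ℂ) KK RatFunc.X) = t₀
  rw [AlgHom.commutes]
  exact hf

theorem hom_eq (t₀ : Ω) (g : Ω ≃ₐ[ℂ] Ω) (hg : g t₀ = t₀) (ι : KK →ₐ[ℂ] Ω)
    (hι : ι (algebraMap (RatFunc ℂ) KK RatFunc.X) = t₀) (x : RatFunc ℂ) :
    g (ι (algebraMap (RatFunc ℂ) KK x)) = ι (algebraMap (RatFunc ℂ) KK x) := by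
  have key : ((g : Ω →+* Ω).comp (ι : KK →+* Ω)).comp (algebraMap (RatFunc ℂ) KK) =
      (ι : KK →+* Ω).comp (algebraMap (RatFunc ℂ) KK) := by
    apply IsLocalization.ringHom_ext (nonZeroDivisors ℂ[X])
    apply Polynomial.ringHom_ext
    · intro a
      change g (ι (algebraMap (RatFunc ℂ) KK (algebraMap ℂ[X] (RatFunc ℂ) (C a)))) =
        ι (algebraMap (RatFunc ℂ) KK (algebraMap ℂ[X] (RatFunc ℂ) (C a)))
      have h1 : algebraMap (RatFunc ℂ) KK (algebraMap ℂ[X] (RatFunc ℂ) (C a)) =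
          algebraMap ℂ KK a := by
        rw [IsScalarTower.algebraMap_apply ℂ (RatFunc ℂ) KK]
        congr 1
      rw [h1, AlgHom.commutes, AlgEquiv.commutes]
    · change g (ι (algebraMap (RatFunc ℂ) KK (algebraMap ℂ[X] (RatFunc ℂ) X))) =
        ι (algebraMap (RatFunc ℂ) KK (algebraMap ℂ[X] (RatFunc ℂ) X))
      rw [RatFunc.algebraMap_X, hι, hg]
  exact RingHom.congr_fun key x

theorem mem_range_of_root (ι : KK →ₐ[ℂ] Ω) (P : KK[X]) (hP : P ≠ 0) (Y : Ω)
    (hY : (P.map (ι : KK →+* Ω)).eval Y = 0) : ∃ z, ι z = Y :=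
  (IsAlgClosed.splits P).mem_range_of_isRoot hP hY

theorem stab (t₀ : Ω) (g : Ω ≃ₐ[ℂ] Ω) (hg : g t₀ = t₀) (ι : KK →ₐ[ℂ] Ω)
    (hι : ι (algebraMap (RatFunc ℂ) KK RatFunc.X) = t₀) (z : KK) : ∃ y, ι y = g (ι z) := by
  have hz : IsIntegral (RatFunc ℂ) z := Algebra.IsIntegral.isIntegral z
  set p := minpoly (RatFunc ℂ) z with hp
  have hp0 : p ≠ 0 := minpoly.ne_zero hz
  apply mem_range_of_root ι (p.map (algebraMap (RatFunc ℂ) KK))
    ((Polynomial.map_ne_zero_iff (algebraMap (RatFunc ℂ) KK).injective).2 hp0)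
  have h1 : ((g : Ω →+* Ω).comp (ι : KK →+* Ω)).comp (algebraMap (RatFunc ℂ) KK) =
      (ι : KK →+* Ω).comp (algebraMap (RatFunc ℂ) KK) :=
    RingHom.ext (hom_eq t₀ g hg ι hι)
  rw [Polynomial.map_map, ← h1, ← Polynomial.map_map]
  change eval (((g : Ω →+* Ω).comp (ι : KK →+* Ω)) z) _ = 0
  rw [Polynomial.eval_map_apply, Polynomial.eval_map_algebraMap, minpoly.aeval, map_zero]

end J1c

open J1c in
theorem p_J1c : S_J1c := by
  intro Ω _ _ _ t₀ g ht hg
  obtain ⟨ι, hι⟩ := exists_emb t₀ ht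
  have hinj : Function.Injective ι := ι.toRingHom.injective
  have hg2 : g.symm t₀ = t₀ := by
    rw [AlgEquiv.symm_apply_eq, hg]
  set T : KK := algebraMap (RatFunc ℂ) KK RatFunc.X with hT
  -- the restricted automorphism
  choose f hf using stab t₀ g hg ι hι
  choose f' hf' using stab t₀ g.symm hg2 ι hι
  let g' : KK ≃ₐ[ℂ] KK :=
    { toFun := f
      invFun := f'
      left_inv := by
        intro x
        apply hinj
        rw [hf', hf, AlgEquiv.symm_apply_apply]
      right_inv := by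
        intro x
        apply hinj
        rw [hf, hf', AlgEquiv.apply_symm_apply]
      map_mul' := by
        intro x y
        apply hinj
        rw [hf, map_mul, map_mul, map_mul, hf, hf]
      map_add' := by
        intro x y
        apply hinj
        rw [hf, map_add, map_add, map_add, hf, hf]
      commutes' := by
        intro x
        apply hinj
        rw [hf, AlgHom.commutes, AlgEquiv.commutes] }
  have hg' : ∀ z, ι (g' z) = g (ι z) := hf
  have hφ : ∀ z, Function.invFun ι (ι z) = z := Function.leftInverse_invFun hinj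
  have hae : ∀ (z : KK) (β : ℂ[X]), ι (aeval z β) = aeval (ι z) β := by
    intro z β
    rw [Polynomial.aeval_algHom_apply]
  refine ⟨T, g', Function.invFun ι, ?_, ?_, ?_⟩
  · rintro ⟨p, hp, h⟩
    refine ht ⟨p, hp, ?_⟩
    rw [← hι, ← hae, h, map_zero]
  · apply hinj
    rw [hg', hι, hg]
  · intro β hβ
    have hrange : ∀ Y, aeval Y β = t₀ → ∃ z, ι z = Y := by
      intro Y hY
      apply mem_range_of_root ι (β.map (algebraMap ℂ KK) - C T)
      · intro h
        have h1 : (β.map (algebraMap ℂ KK) - C T).natDegree = β.natDegree := by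
          rw [natDegree_sub_C, natDegree_map]
        rw [h, natDegree_zero] at h1
        omega
      · rw [Polynomial.map_sub, Polynomial.map_map, Polynomial.map_C, eval_sub, eval_C]
        have h2 : (ι : KK →+* Ω).comp (algebraMap ℂ KK) = algebraMap ℂ Ω :=
          RingHom.ext (fun x => ι.commutes x)
        rw [h2, Polynomial.eval_map_algebraMap, hY]
        change t₀ - ι T = 0
        rw [hι, sub_self]
    refine ⟨?_, ?_, ?_⟩
    · intro Y hY
      obtain ⟨z, rfl⟩ := hrange Y hY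
      constructor
      · apply hinj
        rw [hφ, hae, hY, hι]
      · rw [hφ, ← hg', hφ]
    · intro Z hZ
      refine ⟨ι Z, ?_, hφ Z⟩
      rw [← hae, hZ, hι]
    · intro Y Y' hY hY' h
      obtain ⟨z, rfl⟩ := hrange Y hY
      obtain ⟨z', rfl⟩ := hrange Y' hY'
      rw [hφ, hφ] at h
      rw [h]

end MP52poly
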