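import Pool.Agent.Lib.MP_52aaf2_al.Poly.PStmK

/-! [K3] A relation between germs gives a closed path in some field. -/

open Polynomial Filter

namespace MP52poly

open MP52aaf2 (GermGroup germ)

/-- the points of the path, as homeomorphisms -/
private noncomputable def k3x (f : ℝ ≃o ℝ) (ε : ℕ → Bool) (L : ℕ → AffM) : ℕ → (ℝ ≃o ℝ)
  | 0 => 1
  | k + 1 => (bif ε k then f else f⁻¹) * ((L k).oi * k3x f ε L k)

private theorem k3_wp (f : ℝ ≃o ℝ) (ε : ℕ → Bool) (L : ℕ → AffM) (k : ℕ) :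
    wp (germ f) ε (fun i => germ (L i).oi) k = germ ((L k).oi * k3x f ε L k) := by
  induction k with
  | zero => rfl
  | succ k ih =>
    change germ (L (k + 1)).oi * (bif ε k then germ f else (germ f)⁻¹) *
      wp (germ f) ε (fun i => germ (L i).oi) k = _
    rw [ih]
    change _ = germ ((L (k + 1)).oi * ((bif ε k then f else f⁻¹) * ((L k).oi * k3x f ε L k)))
    cases ε k <;> rfl

@[reducible] private noncomputable def k3alg (U : Ultrafilter ℝ) : Algebra ℂ (Filter.Germ (U : Filter ℝ) ℂ) :=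
  ((Filter.Germ.coeRingHom (U : Filter ℝ)).comp (Pi.constRingHom ℝ ℂ)).toAlgebra

private theorem k3_aeval (U : Ultrafilter ℝ) (g : ℝ → ℂ) (P : ℂ[X]) :
    letI := k3alg U
    aeval (g : Filter.Germ (U : Filter ℝ) ℂ) P =
      ((fun s => P.eval (g s) : ℝ → ℂ) : Filter.Germ (U : Filter ℝ) ℂ) := by
  let _ := k3alg U
  change aeval (g : Filter.Germ (U : Filter ℝ) ℂ) P = _
  rw [aeval_def]
  change eval₂ ((Filter.Germ.coeRingHom (U : Filter ℝ)).comp (Pi.constRingHom ℝ ℂ))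
    (Filter.Germ.coeRingHom (U : Filter ℝ) g) P = _
  rw [← hom_eval₂]
  change (((eval₂ (Pi.constRingHom ℝ ℂ) g P : ℝ → ℂ)) : Filter.Germ (U : Filter ℝ) ℂ) = _
  congr 1
  funext s
  have h := hom_eval₂ P (Pi.constRingHom ℝ ℂ) (Pi.evalRingHom (fun _ : ℝ => ℂ) s) g
  change (eval₂ (Pi.constRingHom ℝ ℂ) g P : ℝ → ℂ) s = eval₂ (RingHom.id ℂ) (g s) P at h
  rw [h, eval₂_id]

private theorem k3_map_eval (β : ℝ[X]) (y : ℝ) :
    (β.map (algebraMap ℝ ℂ)).eval ((y : ℝ) : ℂ) = ((β.eval y : ℝ) : ℂ) := by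
  rw [eval_map]
  exact eval₂_at_apply (algebraMap ℝ ℂ) y

theorem p_K3 : S_K3 := by
  intro β f _ hf k ε L hL hw
  obtain ⟨U, hU⟩ : ∃ U : Ultrafilter ℝ, (U : Filter ℝ) ≤ atTop :=
    ⟨Ultrafilter.of atTop, Ultrafilter.of_le _⟩
  obtain ⟨Y, hY⟩ : ∃ Y : ℕ → (ℝ ≃o ℝ), Y = k3x f ε L := ⟨_, rfl⟩
  have hYs : ∀ i s, Y (i + 1) s = (bif ε i then f else f⁻¹) ((L i).a * Y i s + (L i).b) := by
    intro i s
    rw [hY]
    rfl
  have hY0 : ∀ s, Y 0 s = s := by
    intro s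
    rw [hY]
    rfl
  have hT : ∀ i, Tendsto (fun s => (L i).a * Y i s + (L i).b) atTop atTop := by
    intro i
    exact ((L i).oi.tendsto_atTop).comp (Y i).tendsto_atTop
  have hap : ∀ (M : AffM) (g : ℝ → ℂ), letI := k3alg U
      M.ap (g : Filter.Germ (U : Filter ℝ) ℂ) =
        ((fun s => (M.a : ℂ) * g s + (M.b : ℂ) : ℝ → ℂ) : Filter.Germ (U : Filter ℝ) ℂ) := by
    intro M g
    rfl
  let _ := k3alg U
  refine ⟨Filter.Germ (U : Filter ℝ) ℂ, inferInstance, k3alg U,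
    fun i => ((fun s => ((Y i s : ℝ) : ℂ) : ℝ → ℂ) : Filter.Germ (U : Filter ℝ) ℂ),
    ⟨?_, ?_, ?_, hL⟩, ?_⟩
  · rw [transcendental_iff]
    intro P hP
    rw [k3_aeval] at hP
    have h1 : ∀ᶠ s in (U : Filter ℝ), P.eval ((Y 0 s : ℝ) : ℂ) = 0 := Filter.Germ.coe_eq.1 hP
    by_contra hP0
    have hfin : Set.Finite {s : ℝ | P.eval (s : ℂ) = 0} := by
      have h2 : Set.Finite {z : ℂ | P.IsRoot z} := by
        by_contra h
        exact hP0 (eq_zero_of_infinite_isRoot P h)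
      exact h2.preimage (Complex.ofReal_injective.injOn)
    obtain ⟨M, hM⟩ := hfin.bddAbove
    have h3 : ∀ᶠ s in (U : Filter ℝ), M < s := hU (eventually_gt_atTop M)
    obtain ⟨s, hs1, hs2⟩ := (h1.and h3).exists
    rw [hY0] at hs1
    exact absurd (hM hs1) (not_le.2 hs2)
  · intro i _ hi
    rw [hap, k3_aeval]
    refine Filter.Germ.coe_eq.2 (hU ?_)
    filter_upwards [(hT i).eventually hf] with s hs
    rw [hYs, hi, cond_true, hs, ← k3_map_eval]
    push_cast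
    rfl
  · intro i _ hi
    rw [hap, k3_aeval]
    refine Filter.Germ.coe_eq.2 (hU ?_)
    filter_upwards [((Y (i + 1)).tendsto_atTop).eventually hf] with s hs
    rw [k3_map_eval, ← hs, hYs, hi, cond_false]
    have h4 : f (f⁻¹ ((L i).a * Y i s + (L i).b)) = (L i).a * Y i s + (L i).b :=
      f.apply_symm_apply _
    rw [h4]
    push_cast
    rfl
  · rw [hap]
    refine Filter.Germ.coe_eq.2 (hU ?_)
    rw [k3_wp, ← hY, ← MP52aaf2.germ_one, MP52aaf2.germ_eq_iff] at hw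
    filter_upwards [hw] with s hs
    have h5 : (L k).a * Y k s + (L k).b = s := hs
    rw [hY0, ← h5]
    push_cast
    rw [h5]

end MP52poly
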