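import Pool.Agent.Lib.MP_52aaf2_al.Defs

/-! The definitions used in the statement of the main theorem about polynomial germs. -/

open Polynomial Filter

namespace MP52poly

open MP52aaf2 (GermGroup germ)

/-- The Galois group of `f(Y) - X` over the field `ℂ(X)` of rational functions (the monodromy
group of the polynomial `f`). -/
abbrev MonodromyGroup (f : ℂ[X]) : Type :=
  (f.map (algebraMap ℂ (RatFunc ℂ)) - C (RatFunc.X : RatFunc ℂ)).Gal

/-- `g` is the germ of a homeomorphism which is equal to the polynomial `f` near `+∞`. -/
def PolyGerm (f : ℝ[X]) (g : GermGroup) : Prop :=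
  ∃ φ : ℝ ≃o ℝ, germ φ = g ∧ ∀ᶠ x in atTop, φ x = f.eval x

/-- `g` is the germ of an affine map `x ↦ a x + c` with `a > 0`. -/
def AffineGerm (g : GermGroup) : Prop := ∃ a c : ℝ, 0 < a ∧ PolyGerm (C a * X + C c) g

/-- `a` and `b` are free generators of the subgroup `⟨a, b⟩`: the homomorphism from the free group
of rank two which takes the values `a`, `b` on the generators is injective. -/
def FreeGenerators (a b : GermGroup) : Prop := Function.Injective (FreeGroup.lift ![a, b])

end MP52poly
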