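import Pool.Agent.Lib.MP_52aaf2_al.Poly.PAll
import Pool.Agent.Lib.MP_52aaf2_al.Poly.PStatement

/-! The main theorem about polynomial germs. -/

open Polynomial Filter

namespace MP52poly

open MP52aaf2 (GermGroup germ germ_eq_iff alpha)

theorem affineGerm_iff {g : GermGroup} : AffineGerm g ↔ g ∈ AffG := by
  constructor
  · rintro ⟨a, c, ha, f, rfl, hf⟩
    refine ⟨⟨a, c, ha⟩, ?_⟩
    rw [germ_eq_iff]
    filter_upwards [hf] with x hx
    rw [hx, AffM.oi_apply]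
    simp
  · rintro ⟨L, rfl⟩
    refine ⟨L.a, L.b, L.pos, L.oi, rfl, ?_⟩
    exact Eventually.of_forall fun x => by rw [AffM.oi_apply]; simp

theorem exists_transc : ∃ t : KK, Transcendental ℂ t := by
  refine ⟨algebraMap (RatFunc ℂ) KK RatFunc.X, ?_⟩
  have h1 : Transcendental ℂ (RatFunc.X : RatFunc ℂ) := RatFunc.transcendental_X
  exact (transcendental_algebraMap_iff (algebraMap (RatFunc ℂ) KK).injective).2 h1

/-- The hypothesis on the polynomial. -/
def Admissible (β : ℝ[X]) : Prop :=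
  Nat.card (MonGrp (β.map (algebraMap ℝ ℂ))) = β.natDegree.factorial ∨
    ((∀ g h : ℂ[X], β.map (algebraMap ℝ ℂ) = g.comp h → g.natDegree ≤ 1 ∨ h.natDegree ≤ 1) ∧
      ∃ v : ℂ, {x : ℂ | aeval x β = v}.ncard = β.natDegree - 1) ∨
    ∃ n : ℕ, β = Polynomial.Chebyshev.T ℝ n

theorem good_of_admissible {β : ℝ[X]} (hodd : Odd β.natDegree) (h3 : 3 ≤ β.natDegree)
    (h : Admissible β) : ∃ D, Good KK (β.map (algebraMap ℝ ℂ)) D := by
  have hd : (β.map (algebraMap ℝ ℂ)).natDegree = β.natDegree := natDegree_map _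
  have hsym : FullSym KK (β.map (algebraMap ℝ ℂ)) → ∃ D, Good KK (β.map (algebraMap ℝ ℂ)) D := by
    intro hs
    exact ⟨_, q_G6 KK (β.map (algebraMap ℝ ℂ)) exists_transc p_I1 hs (by rwa [hd]) (by rwa [hd])⟩
  rcases h with h | ⟨h, v, hv⟩ | ⟨n, rfl⟩
  · exact hsym (q_I3 _ (by rw [hd]; omega) (by rw [hd]; exact h))
  · refine hsym (q_J3 (β.map (algebraMap ℝ ℂ)) v (by rwa [hd]) h ?_)
    rw [hd, ← hv]
    congr 1
    ext x
    simp [aeval_def, eval_map]
  · have hn : (Polynomial.Chebyshev.T ℝ (n : ℤ)).natDegree = n := by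
      rw [Polynomial.Chebyshev.natDegree_T]
      simp
    rw [hn] at hodd h3
    refine ⟨X ^ 2 - 1, ?_⟩
    rw [Polynomial.Chebyshev.map_T]
    exact q_H7 KK n p_I1 p_I2 hodd h3

/-- **Main theorem.** -/
theorem polynomial_germs {β : ℝ[X]} (hodd : Odd β.natDegree) (h3 : 3 ≤ β.natDegree)
    (hlc : 0 < β.leadingCoeff) (h : Admissible β) :
    ∃ b : GermGroup, PolyGerm β b ∧
      ∀ γ ∈ Subgroup.closure ({g | AffineGerm g} ∪ {b}),
        (FreeGenerators alpha γ ↔ ¬ AffineGerm γ) := by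
  obtain ⟨f, hf⟩ := exists_homeo β (by omega) hlc
  obtain ⟨D, hG⟩ := good_of_admissible hodd h3 h
  refine ⟨germ f, ⟨f, rfl, hf⟩, fun γ hγ => ?_⟩
  rw [affineGerm_iff]
  have e : ({g | AffineGerm g} : Set GermGroup) = (AffG : Set GermGroup) := by
    ext g
    exact affineGerm_iff
  rw [e] at hγ
  exact free_of_good p_K1 p_K2 p_K3 p_K4 q_core hG hf hγ

end MP52poly
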