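import Pool.Agent.Lib.MP_52aaf2_al.Poly.PStmK

/-! Reversal and truncation of paths. -/

open Polynomial

namespace MP52poly

section

variable {K : Type} [Field K] [Algebra ℂ K]

theorem ap_map (g : K ≃ₐ[ℂ] K) (L : AffM) (x : K) : g (L.ap x) = L.ap (g x) := by
  simp [AffM.ap]

theorem ap_inv (L : AffM) (x : K) : L.inv.ap (L.ap x) = x := by
  have h : (L.a : ℂ) ≠ 0 := by exact_mod_cast L.pos.ne'
  have e1 : ((L.inv.a : ℝ) : ℂ) = (L.a : ℂ)⁻¹ := by
    change ((L.a⁻¹ : ℝ) : ℂ) = _
    exact Complex.ofReal_inv _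
  have e2 : ((L.inv.b : ℝ) : ℂ) = -((L.b : ℂ) / (L.a : ℂ)) := by
    change ((-(L.b / L.a) : ℝ) : ℂ) = _
    rw [Complex.ofReal_neg, Complex.ofReal_div]
  have e3 : algebraMap ℂ K (L.a : ℂ)⁻¹ * algebraMap ℂ K (L.a : ℂ) = 1 := by
    rw [← map_mul, inv_mul_cancel₀ h, map_one]
  have e4 : algebraMap ℂ K (L.a : ℂ)⁻¹ * algebraMap ℂ K (L.b : ℂ) +
      algebraMap ℂ K (-((L.b : ℂ) / (L.a : ℂ))) = 0 := by
    rw [← map_mul, ← map_add]
    have : (L.a : ℂ)⁻¹ * L.b + -(L.b / L.a) = 0 := by
      field_simp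
      ring
    rw [this, map_zero]
  unfold AffM.ap
  rw [e1, e2]
  linear_combination x * e3 + e4

theorem ap_inv' (L : AffM) (x : K) : L.ap (L.inv.ap x) = x := by
  have h : (L.a : ℂ) ≠ 0 := by exact_mod_cast L.pos.ne'
  have e1 : ((L.inv.a : ℝ) : ℂ) = (L.a : ℂ)⁻¹ := by
    change ((L.a⁻¹ : ℝ) : ℂ) = _
    exact Complex.ofReal_inv _
  have e2 : ((L.inv.b : ℝ) : ℂ) = -((L.b : ℂ) / (L.a : ℂ)) := by
    change ((-(L.b / L.a) : ℝ) : ℂ) = _
    rw [Complex.ofReal_neg, Complex.ofReal_div]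
  have e3 : algebraMap ℂ K (L.a : ℂ) * algebraMap ℂ K (L.a : ℂ)⁻¹ = 1 := by
    rw [← map_mul, mul_inv_cancel₀ h, map_one]
  have e4 : algebraMap ℂ K (L.a : ℂ) * algebraMap ℂ K (-((L.b : ℂ) / (L.a : ℂ))) +
      algebraMap ℂ K (L.b : ℂ) = 0 := by
    rw [← map_mul, ← map_add]
    have : (L.a : ℂ) * -(L.b / L.a) + L.b = 0 := by
      field_simp
      ring
    rw [this, map_zero]
  unfold AffM.ap
  rw [e1, e2]
  linear_combination x * e3 + e4

theorem ap_inj {L : AffM} {x y : K} (h : L.ap x = L.ap y) : x = y := by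
  rw [← ap_inv L x, h, ap_inv]

theorem ap_eq_aeval (L : AffM) (x : K) : L.ap x = aeval x L.pol := by
  simp [AffM.ap, AffM.pol]

theorem inv_ne_one {L : AffM} (h : L ≠ AffM.one) : L.inv ≠ AffM.one := by
  intro h1
  apply h
  have ha : L.a⁻¹ = 1 := congrArg AffM.a h1
  have hb : -(L.b / L.a) = 0 := congrArg AffM.b h1
  have ha' : L.a = 1 := inv_eq_one.1 ha
  rw [ha'] at hb
  apply AffM.ext
  · exact ha'
  · change L.b = 0
    simpa using hb

theorem transc_ap (hB2 : S_B2) {L : AffM} {x : K} (h : Transcendental ℂ x) :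
    Transcendental ℂ (L.ap x) := by
  rw [ap_eq_aeval]
  refine (hB2 K L.pol x ?_).2 h
  have : (L.a : ℂ) ≠ 0 := by exact_mod_cast L.pos.ne'
  unfold AffM.pol
  rw [natDegree_linear this]
  exact one_pos

theorem Path.transc (hB2 : S_B2) {β : ℂ[X]} (hβ : 0 < β.natDegree) {k : ℕ} {w : ℕ → K}
    {ε : ℕ → Bool} {L : ℕ → AffM} (h : Path β k w ε L) : ∀ i ≤ k, Transcendental ℂ (w i) := by
  intro i
  induction i with
  | zero => intro _; exact h.tr
  | succ i ih =>
    intro hi
    have h1 : Transcendental ℂ ((L i).ap (w i)) := transc_ap hB2 (ih (by omega))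
    cases he : ε i with
    | true =>
      rw [h.up i (by omega) he]
      exact (hB2 K β _ hβ).2 h1
    | false =>
      rw [← h.down i (by omega) he] at h1
      exact (hB2 K β _ hβ).1 h1

theorem Path.take {β : ℂ[X]} {k j : ℕ} {w : ℕ → K} {ε : ℕ → Bool} {L : ℕ → AffM}
    (h : Path β k w ε L) (hj : j ≤ k) : Path β j w ε L where
  tr := h.tr
  up i hi := h.up i (by omega)
  down i hi := h.down i (by omega)
  red i hi := h.red i (by omega)

/-- reversed points -/
noncomputable def rw' (k : ℕ) (w : ℕ → K) (L : ℕ → AffM) (j : ℕ) : K :=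
  (L (k - j)).ap (w (k - j))

end

/-- reversed directions -/
def re' (k : ℕ) (ε : ℕ → Bool) (j : ℕ) : Bool := !ε (k - 1 - j)

/-- reversed affine maps -/
noncomputable def rL' (k : ℕ) (L : ℕ → AffM) (j : ℕ) : AffM := (L (k - j)).inv

section

variable {K : Type} [Field K] [Algebra ℂ K]

theorem Path.reverse (hB2 : S_B2) {β : ℂ[X]} (hβ : 0 < β.natDegree) {k : ℕ} {w : ℕ → K}
    {ε : ℕ → Bool} {L : ℕ → AffM} (h : Path β k w ε L) :
    Path β k (rw' k w L) (re' k ε) (rL' k L) where
  tr := transc_ap hB2 (h.transc hB2 hβ _ (by omega))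
  up i hi he := by
    have he' : ε (k - 1 - i) = false := by
      unfold re' at he
      simpa using he
    have h1 := h.down (k - 1 - i) (by omega) he'
    have e1 : k - 1 - i + 1 = k - i := by omega
    have e2 : k - (i + 1) = k - 1 - i := by omega
    rw [e1] at h1
    unfold rw' rL'
    rw [e2, ← h1, ap_inv]
  down i hi he := by
    have he' : ε (k - 1 - i) = true := by
      unfold re' at he
      simpa using he
    have h1 := h.up (k - 1 - i) (by omega) he'
    have e1 : k - 1 - i + 1 = k - i := by omega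
    have e2 : k - (i + 1) = k - 1 - i := by omega
    rw [e1] at h1
    unfold rw' rL'
    rw [e2, ← h1, ap_inv]
  red i hi hne := by
    have e2 : k - (i + 1) = (k - 1 - (i + 1)) + 1 := by omega
    unfold rL'
    rw [e2]
    apply inv_ne_one
    apply h.red
    · omega
    · intro h1
      apply hne
      unfold re'
      have e3 : k - 1 - (i + 1) + 1 = k - 1 - i := by omega
      rw [e3] at h1
      rw [h1]

theorem LExt.reverse {k : ℕ} {ε : ℕ → Bool} {L : ℕ → AffM} (h : RExt k ε L) :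
    LExt k (re' k ε) (rL' k L) := by
  intro hk he
  unfold re' at he
  unfold rL'
  apply inv_ne_one
  rw [Nat.sub_zero]
  apply h.1 hk
  simpa using he

theorem RExt.reverse {k : ℕ} {ε : ℕ → Bool} {L : ℕ → AffM} (h : LExt k ε L)
    (h0 : k = 0 → L 0 ≠ AffM.one) : RExt k (re' k ε) (rL' k L) := by
  constructor
  · intro hk he
    unfold re' at he
    unfold rL'
    apply inv_ne_one
    rw [Nat.sub_self]
    apply h hk
    have e : k - 1 - (k - 1) = 0 := by omega
    rw [e] at he
    simpa using he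
  · rintro rfl
    exact inv_ne_one (h0 rfl)

theorem Fix_reverse {k : ℕ} {w : ℕ → K} {L : ℕ → AffM} :
    Fix k (rw' k w L) = Fix k w := by
  ext g
  rw [mem_Fix, mem_Fix]
  constructor
  · intro h j hj
    have h1 := h (k - j) (by omega)
    unfold rw' at h1
    rw [ap_map] at h1
    have e : k - (k - j) = j := by omega
    rw [e] at h1
    exact ap_inj h1
  · intro h j hj
    unfold rw'
    rw [ap_map, h (k - j) (by omega)]

/-- the right extension before a root step -/
theorem Path.rext {β : ℂ[X]} {k j : ℕ} {w : ℕ → K} {ε : ℕ → Bool} {L : ℕ → AffM}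
    (h : Path β k w ε L) (hl : LExt k ε L) (hj : j < k) (he : ε j = false) : RExt j ε L := by
  constructor
  · intro hj0 he1
    obtain ⟨i, rfl⟩ : ∃ i, j = i + 1 := ⟨j - 1, by omega⟩
    apply h.red i hj
    rw [he]
    simpa using he1
  · rintro rfl
    exact hl hj he

/-- the first half of the right extension does not need the left extension -/
theorem Path.rext1 {β : ℂ[X]} {k j : ℕ} {w : ℕ → K} {ε : ℕ → Bool} {L : ℕ → AffM}
    (h : Path β k w ε L) (hj : j < k) (he : ε j = false) :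
    0 < j → ε (j - 1) = true → L j ≠ AffM.one := by
  intro hj0 he1
  obtain ⟨i, rfl⟩ : ∃ i, j = i + 1 := ⟨j - 1, by omega⟩
  apply h.red i hj
  rw [he]
  simpa using he1

theorem LExt.take {k j : ℕ} {ε : ℕ → Bool} {L : ℕ → AffM} (h : LExt k ε L) (hj : j ≤ k) :
    LExt j ε L := fun h0 he => h (by omega) he

theorem LExt.reverse1 {k : ℕ} {ε : ℕ → Bool} {L : ℕ → AffM}
    (h : 0 < k → ε (k - 1) = true → L k ≠ AffM.one) : LExt k (re' k ε) (rL' k L) := by
  intro hk he
  unfold re' at he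
  unfold rL'
  apply inv_ne_one
  rw [Nat.sub_zero]
  apply h hk
  simpa using he

end

end MP52poly
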