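import Pool.Agent.Lib.MP_52aaf2_al.Poly.PDefs

/-! Statements of the pieces of the proof. -/

open Polynomial

namespace MP52poly

/-! ### A: complex polynomials and points of odd multiplicity -/

/-- [A1] A nonzero polynomial is a square iff it has no point of odd multiplicity. -/
def S_A1 : Prop := ∀ F : ℂ[X], F ≠ 0 → (OddR F = ∅ ↔ ∃ G : ℂ[X], F = G ^ 2)

/-- [A2] Products. -/
def S_A2 : Prop := ∀ F G : ℂ[X], F ≠ 0 → G ≠ 0 → ∀ x, x ∈ OddR (F * G) ↔ ¬ (x ∈ OddR F ↔ x ∈ OddR G)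

/-- [A3] Parity of the degree. -/
def S_A3 : Prop := ∀ F : ℂ[X], F ≠ 0 → (Odd F.natDegree ↔ Odd (OddR F).card)

/-- [A4] Multiplicities of a composition. -/
def S_A4 : Prop := ∀ F β : ℂ[X], F ≠ 0 → 0 < β.natDegree → F.comp β ≠ 0 ∧
  ∀ x, (F.comp β).rootMultiplicity x =
    F.rootMultiplicity (β.eval x) * (β - C (β.eval x)).rootMultiplicity x

/-- [A5] Composition with a polynomial of odd degree keeps nonsquares nonsquare. -/
def S_A5 : Prop := ∀ F β : ℂ[X], F ≠ 0 → Odd β.natDegree → (OddR F).Nonempty →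
  (OddR (F.comp β)).Nonempty

/-- [A6] Composition with an affine map. -/
def S_A6 : Prop := ∀ (F : ℂ[X]) (L : AffM), F ≠ 0 →
  (∀ x, x ∈ OddR (F.comp L.pol) ↔ L.pol.eval x ∈ OddR F) ∧
  (OddR (F.comp L.pol)).card = (OddR F).card ∧ F.comp L.pol ≠ 0 ∧
  (F.comp L.pol).natDegree = F.natDegree

/-- [A7] Splitting off the square part of `∏ (β - y)`. -/
def S_A7 : Prop := ∀ (β : ℂ[X]) (Y : Finset ℂ), 0 < β.natDegree →
  ∃ E : ℂ[X], E.Monic ∧ E ∣ β.derivative ∧ (∀ x, E.eval x = 0 → β.eval x ∈ Y) ∧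
    (∏ y ∈ Y, (X - C y)).comp β = C (β.leadingCoeff ^ Y.card) *
      (∏ x ∈ OddR ((∏ y ∈ Y, (X - C y)).comp β), (X - C x)) * E ^ 2

/-- [A8] Completing the square. -/
def S_A8 : Prop := ∀ Y : Finset ℂ, Even Y.card → Y.Nonempty →
  ∃ A B : ℂ[X], A.Monic ∧ 2 * A.natDegree = Y.card ∧ B ≠ 0 ∧ B.natDegree < A.natDegree ∧
    (∏ y ∈ Y, (X - C y)) = A ^ 2 - B

/-- [A9] Comparison of two compositions. -/
def S_A9 : Prop := ∀ (β β₁ A A₁ B B₁ : ℂ[X]) (a : ℂ), 0 < β.natDegree →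
  β₁.natDegree = β.natDegree → A.Monic → A₁.Monic → A₁.natDegree = A.natDegree →
  B ≠ 0 → B₁ ≠ 0 → B.natDegree < A.natDegree → B₁.natDegree < A₁.natDegree → a ≠ 0 →
  (A.comp β) ^ 2 * B₁.comp β₁ = C a * (A₁.comp β₁) ^ 2 * B.comp β →
  ∃ c e : ℂ, β = C c * β₁ + C e

/-- [A10] The Pell argument (uses A8, A9). -/
def S_A10 : Prop := ∀ (β β₁ E E₁ : ℂ[X]) (Y Y₁ : Finset ℂ) (a : ℂ), 0 < β.natDegree →
  β₁.natDegree = β.natDegree → Y₁.card = Y.card → Even Y.card → Y.Nonempty → a ≠ 0 →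
  E.Monic → E₁.Monic → E.natDegree < β.natDegree → E₁.natDegree < β.natDegree →
  (∏ y ∈ Y, (X - C y)).comp β * E₁ ^ 2 = C a * (∏ y ∈ Y₁, (X - C y)).comp β₁ * E ^ 2 →
  ∃ c e : ℂ, β = C c * β₁ + C e

/-- [A11] The main nonexistence statement (uses A1 - A7, A10). -/
def S_A11 : Prop := ∀ (β β₁ F F₁ S : ℂ[X]), Odd β.natDegree → β₁.natDegree = β.natDegree →
  F ≠ 0 → F₁ ≠ 0 → Even (OddR F₁).card → (OddR F₁).Nonempty → F.comp β * F₁.comp β₁ = S ^ 2 →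
  ∃ c e : ℂ, β = C c * β₁ + C e

/-- [A12] The exceptional case (uses A1 - A7). -/
def S_A12 : Prop := ∀ (β D F S : ℂ[X]) (L : AffM), Odd β.natDegree → 3 ≤ β.natDegree →
  D ≠ 0 → F ≠ 0 → Even (OddR D).card → (OddR D).Nonempty →
  (∀ y ∈ OddR D, ∃ c, β.derivative.eval c = 0 ∧ β.eval c = y) →
  D.comp L.pol * F.comp β = S ^ 2 → ∃ G, D * F = G ^ 2

/-- [A13] Polynomials with an affine symmetry have at most one critical value. -/
def S_A13 : Prop := ∀ (β : ℂ[X]) (L : AffM) (c e : ℂ), L ≠ AffM.one →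
  β.comp L.pol = C c * β + C e → ∀ x y, β.derivative.eval x = 0 → β.derivative.eval y = 0 →
  β.eval x = β.eval y

/-- [A14] Finite sets invariant under an increasing affine map. -/
def S_A14 : Prop := ∀ (L : AffM) (O : Finset ℂ), 2 ≤ O.card → (∀ x ∈ O, L.pol.eval x ∈ O) →
  L = AffM.one

/-! ### B: fibres in an algebraically closed field -/

/-- [B1] Fibres. -/
def S_B1 : Prop := ∀ (K : Type) [Field K] [Algebra ℂ K] [IsAlgClosed K] (β : ℂ[X]) (t : K),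
  0 < β.natDegree → (∀ Y, Y ∈ Rt β t ↔ aeval Y β = t) ∧
  (Transcendental ℂ t → (Rt β t).card = β.natDegree)

/-- [B2] Transcendental elements. -/
def S_B2 : Prop := ∀ (K : Type) [Field K] [Algebra ℂ K] (β : ℂ[X]) (Y : K), 0 < β.natDegree →
  (Transcendental ℂ (aeval Y β) ↔ Transcendental ℂ Y)

/-- [B3] Norms. -/
def S_B3 : Prop := ∀ (K : Type) [Field K] [Algebra ℂ K] [IsAlgClosed K] (β P : ℂ[X]),
  0 < β.natDegree → P ≠ 0 → ∃ Ψ : ℂ[X], Ψ ≠ 0 ∧ Ψ.natDegree = P.natDegree ∧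
    ∀ t : K, Transcendental ℂ t → ∏ Y ∈ Rt β t, aeval Y P = aeval t Ψ

/-- [B4] A polynomial whose square root is rational is a square. -/
def S_B4 : Prop := ∀ (K : Type) [Field K] [Algebra ℂ K] (v θ : K) (F p q : ℂ[X]),
  Transcendental ℂ v → q ≠ 0 → θ * aeval v q = aeval v p → θ ^ 2 = aeval v F →
  ∃ G : ℂ[X], F = G ^ 2


/-! ### C: the group theoretic core -/

/-- [C1] A sign that is trivial on the stabiliser of a point of a fibre of odd size is trivial. -/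
def S_C1 : Prop := ∀ (K : Type) [Field K] [Algebra ℂ K] (A N : Subgroup (K ≃ₐ[ℂ] K))
  (R : Finset K) (x θ : K), N ≤ A → (∀ a ∈ A, ∀ n ∈ N, a * n * a⁻¹ ∈ N) → Odd R.card → x ∈ R →
  (∀ a ∈ A, ∀ y ∈ R, a y ∈ R) → (∀ y ∈ R, ∃ a ∈ A, a x = y) →
  (∀ n ∈ N, n θ = θ ∨ n θ = -θ) → (∀ n ∈ N, n x = x → n θ = θ) → ∀ n ∈ N, n θ = θ

/-- [C2] If the two signs differ on `H`, then the kernel of the action on the second fibre acts on
the first fibre like the whole stabiliser. -/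
def S_C2 : Prop := ∀ (K : Type) [Field K] [Algebra ℂ K] [IsAlgClosed K] (β D : ℂ[X]),
  Good K β D → ∀ (t z a b : K) (H N : Subgroup (K ≃ₐ[ℂ] K)), Transcendental ℂ t →
  Transcendental ℂ z → (∀ h ∈ H, h t = t ∧ h z = z) → Full β (H : Set _) t →
  Full β (H : Set _) z → a ^ 2 = aeval t D → b ^ 2 = aeval z D → (∃ g ∈ H, g (a * b) ≠ a * b) →
  (∀ n, n ∈ N ↔ n ∈ H ∧ ∀ Y, aeval Y β = z → n Y = Y) → Full β (N : Set _) t

/-- [C3] Transport of signs to all points of the fibre. -/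
def S_C3 : Prop := ∀ (K : Type) [Field K] [Algebra ℂ K] (F : ℂ[X])
  (H : Subgroup (K ≃ₐ[ℂ] K)) (R : Finset K) (v a b : K) (r : K → K), v ∈ R → Odd R.card →
  (∀ Y ∈ R, ∃ h ∈ H, h v = Y) → (∀ h ∈ H, h a = a ∨ h a = -a) → a ≠ 0 → b ≠ 0 →
  b ^ 2 = aeval v F → (∀ h ∈ H, h v = v → h (a * b) = a * b) → (∀ Y ∈ R, r Y ^ 2 = aeval Y F) →
  ∀ h ∈ H, (∀ Y ∈ R, h Y = Y) → h (b * ∏ Y ∈ R, r Y) = b * ∏ Y ∈ R, r Y

/-- [C4] The product of square roots over a fibre is fixed up to sign. -/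
def S_C4 : Prop := ∀ (K : Type) [Field K] [Algebra ℂ K] (F : ℂ[X]) (R : Finset K) (v b : K)
  (r : K → K) (g : K ≃ₐ[ℂ] K), b ^ 2 = aeval v F → (∀ Y ∈ R, r Y ^ 2 = aeval Y F) → g v = v →
  (∀ Y ∈ R, g Y ∈ R) → g (b * ∏ Y ∈ R, r Y) = b * ∏ Y ∈ R, r Y ∨
    g (b * ∏ Y ∈ R, r Y) = -(b * ∏ Y ∈ R, r Y)

/-- [C5] From an invariant product of square roots to a polynomial identity
(uses B1 - B4). -/
def S_C5 : Prop := ∀ (K : Type) [Field K] [Algebra ℂ K] [IsAlgClosed K] (β D : ℂ[X]),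
  Good K β D → ∀ (F : ℂ[X]) (v b : K) (r : K → K), F ≠ 0 → Transcendental ℂ v →
  b ^ 2 = aeval v F → (∀ Y ∈ Rt β (aeval v β), r Y ^ 2 = aeval Y F) →
  (∀ g : K ≃ₐ[ℂ] K, (∀ Y ∈ Rt β (aeval v β), g Y = Y) →
    g (b * ∏ Y ∈ Rt β (aeval v β), r Y) = b * ∏ Y ∈ Rt β (aeval v β), r Y) →
  ∃ Φ G : ℂ[X], Φ ≠ 0 ∧ F * Φ.comp β = G ^ 2

/-- [C6] The start of the induction. -/
def S_C6 : Prop := ∀ (K : Type) [Field K] [Algebra ℂ K] (β D : ℂ[X]),
  Good K β D → ∀ (L : AffM) (t a b : K), L ≠ AffM.one → Transcendental ℂ t →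
  a ^ 2 = aeval t D → b ^ 2 = aeval (L.ap t) D → ∃ g : K ≃ₐ[ℂ] K, g t = t ∧ g (a * b) ≠ a * b

/-- [C7] The exceptional case: signs (uses B4 or not). If `D(L v) Φ(β v)` and `D Φ` are squares then
the product of the square roots of `D(L v)` and `D(β v)` is fixed by the stabiliser of `v`. -/
def S_C7 : Prop := ∀ (K : Type) [Field K] [Algebra ℂ K] (β D Φ G G' : ℂ[X]) (L : AffM)
  (v b c : K), 0 < β.natDegree → Φ ≠ 0 → Transcendental ℂ v → D.comp L.pol * Φ.comp β = G ^ 2 →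
  D * Φ = G' ^ 2 → b ^ 2 = aeval (L.ap v) D → c ^ 2 = aeval (aeval v β) D →
  ∀ g : K ≃ₐ[ℂ] K, g v = v → g (b * c) = b * c

/-! ### G: symmetric groups and discriminants -/

/-- The polynomial `∏ (X - β c)` over the critical points `c` of `β`. -/
noncomputable def discP (β : ℂ[X]) : ℂ[X] :=
  (β.derivative.roots.map (fun c => X - C (β.eval c))).prod

/-- The field property. -/
def FieldProp (K : Type) [Field K] [Algebra ℂ K] : Prop :=
  ∀ t θ : K, Transcendental ℂ t → (∀ g : K ≃ₐ[ℂ] K, g t = t → g θ = θ) →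
    ∃ p q : ℂ[X], q ≠ 0 ∧ θ * aeval t q = aeval t p

/-- All permutations of the fibres are induced by automorphisms. -/
def FullSym (K : Type) [Field K] [Algebra ℂ K] (β : ℂ[X]) : Prop :=
  ∀ t : K, Transcendental ℂ t → ∀ r : Fin β.natDegree → K, Function.Injective r →
    (∀ i, aeval (r i) β = t) → ∀ σ : Equiv.Perm (Fin β.natDegree),
    ∃ g : K ≃ₐ[ℂ] K, g t = t ∧ ∀ i, g (r i) = r (σ i)

/-- [G1] The discriminant. -/
def S_G1 : Prop := ∀ (K : Type) [Field K] [Algebra ℂ K] [IsAlgClosed K] (β : ℂ[X]) (t : K)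
  (r : Fin β.natDegree → K), 0 < β.natDegree → Transcendental ℂ t → Function.Injective r →
  (∀ i, aeval (r i) β = t) → ∃ κ : ℂ, κ ≠ 0 ∧
    (Matrix.vandermonde r).det ^ 2 = algebraMap ℂ K κ * aeval t (discP β)

/-- [G2] The sign of a permutation and the Vandermonde determinant. -/
def S_G2 : Prop := ∀ (K : Type) [Field K] [Algebra ℂ K] (n : ℕ) (r : Fin n → K)
  (σ : Equiv.Perm (Fin n)) (g : K ≃ₐ[ℂ] K), (∀ i, g (r i) = r (σ i)) →
  g (Matrix.vandermonde r).det = ((Equiv.Perm.sign σ : ℤ) : K) * (Matrix.vandermonde r).det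

/-- [G3] The sign of a permutation and the square root of the discriminant
(uses G1, G2). -/
def S_G3 : Prop := ∀ (K : Type) [Field K] [Algebra ℂ K] [IsAlgClosed K] (β : ℂ[X]) (t s : K)
  (r : Fin β.natDegree → K) (σ : Equiv.Perm (Fin β.natDegree)) (g : K ≃ₐ[ℂ] K),
  0 < β.natDegree → Transcendental ℂ t → Function.Injective r → (∀ i, aeval (r i) β = t) →
  (∀ i, g (r i) = r (σ i)) → s ^ 2 = aeval t (discP β) →
  g s = ((Equiv.Perm.sign σ : ℤ) : K) * s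

/-- [G4] Normal subgroups of symmetric groups of odd degree. -/
def S_G4 : Prop := ∀ (n : ℕ), Odd n → 3 ≤ n → ∀ N : Subgroup (Equiv.Perm (Fin n)), N.Normal →
  (∃ σ ∈ N, Equiv.Perm.sign σ = -1) → N = ⊤

/-- [G5] Characters of point stabilisers. -/
def S_G5 : Prop := ∀ (n : ℕ) (x : Fin n) (χ : Equiv.Perm (Fin n) → ℤˣ),
  (∀ σ τ : Equiv.Perm (Fin n), σ x = x → τ x = x → χ (σ * τ) = χ σ * χ τ) →
  (∀ σ : Equiv.Perm (Fin n), σ x = x → χ σ = 1) ∨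
    (∀ σ : Equiv.Perm (Fin n), σ x = x → χ σ = Equiv.Perm.sign σ)

/-- [G6a] The normal subgroup property (uses B1, G3, G4). -/
def S_G6a : Prop := ∀ (K : Type) [Field K] [Algebra ℂ K] [IsAlgClosed K] (β : ℂ[X]),
  FullSym K β → Odd β.natDegree → 3 ≤ β.natDegree →
  ∀ t r : K, Transcendental ℂ t → r ^ 2 = aeval t (discP β) → ∀ H N : Subgroup (K ≃ₐ[ℂ] K),
    N ≤ H → (∀ h ∈ H, h t = t) → (∀ h ∈ H, ∀ n ∈ N, h * n * h⁻¹ ∈ N) → Full β (H : Set _) t →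
    (∃ n ∈ N, n r ≠ r) → Full β (N : Set _) t

/-- [G6b] The point stabiliser property (uses B1, G3, G5). -/
def S_G6b : Prop := ∀ (K : Type) [Field K] [Algebra ℂ K] [IsAlgClosed K] (β : ℂ[X]),
  FullSym K β → 3 ≤ β.natDegree →
  ∀ v r : K, Transcendental ℂ (aeval v β) → r ^ 2 = aeval (aeval v β) (discP β) → ∀ θ : K,
    (∀ g : K ≃ₐ[ℂ] K, g v = v → g θ = θ ∨ g θ = -θ) →
    (∀ g : K ≃ₐ[ℂ] K, (∀ Y : K, aeval Y β = aeval v β → g Y = Y) → g θ = θ) →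
    (∀ g : K ≃ₐ[ℂ] K, g v = v → g θ = θ) ∨ (∀ g : K ≃ₐ[ℂ] K, g v = v → g (θ * r) = θ * r)

/-- [G6] Polynomials with symmetric monodromy group are good (uses B1, B2, B4, A1, A3, G3, G6a,
G6b). -/
def S_G6 : Prop := ∀ (K : Type) [Field K] [Algebra ℂ K] [IsAlgClosed K] (β : ℂ[X]),
  (∃ t : K, Transcendental ℂ t) → FieldProp K → FullSym K β → Odd β.natDegree →
  3 ≤ β.natDegree → Good K β (discP β)

/-! ### I: the field -/

/-- The algebraic closure of the field of rational functions. -/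
abbrev KK : Type := AlgebraicClosure (RatFunc ℂ)

/-- [I1] The field property of `KK`. -/
def S_I1 : Prop := FieldProp KK

/-- [I2] Homogeneity of `KK`. -/
def S_I2 : Prop := ∀ t t' : KK, Transcendental ℂ t → Transcendental ℂ t' →
  ∃ g : KK ≃ₐ[ℂ] KK, g t = t'

/-- The Galois group of `β(Y) - X` over `ℂ(X)`. -/
abbrev MonGrp (β : ℂ[X]) : Type :=
  (β.map (algebraMap ℂ (RatFunc ℂ)) - C (RatFunc.X : RatFunc ℂ)).Gal

/-- [I3] The symmetric Galois group acts on all fibres (uses I2). -/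
def S_I3 : Prop := ∀ β : ℂ[X], 0 < β.natDegree →
  Nat.card (MonGrp β) = β.natDegree.factorial → FullSym KK β

/-! ### H: Chebyshev polynomials -/

/-- [H1] Critical values. -/
def S_H1 : Prop := ∀ n : ℕ, Odd n → 3 ≤ n →
  (∃ c, (Polynomial.Chebyshev.T ℂ n).derivative.eval c = 0 ∧
    (Polynomial.Chebyshev.T ℂ n).eval c = 1) ∧
  (∃ c, (Polynomial.Chebyshev.T ℂ n).derivative.eval c = 0 ∧
    (Polynomial.Chebyshev.T ℂ n).eval c = -1)

/-- The data of H2. -/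
def ChebData (K : Type) [Field K] [Algebra ℂ K] (n : ℕ) (t w : K) : Prop :=
  w ≠ 0 ∧ Transcendental ℂ w ∧ w ^ n + (w ^ n)⁻¹ = 2 * t ∧
    ∀ Y : K, aeval Y (Polynomial.Chebyshev.T ℂ n) = t ↔
      ∃ ζ : ℂ, ζ ^ n = 1 ∧ 2 * Y = algebraMap ℂ K ζ * w + (algebraMap ℂ K ζ * w)⁻¹

/-- [H2] The fibres. -/
def S_H2 : Prop := ∀ (K : Type) [Field K] [Algebra ℂ K] [IsAlgClosed K] (n : ℕ) (t : K),
  0 < n → Transcendental ℂ t → ∃ w : K, ChebData K n t w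

/-- [H3] The action of an automorphism on `w`. -/
def S_H3 : Prop := ∀ (K : Type) [Field K] [Algebra ℂ K] (n : ℕ) (t w : K),
  0 < n → ChebData K n t w → ∀ g : K ≃ₐ[ℂ] K, g t = t →
    ∃ ζ : ℂ, ζ ^ n = 1 ∧ (g w = algebraMap ℂ K ζ * w ∨ g w = (algebraMap ℂ K ζ * w)⁻¹)

/-- [H4] An automorphism fixing one point of the fibre of `t` and acting on `w` as a rotation
fixes `w`; one that acts as a reflection moves a point of the fibre. -/
def S_H4 : Prop := ∀ (K : Type) [Field K] [Algebra ℂ K] (n : ℕ) (t w : K),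
  Odd n → 3 ≤ n → ChebData K n t w → ∀ (g : K ≃ₐ[ℂ] K) (ζ : ℂ), ζ ^ n = 1 → g t = t →
    (g w = algebraMap ℂ K ζ * w → (∃ Y : K, aeval Y (Polynomial.Chebyshev.T ℂ n) = t ∧ g Y = Y) →
      g w = w) ∧
    (g w = (algebraMap ℂ K ζ * w)⁻¹ →
      ∃ Y : K, aeval Y (Polynomial.Chebyshev.T ℂ n) = t ∧ g Y ≠ Y)

/-- [H5] Square roots of `t ^ 2 - 1`. -/
def S_H5 : Prop := ∀ (K : Type) [Field K] [Algebra ℂ K] (n : ℕ) (t w r : K),
  0 < n → ChebData K n t w → r ^ 2 = aeval t (X ^ 2 - 1 : ℂ[X]) →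
    ∀ (g : K ≃ₐ[ℂ] K) (ζ : ℂ), ζ ^ n = 1 →
      (g w = algebraMap ℂ K ζ * w → g r = r) ∧ (g w = (algebraMap ℂ K ζ * w)⁻¹ → g r = -r)

/-- [H6] The normal subgroup property (uses H2 - H5). -/
def S_H6 : Prop := ∀ (K : Type) [Field K] [Algebra ℂ K] [IsAlgClosed K] (n : ℕ),
  (∀ t t' : K, Transcendental ℂ t → Transcendental ℂ t' → ∃ g : K ≃ₐ[ℂ] K, g t = t') →
  Odd n → 3 ≤ n → ∀ t r : K, Transcendental ℂ t → r ^ 2 = aeval t (X ^ 2 - 1 : ℂ[X]) →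
    ∀ H N : Subgroup (K ≃ₐ[ℂ] K), N ≤ H → (∀ h ∈ H, h t = t) → (∀ h ∈ H, ∀ n ∈ N, h * n * h⁻¹ ∈ N) →
    Full (Polynomial.Chebyshev.T ℂ n) (H : Set _) t → (∃ n ∈ N, n r ≠ r) →
    Full (Polynomial.Chebyshev.T ℂ n) (N : Set _) t

/-- [H7] Chebyshev polynomials of odd degree are good (uses H1 - H6, B1, B2). -/
def S_H7 : Prop := ∀ (K : Type) [Field K] [Algebra ℂ K] [IsAlgClosed K] (n : ℕ),
  FieldProp K → (∀ t t' : K, Transcendental ℂ t → Transcendental ℂ t' →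
    ∃ g : K ≃ₐ[ℂ] K, g t = t') → Odd n → 3 ≤ n →
  Good K (Polynomial.Chebyshev.T ℂ n) (X ^ 2 - 1)

/-! ### J: indecomposable polynomials with a simple critical value -/

/-- [J1a] Hensel: the number of roots in the field of Laurent series. -/
def S_J1a : Prop := ∀ (β : ℂ[X]) (v : ℂ), 2 ≤ β.natDegree →
  {x : ℂ | β.eval x = v}.ncard = β.natDegree - 1 →
  {Y : LaurentSeries ℂ | aeval Y β = algebraMap ℂ (LaurentSeries ℂ) v +
    algebraMap (PowerSeries ℂ) (LaurentSeries ℂ) PowerSeries.X}.ncard = β.natDegree - 2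

/-- [J1b] All roots but two are rational: a transposition. -/
def S_J1b : Prop := ∀ (M : Type) [Field M] [Algebra ℂ M] (β : ℂ[X]) (t : M), 2 ≤ β.natDegree →
  Transcendental ℂ t → {Y : M | aeval Y β = t}.ncard = β.natDegree - 2 →
  ∃ (g : AlgebraicClosure M ≃ₐ[ℂ] AlgebraicClosure M) (Y Y' : AlgebraicClosure M),
    g (algebraMap M (AlgebraicClosure M) t) = algebraMap M (AlgebraicClosure M) t ∧ Y ≠ Y' ∧
    aeval Y β = algebraMap M (AlgebraicClosure M) t ∧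
    aeval Y' β = algebraMap M (AlgebraicClosure M) t ∧ g Y = Y' ∧ g Y' = Y ∧
    ∀ Z : AlgebraicClosure M, aeval Z β = algebraMap M (AlgebraicClosure M) t → Z ≠ Y → Z ≠ Y' →
      g Z = Z

/-- [J1c] Transfer of an automorphism to `KK`. -/
def S_J1c : Prop := ∀ (Ω : Type) [Field Ω] [Algebra ℂ Ω] [IsAlgClosed Ω] (t₀ : Ω)
  (g : Ω ≃ₐ[ℂ] Ω), Transcendental ℂ t₀ → g t₀ = t₀ →
  ∃ (t : KK) (g' : KK ≃ₐ[ℂ] KK) (φ : Ω → KK), Transcendental ℂ t ∧ g' t = t ∧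
    ∀ β : ℂ[X], 0 < β.natDegree →
      (∀ Y, aeval Y β = t₀ → aeval (φ Y) β = t ∧ g' (φ Y) = φ (g Y)) ∧
      (∀ Z : KK, aeval Z β = t → ∃ Y, aeval Y β = t₀ ∧ φ Y = Z) ∧
      (∀ Y Y', aeval Y β = t₀ → aeval Y' β = t₀ → φ Y = φ Y' → Y = Y')

/-- [J1] A fibre over `ℂ` with exactly one double point gives a transposition
(uses J1a, J1b, J1c). -/
def S_J1 : Prop := ∀ (β : ℂ[X]) (v : ℂ), 2 ≤ β.natDegree →
  {x : ℂ | β.eval x = v}.ncard = β.natDegree - 1 →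
  ∃ (t : KK) (g : KK ≃ₐ[ℂ] KK) (Y Y' : KK), Transcendental ℂ t ∧ g t = t ∧ Y ≠ Y' ∧
    aeval Y β = t ∧ aeval Y' β = t ∧ g Y = Y' ∧ g Y' = Y ∧
    ∀ Z : KK, aeval Z β = t → Z ≠ Y → Z ≠ Y' → g Z = Z

/-- A system of blocks of size `m` on the fibre of `t`. -/
def Blocks (K : Type) [Field K] [Algebra ℂ K] (β : ℂ[X]) (t : K) (m : ℕ) (blk : K → Finset K) :
    Prop :=
  (∀ Y ∈ Rt β t, Y ∈ blk Y ∧ blk Y ⊆ Rt β t ∧ (blk Y).card = m) ∧
  (∀ Y ∈ Rt β t, ∀ Y' ∈ blk Y, blk Y' = blk Y) ∧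
  (∀ g : K ≃ₐ[ℂ] K, g t = t → ∀ Y ∈ Rt β t, ∀ Z, Z ∈ blk Y ↔ g Z ∈ blk (g Y))

/-- [J2a] A block generates a system of blocks (uses B1). -/
def S_J2a : Prop := ∀ (K : Type) [Field K] [Algebra ℂ K] [IsAlgClosed K] (β : ℂ[X]) (t : K)
  (B : Set K), 0 < β.natDegree → Transcendental ℂ t →
  (∀ Y Y', aeval Y β = t → aeval Y' β = t → ∃ g : K ≃ₐ[ℂ] K, g t = t ∧ g Y = Y') →
  B ⊆ {Y | aeval Y β = t} → B.Nonempty →
  (∀ g : K ≃ₐ[ℂ] K, g t = t → g '' B = B ∨ Disjoint (g '' B) B) →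
  ∃ blk : K → Finset K, Blocks K β t B.ncard blk ∧ ∀ Y ∈ B, (blk Y : Set K) = B

/-- [J2b] A product over a fibre of a function which is constant on the blocks is a power. -/
def S_J2b : Prop := ∀ (K : Type) [Field K] [Algebra ℂ K] [IsAlgClosed K] (β : ℂ[X]) (t : K)
  (m : ℕ) (blk : K → Finset K) (f : K → K), Blocks K β t m blk →
  (∀ Y ∈ Rt β t, ∀ Y' ∈ blk Y, f Y' = f Y) →
  ∃ G : K, ∏ Y ∈ Rt β t, f Y = G ^ m ∧
    ∀ g : K ≃ₐ[ℂ] K, g t = t → (∀ Y ∈ Rt β t, g Y ∈ Rt β t) →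
      (∀ Y ∈ Rt β t, f (g Y) = g (f Y)) → g G = G

/-- [J2c] Integral rational functions are polynomials. -/
def S_J2c : Prop := ∀ (K : Type) [Field K] [Algebra ℂ K] (Y e : K) (p q : ℂ[X]),
  Transcendental ℂ Y → q ≠ 0 → e * aeval Y q = aeval Y p → IsIntegral (Algebra.adjoin ℂ {Y}) e →
  ∃ h : ℂ[X], e = aeval Y h

/-- [J2d] If all blocks of a system have size `m`, then `m` divides the degree of each polynomial
which is constant on the blocks, and some polynomial of degree `m` is constant on the blocks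
(uses I1, I2, B1 - B3, J2b, J2c). -/
def S_J2d : Prop := ∀ (β : ℂ[X]) (t : KK) (m : ℕ) (blk : KK → Finset KK), 0 < β.natDegree →
  Transcendental ℂ t → Blocks KK β t m blk →
  (∀ f : ℂ[X], f ≠ 0 → (∀ Y ∈ Rt β t, ∀ Y' ∈ blk Y, aeval Y' f = aeval Y f) → m ∣ f.natDegree) ∧
  ∃ h : ℂ[X], h.natDegree = m ∧ ∀ Y ∈ Rt β t, ∀ Y' ∈ blk Y, aeval Y' h = aeval Y h

/-- [J2] Blocks: if `β` is not a composition of two polynomials of degree at least two, then the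
fibres have no nontrivial blocks (uses B1, B2, I2, J2a, J2d). -/
def S_J2 : Prop := ∀ (β : ℂ[X]), 2 ≤ β.natDegree →
  (∀ g h : ℂ[X], β = g.comp h → g.natDegree ≤ 1 ∨ h.natDegree ≤ 1) →
  ∀ (t : KK) (B : Set KK), Transcendental ℂ t → B ⊆ {Y | aeval Y β = t} →
    (∀ g : KK ≃ₐ[ℂ] KK, g t = t → g '' B = B ∨ Disjoint (g '' B) B) →
    B.Subsingleton ∨ B = {Y | aeval Y β = t}

/-- [J3] Jordan: transitive, no blocks, a transposition (uses I2, J1, J2, B1). -/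
def S_J3 : Prop := ∀ (β : ℂ[X]) (v : ℂ), 3 ≤ β.natDegree →
  (∀ g h : ℂ[X], β = g.comp h → g.natDegree ≤ 1 ∨ h.natDegree ≤ 1) →
  {x : ℂ | β.eval x = v}.ncard = β.natDegree - 1 → FullSym KK β

end MP52poly
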