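import Pool.Agent.Lib.MP_52aaf2_al.Poly.PStm
import Pool.Agent.Lib.MP_52aaf2_al.Defs
import Pool.Agent.Lib.MP_52aaf2_al.Amalgam

/-! Statements of the pieces about germs and words. -/

open Polynomial Filter

namespace MP52poly

open MP52aaf2 (GermGroup germ NF)

/-- The homeomorphism of `ℝ` given by an increasing affine map. -/
noncomputable def AffM.oi (L : AffM) : ℝ ≃o ℝ where
  toFun x := L.a * x + L.b
  invFun x := (x - L.b) / L.a
  left_inv x := by
    have := L.pos.ne'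
    field_simp
    ring
  right_inv x := by
    have := L.pos.ne'
    field_simp
    ring
  map_rel_iff' {x y} := by
    change L.a * x + L.b ≤ L.a * y + L.b ↔ x ≤ y
    constructor
    · intro h
      exact le_of_mul_le_mul_left (by linarith) L.pos
    · intro h
      have := mul_le_mul_of_nonneg_left h L.pos.le
      linarith

theorem AffM.oi_apply (L : AffM) (x : ℝ) : L.oi x = L.a * x + L.b := rfl

/-- The affine germs. -/
noncomputable def AffG : Subgroup GermGroup where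
  carrier := {g | ∃ L : AffM, g = germ L.oi}
  mul_mem' := by
    rintro _ _ ⟨L, rfl⟩ ⟨M, rfl⟩
    refine ⟨L.comp M, ?_⟩
    rw [MP52aaf2.germ_mul]
    congr 1
    ext x
    change L.a * (M.a * x + M.b) + L.b = L.a * M.a * x + (L.a * M.b + L.b)
    ring
  one_mem' := by
    refine ⟨AffM.one, ?_⟩
    rw [← MP52aaf2.germ_one]
    congr 1
    ext x
    change x = 1 * x + 0
    ring
  inv_mem' := by
    rintro _ ⟨L, rfl⟩
    refine ⟨L.inv, ?_⟩
    rw [MP52aaf2.germ_inv]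
    congr 1
    ext x
    change (x - L.b) / L.a = L.a⁻¹ * x + -(L.b / L.a)
    have := L.pos.ne'
    field_simp
    ring

/-- Words: `wp b ε l 0 = l 0`, `wp b ε l (k+1) = l (k+1) * b ^ (± 1) * wp b ε l k`. -/
def wp {G : Type} [Group G] (b : G) (ε : ℕ → Bool) (l : ℕ → G) : ℕ → G
  | 0 => l 0
  | k + 1 => l (k + 1) * (bif ε k then b else b⁻¹) * wp b ε l k

/-- The word of length `k` is reduced. -/
def WRed {G : Type} [Group G] (ε : ℕ → Bool) (l : ℕ → G) (k : ℕ) : Prop :=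
  ∀ i, i + 1 < k → ε i ≠ ε (i + 1) → l (i + 1) ≠ 1

/-- The two subgroups `A` and `⟨b⟩`. -/
def HH2 {G : Type} [Group G] (A : Subgroup G) (b : G) : Bool → Subgroup G :=
  fun i => bif i then Subgroup.zpowers b else A

/-- [K1] It suffices to consider words whose last letter is `b⁻¹`. -/
def S_K1 : Prop := ∀ (G : Type) [Group G] (A : Subgroup G) (b : G),
  (∀ (k : ℕ) (ε : ℕ → Bool) (l : ℕ → G), (∀ i, l i ∈ A) → WRed ε l (k + 1) → ε k = false →
    wp b ε l (k + 1) ≠ 1) →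
  ∀ (k : ℕ) (ε : ℕ → Bool) (l : ℕ → G), (∀ i, l i ∈ A) → WRed ε l (k + 1) → wp b ε l (k + 1) ≠ 1

/-- [K2] From words to the normal form hypothesis. -/
def S_K2 : Prop := ∀ (G : Type) [Group G] (A : Subgroup G) (b : G),
  (∀ (k : ℕ) (ε : ℕ → Bool) (l : ℕ → G), (∀ i, l i ∈ A) → WRed ε l (k + 1) →
    wp b ε l (k + 1) ≠ 1) →
  NF (HH2 A b) ∧ ∀ m : ℤ, m ≠ 0 → b ^ m ∉ A

/-- [K3] A relation between germs gives a closed path in some field. -/
def S_K3 : Prop := ∀ (β : ℝ[X]) (f : ℝ ≃o ℝ), 0 < β.natDegree →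
  (∀ᶠ x in atTop, f x = β.eval x) → ∀ (k : ℕ) (ε : ℕ → Bool) (L : ℕ → AffM),
  (∀ i, i + 1 < k → ε i ≠ ε (i + 1) → L (i + 1) ≠ AffM.one) →
  wp (germ f) ε (fun i => germ (L i).oi) k = 1 →
  ∃ (F : Type) (_ : Field F) (_ : Algebra ℂ F) (x : ℕ → F),
    Path (β.map (algebraMap ℝ ℂ)) k x ε L ∧ (L k).ap (x k) = x 0

/-- [K4] Paths can be moved to the field `KK`. -/
def S_K4 : Prop := ∀ (F : Type) [Field F] [Algebra ℂ F] (β : ℂ[X]) (k : ℕ) (x : ℕ → F)
  (ε : ℕ → Bool) (L : ℕ → AffM), 0 < β.natDegree → Path β k x ε L → (L k).ap (x k) = x 0 →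
  ∃ w : ℕ → KK, Path β k w ε L ∧ (L k).ap (w k) = w 0

/-- [K5] The core: the last point of a path ending with a root step is moved by an automorphism
fixing all other points. -/
def S_core : Prop := ∀ (K : Type) [Field K] [Algebra ℂ K] [IsAlgClosed K] (β D : ℂ[X]),
  Good K β D → ∀ (k : ℕ) (w : ℕ → K) (ε : ℕ → Bool) (L : ℕ → AffM), Path β (k + 1) w ε L →
  ε k = false → ∃ g : K ≃ₐ[ℂ] K, (∀ j ≤ k, g (w j) = w j) ∧ g (w (k + 1)) ≠ w (k + 1)

end MP52poly
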